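import Mathlib

/-!
# Search for planar gluings of the circles around few triple points: the algorithm

The half-edges (darts) are numbers below 36: `12 i + 4 k + j` is the `j`-th dart of the circle in the
top (`k = 0`), middle (`k = 1`) or bottom (`k = 2`) sheet around the `i`-th triple point. The names of
the double curves at the triple points are `6 i + n` (`n = 0, …, 5`: `a₁, a₂, b₁, b₂, c₁, c₂`).
A state is a list of components, each of which is a list of faces, each of which is a cyclic word in
the darts not yet glued; 64 is added to darts which are leaves. The functions are written in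
continuation passing style with recursors in order to be evaluated by the kernel.
-/

namespace Pool.Agent.L0h30.TT

noncomputable section

/-- evaluates `v` -/
def frc {α : Type} (v : ℕ) (k : ℕ → α) : α :=
  Nat.rec (motive := fun _ => α) (k 0) (fun n _ => k n) (Nat.succ v)

def cutK (x : ℕ) (l : List ℕ) (n : Bool) (k : List ℕ → List ℕ → Bool) : Bool :=
  List.rec (motive := fun _ => (List ℕ → List ℕ → Bool) → Bool) (fun _ => n)
    (fun a l ih k => Bool.rec (ih (fun p q => k (a :: p) q)) (k [] l) (Nat.beq a x)) l k

def appK {α : Type} (q p : List α) (k : List α → Bool) : Bool :=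
  List.rec (motive := fun _ => (List α → Bool) → Bool) (fun k => k p)
    (fun a _ ih k => ih (fun r => k (a :: r))) q k

def cutC (x : ℕ) (K : List (List ℕ)) (n : Bool) (k : List (List ℕ) → List ℕ → Bool) : Bool :=
  List.rec (motive := fun _ => (List (List ℕ) → List ℕ → Bool) → Bool) (fun _ => n)
    (fun F K ih k => cutK x F (ih (fun K' A => k (F :: K') A)) (fun p q => appK q p (fun A => k K A))) K k

def cutS (x : ℕ) (S : List (List (List ℕ))) (n : Bool)
    (k : List (List (List ℕ)) → List (List ℕ) → List ℕ → Bool) : Bool :=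
  List.rec (motive := fun _ => (List (List (List ℕ)) → List (List ℕ) → List ℕ → Bool) → Bool)
    (fun _ => n)
    (fun K S ih k => cutC x K (ih (fun S' K' A => k (K :: S') K' A)) (fun K' A => k S K' A)) S k

/-- the word contains a leaf -/
def hl (F : List ℕ) : Bool :=
  List.rec (motive := fun _ => Bool) false (fun a _ ih => Bool.rec ih true (Nat.ble 64 a)) F

def anyl (K : List (List ℕ)) : Bool :=
  List.rec (motive := fun _ => Bool) false (fun F _ ih => Bool.rec ih true (hl F)) K

/-- at most one face has leaves -/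
def nl1 (K : List (List ℕ)) : Bool :=
  List.rec (motive := fun _ => Bool) true
    (fun F K ih => Bool.rec ih (Bool.rec true false (anyl K)) (hl F)) K

def pos (d : ℕ) : Bool :=
  Nat.beq (Nat.mod (Nat.div 3219 (Nat.pow 2 (Nat.mod (Nat.mod d 64) 12))) 2) 1

def bal (F : List ℕ) (p q : ℕ) : Bool :=
  List.rec (motive := fun _ => ℕ → ℕ → Bool) (fun p q => Nat.beq p q)
    (fun a _ ih p q => Bool.rec (ih p (Nat.succ q)) (ih (Nat.succ p) q) (pos a)) F p q

def consK (A : List ℕ) (K : List (List ℕ)) (k : List (List ℕ) → Bool) : Bool :=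
  List.rec (motive := fun _ => Bool) (k K) (fun _ _ _ => k (A :: K)) A

def split2 (A1 A2 : List ℕ) (K : List (List ℕ)) (S' : List (List (List ℕ)))
    (k : List (List (List ℕ)) → Bool) : Bool :=
  consK A2 K fun K => consK A1 K fun K => k (K :: S')

def merge2 (A B : List ℕ) (K K' : List (List ℕ)) (S'' : List (List (List ℕ))) (n : Bool)
    (k : List (List (List ℕ)) → Bool) : Bool :=
  appK A B fun A' => appK K K' fun K'' => Bool.rec n (k ((A' :: K'') :: S'')) (nl1 (A' :: K''))

/-- the first dart of the face `x :: A` of the component `(x :: A) :: K` is joined to `y` -/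
def join2 (y : ℕ) (S' : List (List (List ℕ))) (K : List (List ℕ)) (A : List ℕ) (n : Bool)
    (k : List (List (List ℕ)) → Bool) : Bool :=
  cutK y A (cutS y S' n fun S'' K' B => merge2 A B K K' S'' n k)
    fun A1 A2 => Bool.rec n
      (Bool.rec (split2 A1 A2 K S' k) (Bool.rec (split2 A1 A2 K S' k) n (hl A2)) (hl A1))
      (bal A1 0 0)

def join (x y : ℕ) (S : List (List (List ℕ))) (n : Bool)
    (k : List (List (List ℕ)) → Bool) : Bool :=
  cutS x S n fun S' K A => join2 y S' K A n k

def mark (x : ℕ) (S : List (List (List ℕ))) (n : Bool)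
    (k : List (List (List ℕ)) → Bool) : Bool :=
  cutS x S n fun S' K A =>
    Bool.rec (frc (Nat.add x 64) fun y => k (((y :: A) :: K) :: S')) n (anyl K)

/-- the `i`-th digit -/
def dig (m i : ℕ) : ℕ := Nat.land (Nat.shiftRight m (Nat.mul 7 i)) 127

def put (m i v : ℕ) : ℕ := Nat.lor m (Nat.shiftLeft v (Nat.mul 7 i))

def tab (T d : ℕ) : ℕ := Nat.land (Nat.shiftRight T (Nat.mul 6 d)) 63

/-- the dart of the upper sheet with a given name -/
def ov (N : ℕ) : ℕ := tab 144383933259565263916126011662403 N

/-- the dart of the lower sheet with a given name -/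
def un (N : ℕ) : ℕ := tab 164994572287060794437561028489543 N

/-- the name of a dart -/
def nm (d : ℕ) : ℕ := tab 23454573872016882988319589684255668441438776936815321575885643843 d

/-- the other dart with the same name -/
def mt (d : ℕ) : ℕ := tab 43564268839577748360132846449986066888874109734689720077725249865 d

/-- the triple point has the positive orientation -/
def ori (δ i : ℕ) : Bool := Nat.beq (Nat.mod (Nat.shiftRight δ i) 2) 1

/-- the next dart of the circle -/
def nx (δ d : ℕ) : ℕ :=
  Bool.rec (Nat.add (Nat.mul 4 (Nat.div d 4)) (Nat.mod (Nat.add d 3) 4))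
    (Nat.add (Nat.mul 4 (Nat.div d 4)) (Nat.mod (Nat.add d 1) 4)) (ori δ (Nat.div d 12))

/-- the previous dart of the circle -/
def pv (δ d : ℕ) : ℕ :=
  Bool.rec (Nat.add (Nat.mul 4 (Nat.div d 4)) (Nat.mod (Nat.add d 1) 4))
    (Nat.add (Nat.mul 4 (Nat.div d 4)) (Nat.mod (Nat.add d 3) 4)) (ori δ (Nat.div d 12))

/-- is there a second edge forming a bigon with the edge from `x` to `y`? (Digits: 0 for names not
yet decided, 99 for leaves, otherwise the partner plus 1.) -/
def big (δ m x y : ℕ) : Bool :=
  Bool.rec (Nat.beq (dig m (nm (pv δ x))) (Nat.succ (nm (nx δ y)))) true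
    (Nat.beq (dig m (nm (nx δ x))) (Nat.succ (nm (pv δ y))))

def letter (N : ℕ) : ℕ := Nat.div (Nat.mod N 6) 2

def big2 (δ m N o : ℕ) : Bool :=
  Bool.rec false (Bool.rec (big δ m (un N) (un o)) true (big δ m (ov N) (ov o)))
    (Nat.beq (letter N) (letter o))

def partner (δ m N o : ℕ) (S' : List (List (List ℕ))) (K : List (List ℕ)) (A : List ℕ) (n : Bool)
    (k : ℕ → List (List (List ℕ)) → Bool) : Bool :=
  frc (ov o) fun y => join2 y S' K A n fun S => frc (un N) fun x => frc (un o) fun y =>
    join x y S n fun S =>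
      Bool.rec (frc (put (put m N (Nat.succ o)) o (Nat.succ N)) fun m => k m S) n (big2 δ m N o)

def okp (N g : ℕ) : Bool :=
  Bool.rec true (Bool.rec (Nat.beq (Nat.add (letter N) (letter g)) 2) true
    (Nat.beq (letter N) (letter g))) (Nat.beq (Nat.div N 6) (Nat.div g 6))

def cand (m N g : ℕ) : Bool :=
  Bool.rec false (Bool.rec (okp N g) false (Nat.beq (Nat.mod (Nat.add g N) 2) 0))
    (Nat.beq (dig m g) 0)

def cont (x : ℕ) (F : List ℕ) : Bool :=
  List.rec (motive := fun _ => Bool) false (fun a _ ih => Bool.rec ih true (Nat.beq a x)) F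

/-- the leaf `a` is followed by a leaf on its circle -/
def cor (δ : ℕ) (F : List ℕ) (a : ℕ) : Bool :=
  Bool.rec false (frc (Nat.add (nx δ (Nat.sub a 64)) 64) fun y => cont y F) (Nat.ble 64 a)

def jn (δ : ℕ) (F G : List ℕ) (b : ℕ) : ℕ :=
  List.rec (motive := fun _ => ℕ → ℕ) (fun b => b)
    (fun a _ ih b => Bool.rec (ih b) (ih (Nat.succ b)) (cor δ F a)) G b

def jC (δ : ℕ) (K : List (List ℕ)) (b : ℕ) : ℕ :=
  List.rec (motive := fun _ => ℕ → ℕ) (fun b => b)
    (fun F _ ih b => Bool.rec (ih b) (ih (jn δ F F b)) (hl F)) K b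

def contC (x : ℕ) (K : List (List ℕ)) : Bool :=
  List.rec (motive := fun _ => Bool) false (fun F _ ih => Bool.rec ih true (cont x F)) K

/-- some leaf does not belong to a circle of a middle sheet -/
def tb (F : List ℕ) : Bool :=
  List.rec (motive := fun _ => Bool) false
    (fun a _ ih => Bool.rec ih (Bool.rec true ih (Nat.beq (Nat.mod (Nat.div (Nat.sub a 64) 4) 3) 1))
      (Nat.ble 64 a)) F

def tbC (K : List (List ℕ)) : Bool :=
  List.rec (motive := fun _ => Bool) false (fun F _ ih => Bool.rec ih true (tb F)) K

/-- the component of the leaf `x` has two corners between leaves (or, if `md`, a leaf not belonging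
to a middle sheet) -/
def jB (md : Bool) (δ x : ℕ) (S : List (List (List ℕ))) : Bool :=
  List.rec (motive := fun _ => Bool) false
    (fun K _ ih => Bool.rec ih (Bool.rec (Bool.rec false (tbC K) md) true (Nat.ble 2 (jC δ K 0)))
      (contC x K)) S

def nlC (K : List (List ℕ)) (P : ℕ) : ℕ := Bool.rec P (Nat.succ P) (anyl K)

/-- all darts of the word are leaves -/
def al (F : List ℕ) : Bool :=
  List.rec (motive := fun _ => Bool) true (fun a _ ih => Bool.rec false ih (Nat.ble 64 a)) F

def alC (K : List (List ℕ)) : Bool :=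
  List.rec (motive := fun _ => Bool) true (fun F _ ih => Bool.rec false ih (al F)) K

/-- all darts are leaves, and the number of corners is at least twice the number of components -/
def total (δ : ℕ) (S : List (List (List ℕ))) (P b : ℕ) : Bool :=
  List.rec (motive := fun _ => ℕ → ℕ → Bool) (fun P b => Nat.ble (Nat.mul 2 P) b)
    (fun K _ ih P b => Bool.rec false (ih (nlC K P) (jC δ K b)) (alC K)) S P b

/-- partners `j - 1`, `j - 2`, ..., `0` -/
def go (f : List ℕ → ℕ → List (List (List ℕ)) → (List ℕ → Bool) → Bool) (δ m N : ℕ)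
    (S' : List (List (List ℕ))) (K : List (List ℕ)) (A : List ℕ) (j : ℕ) (c : List ℕ)
    (k : List ℕ → Bool) : Bool :=
  Nat.rec (motive := fun _ => List ℕ → (List ℕ → Bool) → Bool) (fun c k => k c)
    (fun g ih c k => Bool.rec (ih c k)
      (partner δ m N g S' K A (ih c k) fun m S => f c m S fun c => ih c k)
      (cand m N g)) j c k

def leafOpt (f : List ℕ → ℕ → List (List (List ℕ)) → (List ℕ → Bool) → Bool) (m N : ℕ)
    (S : List (List (List ℕ))) (c : List ℕ) (k : List ℕ → Bool) : Bool :=
  frc (ov N) fun x => mark x S (k c) fun S1 => frc (un N) fun y => mark y S1 (k c) fun S2 =>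
    frc (put m N 99) fun m => f c m S2 k

def brOpt (f : List ℕ → ℕ → List (List (List ℕ)) → (List ℕ → Bool) → Bool) (m N : ℕ)
    (S : List (List (List ℕ))) (c : List ℕ) (k : List ℕ → Bool) : Bool :=
  Bool.rec (k c) (frc (ov N) fun x => frc (un N) fun y => join x y S (k c) fun S1 =>
    frc (put m N (Nat.succ N)) fun m => f c m S1 k) (Nat.beq (letter N) 1)

def parOpt (f : List ℕ → ℕ → List (List (List ℕ)) → (List ℕ → Bool) → Bool) (δ t m N : ℕ)
    (S : List (List (List ℕ))) (c : List ℕ) (k : List ℕ → Bool) : Bool :=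
  frc (ov N) fun x => cutS x S false fun S' K A => go f δ m N S' K A t c k

def node (f : List ℕ → ℕ → List (List (List ℕ)) → (List ℕ → Bool) → Bool) (δ t m N : ℕ)
    (S : List (List (List ℕ))) (c : List ℕ) (k : List ℕ → Bool) : Bool :=
  leafOpt f m N S c fun c => brOpt f m N S c fun c => parOpt f δ t m N S c k

/-- `t`: the number of names; `x`: a leaf; `c`: the certificate -/
def run (md : Bool) (δ t x : ℕ) (fuel : ℕ) (c : List ℕ) (m : ℕ) (S : List (List (List ℕ)))
    (k : List ℕ → Bool) : Bool :=
  Nat.rec (motive := fun _ => List ℕ → ℕ → List (List (List ℕ)) → (List ℕ → Bool) → Bool)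
    (fun _ _ _ _ => false)
    (fun _ ih c m S k => List.rec false (fun N c _ =>
      Bool.rec
        (Bool.rec (Bool.rec false (node ih δ t m N S c k) (Nat.ble (Nat.succ N) t))
          (Bool.rec false (k c) (jB md δ x S))
          (Nat.beq N 30))
        (Bool.rec false (k c) (total δ S 0 0))
        (Nat.beq N 31)) c) fuel c m S k

/-- the name `N` is decided first; its partner is less than `t₁` -/
def check (md : Bool) (δ t t₁ x : ℕ) (S : List (List (List ℕ))) (c : List ℕ) : Bool :=
  mark (ov (nm x)) S false fun S => mark (un (nm x)) S false fun S =>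
    List.rec false (fun N c _ => Bool.rec false
      (frc (put 0 (nm x) 99) fun m => frc (Nat.add x 64) fun x =>
        node (run md δ t x 20) δ t₁ m N S c fun l => List.rec true (fun _ _ _ => false) l)
      (Nat.ble (Nat.succ N) t)) c

end

end Pool.Agent.L0h30.TT
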