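import Pool.Agent.L0h30.TT.Run

/-! Soundness of the search: the start. -/

namespace Pool.Agent.L0h30.TT

variable {t δ : ℕ} {μ : ℕ → ℕ}

/-- the last part of the function `check` -/
def ck (C : ℕ → Bool) (g : ℕ → List ℕ → Bool) (c : List ℕ) : Bool :=
  List.rec false (fun N c _ => Bool.rec false (g N c) (C N)) c

theorem ck_cons (C : ℕ → Bool) (g : ℕ → List ℕ → Bool) (N : ℕ) (c : List ℕ) :
    ck C g (N :: c) = (Bool.rec false (g N c) (C N) : Bool) := rfl

theorem check_ck (md : Bool) (δ T t₁ x : ℕ) (S : List (List (List ℕ))) (c : List ℕ) :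
    check md δ T t₁ x S c = mark (ov (nm x)) S false fun S => mark (un (nm x)) S false fun S =>
      ck (fun N => Nat.ble (Nat.succ N) T) (fun N c => frc (put 0 (nm x) 99) fun m =>
        frc (Nat.add x 64) fun x => node (run md δ T x 20) δ t₁ m N S c fun l =>
          List.rec true (fun _ _ _ => false) l) c := rfl

/-- the search starting with the leaf `x` -/
theorem check_S (h : Cl t δ μ) (hE : Env t δ (sig μ)) {md : Bool} {x t₁ : ℕ}
    (hx : Bas md t δ (sig μ) x) (hx12 : x < 12 * t) (hl : sig μ x = x)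
    {S : List (List (List ℕ))} (hS : Sta t δ (sig μ) S) (hen : ∀ d < 12 * t, d ∈ en S)
    {N : ℕ} {c : List ℕ} (hT : μ N ≠ 98 → μ N ≠ N → μ N < t₁)
    (hk : check md δ (6 * t) t₁ x S (N :: c) = true) : Goal t δ (sig μ) := by
  have hx36 := h.lt36 hx12
  have fx := dart_facts x hx36
  have hM : nm x < 6 * t := by omega
  have fM := name_facts _ fx.1
  have hμ : μ (nm x) = 98 := by
    rcases sig_cases (μ := μ) hx36 with h1 | ⟨h1, h2, h3⟩ | ⟨h1, h2, h3⟩
    · exact h1.1
    · exfalso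
      rw [hl] at h3
      rcases fx.2.2 with h4 | h4
      · have := fM.2.2.2.2.2.1
        rw [h4] at this
        rw [← h3] at this
        exact fM.2.2.2.2.1 (by rw [h4]; exact this)
      · have := fM.2.2.2.2.2.2.1
        rw [h4] at this
        rw [← h3] at this
        exact fM.2.2.2.2.1 (by rw [h4]; exact this.symm)
    · exfalso
      have h5 : μ (nm x) < 6 * t := (h.lt _ hM).resolve_left h1
      obtain ⟨n1, n2, -, -⟩ := names_ne fx.1 (h.lt18 h5) (Ne.symm h2)
      rcases h3 with ⟨h3, h4⟩ | ⟨h3, h4⟩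
      · exact n1 (by rw [h3, ← h4, hl])
      · exact n2 (by rw [h3, ← h4, hl])
  rw [check_ck] at hk
  obtain ⟨S1, k1, k2, k3⟩ := mark_S hE (sig_ov_leaf fx.1 hμ) hS fM.1 (hen _ (by omega)) hk
  obtain ⟨S2, k4, k5, k6⟩ := mark_S hE (sig_un_leaf fx.1 hμ) k1 fM.2.1
    ((k2 _).2 (Or.inl ⟨hen _ (by omega), Ne.symm fM.2.2.2.2.1⟩)) k3
  rw [ck_cons, frc_eq, frc_eq] at k6
  cases hb : Nat.ble (Nat.succ N) (6 * t) with
  | false => rw [hb] at k6; exact absurd k6 Bool.false_ne_true
  | true =>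
    rw [hb] at k6
    have hN : N < 6 * t := Nat.le_of_ble_eq_true hb
    refine node_S h hE run_L (run_S h hE hx) ⟨k4, fun M hM' => ?_⟩ hN hT k6
    have hM18 := h.lt18 hM'
    have fM' := name_facts M hM18
    have hz : dig 0 (nm x) = 0 := dig_zero _
    by_cases e : M = nm x
    · subst e
      right
      rw [dig_put_self (by norm_num) hz, hμ]
      refine ⟨rfl, ?_, ?_⟩
      · rw [k5, k2]
        rintro (⟨⟨-, h⟩ | h, -⟩ | h)
        · exact h rfl
        · omega
        · omega
      · rw [k5, k2]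
        rintro (⟨-, h⟩ | h)
        · exact h rfl
        · omega
    · rw [dig_put_ne (by norm_num) (Ne.symm e)]
      obtain ⟨n1, n2, n3, n4⟩ := names_ne hM18 fx.1 e
      left
      refine ⟨?_, ?_, ?_⟩
      · exact dig_zero _
      · rw [k5, k2]
        exact Or.inl ⟨Or.inl ⟨hen _ (by omega), n1⟩, n3⟩
      · rw [k5, k2]
        exact Or.inl ⟨Or.inl ⟨hen _ (by omega), n4⟩, n2⟩

end Pool.Agent.L0h30.TT
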