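import Pool.Agent.L0h30.TT.Sym
import Pool.Agent.L0h30.TT.C310
import Pool.Agent.L0h30.TT.C311
import Pool.Agent.L0h30.TT.C330
import Pool.Agent.L0h30.TT.C331
import Pool.Agent.L0h30.TT.C370
import Pool.Agent.L0h30.TT.C371
import Pool.Agent.L0h30.TT.Csmall

/-! The theorem on gluings of the circles around at most three triple points. -/

namespace Pool.Agent.L0h30.TT

theorem ini31 : ini 3 1 = [[[0,1,2,3]],[[4,5,6,7]],[[8,9,10,11]],[[15,14,13,12]],[[19,18,17,16]],[[23,22,21,20]],[[27,26,25,24]],[[31,30,29,28]],[[35,34,33,32]]] := by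
  decide +kernel
theorem ini33 : ini 3 3 = [[[0,1,2,3]],[[4,5,6,7]],[[8,9,10,11]],[[12,13,14,15]],[[16,17,18,19]],[[20,21,22,23]],[[27,26,25,24]],[[31,30,29,28]],[[35,34,33,32]]] := by
  decide +kernel
theorem ini37 : ini 3 7 = [[[0,1,2,3]],[[4,5,6,7]],[[8,9,10,11]],[[12,13,14,15]],[[16,17,18,19]],[[20,21,22,23]],[[24,25,26,27]],[[28,29,30,31]],[[32,33,34,35]]] := by
  decide +kernel
theorem ini21 : ini 2 1 = [[[0,1,2,3]],[[4,5,6,7]],[[8,9,10,11]],[[15,14,13,12]],[[19,18,17,16]],[[23,22,21,20]]] := by
  decide +kernel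
theorem ini23 : ini 2 3 = [[[0,1,2,3]],[[4,5,6,7]],[[8,9,10,11]],[[12,13,14,15]],[[16,17,18,19]],[[20,21,22,23]]] := by
  decide +kernel
theorem ini11 : ini 1 1 = [[[0,1,2,3]],[[4,5,6,7]],[[8,9,10,11]]] := by
  decide +kernel

theorem o310 : Ok false 3 1 0 := ok_swap (by norm_num) (by decide +kernel) (by norm_num)
  (by rw [ini31]; exact c310) (by norm_num)
theorem o311 : Ok false 3 1 1 := ok_swap (by norm_num) (by decide +kernel) (by norm_num)
  (by rw [ini31]; exact c311) (by norm_num)
theorem o370 : Ok false 3 7 0 := ok_swap (by norm_num) (by decide +kernel) (by norm_num)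
  (by rw [ini37]; exact c370) (by norm_num)
theorem o371 : Ok false 3 7 1 := ok_swap (by norm_num) (by decide +kernel) (by norm_num)
  (by rw [ini37]; exact c371) (by norm_num)
theorem o330 : Ok false 3 3 0 := ok_search (by norm_num)
  (by rw [ini33]; exact c330) (by norm_num)
theorem o331 : Ok false 3 3 1 := ok_search (by norm_num)
  (by rw [ini33]; exact c331) (by norm_num)
theorem o314 : Ok true 3 1 4 := ok_search (by norm_num)
  (by rw [ini31]; exact c314) (by norm_num)
theorem o315 : Ok true 3 1 5 := ok_search (by norm_num)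
  (by rw [ini31]; exact c315) (by norm_num)
theorem o334 : Ok true 3 3 4 := ok_search (by norm_num)
  (by rw [ini33]; exact c334) (by norm_num)
theorem o335 : Ok true 3 3 5 := ok_search (by norm_num)
  (by rw [ini33]; exact c335) (by norm_num)
theorem o374 : Ok true 3 7 4 := ok_search (by norm_num)
  (by rw [ini37]; exact c374) (by norm_num)
theorem o375 : Ok true 3 7 5 := ok_search (by norm_num)
  (by rw [ini37]; exact c375) (by norm_num)
theorem o210 : Ok false 2 1 0 := ok_search (by norm_num)
  (by rw [ini21]; exact c210) (by norm_num)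
theorem o211 : Ok false 2 1 1 := ok_search (by norm_num)
  (by rw [ini21]; exact c211) (by norm_num)
theorem o214 : Ok true 2 1 4 := ok_search (by norm_num)
  (by rw [ini21]; exact c214) (by norm_num)
theorem o215 : Ok true 2 1 5 := ok_search (by norm_num)
  (by rw [ini21]; exact c215) (by norm_num)
theorem o230 : Ok false 2 3 0 := ok_search (by norm_num)
  (by rw [ini23]; exact c230) (by norm_num)
theorem o231 : Ok false 2 3 1 := ok_search (by norm_num)
  (by rw [ini23]; exact c231) (by norm_num)
theorem o234 : Ok true 2 3 4 := ok_search (by norm_num)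
  (by rw [ini23]; exact c234) (by norm_num)
theorem o235 : Ok true 2 3 5 := ok_search (by norm_num)
  (by rw [ini23]; exact c235) (by norm_num)
theorem o110 : Ok false 1 1 0 := ok_search (by norm_num)
  (by rw [ini11]; exact c110) (by norm_num)
theorem o111 : Ok false 1 1 1 := ok_search (by norm_num)
  (by rw [ini11]; exact c111) (by norm_num)
theorem o114 : Ok true 1 1 4 := ok_search (by norm_num)
  (by rw [ini11]; exact c114) (by norm_num)
theorem o115 : Ok true 1 1 5 := ok_search (by norm_num)
  (by rw [ini11]; exact c115) (by norm_num)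

theorem ok_one : ∀ δ < 2 ^ 1, ∀ x < 12 * 1, Ok (mi x) 1 δ x := by
  refine ok_all (by norm_num) fun δ hδ hp x hx => ?_
  obtain rfl : δ = 1 := by omega
  simp only [List.mem_cons, List.not_mem_nil, or_false] at hx
  rcases hx with rfl | rfl | rfl | rfl
  · exact o110
  · exact o111
  · exact o114
  · exact o115

theorem ok_two : ∀ δ < 2 ^ 2, ∀ x < 12 * 2, Ok (mi x) 2 δ x := by
  refine ok_all (by norm_num) fun δ hδ hp x hx => ?_
  simp only [List.mem_cons, List.not_mem_nil, or_false] at hx
  obtain rfl | rfl : δ = 1 ∨ δ = 3 := by omega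
  · rcases hx with rfl | rfl | rfl | rfl
    · exact o210
    · exact o211
    · exact o214
    · exact o215
  · rcases hx with rfl | rfl | rfl | rfl
    · exact o230
    · exact o231
    · exact o234
    · exact o235

theorem ok_three : ∀ δ < 2 ^ 3, ∀ x < 12 * 3, Ok (mi x) 3 δ x := by
  refine ok_all (by norm_num) fun δ hδ hp x hx => ?_
  have h3 : ∀ x ∈ [0, 1, 4, 5], Ok (mi x) 3 3 x := by
    intro x hx
    simp only [List.mem_cons, List.not_mem_nil, or_false] at hx
    rcases hx with rfl | rfl | rfl | rfl
    · exact o330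
    · exact o331
    · exact o334
    · exact o335
  obtain rfl | rfl | rfl | rfl : δ = 1 ∨ δ = 3 ∨ δ = 5 ∨ δ = 7 := by omega
  · simp only [List.mem_cons, List.not_mem_nil, or_false] at hx
    rcases hx with rfl | rfl | rfl | rfl
    · exact o310
    · exact o311
    · exact o314
    · exact o315
  · exact h3 x hx
  · have I := (sym5 5 (by norm_num)).iso
    have e : sb 1 2 5 = 3 := by decide +kernel
    rw [e] at I
    have hx' := h3 x hx
    have ex : i3 1 2 x = x := by
      simp only [List.mem_cons, List.not_mem_nil, or_false] at hx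
      rcases hx with rfl | rfl | rfl | rfl <;> decide +kernel
    refine Ok.iso ?_ I ?_
    · simp only [List.mem_cons, List.not_mem_nil, or_false] at hx
      omega
    · rw [ex]; exact hx'
  · simp only [List.mem_cons, List.not_mem_nil, or_false] at hx
    rcases hx with rfl | rfl | rfl | rfl
    · exact o370
    · exact o371
    · exact o374
    · exact o375

/-- at least two corners for each piece with leaves -/
theorem ft {t δ : ℕ} {μ : ℕ → ℕ} (h : Cl t δ μ) (h0 : 1 ≤ t) (hδ : δ < 2 ^ t) :
    Goal t δ (sig μ) := by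
  have h3 := h.t3
  refine goal_of_ok h fun x hx => ?_
  obtain rfl | rfl | rfl : t = 1 ∨ t = 2 ∨ t = 3 := by omega
  · exact ok_one δ hδ x hx
  · exact ok_two δ hδ x hx
  · exact ok_three δ hδ x hx

end Pool.Agent.L0h30.TT
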