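import Pool.Agent.L0h30.TT.ClCl
import Pool.Agent.L0h30.TT.Ft

/-! Bigons between triple points of the same colour. -/

namespace Pool.Agent.L0h30.TT

open Pool.Agent.Y468.SR
open Pool.Agent.Y874.TP hiding S_REID S_REN S_THREE S_OUT S_CUT S_JUNC CStep CReid CM InvM InvC Inv3
  creid_after same_facts invM_ceq invM_perm
open Pool.Agent.Y874.TP2
open Pool.Agent.R800.BT (Hts Bad)
open Pool.Agent.L0h30.SR (rot Cir)

/-- the previous dart around one triple point -/
def pvT (e : Bool) (r : ℕ) : ℕ := if e then 4 * (r / 4) + (r + 3) % 4 else 4 * (r / 4) + (r + 1) % 4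

theorem loc : ∀ i < 3, ∀ r < 12, nm (12 * i + r) = 6 * i + nm r ∧
    (ov (nm (12 * i + r)) == 12 * i + r) = (ov (nm r) == r) ∧ nm r < 6 := by
  decide +kernel

theorem nx_loc {δ i r : ℕ} (hr : r < 12) : nx δ (12 * i + r) = 12 * i + nxT (ori δ i) r := by
  rw [nx_eq]
  have : (12 * i + r) / 12 = i := by omega
  rw [this]
  unfold nxT
  split_ifs <;> omega

theorem pv_loc {δ i r : ℕ} (hr : r < 12) : pv δ (12 * i + r) = 12 * i + pvT (ori δ i) r := by
  rw [pv_eq]
  have : (12 * i + r) / 12 = i := by omega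
  rw [this]
  unfold pvT
  split_ifs <;> omega

def FC (r s : ℕ) (e e' : Bool) : Prop := letter (nm r) = letter (nm s) →
    (ov (nm r) == r) = (ov (nm s) == s) → (nm r + nm s) % 2 = 1 →
    letter (nm (nxT e r)) = letter (nm (pvT e' s)) ∧ letter (nm (nxT e r)) ≠ letter (nm r) ∧
    ((nm (nxT e r) + nm (pvT e' s)) % 2 = 1 → e' = !e) ∧ (e = e' → s = nxT e (nxT e r)) ∧
    nxT e r < 12 ∧ pvT e' s < 12

instance (r s : ℕ) (e e' : Bool) : Decidable (FC r s e e') := by unfold FC; infer_instance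

theorem fin_check : ∀ r < 12, ∀ s < 12, ∀ e e' : Bool, FC r s e e' := by
  decide +kernel

theorem mm_of {T T' : Tri} {m : ℕ → ℕ} {a b : ℕ} (ha : a < 6) (hl : letter a = letter b)
    (hp : (a + b) % 2 = 1) (hb : b < 6) (hm : m (nmT T a) = nmT T' b) :
    MM T T' m (letter a) := by
  rw [letter_eq] at hl ⊢
  rw [letter_eq] at hl
  have : (a % 6 / 2) * 2 = a ∨ (a % 6 / 2) * 2 + 1 = a := by omega
  unfold MM
  rcases this with h | h
  · left
    have e1 : 2 * (a % 6 / 2) = a := by omega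
    have e2 : 2 * (a % 6 / 2) + 1 = b := by omega
    rw [e2, e1, hm]
  · right
    have e1 : 2 * (a % 6 / 2) + 1 = a := by omega
    have e2 : 2 * (a % 6 / 2) = b := by omega
    rw [e1, e2, hm]

set_option linter.unusedSectionVars false

namespace Sit
variable {D : Code} {Ts : List Tri} {m : ℕ → ℕ} (h : Sit D Ts m)
variable {k : ℕ} (hL : (clu Ts k).length ≤ 3)
variable (nb : ∀ (i j : ℕ) (hi : i < (clu Ts k).length) (hj : j < (clu Ts k).length), i ≠ j →
  ¬Big (clu Ts k)[i] (clu Ts k)[j] m)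
include h hL nb

theorem big_one {d e : ℕ} (hd : d < 12 * (clu Ts k).length) (he : e < 12 * (clu Ts k).length)
    (h98 : mu (clu Ts k) m (nm d) ≠ 98) (hne : mu (clu Ts k) m (nm d) ≠ nm d)
    (hs : sig (mu (clu Ts k) m) d = e) (hnm : nm e = mu (clu Ts k) m (nm d))
    (hov : (ov (nm d) == d) = (ov (nm e) == e)) (hlet : letter (nm d) = letter (nm e))
    (hb : mu (clu Ts k) m (nm (nx (dlt (clu Ts k)) d)) = nm (pv (dlt (clu Ts k)) e)) : False := by
  set L := clu Ts k with hLd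
  set δ := dlt L with hδ
  obtain ⟨i, r, hi, hr, rfl⟩ : ∃ i r, i < L.length ∧ r < 12 ∧ d = 12 * i + r :=
    ⟨d / 12, d % 12, by omega, by omega, by omega⟩
  obtain ⟨j, s, hj, hs12, rfl⟩ : ∃ j s, j < L.length ∧ s < 12 ∧ e = 12 * j + s :=
    ⟨e / 12, e % 12, by omega, by omega, by omega⟩
  obtain ⟨n1, o1, l1⟩ := loc i (by omega) r hr
  obtain ⟨n2, o2, l2⟩ := loc j (by omega) s hs12
  have hN : nm (12 * i + r) < 6 * L.length := by omega
  have hpar := h.cl_par hL hN h98 hne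
  rw [← hnm] at hpar
  have c1 : letter (nm r) = letter (nm s) := by
    rw [n1, n2, letter_eq, letter_eq] at hlet
    rw [letter_eq, letter_eq]
    omega
  have c2 : (ov (nm r) == r) = (ov (nm s) == s) := by rw [← o1, ← o2]; exact hov
  have c3 : (nm r + nm s) % 2 = 1 := by rw [n1, n2] at hpar; omega
  obtain ⟨f1, f2, f3, f4, f5, f6⟩ := fin_check r hr s hs12 (ori δ i) (ori δ j) c1 c2 c3
  rw [nx_loc hr, pv_loc hs12] at hb
  obtain ⟨n3, -, l3⟩ := loc i (by omega) _ f5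
  obtain ⟨n4, -, l4⟩ := loc j (by omega) _ f6
  by_cases hij : i = j
  · subst hij
    have e1 := f4 rfl
    refine opp (t := L.length) (δ := δ) hL (fun d hd => h.sig_spec hL hd) (h.sgn_fl hL)
      (fun f g hf hg h0 => h.cl_pl hL f g hf hg h0) hd ?_
    rw [hs, nx_loc hr, nx_loc f5, ← e1]
  · have hM : nm (12 * j + pvT (ori δ j) s) < 6 * L.length := by rw [n4]; omega
    have hZ : nm (12 * i + nxT (ori δ i) r) < 6 * L.length := by rw [n3]; omega
    have hne' : nm (12 * j + pvT (ori δ j) s) ≠ nm (12 * i + nxT (ori δ i) r) := by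
      rw [n3, n4]; omega
    have hpar' := h.cl_par hL hZ (by rw [hb]; omega) (by rw [hb]; exact hne')
    rw [hb, n3, n4] at hpar'
    have hori := f3 (by omega)
    refine nb i j hi hj hij ⟨?_, letter (nm r), ?_, letter (nm (nxT (ori δ i) r)), ?_, f2.symm, ?_, ?_⟩
    · rw [← dlt_get hj, ← dlt_get hi]; exact hori
    · rw [letter_eq]; omega
    · rw [letter_eq]; omega
    · refine mm_of l1 c1 c3 l2 ?_
      rw [← crs_get hi l1, ← crs_get hj l2, ← n1, ← n2, hnm]
      exact (h.mu_iff hL ((h.mu_cases hL _).resolve_left h98)).1 rfl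
    · refine mm_of l3 f1 (by omega) l4 ?_
      rw [← crs_get hi l3, ← crs_get hj l4, ← n3, ← n4]
      exact (h.mu_iff hL hM).1 hb

theorem cl_big {N : ℕ} (hN : N < 6 * (clu Ts k).length) (h98 : mu (clu Ts k) m N ≠ 98)
    (hne : mu (clu Ts k) m N ≠ N) (hlet : letter N = letter (mu (clu Ts k) m N)) :
    (mu (clu Ts k) m (nm (nx (dlt (clu Ts k)) (ov N))) ≠
        nm (pv (dlt (clu Ts k)) (ov (mu (clu Ts k) m N))) ∧
      mu (clu Ts k) m (nm (pv (dlt (clu Ts k)) (ov N))) ≠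
        nm (nx (dlt (clu Ts k)) (ov (mu (clu Ts k) m N)))) ∧
    (mu (clu Ts k) m (nm (nx (dlt (clu Ts k)) (un N))) ≠
        nm (pv (dlt (clu Ts k)) (un (mu (clu Ts k) m N))) ∧
      mu (clu Ts k) m (nm (pv (dlt (clu Ts k)) (un N))) ≠
        nm (nx (dlt (clu Ts k)) (un (mu (clu Ts k) m N)))) := by
  have hM : mu (clu Ts k) m N < 6 * (clu Ts k).length := (h.mu_cases hL N).resolve_left h98
  have hinv := h.mu_inv hL hN h98
  have fN := name_facts N (by omega)
  have fM := name_facts (mu (clu Ts k) m N) (by omega)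
  have h98' : mu (clu Ts k) m (mu (clu Ts k) m N) ≠ 98 := by rw [hinv]; omega
  have hne' : mu (clu Ts k) m (mu (clu Ts k) m N) ≠ mu (clu Ts k) m N := by
    rw [hinv]; exact fun e => hne e.symm
  have dN : ov N < 12 * (clu Ts k).length ∧ un N < 12 * (clu Ts k).length := by omega
  have dM : ov (mu (clu Ts k) m N) < 12 * (clu Ts k).length ∧
    un (mu (clu Ts k) m N) < 12 * (clu Ts k).length := by omega
  have beqf : ∀ {a b : ℕ}, a ≠ b → (a == b) = false := fun hab => by simpa using hab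
  have back : ∀ {x y : ℕ}, x < 12 * (clu Ts k).length → y < 12 * (clu Ts k).length →
      mu (clu Ts k) m (nm (pv (dlt (clu Ts k)) x)) = nm (nx (dlt (clu Ts k)) y) →
      mu (clu Ts k) m (nm (nx (dlt (clu Ts k)) y)) = nm (pv (dlt (clu Ts k)) x) := by
    intro x y hx hy he
    have hx' := pv_lt (δ := dlt (clu Ts k)) hx
    have hy' := nx_lt (δ := dlt (clu Ts k)) hy
    have gx := dart_facts _ (by omega : pv (dlt (clu Ts k)) x < 36)
    have gy := dart_facts _ (by omega : nx (dlt (clu Ts k)) y < 36)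
    have := h.mu_inv hL (N := nm (pv (dlt (clu Ts k)) x)) (by omega) (by rw [he]; omega)
    rw [he] at this
    exact this
  refine ⟨⟨fun hb => ?_, fun hb => ?_⟩, fun hb => ?_, fun hb => ?_⟩
  · refine h.big_one hL nb dN.1 dM.1 (by rw [fN.2.2.1]; exact h98) (by rw [fN.2.2.1]; exact hne)
      (sig_ov (by omega) h98 hne) (by rw [fN.2.2.1, fM.2.2.1]) ?_ ?_ hb
    · rw [fN.2.2.1, fM.2.2.1]; simp
    · rw [fN.2.2.1, fM.2.2.1]; exact hlet
  · refine h.big_one hL nb dM.1 dN.1 (by rw [fM.2.2.1]; exact h98') (by rw [fM.2.2.1]; exact hne')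
      (by rw [sig_ov (by omega) h98' hne', hinv]) (by rw [fN.2.2.1, fM.2.2.1, hinv]) ?_ ?_
      (back dN.1 dM.1 hb)
    · rw [fN.2.2.1, fM.2.2.1]; simp
    · rw [fN.2.2.1, fM.2.2.1]; exact hlet.symm
  · refine h.big_one hL nb dN.2 dM.2 (by rw [fN.2.2.2.1]; exact h98)
      (by rw [fN.2.2.2.1]; exact hne)
      (sig_un (by omega) h98 hne) (by rw [fN.2.2.2.1, fM.2.2.2.1]) ?_ ?_ hb
    · rw [fN.2.2.2.1, fM.2.2.2.1, beqf fN.2.2.2.2.1, beqf fM.2.2.2.2.1]
    · rw [fN.2.2.2.1, fM.2.2.2.1]; exact hlet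
  · refine h.big_one hL nb dM.2 dN.2 (by rw [fM.2.2.2.1]; exact h98')
      (by rw [fM.2.2.2.1]; exact hne')
      (by rw [sig_un (by omega) h98' hne', hinv]) (by rw [fN.2.2.2.1, fM.2.2.2.1, hinv]) ?_ ?_
      (back dN.2 dM.2 hb)
    · rw [fN.2.2.2.1, fM.2.2.2.1, beqf fN.2.2.2.2.1, beqf fM.2.2.2.2.1]
    · rw [fN.2.2.2.1, fM.2.2.2.1]; exact hlet.symm

/-- the conditions of the theorem on gluings are satisfied -/
theorem cl : Cl (clu Ts k).length (dlt (clu Ts k)) (mu (clu Ts k) m) where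
  t3 := hL
  lt := fun N _ => h.mu_cases hL N
  inv := fun _ hN h98 => h.mu_inv hL hN h98
  br := fun _ hN he => h.cl_br hL hN he
  pr := fun _ hN h98 hne => ⟨h.cl_par hL hN h98 hne, h.cl_okp hL hN h98⟩
  big := fun _ hN h98 hne hlet => h.cl_big hL nb hN h98 hne hlet
  pl := fun f g hf hg h0 => h.cl_pl hL f g hf hg h0

theorem goal (h0 : 1 ≤ (clu Ts k).length) :
    Goal (clu Ts k).length (dlt (clu Ts k)) (sig (mu (clu Ts k) m)) :=
  ft (h.cl hL nb) h0 (dlt_lt _)

end Sit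

end Pool.Agent.L0h30.TT
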