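import Pool.Agent.L0h30.TT.Clu

/-! The circles of one colour satisfy the conditions of the theorem on gluings, if there is no bigon. -/

namespace Pool.Agent.L0h30.TT

open Pool.Agent.Y468.SR
open Pool.Agent.Y874.TP hiding S_REID S_REN S_THREE S_OUT S_CUT S_JUNC CStep CReid CM InvM InvC Inv3
  creid_after same_facts invM_ceq invM_perm
open Pool.Agent.Y874.TP2
open Pool.Agent.R800.BT (Hts Bad)
open Pool.Agent.L0h30.SR (rot Cir)

theorem crs_get {L : List Tri} {i r : ℕ} (hi : i < L.length) (hr : r < 6) :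
    crs L (6 * i + r) = nmT L[i] r := by
  induction L generalizing i with
  | nil => simp at hi
  | cons T L ih =>
    unfold crs
    cases i with
    | zero => rw [if_pos (by omega)]; simp
    | succ i =>
      rw [if_neg (by omega), show 6 * (i + 1) + r - 6 = 6 * i + r by omega]
      rw [List.length_cons] at hi
      rw [ih (by omega)]
      simp

theorem dlt_get {L : List Tri} {i : ℕ} (hi : i < L.length) : ori (dlt L) i = L[i].ei := by
  induction L generalizing i with
  | nil => simp at hi
  | cons T L ih =>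
    unfold dlt
    cases i with
    | zero =>
      rw [ori_zero _ _ (by split_ifs <;> norm_num)]
      cases h : T.ei <;> simp [h]
    | succ i =>
      rw [ori_succ _ _ _ (by split_ifs <;> norm_num)]
      rw [List.length_cons] at hi
      rw [ih (by omega)]
      simp

theorem nmT_mem {T : Tri} {r : ℕ} (hr : r < 6) : nmT T r ∈ T.names := by
  interval_cases r <;> simp [nmT, Tri.names]

theorem letter_eq (N : ℕ) : letter N = N % 6 / 2 := rfl

theorem okp_iff {N g : ℕ} : okp N g = true ↔
    (N / 6 = g / 6 → letter N = letter g ∨ letter N + letter g = 2) := by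
  unfold okp
  change Bool.rec true (Bool.rec (Nat.beq (letter N + letter g) 2) true
    (Nat.beq (letter N) (letter g))) (Nat.beq (N / 6) (g / 6)) = true ↔ _
  by_cases h1 : N / 6 = g / 6
  · have e1 : Nat.beq (N / 6) (g / 6) = true := by rw [Nat.beq_eq]; exact h1
    rw [e1]
    by_cases h2 : letter N = letter g
    · have e2 : Nat.beq (letter N) (letter g) = true := by rw [Nat.beq_eq]; exact h2
      rw [e2]
      simp [h2]
    · have e2 : Nat.beq (letter N) (letter g) = false := by
        rw [← Bool.not_eq_true, Nat.beq_eq]; exact h2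
      rw [e2]
      simp only [h1, h2, false_or, forall_const]
      exact Nat.beq_eq ▸ Iff.rfl
  · have e1 : Nat.beq (N / 6) (g / 6) = false := by
      rw [← Bool.not_eq_true, Nat.beq_eq]; exact h1
    rw [e1]
    simp [h1]

theorem om_zero_left {X : Type} {f g : X → ℤ} {l : List X} (hf : ∀ x ∈ l, f x = 0) :
    om f g l = 0 := by
  induction l with
  | nil => rfl
  | cons a l ih =>
    have h0 : (l.map f).sum = 0 := by
      have : l.map f = l.map fun _ => 0 := List.map_congr_left fun x hx =>
        hf x (List.mem_cons_of_mem _ hx)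
      rw [this]; simp
    unfold om
    rw [hf a (by simp), h0, ih fun x hx => hf x (List.mem_cons_of_mem _ hx)]
    ring

set_option linter.unusedSectionVars false

namespace Sit
variable {D : Code} {Ts : List Tri} {m : ℕ → ℕ} (h : Sit D Ts m)
variable {k : ℕ} (hL : (clu Ts k).length ≤ 3)
include h hL

/-- the name of a crossing at one of the triple points -/
theorem crs_at {N : ℕ} (hN : N < 6 * (clu Ts k).length) :
    ∃ hi : N / 6 < (clu Ts k).length, crs (clu Ts k) N = nmT (clu Ts k)[N / 6] (N % 6) := by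
  have hi : N / 6 < (clu Ts k).length := by omega
  refine ⟨hi, ?_⟩
  have := crs_get (L := clu Ts k) hi (r := N % 6) (by omega)
  rw [← this]
  congr 1
  omega

theorem mu_inv {N : ℕ} (hN : N < 6 * (clu Ts k).length) (h98 : mu (clu Ts k) m N ≠ 98) :
    mu (clu Ts k) m (mu (clu Ts k) m N) = N := by
  have hM := (h.mu_cases hL N).resolve_left h98
  have e := (h.mu_iff hL hM).1 rfl
  rw [h.mu_iff hL hN, ← e]
  exact h.m_m hL hN

theorem cl_br {N : ℕ} (hN : N < 6 * (clu Ts k).length) (he : mu (clu Ts k) m N = N) :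
    letter N = 1 := by
  have e := (h.mu_iff hL hN).1 he
  obtain ⟨hi, hc⟩ := h.crs_at hL hN
  rw [hc] at e
  have hg := h.good _ (mem_clu.1 (List.getElem_mem hi)).1
  by_contra hne
  rw [letter_eq] at hne
  apply hg
  have h6 : N % 6 < 6 := by omega
  generalize N % 6 = r at *
  interval_cases r
  · exact Or.inl ⟨_, by simp [nmT], Or.inl e⟩
  · exact Or.inl ⟨_, by simp [nmT], Or.inl e⟩
  · exact absurd rfl hne
  · exact absurd rfl hne
  · exact Or.inr ⟨_, by simp [nmT], Or.inl e⟩
  · exact Or.inr ⟨_, by simp [nmT], Or.inl e⟩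

theorem cl_par {N : ℕ} (hN : N < 6 * (clu Ts k).length) (h98 : mu (clu Ts k) m N ≠ 98)
    (hne : mu (clu Ts k) m N ≠ N) : (mu (clu Ts k) m N + N) % 2 = 1 := by
  have hM := (h.mu_cases hL N).resolve_left h98
  have e := (h.mu_iff hL hM).1 rfl
  have fN := name_facts N (by omega)
  obtain ⟨a1, a2, a3, -⟩ := h.ov_facts hL hN
  obtain ⟨b1, b2, b3, -⟩ := h.ov_facts hL hM
  have hd : ov N < 12 * (clu Ts k).length := by omega
  have hp := (h.part_in hL hd (by rw [fN.2.2.1]; exact h98)).1
  rw [sig_ov (by omega) h98 hne] at hp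
  have hmN : m (crs (clu Ts k) N) ≠ crs (clu Ts k) N := by
    rw [e]; intro e'; exact hne (h.crs_inj hL hM hN e')
  have : part m (emb (clu Ts k) (ov N)) =
      ⟨m (crs (clu Ts k) N), true, !(emb (clu Ts k) (ov N)).isPos⟩ := by
    unfold part; rw [a1, if_neg hmN, a2]
  rw [this] at hp
  have h1 : (!(emb (clu Ts k) (ov N)).isPos) = (emb (clu Ts k) (ov (mu (clu Ts k) m N))).isPos :=
    congrArg Pass.isPos hp
  rw [a3, b3] at h1
  generalize mu (clu Ts k) m N = M at *
  have hM2 : M % 2 = 0 ∨ M % 2 = 1 := by omega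
  have hN2 : N % 2 = 0 ∨ N % 2 = 1 := by omega
  rcases hM2 with hM2 | hM2 <;> rcases hN2 with hN2 | hN2 <;> rw [hM2, hN2] at h1 <;>
    first | (exfalso; revert h1; decide) | omega

theorem cl_okp {N : ℕ} (hN : N < 6 * (clu Ts k).length) (h98 : mu (clu Ts k) m N ≠ 98) :
    okp N (mu (clu Ts k) m N) = true := by
  rw [okp_iff]
  intro h6
  have hM := (h.mu_cases hL N).resolve_left h98
  have e := (h.mu_iff hL hM).1 rfl
  have e' := h.m_m hL hN
  rw [e] at e'
  obtain ⟨hi, hc⟩ := h.crs_at hL hN
  obtain ⟨hi', hc'⟩ := h.crs_at hL hM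
  have hg := h.good _ (mem_clu.1 (List.getElem_mem hi)).1
  have hT : (clu Ts k)[mu (clu Ts k) m N / 6] = (clu Ts k)[N / 6] := by
    congr 1; exact h6.symm
  rw [hT] at hc'
  rw [hc, hc'] at e
  rw [hc, hc'] at e'
  generalize (clu Ts k)[N / 6] = T at *
  rw [letter_eq, letter_eq]
  have r1 : N % 6 < 6 := by omega
  have r2 : mu (clu Ts k) m N % 6 < 6 := by omega
  generalize N % 6 = r at *
  generalize mu (clu Ts k) m N % 6 = s at *
  by_contra hne
  apply hg
  interval_cases r <;> interval_cases s <;>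
    first
      | (exfalso; revert hne; decide)
      | exact Or.inl ⟨T.a₁, by simp, Or.inr (by rw [show T.a₁ = nmT T 0 from rfl, e]; simp [nmT])⟩
      | exact Or.inl ⟨T.a₂, by simp, Or.inr (by rw [show T.a₂ = nmT T 1 from rfl, e]; simp [nmT])⟩
      | exact Or.inr ⟨T.c₁, by simp, Or.inr (by rw [show T.c₁ = nmT T 4 from rfl, e]; simp [nmT])⟩
      | exact Or.inr ⟨T.c₂, by simp, Or.inr (by rw [show T.c₂ = nmT T 5 from rfl, e]; simp [nmT])⟩
      | exact Or.inl ⟨T.a₁, by simp, Or.inr (by rw [show T.a₁ = nmT T 0 from rfl, e']; simp [nmT])⟩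
      | exact Or.inl ⟨T.a₂, by simp, Or.inr (by rw [show T.a₂ = nmT T 1 from rfl, e']; simp [nmT])⟩
      | exact Or.inr ⟨T.c₁, by simp, Or.inr (by rw [show T.c₁ = nmT T 4 from rfl, e']; simp [nmT])⟩
      | exact Or.inr ⟨T.c₂, by simp, Or.inr (by rw [show T.c₂ = nmT T 5 from rfl, e']; simp [nmT])⟩

/-! ### Flows -/

open Classical in
/-- the extension of a function of the darts -/
noncomputable def ext (L : List Tri) (m : ℕ → ℕ) (g : ℕ → ℤ) (p : Pass) : ℤ :=
  if hp : ∃ d < 12 * L.length, emb L d = p then g hp.choose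
  else if hp : ∃ d < 12 * L.length, emb L d = part m p then -g hp.choose else 0

theorem ext_emb (g : ℕ → ℤ) {d : ℕ} (hd : d < 12 * (clu Ts k).length) :
    ext (clu Ts k) m g (emb (clu Ts k) d) = g d := by
  have hex : ∃ d' < 12 * (clu Ts k).length, emb (clu Ts k) d' = emb (clu Ts k) d := ⟨d, hd, rfl⟩
  unfold ext
  rw [dif_pos hex, emb_inj h.ndL hex.choose_spec.1 hd hex.choose_spec.2]

theorem ext_part (g : ℕ → ℤ) (hg : Fl (clu Ts k).length (sig (mu (clu Ts k) m)) g) {p : Pass}
    (hp : p ∈ passes (D ++ TC Ts)) :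
    ext (clu Ts k) m g (part m p) = -ext (clu Ts k) m g p := by
  by_cases h1 : ∃ d < 12 * (clu Ts k).length, emb (clu Ts k) d = p
  · obtain ⟨d, hd, rfl⟩ := h1
    rw [h.ext_emb hL g hd]
    by_cases h98 : mu (clu Ts k) m (nm d) = 98
    · have hD := h.part_out hL hd h98
      have h2 : ¬∃ d' < 12 * (clu Ts k).length, emb (clu Ts k) d' = part m (emb (clu Ts k) d) := by
        rintro ⟨d', hd', he⟩
        rw [← he] at hD
        exact h.not_both hD (h.cl_in (h.emb_in hd'))
      have h3 : ∃ d' < 12 * (clu Ts k).length,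
          emb (clu Ts k) d' = part m (part m (emb (clu Ts k) d)) :=
        ⟨d, hd, (h.part_part hp).symm⟩
      unfold ext
      rw [dif_neg h2, dif_pos h3]
      congr 2
      exact emb_inj h.ndL h3.choose_spec.1 hd (h3.choose_spec.2.trans (h.part_part hp))
    · obtain ⟨e1, e2⟩ := h.part_in hL hd h98
      rw [e1, h.ext_emb hL g e2]
      refine hg.2 d hd fun e => ?_
      rw [e] at e1
      exact Pool.Agent.L0h30.SR.part_ne e1
  · by_cases h2 : ∃ d < 12 * (clu Ts k).length, emb (clu Ts k) d = part m p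
    · obtain ⟨d, hd, he⟩ := h2
      rw [← he, h.ext_emb hL g hd]
      unfold ext
      have h2 : ∃ d < 12 * (clu Ts k).length, emb (clu Ts k) d = part m p := ⟨d, hd, he⟩
      rw [dif_neg h1, dif_pos h2, neg_neg]
      congr 1
      exact emb_inj h.ndL hd h2.choose_spec.1 (he.trans h2.choose_spec.2.symm)
    · unfold ext
      rw [dif_neg h1, dif_neg h2, dif_neg h2, dif_neg (by rw [h.part_part hp]; exact h1), neg_zero]

theorem ext_zero (g : ℕ → ℤ) {p : Pass} (hp : p ∈ passes (D ++ TC Ts))
    (hc : colour p.crossing ≠ k) : ext (clu Ts k) m g p = 0 := by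
  unfold ext
  rw [dif_neg, dif_neg]
  · rintro ⟨d, hd, he⟩
    apply hc
    rw [← h.col_part hp, ← he]
    exact h.col_clu (h.emb_in hd)
  · rintro ⟨d, hd, he⟩
    apply hc
    rw [← he]
    exact h.col_clu (h.emb_in hd)

theorem ext_sum (g : ℕ → ℤ) (hg : Fl (clu Ts k).length (sig (mu (clu Ts k) m)) g) :
    ∀ C ∈ TC Ts, (C.1.map (ext (clu Ts k) m g)).sum = 0 := by
  intro C hC
  obtain ⟨T, hT, hC⟩ := List.mem_flatMap.1 hC
  have hW : C.1 ∈ [T.wi, T.wj, T.wk] := by
    simp only [Tri.code, List.mem_cons, List.not_mem_nil, or_false] at hC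
    rcases hC with rfl | rfl | rfl <;> simp
  by_cases hk : colour T.a₁ = k
  · have hsu : Su (clu Ts k).length fun d => ext (clu Ts k) m g (emb (clu Ts k) d) := by
      intro q hq
      have := hg.1 q hq
      beta_reduce
      rw [h.ext_emb hL g (by omega), h.ext_emb hL g (by omega), h.ext_emb hL g (by omega),
        h.ext_emb hL g (by omega)]
      exact this
    exact su_emb hsu T (mem_clu.2 ⟨hT, hk⟩) _ hW
  · have h0 : C.1.map (ext (clu Ts k) m g) = C.1.map fun _ => 0 := by
      refine List.map_congr_left fun p hp => ?_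
      have hpT : p ∈ passes T.code := Pool.Agent.L0h30.SR.circle_mem hW hp
      refine h.ext_zero hL g (h.inT (Pool.Agent.L0h30.SR.code_mem hT hpT)) ?_
      rw [h.mono T hT _ (code_names hpT)]
      exact hk
    rw [h0]
    simp

theorem ext_sumD (g : ℕ → ℤ) (hg : Fl (clu Ts k).length (sig (mu (clu Ts k) m)) g) :
    ∀ C ∈ D, (C.1.map (ext (clu Ts k) m g)).sum = 0 :=
  (Pool.Agent.Y761.TP2.flow D (TC Ts) m _ _ h.hn h.wf h.mat h.nv
    (fun p hp => ⟨h.ext_part hL g hg hp, h.ext_part hL g hg hp⟩)
    (fun C hC => ⟨h.ext_sum hL g hg C hC, h.ext_sum hL g hg C hC⟩)).1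

theorem cl_pl (f g : ℕ → ℤ) (hf : Fl (clu Ts k).length (sig (mu (clu Ts k) m)) f)
    (hg : Fl (clu Ts k).length (sig (mu (clu Ts k) m)) g)
    (h0 : ∀ d < 12 * (clu Ts k).length, sig (mu (clu Ts k) m) d = d → f d = 0) :
    Om (clu Ts k).length (dlt (clu Ts k)) f g = 0 := by
  set F := ext (clu Ts k) m f with hF
  set G := ext (clu Ts k) m g with hG
  have hFe : ∀ d < 12 * (clu Ts k).length, F (emb (clu Ts k) d) = f d := fun d hd =>
    h.ext_emb hL f hd
  have hGe : ∀ d < 12 * (clu Ts k).length, G (emb (clu Ts k) d) = g d := fun d hd =>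
    h.ext_emb hL g hd
  have k1 := (Pool.Agent.Y761.TP2.flow D (TC Ts) m F G h.hn h.wf h.mat h.nv
    (fun p hp => ⟨h.ext_part hL f hf hp, h.ext_part hL g hg hp⟩)
    (fun C hC => ⟨h.ext_sum hL f hf C hC, h.ext_sum hL g hg C hC⟩)).2
  -- the words of the link do not contribute
  have hD : ∀ p ∈ passes D, F p = 0 := by
    intro p hp
    have hpE := h.inD hp
    have e1 := h.ext_part hL f hf hpE
    have : F (part m p) = 0 := by
      by_cases hex : ∃ d < 12 * (clu Ts k).length, emb (clu Ts k) d = part m p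
      · obtain ⟨d, hd, he⟩ := hex
        rw [← he, hFe d hd]
        refine h0 d hd ((h.leaf_iff hL hd).2 ?_)
        rw [he, h.part_part hpE]
        exact hp
      · rw [hF]
        unfold ext
        rw [dif_neg hex, dif_neg]
        rintro ⟨d, hd, he⟩
        rw [h.part_part hpE] at he
        rw [← he] at hp
        exact h.not_both hp (h.cl_in (h.emb_in hd))
    rw [← hF] at e1
    rw [this] at e1
    linarith
  have hsF : Su (clu Ts k).length fun d => F (emb (clu Ts k) d) := by
    intro q hq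
    beta_reduce
    rw [hFe _ (by omega), hFe _ (by omega), hFe _ (by omega), hFe _ (by omega)]
    exact hf.1 q hq
  have hsG : Su (clu Ts k).length fun d => G (emb (clu Ts k) d) := by
    intro q hq
    beta_reduce
    rw [hGe _ (by omega), hGe _ (by omega), hGe _ (by omega), hGe _ (by omega)]
    exact hg.1 q hq
  have k2 := om_emb h.nmL hsF hsG
  have k3 : Om (clu Ts k).length (dlt (clu Ts k)) (fun d => F (emb (clu Ts k) d))
      (fun d => G (emb (clu Ts k) d)) = Om (clu Ts k).length (dlt (clu Ts k)) f g := by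
    unfold Om
    refine Finset.sum_congr rfl fun d hd => ?_
    rw [Finset.mem_range] at hd
    have hn : nx (dlt (clu Ts k)) d < 12 * (clu Ts k).length := nx_lt hd
    beta_reduce
    rw [hFe d hd, hGe d hd, hFe _ hn, hGe _ hn]
  rw [← k3, k2]
  -- the sum over all circles
  have k4 : ((TC Ts).map fun C => om F G C.1).sum = omL F G (clu Ts k) := by
    have : ∀ l : List Tri, (∀ T ∈ l, T ∈ Ts) →
        ((TC l).map fun C => om F G C.1).sum = omL F G (clu l k) := by
      intro l hl
      induction l with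
      | nil => simp [TC, clu, omL]
      | cons T l ih =>
        have e1 : TC (T :: l) = T.code ++ TC l := by simp [TC]
        have ih' := ih fun T hT => hl T (List.mem_cons_of_mem _ hT)
        rw [e1, List.map_append, List.sum_append, ih']
        have e2 : (T.code.map fun C => om F G C.1).sum = om F G T.wi + om F G T.wj + om F G T.wk := by
          simp [Tri.code]; ring
        rw [e2]
        by_cases hk : colour T.a₁ = k
        · have : clu (T :: l) k = T :: clu l k := by simp [clu, hk]
          rw [this]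
          simp [omL]
        · have e3 : clu (T :: l) k = clu l k := by simp [clu, hk]
          rw [e3]
          have z : ∀ W ∈ [T.wi, T.wj, T.wk], om F G W = 0 := by
            intro W hW
            refine om_zero_left fun p hp => ?_
            have hT := hl T (by simp)
            have hpT : p ∈ passes T.code := Pool.Agent.L0h30.SR.circle_mem hW hp
            refine h.ext_zero hL f (h.inT (Pool.Agent.L0h30.SR.code_mem hT hpT)) ?_
            rw [h.mono T hT _ (code_names hpT)]
            exact hk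
          rw [z _ (by simp), z _ (by simp), z _ (by simp)]
          ring
    exact this Ts fun T hT => hT
  have k5 : (D.map fun C => om F G C.1).sum = 0 := by
    have : D.map (fun C => om F G C.1) = D.map fun _ => 0 := by
      refine List.map_congr_left fun C hC => ?_
      exact om_zero_left fun p hp => hD p (mem_passes.2 ⟨C, hC, hp⟩)
    rw [this]; simp
  rw [List.map_append, List.sum_append, k4, k5] at k1
  linarith

end Sit

/-! ### Bigons -/

/-- there is an edge between double curves with the same letter at two triple points -/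
def MM (T T' : Tri) (m : ℕ → ℕ) (l : ℕ) : Prop :=
  m (nmT T (2 * l)) = nmT T' (2 * l + 1) ∨ m (nmT T (2 * l + 1)) = nmT T' (2 * l)

/-- a bigon between two triple points -/
def Big (T T' : Tri) (m : ℕ → ℕ) : Prop :=
  T'.ei = !T.ei ∧ ∃ l < 3, ∃ l' < 3, l ≠ l' ∧ MM T T' m l ∧ MM T T' m l'

theorem om_opp {t δ x : ℕ} (hx : x < 12 * t) {g : ℕ → ℤ} (hg : Su t g) :
    Om t δ (dl x (nx δ (nx δ x))) g = 2 * (g x + 2 * g (nx δ x) + g (nx δ (nx δ x))) := by
  have h1 := om_dl (δ := δ) hx hg
  have h2 := om_dl (δ := δ) (nx_lt (δ := δ) hx) hg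
  have h3 : Om t δ (dl x (nx δ (nx δ x))) g =
      Om t δ (dl x (nx δ x)) g + Om t δ (dl (nx δ x) (nx δ (nx δ x))) g := by
    unfold Om
    rw [← Finset.sum_add_distrib]
    refine Finset.sum_congr rfl fun d _ => ?_
    unfold dl
    ring
  rw [h3, h1, h2]
  ring

theorem opp {t δ : ℕ} {σ : ℕ → ℕ} (ht : t ≤ 3) (hσ : ∀ d < 12 * t, σ d < 12 * t ∧ σ (σ d) = d)
    (hs : Fl t σ sgn) (pl : ∀ f g, Fl t σ f → Fl t σ g → (∀ d < 12 * t, σ d = d → f d = 0) →
      Om t δ f g = 0) {x : ℕ} (hx : x < 12 * t) (he : σ x = nx δ (nx δ x)) : False := by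
  have hy : nx δ (nx δ x) < 12 * t := nx_lt (nx_lt hx)
  have hxy : nx δ (nx δ x) ≠ x := by
    intro e
    have e1 := nx_eq δ x
    have e2 := nx_eq δ (nx δ x)
    rw [e] at e2
    have e3 : nx δ x / 12 = x / 12 := by rw [e1]; split_ifs <;> omega
    rw [e3] at e2
    split_ifs at e1 e2 <;> omega
  have hσy : σ (nx δ (nx δ x)) = x := by rw [← he]; exact (hσ x hx).2
  have hfl : Fl t σ (dl x (nx δ (nx δ x))) := by
    refine ⟨su_dl ?_, fun d hd hne => ?_⟩
    · have e1 := nx_eq δ x
      have e2 := nx_eq δ (nx δ x)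
      split_ifs at e1 e2 <;> omega
    · have i1 : σ d = x ↔ d = nx δ (nx δ x) := by
        constructor
        · intro e; rw [← (hσ d hd).2, e, he]
        · intro e; rw [e, hσy]
      have i2 : σ d = nx δ (nx δ x) ↔ d = x := by
        constructor
        · intro e; rw [← (hσ d hd).2, e, hσy]
        · intro e; rw [e, he]
      unfold dl
      simp only [i1, i2]
      ring
  have h0 := pl _ _ hfl hs fun d hd hd0 => by
    unfold dl
    rw [if_neg, if_neg, sub_zero]
    · intro e; rw [e, hσy] at hd0; exact hxy hd0.symm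
    · intro e; rw [e, he] at hd0; exact hxy hd0
  rw [om_opp hx hs.1] at h0
  have h1 := hs.2 x hx (by rw [he]; exact hxy)
  rw [he] at h1
  have h2 : ∀ d < 36, sgn d = 1 ∨ sgn d = -1 := by
    intro d hd
    obtain ⟨N, hN, -, rfl | rfl⟩ := dart_cases hd
    · rw [(sgn_facts N hN).2]; split_ifs <;> simp
    · rw [(sgn_facts N hN).1, (sgn_facts N hN).2]; split_ifs <;> simp
  have hn : nx δ x < 12 * t := nx_lt hx
  have := h2 (nx δ x) (by omega)
  omega

namespace Sit
variable {D : Code} {Ts : List Tri} {m : ℕ → ℕ} (h : Sit D Ts m)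
variable {k : ℕ} (hL : (clu Ts k).length ≤ 3)
include h hL

theorem sig_spec {d : ℕ} (hd : d < 12 * (clu Ts k).length) :
    sig (mu (clu Ts k) m) d < 12 * (clu Ts k).length ∧
      sig (mu (clu Ts k) m) (sig (mu (clu Ts k) m) d) = d := by
  by_cases h98 : mu (clu Ts k) m (nm d) = 98
  · have : sig (mu (clu Ts k) m) d = d := by unfold sig; rw [if_pos h98]
    rw [this, this]
    exact ⟨hd, rfl⟩
  · obtain ⟨e1, e2⟩ := h.part_in hL hd h98
    refine ⟨e2, ?_⟩
    have hp := h.part_part (h.emb_inE (k := k) hd)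
    rw [e1] at hp
    by_cases h98' : mu (clu Ts k) m (nm (sig (mu (clu Ts k) m) d)) = 98
    · exfalso
      have := h.part_out hL e2 h98'
      rw [hp] at this
      exact h.not_both this (h.cl_in (h.emb_in hd))
    · obtain ⟨e3, e4⟩ := h.part_in hL e2 h98'
      rw [hp] at e3
      exact (emb_inj h.ndL hd e4 e3).symm

theorem sgn_fl : Fl (clu Ts k).length (sig (mu (clu Ts k) m)) sgn := by
  refine ⟨fun q hq => sgn_su q (by omega), fun d hd hne => ?_⟩
  obtain ⟨N, hN, h1, h2⟩ := dart_cases (by omega : d < 36)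
  have hN' : N < 6 * (clu Ts k).length := by omega
  have sN := sgn_facts N hN
  by_cases e1 : mu (clu Ts k) m N = 98
  · exfalso
    rcases h2 with rfl | rfl
    · exact hne (sig_ov_leaf hN e1)
    · exact hne (sig_un_leaf hN e1)
  · by_cases e2 : mu (clu Ts k) m N = N
    · rcases h2 with rfl | rfl
      · rw [sig_ov_br hN e2, sN.1]
      · rw [sig_un_br hN e2, sN.1]; ring
    · have h4 : mu (clu Ts k) m N < 6 * (clu Ts k).length := (h.mu_cases hL N).resolve_left e1
      have sM := sgn_facts _ (by omega : mu (clu Ts k) m N < 18)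
      have hp := h.cl_par hL hN' e1 e2
      have key : sgn (ov (mu (clu Ts k) m N)) = -sgn (ov N) := by
        rw [sM.2, sN.2]
        split_ifs <;> omega
      rcases h2 with rfl | rfl
      · rw [sig_ov hN e1 e2, key]
      · rw [sig_un hN e1 e2, sM.1, sN.1, key]

end Sit

end Pool.Agent.L0h30.TT
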