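import Pool.Agent.L0h30.TT.Emb

/-! Clusters: the triple points of one colour. -/

namespace Pool.Agent.L0h30.TT

open Pool.Agent.Y468.SR
open Pool.Agent.Y874.TP hiding S_REID S_REN S_THREE S_OUT S_CUT S_JUNC CStep CReid CM InvM InvC Inv3
  creid_after same_facts invM_ceq invM_perm
open Pool.Agent.Y874.TP2
open Pool.Agent.R800.BT (Hts Bad)
open Pool.Agent.L0h30.SR (rot Cir)

/-- the situation: normalized triple points with one colour each, none of which can be removed -/
structure Sit (D : Code) (Ts : List Tri) (m : ℕ → ℕ) : Prop where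
  hn : (D.map Prod.snd).Nodup
  wfD : WF (passes D)
  wf : WF (passes (D ++ TC Ts))
  mat : Matching (passes (D ++ TC Ts)) m
  nv : NullV (D ++ TC Ts) m
  cm : ∀ p ∈ passes (D ++ TC Ts), colour (m p.crossing) = colour p.crossing
  nrm : ∀ T ∈ Ts, Nm T
  mono : ∀ T ∈ Ts, ∀ c ∈ T.names, colour c = colour T.a₁
  good : ∀ T ∈ Ts, ¬Bad T m

/-- the triple points of the colour `k` -/
def clu (Ts : List Tri) (k : ℕ) : List Tri := Ts.filter fun T => colour T.a₁ = k

theorem clu_sub (Ts : List Tri) (k : ℕ) : (clu Ts k).Sublist Ts := List.filter_sublist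

theorem mem_clu {Ts : List Tri} {k : ℕ} {T : Tri} : T ∈ clu Ts k ↔ T ∈ Ts ∧ colour T.a₁ = k := by
  simp [clu]

theorem TC_append (l l' : List Tri) : TC (l ++ l') = TC l ++ TC l' := by
  unfold TC; rw [List.flatMap_append]

theorem passes_TC_sub {l l' : List Tri} (h : l.Sublist l') : (passes (TC l)).Sublist (passes (TC l')) := by
  unfold passes TC
  exact (h.flatMap _).flatMap _

theorem code_names {T : Tri} {p : Pass} (hp : p ∈ passes T.code) : p.crossing ∈ T.names := by
  have := Pool.Agent.L0h30.SR.mem_nms.2 ⟨p, hp, rfl⟩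
  exact this

theorem mem_TC_passes {Ts : List Tri} {p : Pass} (h : p ∈ passes (TC Ts)) :
    ∃ T ∈ Ts, p ∈ passes T.code := by
  obtain ⟨C, hC, hp⟩ := mem_passes.1 h
  obtain ⟨T, hT, hC⟩ := List.mem_flatMap.1 hC
  exact ⟨T, hT, mem_passes.2 ⟨C, hC, hp⟩⟩

open Classical in
/-- the matching of names -/
noncomputable def mu (L : List Tri) (m : ℕ → ℕ) (N : ℕ) : ℕ :=
  if h : ∃ M < 6 * L.length, m (crs L N) = crs L M then h.choose else 98

theorem pass_ext {p q : Pass} (h1 : p.crossing = q.crossing) (h2 : p.isOver = q.isOver)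
    (h3 : p.isPos = q.isPos) : p = q := by
  obtain ⟨a, b, c⟩ := p
  obtain ⟨a', b', c'⟩ := q
  simp only at h1 h2 h3
  rw [h1, h2, h3]

set_option linter.unusedSectionVars false

namespace Sit
variable {D : Code} {Ts : List Tri} {m : ℕ → ℕ} (h : Sit D Ts m)
include h

theorem key_eq {p q : Pass} (hp : p ∈ passes (D ++ TC Ts)) (hq : q ∈ passes (D ++ TC Ts))
    (h1 : p.crossing = q.crossing) (h2 : p.isOver = q.isOver) : p = q :=
  List.inj_on_of_nodup_map h.wf.2 hp hq (by simp [h1, h2])

theorem mate_mem {p : Pass} (hp : p ∈ passes (D ++ TC Ts)) : p.mate ∈ passes (D ++ TC Ts) :=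
  h.wf.1 p hp

theorem part_mem {p : Pass} (hp : p ∈ passes (D ++ TC Ts)) : part m p ∈ passes (D ++ TC Ts) :=
  Pool.Agent.Y759.TP2.part_mem h.wf h.mat hp

theorem part_part {p : Pass} (hp : p ∈ passes (D ++ TC Ts)) : part m (part m p) = p :=
  Pool.Agent.Y759.TP2.part_invol h.mat hp

theorem col_part {p : Pass} (hp : p ∈ passes (D ++ TC Ts)) :
    colour (part m p).crossing = colour p.crossing := by
  unfold part
  split_ifs
  · rfl
  · exact h.cm p hp

theorem inT {p : Pass} (hp : p ∈ passes (TC Ts)) : p ∈ passes (D ++ TC Ts) := by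
  rw [passes_append']; exact List.mem_append_right _ hp

theorem inD {p : Pass} (hp : p ∈ passes D) : p ∈ passes (D ++ TC Ts) := by
  rw [passes_append']; exact List.mem_append_left _ hp

theorem cl_in {k : ℕ} {p : Pass} (hp : p ∈ passes (TC (clu Ts k))) : p ∈ passes (TC Ts) :=
  (passes_TC_sub (clu_sub Ts k)).subset hp

theorem not_both {p : Pass} (h1 : p ∈ passes D) (h2 : p ∈ passes (TC Ts)) : False := by
  have := WF.nodup h.wf
  rw [passes_append'] at this
  exact (List.nodup_append.1 this).2.2 p h1 p h2 rfl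

theorem col_clu {k : ℕ} {p : Pass} (hp : p ∈ passes (TC (clu Ts k))) : colour p.crossing = k := by
  obtain ⟨T, hT, hpT⟩ := mem_TC_passes hp
  obtain ⟨h1, h2⟩ := mem_clu.1 hT
  rw [← h2]
  exact h.mono T h1 _ (code_names hpT)

theorem in_clu {p : Pass} (hp : p ∈ passes (TC Ts)) {k : ℕ} (hk : colour p.crossing = k) :
    p ∈ passes (TC (clu Ts k)) := by
  obtain ⟨T, hT, hpT⟩ := mem_TC_passes hp
  refine Pool.Agent.L0h30.SR.code_mem (T := T) (mem_clu.2 ⟨hT, ?_⟩) hpT
  rw [← hk]
  exact (h.mono T hT _ (code_names hpT)).symm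

variable {k : ℕ}

theorem nmL : ∀ T ∈ clu Ts k, Nm T := fun T hT => h.nrm T (mem_clu.1 hT).1

theorem ndL : (passes (TC (clu Ts k))).Nodup := by
  have := WF.nodup h.wf
  rw [passes_append'] at this
  exact (passes_TC_sub (clu_sub Ts k)).nodup (List.nodup_append.1 this).2.1

theorem emb_in {d : ℕ} (hd : d < 12 * (clu Ts k).length) :
    emb (clu Ts k) d ∈ passes (TC (clu Ts k)) := mem_emb.2 ⟨d, hd, rfl⟩

theorem emb_inE {d : ℕ} (hd : d < 12 * (clu Ts k).length) :
    emb (clu Ts k) d ∈ passes (D ++ TC Ts) := h.inT (h.cl_in (h.emb_in hd))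

variable (hL : (clu Ts k).length ≤ 3)
include hL

/-- the crossing, the height and the sign of the darts with a given name -/
theorem ov_facts {N : ℕ} (hN : N < 6 * (clu Ts k).length) :
    (emb (clu Ts k) (ov N)).crossing = crs (clu Ts k) N ∧
    (emb (clu Ts k) (ov N)).isOver = true ∧ (emb (clu Ts k) (ov N)).isPos = (N % 2 == 1) ∧
    (emb (clu Ts k) (un N)).crossing = crs (clu Ts k) N ∧
    (emb (clu Ts k) (un N)).isOver = false ∧ (emb (clu Ts k) (un N)).isPos = (N % 2 == 1) := by
  have hf := name_facts N (by omega)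
  obtain ⟨a1, a2, a3⟩ := emb_facts h.nmL hL (d := ov N) (by omega)
  obtain ⟨b1, b2, b3⟩ := emb_facts h.nmL hL (d := un N) (by omega)
  rw [hf.2.2.1] at a1 a2 a3
  rw [hf.2.2.2.1] at b1 b2 b3
  refine ⟨a1, ?_, a3, b1, ?_, b3⟩
  · rw [a2]; simp
  · rw [b2]; simp [hf.2.2.2.2.1]

theorem crs_inj {N M : ℕ} (hN : N < 6 * (clu Ts k).length) (hM : M < 6 * (clu Ts k).length)
    (he : crs (clu Ts k) N = crs (clu Ts k) M) : N = M := by
  have fN := name_facts N (by omega)
  have fM := name_facts M (by omega)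
  obtain ⟨a1, a2, -⟩ := h.ov_facts hL hN
  obtain ⟨b1, b2, -⟩ := h.ov_facts hL hM
  have h1 := h.key_eq (h.emb_inE (k := k) (d := ov N) (by omega))
    (h.emb_inE (k := k) (d := ov M) (by omega)) (by rw [a1, b1, he]) (by rw [a2, b2])
  have h2 := emb_inj h.ndL (by omega) (by omega) h1
  rw [← fN.2.2.1, h2, fM.2.2.1]

theorem mu_iff {N M : ℕ} (hM : M < 6 * (clu Ts k).length) :
    mu (clu Ts k) m N = M ↔ m (crs (clu Ts k) N) = crs (clu Ts k) M := by
  unfold mu
  constructor
  · intro he
    split_ifs at he with hex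
    · rw [← he]; exact hex.choose_spec.2
    · omega
  · intro he
    have hex : ∃ M < 6 * (clu Ts k).length, m (crs (clu Ts k) N) = crs (clu Ts k) M := ⟨M, hM, he⟩
    rw [dif_pos hex]
    exact h.crs_inj hL hex.choose_spec.1 hM (by rw [← hex.choose_spec.2, he])

theorem mu_cases (N : ℕ) : mu (clu Ts k) m N = 98 ∨ mu (clu Ts k) m N < 6 * (clu Ts k).length := by
  unfold mu
  split_ifs with hex
  · exact Or.inr hex.choose_spec.1
  · exact Or.inl rfl

theorem m_m {N : ℕ} (hN : N < 6 * (clu Ts k).length) :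
    m (m (crs (clu Ts k) N)) = crs (clu Ts k) N := by
  have hf := name_facts N (by omega)
  obtain ⟨a1, -⟩ := h.ov_facts hL hN
  have := Pool.Agent.Y759.TP2.m_invol h.mat (h.emb_inE (k := k) (d := ov N) (by omega))
  rwa [a1] at this

/-- the partner of a dart which is not a leaf -/
theorem part_in {d : ℕ} (hd : d < 12 * (clu Ts k).length) (h98 : mu (clu Ts k) m (nm d) ≠ 98) :
    part m (emb (clu Ts k) d) = emb (clu Ts k) (sig (mu (clu Ts k) m) d) ∧
      sig (mu (clu Ts k) m) d < 12 * (clu Ts k).length := by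
  set L := clu Ts k with hLd
  set μ := mu L m with hμ
  obtain ⟨N, hN, h1, h2⟩ := dart_cases (by omega : d < 36)
  have hN' : N < 6 * L.length := by omega
  have fN := name_facts N hN
  obtain ⟨a1, a2, a3, a4, a5, a6⟩ := h.ov_facts hL hN'
  have hnm : nm d = N := by rcases h2 with rfl | rfl; exacts [fN.2.2.1, fN.2.2.2.1]
  rw [hnm] at h98
  have hM : μ N < 6 * L.length := (h.mu_cases hL N).resolve_left h98
  have hMN := (h.mu_iff hL hM).1 rfl
  have fM := name_facts _ (by omega : μ N < 18)
  obtain ⟨b1, b2, b3, b4, b5, b6⟩ := h.ov_facts hL hM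
  have pin := h.part_mem (h.emb_inE (k := k) hd)
  by_cases e2 : μ N = N
  · have hmN : m (crs L N) = crs L N := by rw [hMN]; rw [e2]
    rcases h2 with rfl | rfl
    · rw [sig_ov_br hN e2]
      refine ⟨?_, by omega⟩
      have : part m (emb L (ov N)) = (emb L (ov N)).mate := by unfold part; rw [a1, if_pos hmN]
      rw [this]
      refine h.key_eq (h.mate_mem (h.emb_inE (k := k) hd)) (h.emb_inE (k := k) (show _ < 12 * L.length by omega)) ?_ ?_
      · rw [a4]; exact a1
      · rw [a5]; simp only [Pass.mate, Bool.not_eq_false']; exact a2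
    · rw [sig_un_br hN e2]
      refine ⟨?_, by omega⟩
      have : part m (emb L (un N)) = (emb L (un N)).mate := by unfold part; rw [a4, if_pos hmN]
      rw [this]
      refine h.key_eq (h.mate_mem (h.emb_inE (k := k) hd)) (h.emb_inE (k := k) (show _ < 12 * L.length by omega)) ?_ ?_
      · rw [a1]; exact a4
      · rw [a2]; simp only [Pass.mate, Bool.not_eq_true']; exact a5
  · have hmN : m (crs L N) ≠ crs L N := by
      rw [hMN]; intro e; exact e2 (h.crs_inj hL hM hN' e)
    rcases h2 with rfl | rfl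
    · rw [sig_ov hN h98 e2]
      refine ⟨?_, by omega⟩
      have : part m (emb L (ov N)) = ⟨m (crs L N), true, !(emb L (ov N)).isPos⟩ := by
        unfold part; rw [a1, if_neg hmN, a2]
      refine h.key_eq pin (h.emb_inE (k := k) (show _ < 12 * L.length by omega)) ?_ ?_
      · rw [this, b1]; exact hMN
      · rw [this, b2]
    · rw [sig_un hN h98 e2]
      refine ⟨?_, by omega⟩
      have : part m (emb L (un N)) = ⟨m (crs L N), false, !(emb L (un N)).isPos⟩ := by
        unfold part; rw [a4, if_neg hmN, a5]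
      refine h.key_eq pin (h.emb_inE (k := k) (show _ < 12 * L.length by omega)) ?_ ?_
      · rw [this, b4]; exact hMN
      · rw [this, b5]

/-- the partner of a leaf -/
theorem part_out {d : ℕ} (hd : d < 12 * (clu Ts k).length) (h98 : mu (clu Ts k) m (nm d) = 98) :
    part m (emb (clu Ts k) d) ∈ passes D := by
  have pE := h.part_mem (h.emb_inE (k := k) hd)
  rw [passes_append'] at pE
  rcases List.mem_append.1 pE with hp | hp
  · exact hp
  · exfalso
    have hc : colour (part m (emb (clu Ts k) d)).crossing = k := by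
      rw [h.col_part (h.emb_inE (k := k) hd)]
      exact h.col_clu (h.emb_in hd)
    obtain ⟨d', hd', he⟩ := mem_emb.1 (h.in_clu hp hc)
    have f1 := (emb_facts h.nmL hL hd).1
    have f2 := (emb_facts h.nmL hL hd').1
    have g1 := dart_facts d (by omega)
    have g2 := dart_facts d' (by omega)
    have hex : ∃ M < 6 * (clu Ts k).length, m (crs (clu Ts k) (nm d)) = crs (clu Ts k) M := by
      by_cases hm : m (crs (clu Ts k) (nm d)) = crs (clu Ts k) (nm d)
      · exact ⟨nm d, by omega, hm⟩
      · refine ⟨nm d', by omega, ?_⟩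
        have : (part m (emb (clu Ts k) d)).crossing = m (crs (clu Ts k) (nm d)) := by
          unfold part; rw [f1, if_neg hm]
        rw [← this, ← he, f2]
    unfold mu at h98
    rw [dif_pos hex] at h98
    have := hex.choose_spec.1
    omega

/-- leaves are the darts whose partners belong to the link -/
theorem leaf_iff {d : ℕ} (hd : d < 12 * (clu Ts k).length) :
    sig (mu (clu Ts k) m) d = d ↔ part m (emb (clu Ts k) d) ∈ passes D := by
  have g1 := dart_facts d (by omega)
  constructor
  · intro he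
    by_cases h98 : mu (clu Ts k) m (nm d) = 98
    · exact h.part_out hL hd h98
    · exfalso
      have := (h.part_in hL hd h98).1
      rw [he] at this
      exact Pool.Agent.L0h30.SR.part_ne this
  · intro hp
    by_cases h98 : mu (clu Ts k) m (nm d) = 98
    · rcases sig_cases (μ := mu (clu Ts k) m) (by omega : d < 36) with h1 | h1 | h1
      · exact h1.2
      · exact absurd h98 h1.1
      · exact absurd h98 h1.1
    · exfalso
      obtain ⟨h1, h2⟩ := h.part_in hL hd h98
      rw [h1] at hp
      exact h.not_both hp (h.cl_in (h.emb_in h2))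

end Sit

end Pool.Agent.L0h30.TT
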