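import Pool.Agent.L0h30.TT.Mirror

/-! A corner of the link exists if there is no bigon. -/

namespace Pool.Agent.L0h30.TT

open Pool.Agent.Y468.SR
open Pool.Agent.Y874.TP hiding S_REID S_REN S_THREE S_OUT S_CUT S_JUNC CStep CReid CM InvM InvC Inv3
  creid_after same_facts invM_ceq invM_perm
open Pool.Agent.Y874.TP2
open Pool.Agent.R800.BT (Hts Bad)
open Pool.Agent.L0h30.SR (rot Cir rot_mem formPerm_ne)

theorem cycL_formPerm {X : Type} [DecidableEq X] {W : List X} (nd : W.Nodup) {x y : X}
    (h : CycL x y W) : W.formPerm x = y := by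
  rcases h with ⟨u, v, rfl⟩ | ⟨u, rfl⟩
  · have h1 : (u ++ x :: y :: v)[u.length]'(by simp) = x := by simp
    have h2 : (u ++ x :: y :: v)[u.length + 1]'(by simp) = y := by simp
    have := List.formPerm_apply_lt_getElem (u ++ x :: y :: v) nd u.length (by simp)
    rw [h1, h2] at this
    exact this
  · have := List.formPerm_apply_getLast y (u ++ [x])
    rw [List.getLast_cons (by simp), List.getLast_append_singleton] at this
    exact this

theorem sum_single {D Q : Code} {m : ℕ → ℕ} (hn : (D.map Prod.snd).Nodup)
    (wf : WF (passes (D ++ Q))) (mt : Matching (passes (D ++ Q)) m) (nv : NullV (D ++ Q) m)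
    {f : Pass → ℤ} (hf : ∀ p ∈ passes (D ++ Q), f (part m p) = -f p)
    (h0 : ∀ C ∈ Q, (C.1.map f).sum = 0) : ∀ C ∈ D ++ Q, (C.1.map f).sum = 0 := by
  intro C hC
  rcases List.mem_append.1 hC with hC | hC
  · exact (Pool.Agent.Y761.TP2.flow D Q m f f hn wf mt nv (fun p hp => ⟨hf p hp, hf p hp⟩)
      (fun C hC => ⟨h0 C hC, h0 C hC⟩)).1 C hC
  · exact h0 C hC

theorem sum_neg_map {X : Type} (l : List X) (f : X → ℤ) :
    (l.map fun z => -f z).sum = -(l.map f).sum := by
  induction l with
  | nil => simp
  | cons a l ih => rw [List.map_cons, List.map_cons, List.sum_cons, List.sum_cons, ih]; ring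

open Classical in
/-- the number of a dart -/
noncomputable def idx (L : List Tri) (p : Pass) : ℕ :=
  if hp : ∃ d < 12 * L.length, emb L d = p then hp.choose else 0

set_option linter.unusedSectionVars false

namespace Sit
variable {D : Code} {Ts : List Tri} {m : ℕ → ℕ} (h : Sit D Ts m)
include h

theorem idx_spec {k : ℕ} {p : Pass} (hp : p ∈ passes (TC Ts)) (hk : colour p.crossing = k) :
    idx (clu Ts k) p < 12 * (clu Ts k).length ∧ emb (clu Ts k) (idx (clu Ts k) p) = p := by
  have hex : ∃ d < 12 * (clu Ts k).length, emb (clu Ts k) d = p := mem_emb.1 (h.in_clu hp hk)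
  unfold idx
  rw [dif_pos hex]
  exact hex.choose_spec

theorem words_nodup : ((D ++ TC Ts).map Prod.fst).flatten.Nodup := by
  rw [Pool.Agent.Y759.TP2.flatten_fst]
  exact WF.nodup h.wf

theorem rot_emb {k : ℕ} {d : ℕ} (hd : d < 12 * (clu Ts k).length) :
    rot ((D ++ TC Ts).map Prod.fst) (emb (clu Ts k) d) =
      emb (clu Ts k) (nx (dlt (clu Ts k)) d) := by
  obtain ⟨T, hT, W, hW, hc⟩ := emb_next h.nmL hd
  have hWm : W ∈ (D ++ TC Ts).map Prod.fst := by
    rw [List.map_append]
    refine List.mem_append_right _ ?_
    have hTT := (mem_clu.1 hT).1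
    simp only [List.mem_cons, List.not_mem_nil, or_false] at hW
    have : ∃ C ∈ T.code, C.1 = W := by
      rcases hW with rfl | rfl | rfl <;> simp [Tri.code]
    obtain ⟨C, hC, rfl⟩ := this
    exact List.mem_map_of_mem (List.mem_flatMap.2 ⟨T, hTT, hC⟩)
  have hmem : emb (clu Ts k) d ∈ W := by
    rcases hc with ⟨u, v, rfl⟩ | ⟨u, rfl⟩ <;> simp
  rw [rot_mem h.words_nodup hWm hmem]
  exact cycL_formPerm ((List.nodup_flatten.1 h.words_nodup).1 W hWm) hc

theorem rot_inv {k : ℕ} {d : ℕ} (hd : d < 12 * (clu Ts k).length) :
    (rot ((D ++ TC Ts).map Prod.fst))⁻¹ (emb (clu Ts k) (nx (dlt (clu Ts k)) d)) =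
      emb (clu Ts k) d := by
  rw [Equiv.Perm.inv_eq_iff_eq, h.rot_emb hd]

theorem part_cases {x : Pass} (hx : x ∈ passes D) :
    part m x ∈ passes D ∨ (part m x ∉ passes D ∧
      part m x ∈ passes (TC Ts)) := by
  have h1 := h.part_mem (h.inD hx)
  rw [passes_append'] at h1
  by_cases h2 : part m x ∈ passes D
  · exact Or.inl h2
  · exact Or.inr ⟨h2, (List.mem_append.1 h1).resolve_left h2⟩

open Classical in
/-- corners exist -/
theorem corner (hne : passes D ≠ []) (hL : ∀ k, (clu Ts k).length ≤ 3)
    (nb : ∀ (k i j : ℕ) (hi : i < (clu Ts k).length) (hj : j < (clu Ts k).length), i ≠ j →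
      ¬Big (clu Ts k)[i] (clu Ts k)[j] m) :
    (∃ C ∈ D, ∃ x ∈ C.1, CycL x (part m x) C.1) ∨
    ∃ q, Cir Ts q ∧ ∃ C ∈ D, ∃ x y, CycL x (part m y) C.1 ∧ CycL y (part m x) q := by
  have hG : ∀ k, ∃ (P : ℕ) (c : ℕ → ℕ),
      (∀ x < 12 * (clu Ts k).length, sig (mu (clu Ts k) m) x = x → c x < P) ∧
      (∀ x < 12 * (clu Ts k).length, ∀ y < 12 * (clu Ts k).length, sig (mu (clu Ts k) m) x = x →
        sig (mu (clu Ts k) m) y = y → c x = c y →
        Sm (clu Ts k).length (sig (mu (clu Ts k) m)) x y) ∧
      2 * P ≤ ((Finset.range (12 * (clu Ts k).length)).filter fun x =>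
        sig (mu (clu Ts k) m) x = x ∧ sig (mu (clu Ts k) m) (nx (dlt (clu Ts k)) x) =
          nx (dlt (clu Ts k)) x).card := by
    intro k
    by_cases h0 : 1 ≤ (clu Ts k).length
    · exact h.goal (hL k) (nb k) h0
    · exact ⟨0, fun _ => 0, fun x hx => by omega, fun x hx => by omega, by omega⟩
  choose P c hP hS hC using hG
  -- the dart belonging to a passage of the link
  have hdart : ∀ x ∈ passes D, part m x ∉ passes D →
      idx (clu Ts (colour x.crossing)) (part m x) < 12 * (clu Ts (colour x.crossing)).length ∧
      emb (clu Ts (colour x.crossing)) (idx (clu Ts (colour x.crossing)) (part m x)) = part m x ∧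
      sig (mu (clu Ts (colour x.crossing)) m) (idx (clu Ts (colour x.crossing)) (part m x)) =
        idx (clu Ts (colour x.crossing)) (part m x) := by
    intro x hx hpx
    have hT : part m x ∈ passes (TC Ts) := (h.part_cases hx).resolve_left hpx |>.2
    obtain ⟨k1, k2⟩ := h.idx_spec hT (h.col_part (h.inD hx))
    refine ⟨k1, k2, (h.leaf_iff (hL _) k1).2 ?_⟩
    rw [k2, h.part_part (h.inD hx)]
    exact hx
  let κ : Pass → Sym2 Pass ⊕ (ℕ × ℕ) := fun x =>
    if part m x ∈ passes D then Sum.inl s(x, part m x)
    else Sum.inr (colour x.crossing, c (colour x.crossing)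
      (idx (clu Ts (colour x.crossing)) (part m x)))
  have hκ1 : ∀ x, part m x ∈ passes D → κ x = Sum.inl s(x, part m x) := fun x hx => if_pos hx
  have hκ2 : ∀ x, part m x ∉ passes D → κ x = Sum.inr (colour x.crossing, c (colour x.crossing)
      (idx (clu Ts (colour x.crossing)) (part m x))) := fun x hx => if_neg hx
  have hfl : ((D ++ TC Ts).map Prod.fst).flatten = passes (D ++ TC Ts) :=
    Pool.Agent.Y759.TP2.flatten_fst _
  have hflD : (D.map Prod.fst).flatten = passes D := Pool.Agent.Y759.TP2.flatten_fst _
  have hsplit : D.map Prod.fst ++ (TC Ts).map Prod.fst = (D ++ TC Ts).map Prod.fst :=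
    List.map_append.symm
  have key := faces2 (D.map Prod.fst) ((TC Ts).map Prod.fst) (part m) sg
    (by rw [hflD]; exact hne) (by rw [hsplit]; exact h.words_nodup)
    (fun q hq y hy => by
      obtain ⟨C, hC, rfl⟩ := List.mem_map.1 hq
      refine formPerm_ne ?_ ?_ hy
      · exact (List.nodup_flatten.1 h.words_nodup).1 _
          (List.mem_map_of_mem (List.mem_append_right _ hC))
      · rw [Pool.Agent.L0h30.SR.cir_length (Pool.Agent.L0h30.SR.mem_TC hC)]; norm_num)
    (fun x hx => by
      rw [hsplit, hfl] at hx ⊢
      refine ⟨h.part_mem hx, h.part_part hx, Pool.Agent.Y759.TP2.sg_part m x, ?_⟩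
      unfold sg
      split_ifs
      · exact Or.inl rfl
      · exact Or.inr rfl)
    (fun f g h0 hfg hsum => by
      rw [hsplit] at h0 hfg hsum ⊢
      rw [hfl] at hfg
      have k3 := (Pool.Agent.Y761.TP2.flow D (TC Ts) m f g h.hn h.wf h.mat h.nv hfg
        (fun C hC => hsum C.1 (List.mem_map_of_mem (List.mem_append_right _ hC)))).2
      rw [List.map_map]
      exact k3)
    κ ?_ ?_
  · rcases key with ⟨w, hw, x, hx, hc⟩ | ⟨q, hq, w, hw, x, y, h1, h2⟩
    · obtain ⟨C, hC, rfl⟩ := List.mem_map.1 hw
      exact Or.inl ⟨C, hC, x, hx, hc⟩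
    · obtain ⟨C, hC, rfl⟩ := List.mem_map.1 hw
      obtain ⟨C', hC', rfl⟩ := List.mem_map.1 hq
      exact Or.inr ⟨C'.1, Pool.Agent.L0h30.SR.mem_TC hC', C, hC, x, y, h1, h2⟩
  · -- classes
    intro x hx y hy he
    rw [hflD] at hx hy
    rw [hsplit, hfl, hflD]
    by_cases hxy : x = y
    · exact Or.inl hxy
    right
    have toD : ∀ f : Pass → ℤ, (∀ p ∈ passes (D ++ TC Ts), f (part m p) = -f p) →
        (∀ C ∈ TC Ts, (C.1.map f).sum = 0) → ∀ q ∈ (D ++ TC Ts).map Prod.fst, (q.map f).sum = 0 := by
      intro f hf h0 q hq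
      obtain ⟨C, hC, rfl⟩ := List.mem_map.1 hq
      exact sum_single h.hn h.wf h.mat h.nv hf h0 C hC
    by_cases hpx : part m x ∈ passes D
    · by_cases hpy : part m y ∈ passes D
      · rw [hκ1 x hpx, hκ1 y hpy] at he
        have he' := Sum.inl.inj he
        rw [Sym2.eq_iff] at he'
        have hyx : y = part m x := by
          rcases he' with h1 | h1
          · exact absurd h1.1 hxy
          · exact h1.2.symm
        have hxx := h.part_part (h.inD hx)
        let f : Pass → ℤ := fun p => (if p = x then 1 else 0) - if p = y then 1 else 0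
        have hf : ∀ p ∈ passes (D ++ TC Ts), f (part m p) = -f p := by
          intro p hp
          have i1 : part m p = x ↔ p = y := by
            rw [hyx]
            constructor
            · intro e; rw [← h.part_part hp, e]
            · intro e; rw [e, hxx]
          have i2 : part m p = y ↔ p = x := by
            rw [hyx]
            constructor
            · intro e; rw [← h.part_part hp, e, hxx]
            · intro e; rw [e]
          simp only [f, i1, i2]
          ring
        have hQ : ∀ C ∈ TC Ts, (C.1.map f).sum = 0 := by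
          intro C hC
          have : C.1.map f = C.1.map fun _ => 0 := by
            refine List.map_congr_left fun p hp => ?_
            have hpT : p ∈ passes (TC Ts) := mem_passes.2 ⟨C, hC, hp⟩
            simp only [f]
            rw [if_neg, if_neg, sub_zero]
            · rintro rfl; exact h.not_both hy hpT
            · rintro rfl; exact h.not_both hx hpT
          rw [this]; simp
        refine ⟨f, hf, toD f hf hQ, ?_, ?_, fun z _ hz1 hz2 => ?_⟩
        · simp [f, hxy]
        · simp [f, Ne.symm hxy]
        · simp [f, hz1, hz2]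
      · rw [hκ1 x hpx, hκ2 y hpy] at he
        exact absurd he (by simp)
    · by_cases hpy : part m y ∈ passes D
      · rw [hκ2 x hpx, hκ1 y hpy] at he
        exact absurd he (by simp)
      · rw [hκ2 x hpx, hκ2 y hpy] at he
        have he' := Prod.mk.inj (Sum.inr.inj he)
        obtain ⟨d1, d2, d3⟩ := hdart x hx hpx
        obtain ⟨e1, e2, e3⟩ := hdart y hy hpy
        rw [← he'.1] at e1 e2 e3
        have hc2 := he'.2
        rw [← he'.1] at hc2
        generalize colour x.crossing = k at *
        set d := idx (clu Ts k) (part m x) with hd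
        set e := idx (clu Ts k) (part m y) with he0
        rcases hS k d d1 e e1 d3 e3 hc2 with h1 | ⟨p, p1, p2, p3, p4⟩
        · exfalso
          apply hxy
          rw [← h.part_part (h.inD hx), ← d2, h1, e2, h.part_part (h.inD hy)]
        · have hval : ∀ z ∈ passes D, ∀ a < 12 * (clu Ts k).length, emb (clu Ts k) a = part m z →
              -ext (clu Ts k) m p z = p a := by
            intro z hz a ha hza
            have := h.ext_part (hL k) p p1 (h.inD hz)
            rw [← hza, h.ext_emb (hL k) p ha] at this
            linarith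
          have hf : ∀ q ∈ passes (D ++ TC Ts),
              (fun z => -ext (clu Ts k) m p z) (part m q) = -(fun z => -ext (clu Ts k) m p z) q := by
            intro q hq
            beta_reduce
            rw [h.ext_part (hL k) p p1 hq]
          have hQ : ∀ C ∈ TC Ts, (C.1.map fun z => -ext (clu Ts k) m p z).sum = 0 := by
            intro C hC
            rw [sum_neg_map, h.ext_sum (hL k) p p1 C hC, neg_zero]
          refine ⟨fun z => -ext (clu Ts k) m p z, hf, toD _ hf hQ, ?_, ?_, fun z hz hz1 hz2 => ?_⟩
          · beta_reduce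
            rw [hval x hx d d1 d2]; exact p2
          · beta_reduce
            rw [hval y hy e e1 e2]; exact p3
          · beta_reduce
            by_cases hex : ∃ a < 12 * (clu Ts k).length, emb (clu Ts k) a = part m z
            · obtain ⟨a, ha, hza⟩ := hex
              rw [hval z hz a ha hza]
              refine p4 a ha ?_ ?_ ?_
              · refine (h.leaf_iff (hL k) ha).2 ?_
                rw [hza, h.part_part (h.inD hz)]
                exact hz
              · intro ea
                apply hz1
                rw [← h.part_part (h.inD hz), ← hza, ea, d2, h.part_part (h.inD hx)]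
              · intro ea
                apply hz2
                rw [← h.part_part (h.inD hz), ← hza, ea, e2, h.part_part (h.inD hy)]
            · have : ext (clu Ts k) m p z = 0 := by
                unfold ext
                rw [dif_neg, dif_neg hex]
                rintro ⟨a, ha, hza⟩
                rw [← hza] at hz
                exact h.not_both hz (h.cl_in (h.emb_in ha))
              rw [this, neg_zero]
  · -- counting
    rw [hflD, hsplit]
    have hmemG : ∀ x ∈ passes D, part m x ∈ passes D →
        (part m x ∈ passes D ∨ part m ((rot ((D ++ TC Ts).map Prod.fst))⁻¹ (part m x)) ∈ passes D) :=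
      fun x _ hx => Or.inl hx
    set W := (passes D).toFinset with hW
    set A := W.filter (fun x => part m x ∈ passes D) with hA
    set B := W.filter (fun x => part m x ∉ passes D) with hB
    set G := W.filter (fun x => part m x ∈ passes D ∨
      part m ((rot ((D ++ TC Ts).map Prod.fst))⁻¹ (part m x)) ∈ passes D) with hGd
    set Ks : Finset ℕ := (Ts.map fun T => colour T.a₁).toFinset with hKs
    let Cn : ℕ → Finset ℕ := fun k => (Finset.range (12 * (clu Ts k).length)).filter fun x =>
        sig (mu (clu Ts k) m) x = x ∧ sig (mu (clu Ts k) m) (nx (dlt (clu Ts k)) x) =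
          nx (dlt (clu Ts k)) x
    -- the classes of the first kind
    have c1 : 2 * (A.image κ).card ≤ A.card := by
      refine Finset.mul_card_image_le_card A 2 fun a ha => ?_
      obtain ⟨x, hx, rfl⟩ := Finset.mem_image.1 ha
      rw [hA, Finset.mem_filter, hW, List.mem_toFinset] at hx
      have hxx := h.part_part (h.inD hx.1)
      have hsub : ({x, part m x} : Finset Pass) ⊆ A.filter fun z => κ z = κ x := by
        intro z hz
        rw [Finset.mem_insert, Finset.mem_singleton] at hz
        rw [Finset.mem_filter, hA, Finset.mem_filter, hW, List.mem_toFinset]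
        rcases hz with rfl | rfl
        · exact ⟨⟨hx.1, hx.2⟩, rfl⟩
        · refine ⟨⟨hx.2, by rw [hxx]; exact hx.1⟩, ?_⟩
          rw [hκ1 _ (by rw [hxx]; exact hx.1), hκ1 x hx.2, hxx, Sym2.eq_swap]
      have h2 : ({x, part m x} : Finset Pass).card = 2 :=
        Finset.card_pair (Ne.symm Pool.Agent.L0h30.SR.part_ne)
      rw [← h2]
      exact Finset.card_le_card hsub
    -- the classes of the second kind
    have c2 : (B.image κ).card ≤ ∑ k ∈ Ks, P k := by
      have hsub : B.image κ ⊆ (Ks.sigma fun k => Finset.range (P k)).image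
          fun s => Sum.inr (s.1, s.2) := by
        intro a ha
        obtain ⟨x, hx, rfl⟩ := Finset.mem_image.1 ha
        rw [hB, Finset.mem_filter, hW, List.mem_toFinset] at hx
        obtain ⟨d1, d2, d3⟩ := hdart x hx.1 hx.2
        rw [hκ2 x hx.2, Finset.mem_image]
        refine ⟨⟨colour x.crossing, c (colour x.crossing)
          (idx (clu Ts (colour x.crossing)) (part m x))⟩, ?_, rfl⟩
        rw [Finset.mem_sigma, Finset.mem_range]
        refine ⟨?_, hP _ _ d1 d3⟩
        have hpos : 0 < (clu Ts (colour x.crossing)).length := by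
          by_contra hcon
          have : (clu Ts (colour x.crossing)).length = 0 := by omega
          rw [this] at d1
          simp at d1
        obtain ⟨T, hT⟩ := List.exists_mem_of_length_pos hpos
        obtain ⟨t1, t2⟩ := mem_clu.1 hT
        rw [hKs, List.mem_toFinset, List.mem_map]
        exact ⟨T, t1, t2⟩
      refine (Finset.card_le_card hsub).trans (Finset.card_image_le.trans ?_)
      rw [Finset.card_sigma]
      simp
    -- the corners
    have c3 : ∑ k ∈ Ks, (Cn k).card ≤ (G ∩ B).card := by
      rw [← Finset.card_sigma]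
      refine Finset.card_le_card_of_injOn
        (fun s => part m (emb (clu Ts s.1) (nx (dlt (clu Ts s.1)) s.2))) ?_ ?_
      · rintro ⟨k, d⟩ hs
        rw [Finset.mem_coe, Finset.mem_sigma] at hs
        obtain ⟨-, hd⟩ := hs
        simp only [Cn, Finset.mem_filter, Finset.mem_range] at hd
        obtain ⟨d1, d2, d3⟩ := hd
        have hn1 := nx_lt (δ := dlt (clu Ts k)) d1
        have p1 := (h.leaf_iff (hL k) hn1).1 d3
        have p2 := (h.leaf_iff (hL k) d1).1 d2
        have p3 := h.part_part (h.emb_inE (k := k) hn1)
        have p4 : part m (part m (emb (clu Ts k) (nx (dlt (clu Ts k)) d))) ∉ passes D := by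
          rw [p3]
          exact fun hx => h.not_both hx (h.cl_in (h.emb_in hn1))
        rw [Finset.mem_coe, Finset.mem_inter, hGd, hB, Finset.mem_filter, Finset.mem_filter, hW,
          List.mem_toFinset]
        refine ⟨⟨p1, Or.inr ?_⟩, p1, p4⟩
        beta_reduce
        rw [p3, h.rot_inv d1]
        exact p2
      · rintro ⟨k, d⟩ hs ⟨k', d'⟩ hs' he
        rw [Finset.mem_coe, Finset.mem_sigma] at hs hs'
        obtain ⟨-, hd⟩ := hs
        obtain ⟨-, hd'⟩ := hs'
        simp only [Cn, Finset.mem_filter, Finset.mem_range] at hd hd'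
        have hn1 := nx_lt (δ := dlt (clu Ts k)) hd.1
        have hn2 := nx_lt (δ := dlt (clu Ts k')) hd'.1
        have e1 : emb (clu Ts k) (nx (dlt (clu Ts k)) d) =
            emb (clu Ts k') (nx (dlt (clu Ts k')) d') := by
          rw [← h.part_part (h.emb_inE (k := k) hn1), ← h.part_part (h.emb_inE (k := k') hn2)]
          exact congrArg (part m) he
        have e2 : k = k' := by
          rw [← h.col_clu (h.emb_in hn1), ← h.col_clu (h.emb_in hn2), e1]
        subst e2
        have e3 := emb_inj h.ndL hn1 hn2 e1
        have e4 : d = d' := by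
          rw [← pv_nx (dlt (clu Ts k)) d, e3, pv_nx]
        rw [e4]
    have c4 : 2 * ∑ k ∈ Ks, P k ≤ ∑ k ∈ Ks, (Cn k).card := by
      rw [Finset.mul_sum]
      exact Finset.sum_le_sum fun k _ => hC k
    have c5 : (W.image κ).card ≤ (A.image κ).card + (B.image κ).card := by
      have : W.image κ ⊆ A.image κ ∪ B.image κ := by
        intro a ha
        obtain ⟨x, hx, rfl⟩ := Finset.mem_image.1 ha
        rw [Finset.mem_union]
        by_cases hpx : part m x ∈ passes D
        · exact Or.inl (Finset.mem_image_of_mem _ (Finset.mem_filter.2 ⟨hx, hpx⟩))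
        · exact Or.inr (Finset.mem_image_of_mem _ (Finset.mem_filter.2 ⟨hx, hpx⟩))
      exact (Finset.card_le_card this).trans (Finset.card_union_le _ _)
    have c6 : A.card + (G ∩ B).card ≤ G.card := by
      have hdis : Disjoint A (G ∩ B) := by
        rw [Finset.disjoint_left]
        intro x hx hx'
        rw [hA, Finset.mem_filter] at hx
        exact (Finset.mem_filter.1 (Finset.mem_inter.1 hx').2).2 hx.2
      rw [← Finset.card_union_of_disjoint hdis]
      refine Finset.card_le_card ?_
      intro x hx
      rcases Finset.mem_union.1 hx with hx | hx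
      · rw [hA, Finset.mem_filter] at hx
        rw [hGd, Finset.mem_filter]
        exact ⟨hx.1, Or.inl hx.2⟩
      · exact (Finset.mem_inter.1 hx).1
    omega

end Sit

end Pool.Agent.L0h30.TT
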