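import Pool.Agent.L0h30.SR.Euler

/-! Counting corners in planar arrangements of curves. -/

namespace Pool.Agent.L0h30.TT

open Module
open Pool.Agent.L0h30.SR

section
variable {X V : Type} [Fintype X] [DecidableEq X] [Fintype V] [DecidableEq V]

/-- a flow is given by a function on the faces -/
theorem cobound (ρ σ : Equiv.Perm X) (hσ : ∀ x, σ (σ x) = x) (v : X → V)
    (hρ : ∀ x, v (ρ x) = v x) (r : X → ℚ) (hr : ∀ x, r x = 1 ∨ r x = -1)
    (hr' : ∀ x, r (σ x) = -r x)
    (hex : ∀ f : X → ℚ, (∀ x, f (σ x) = -f x) → (∀ w, ∑ x with v x = w, f x = 0) →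
      ∃ s : X → ℚ, (∀ x, s (ρ x) - s x = f (ρ x)) ∧ ∀ g : X → ℚ, (∀ x, g (σ x) = -g x) →
        (∀ w, ∑ x with v x = w, g x = 0) → ∑ x, g x * (s x - s (σ x) - f x) = 0)
    {f : X → ℚ} (hf : ∀ x, f (σ x) = -f x) (hf0 : ∀ w, ∑ x with v x = w, f x = 0) :
    ∃ u : X → ℚ, (∀ x, u (ρ⁻¹ (σ x)) = u x) ∧ ∀ x, f x = u x - u (ρ⁻¹ x) := by
  obtain ⟨s, hs, hg⟩ := hex f hf hf0
  set h : X → ℚ := fun x => s x - s (σ x) - f x with hh
  have hhσ : ∀ x, h (σ x) = -h x := by
    intro x
    simp only [hh, hσ, hf]; ring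
  let ℓ : SA σ →ₗ[ℚ] ℚ :=
    { toFun := fun g => ∑ x, g.1 x * h x
      map_add' := by
        intro a b
        rw [← Finset.sum_add_distrib]
        refine Finset.sum_congr rfl fun x _ => ?_
        change (a.1 x + b.1 x) * h x = _
        ring
      map_smul' := by
        intro c a
        simp only [RingHom.id_apply, smul_eq_mul]
        rw [Finset.mul_sum]
        refine Finset.sum_congr rfl fun x _ => ?_
        change (c * a.1 x) * h x = _
        ring }
  have hℓ : ℓ ∈ LinearMap.range (bd σ v).dualMap := by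
    rw [LinearMap.range_dualMap_eq_dualAnnihilator_ker, Submodule.mem_dualAnnihilator]
    intro g hg'
    exact hg g.1 g.2 fun w => congrFun (LinearMap.mem_ker.1 hg') w
  obtain ⟨c, hc⟩ := hℓ
  have hc' : ∀ g : SA σ, ∑ x, g.1 x * h x = c (bd σ v g) := fun g => by
    have := LinearMap.congr_fun hc g
    exact this.symm
  have hnf : ∀ x, σ x ≠ x := by
    intro x hx
    have h1 := hr' x
    rw [hx] at h1
    rcases hr x with h2 | h2 <;> rw [h2] at h1 <;> norm_num at h1
  have h9 : ∀ x, 2 * h x = c (Pi.single (v x) 1) - c (Pi.single (v (σ x)) 1) := by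
    intro x
    have hgx : (Pi.single x 1 - Pi.single (σ x) 1 : X → ℚ) ∈ SA σ := by
      intro y
      simp only [Pi.sub_apply, Pi.single_apply]
      by_cases e1 : y = x
      · subst e1
        simp [hnf y, (hnf y).symm]
      · by_cases e2 : y = σ x
        · subst e2
          simp [hσ, hnf x, (hnf x).symm]
        · have e3 : σ y ≠ x := fun e => e2 (by rw [← e, hσ])
          have e4 : σ y ≠ σ x := fun e => e1 (σ.injective e)
          simp [e1, e2, e3]
    have e1 := hc' ⟨_, hgx⟩
    have e2 : ∑ y, (Pi.single x 1 - Pi.single (σ x) 1 : X → ℚ) y * h y = 2 * h x := by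
      have : ∀ y, (Pi.single x 1 - Pi.single (σ x) 1 : X → ℚ) y * h y =
          (if y = x then h y else 0) - (if y = σ x then h y else 0) := by
        intro y
        simp only [Pi.sub_apply, Pi.single_apply]
        split_ifs <;> ring
      rw [Finset.sum_congr rfl fun y _ => this y, Finset.sum_sub_distrib,
        Finset.sum_ite_eq', Finset.sum_ite_eq']
      simp only [Finset.mem_univ, if_true, hhσ]; ring
    have e3 : bd σ v ⟨_, hgx⟩ = Pi.single (v x) 1 - Pi.single (v (σ x)) 1 := by
      ext w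
      change ∑ y with v y = w, (Pi.single x 1 - Pi.single (σ x) 1 : X → ℚ) y = _
      simp only [Pi.sub_apply, Pi.single_apply]
      rw [Finset.sum_sub_distrib, Finset.sum_ite_eq', Finset.sum_ite_eq']
      simp only [Finset.mem_filter, Finset.mem_univ, true_and, eq_comm (a := w)]
    change ∑ y, (Pi.single x 1 - Pi.single (σ x) 1 : X → ℚ) y * h y = _ at e1
    rw [e2, e3, map_sub] at e1
    exact e1
  set C : V → ℚ := fun w => c (Pi.single w 1) with hC
  have h9' : ∀ x, 2 * h x = C (v x) - C (v (σ x)) := h9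
  have hρ' : ∀ x, v (ρ⁻¹ x) = v x := by
    intro x
    have := hρ (ρ⁻¹ x)
    rw [show ρ (ρ⁻¹ x) = x from Equiv.apply_symm_apply ρ x] at this
    exact this.symm
  have hs' : ∀ x, s (ρ⁻¹ x) = s x - f x := by
    intro x
    have := hs (ρ⁻¹ x)
    rw [show ρ (ρ⁻¹ x) = x from Equiv.apply_symm_apply ρ x] at this
    linarith
  refine ⟨fun x => s x - C (v x) / 2, ?_, ?_⟩
  · intro x
    change s (ρ⁻¹ (σ x)) - C (v (ρ⁻¹ (σ x))) / 2 = s x - C (v x) / 2
    rw [hs', hρ', hf]
    have e1 := h9' x
    have e2 : h x = s x - s (σ x) - f x := rfl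
    linarith
  · intro x
    change f x = (s x - C (v x) / 2) - (s (ρ⁻¹ x) - C (v (ρ⁻¹ x)) / 2)
    rw [hs', hρ']; ring

end

section
variable {X K : Type} [Fintype X] [DecidableEq X] [DecidableEq K]

/-- dimension count: `W` is a set of darts closed under the rotation, `κ` divides it into classes -/
theorem dims (ρ φ : Equiv.Perm X) (W : Finset X) (hW : W.Nonempty) (hρW : ∀ x ∈ W, ρ⁻¹ x ∈ W)
    (κ : X → K)
    (hκ : ∀ x ∈ W, ∀ y ∈ W, κ x = κ y → x = y ∨ ∃ u : X → ℚ, (∀ z, u (φ z) = u z) ∧
      u x - u (ρ⁻¹ x) = 1 ∧ u y - u (ρ⁻¹ y) = -1 ∧ ∀ z ∈ W, z ≠ x → z ≠ y → u z - u (ρ⁻¹ z) = 0)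
    (s : Setoid {x // x ∈ W}) (hs : ∀ x y : {x // x ∈ W}, s x y ↔ φ.SameCycle x.1 y.1)
    [Fintype (Quotient s)] : W.card + 1 ≤ (W.image κ).card + Fintype.card (Quotient s) := by
  classical
  let Y := {x // x ∈ W}
  let I := {k // k ∈ W.image κ}
  let kk : Y → I := fun x => ⟨κ x.1, Finset.mem_image_of_mem κ x.2⟩
  -- sums over the classes
  let S : (Y → ℚ) →ₗ[ℚ] (I → ℚ) :=
    { toFun := fun a i => ∑ x with kk x = i, a x
      map_add' := by
        intro a b; ext i
        simp only [Pi.add_apply]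
        rw [← Finset.sum_add_distrib]
      map_smul' := by
        intro c a; ext i
        simp only [Pi.smul_apply, smul_eq_mul, RingHom.id_apply]
        rw [Finset.mul_sum] }
  let pr : Y → Y := fun x => ⟨ρ⁻¹ x.1, hρW _ x.2⟩
  let B : (Quotient s → ℚ) →ₗ[ℚ] (Y → ℚ) :=
    { toFun := fun w x => w (Quotient.mk s x) - w (Quotient.mk s (pr x))
      map_add' := by intro a b; ext x; simp only [Pi.add_apply]; ring
      map_smul' := by
        intro c a; ext x
        simp only [Pi.smul_apply, smul_eq_mul, RingHom.id_apply]; ring }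
  have h1 := LinearMap.finrank_range_add_finrank_ker S
  have h2 := LinearMap.finrank_range_add_finrank_ker B
  rw [Module.finrank_fintype_fun_eq_card] at h1 h2
  have h3 : finrank ℚ (LinearMap.range S) ≤ Fintype.card I := by
    have := Submodule.finrank_le (LinearMap.range S)
    rwa [Module.finrank_fintype_fun_eq_card] at this
  have h4 : 0 < finrank ℚ (LinearMap.ker B) := by
    have h6 : (fun _ => 1 : Quotient s → ℚ) ∈ LinearMap.ker B := by
      rw [LinearMap.mem_ker]
      ext x
      change (1 : ℚ) - 1 = 0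
      ring
    have h7 : LinearMap.ker B ≠ ⊥ := by
      intro h
      rw [h, Submodule.mem_bot] at h6
      obtain ⟨x, hx⟩ := hW
      have : (fun _ => 1 : Quotient s → ℚ) (Quotient.mk s ⟨x, hx⟩) = 0 :=
        congrFun h6 (Quotient.mk s ⟨x, hx⟩)
      exact one_ne_zero this
    exact Submodule.one_le_finrank_iff.2 h7
  -- differences of indicator functions
  have key : ∀ x y : Y, kk x = kk y → (Pi.single x 1 - Pi.single y 1 : Y → ℚ) ∈ LinearMap.range B := by
    intro x y hxy
    have hxy' : κ x.1 = κ y.1 := congrArg Subtype.val hxy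
    rcases hκ x.1 x.2 y.1 y.2 hxy' with h | ⟨u, hu, u1, u2, u3⟩
    · have : x = y := Subtype.ext h
      rw [this, sub_self]
      exact Submodule.zero_mem _
    · have hcyc : ∀ a b, φ.SameCycle a b → u a = u b := by
        intro a b hab
        have hn : ∀ (n : ℕ) a, u ((φ ^ n) a) = u a := by
          intro n
          induction n with
          | zero => intro a; rfl
          | succ n ih => intro a; rw [pow_succ, Equiv.Perm.mul_apply, ih, hu]
        obtain ⟨n, hn'⟩ := hab.exists_pow_eq'
        obtain ⟨-, hn'⟩ := hn'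
        rw [← hn', hn]
      let w : Quotient s → ℚ := Quotient.lift (fun x : Y => u x.1) fun a b hab =>
        hcyc _ _ ((hs a b).1 hab)
      refine ⟨w, ?_⟩
      ext z
      change u z.1 - u (ρ⁻¹ z.1) = (Pi.single x 1 : Y → ℚ) z - (Pi.single y 1 : Y → ℚ) z
      have hne : x ≠ y := by
        rintro rfl
        rw [u1] at u2; norm_num at u2
      rw [Pi.single_apply, Pi.single_apply]
      by_cases e1 : z = x
      · rw [if_pos e1, if_neg (by rw [e1]; exact hne), e1, u1]; ring
      · by_cases e2 : z = y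
        · rw [if_neg e1, if_pos e2, e2, u2]; ring
        · rw [if_neg e1, if_neg e2, u3 z.1 z.2 (fun e => e1 (Subtype.ext e))
            fun e => e2 (Subtype.ext e)]; ring
  have h5 : LinearMap.ker S ≤ LinearMap.range B := by
    intro a ha
    rw [LinearMap.mem_ker] at ha
    have hrep : ∀ i : I, ∃ x : Y, kk x = i := by
      rintro ⟨k, hk⟩
      obtain ⟨x, hx, rfl⟩ := Finset.mem_image.1 hk
      exact ⟨⟨x, hx⟩, rfl⟩
    choose rep hrep using hrep
    have e1 : a = ∑ x, a x • (Pi.single x 1 - Pi.single (rep (kk x)) 1 : Y → ℚ) := by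
      have e2 : ∑ x, a x • (Pi.single x 1 : Y → ℚ) = a := by
        ext z
        rw [Finset.sum_apply]
        simp only [Pi.smul_apply, Pi.single_apply, smul_eq_mul, mul_ite, mul_one, mul_zero]
        rw [Finset.sum_ite_eq]
        simp
      have e3 : ∑ x, a x • (Pi.single (rep (kk x)) 1 : Y → ℚ) = 0 := by
        rw [← Finset.sum_fiberwise Finset.univ kk]
        refine Finset.sum_eq_zero fun i _ => ?_
        have : ∀ x ∈ Finset.univ.filter (fun x => kk x = i),
            a x • (Pi.single (rep (kk x)) 1 : Y → ℚ) = a x • (Pi.single (rep i) 1 : Y → ℚ) := by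
          intro x hx
          rw [(Finset.mem_filter.1 hx).2]
        rw [Finset.sum_congr rfl this, ← Finset.sum_smul]
        have h0 : ∑ x with kk x = i, a x = 0 := congrFun ha i
        rw [h0, zero_smul]
      simp only [smul_sub]
      rw [Finset.sum_sub_distrib, e2, e3, sub_zero]
    rw [e1]
    refine Submodule.sum_mem _ fun x _ => Submodule.smul_mem _ _ (key x _ ?_)
    rw [hrep]
  have h6 := Submodule.finrank_mono h5
  have h7 : Fintype.card Y = W.card := Fintype.card_coe W
  have h8 : Fintype.card I = (W.image κ).card := Fintype.card_coe _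
  rw [h7] at h1
  rw [h8] at h3
  omega

/-- There is a short cycle, if at least two members of `W` for each class are followed by members of
`W` after at most two steps. -/
theorem count (ρ φ : Equiv.Perm X) (W : Finset X) (hW : W.Nonempty) (hρW : ∀ x ∈ W, ρ⁻¹ x ∈ W)
    (κ : X → K)
    (hκ : ∀ x ∈ W, ∀ y ∈ W, κ x = κ y → x = y ∨ ∃ u : X → ℚ, (∀ z, u (φ z) = u z) ∧
      u x - u (ρ⁻¹ x) = 1 ∧ u y - u (ρ⁻¹ y) = -1 ∧ ∀ z ∈ W, z ≠ x → z ≠ y → u z - u (ρ⁻¹ z) = 0)
    (hg : 2 * (W.image κ).card ≤ (W.filter fun x => φ x ∈ W ∨ φ (φ x) ∈ W).card) :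
    ∃ x ∈ W, φ x = x ∨ (φ x ∉ W ∧ φ (φ x) = x) := by
  classical
  by_contra hcon
  push Not at hcon
  let s : Setoid {x // x ∈ W} :=
    ⟨fun x y => φ.SameCycle x.1 y.1, fun x => Equiv.Perm.SameCycle.refl _ _,
      fun h => h.symm, fun h h' => h.trans h'⟩
  have : Fintype (Quotient s) := Fintype.ofFinite _
  have h1 := dims ρ φ W hW hρW κ hκ s fun x y => Iff.rfl
  set G := W.filter fun x => φ x ∈ W ∨ φ (φ x) ∈ W with hG
  -- partner in the cycle
  have hpart : ∀ x ∈ G, ∃ y ∈ W, y ≠ x ∧ φ.SameCycle x y := by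
    intro x hx
    rw [hG, Finset.mem_filter] at hx
    obtain ⟨hxW, hx⟩ := hx
    obtain ⟨h2, h3⟩ := hcon x hxW
    by_cases h4 : φ x ∈ W
    · exact ⟨φ x, h4, h2, Equiv.Perm.sameCycle_apply_right.2 (Equiv.Perm.SameCycle.refl _ _)⟩
    · rcases hx with hx | hx
      · exact absurd hx h4
      · refine ⟨φ (φ x), hx, h3 h4, ?_⟩
        exact Equiv.Perm.sameCycle_apply_right.2 (Equiv.Perm.sameCycle_apply_right.2
          (Equiv.Perm.SameCycle.refl _ _))
  -- counting
  let q : {x // x ∈ W} → Quotient s := fun x => Quotient.mk s x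
  have h2 : (G.card : ℤ) ≤ 2 * (W.card : ℤ) - 2 * Fintype.card (Quotient s) := by
    have c1 : (W.card : ℤ) = ∑ i : Quotient s, ((Finset.univ.filter fun x => q x = i).card : ℤ) := by
      rw [← Fintype.card_coe W]
      have := Finset.card_eq_sum_card_fiberwise (s := (Finset.univ : Finset {x // x ∈ W}))
        (t := (Finset.univ : Finset (Quotient s))) (f := q) (fun _ _ => Finset.mem_coe.2 (Finset.mem_univ _))
      rw [← Finset.card_univ, this]
      push_cast
      rfl
    have c2 : (G.card : ℤ) = ∑ i : Quotient s,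
        ((Finset.univ.filter fun x : {x // x ∈ W} => x.1 ∈ G ∧ q x = i).card : ℤ) := by
      have e1 : G.card = (Finset.univ.filter fun x : {x // x ∈ W} => x.1 ∈ G).card := by
        refine (Finset.card_nbij (fun x => x.1) ?_ ?_ ?_).symm
        · intro x hx
          rw [Finset.mem_coe, Finset.mem_filter] at hx
          exact hx.2
        · intro x _ y _ h; exact Subtype.ext h
        · intro x hx
          have hx' : x ∈ W := (Finset.mem_filter.1 (Finset.mem_coe.1 hx)).1
          exact ⟨⟨x, hx'⟩, by simpa using hx, rfl⟩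
      rw [e1]
      have := Finset.card_eq_sum_card_fiberwise
        (s := (Finset.univ.filter fun x : {x // x ∈ W} => x.1 ∈ G))
        (t := (Finset.univ : Finset (Quotient s))) (f := q) (fun _ _ => Finset.mem_coe.2 (Finset.mem_univ _))
      rw [this]
      push_cast
      refine Finset.sum_congr rfl fun i _ => ?_
      rw [Finset.filter_filter]
    have c3 : (Fintype.card (Quotient s) : ℤ) = ∑ i : Quotient s, (1 : ℤ) := by
      rw [Finset.sum_const, Finset.card_univ, nsmul_eq_mul, mul_one]
    rw [c1, c2, c3, Finset.mul_sum, Finset.mul_sum, ← Finset.sum_sub_distrib]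
    refine Finset.sum_le_sum fun i _ => ?_
    obtain ⟨x, hx⟩ := Quotient.exists_rep i
    have hle : (Finset.univ.filter fun x : {x // x ∈ W} => x.1 ∈ G ∧ q x = i).card ≤
        (Finset.univ.filter fun x => q x = i).card := by
      refine Finset.card_le_card fun y hy => ?_
      rw [Finset.mem_filter] at hy ⊢
      exact ⟨hy.1, hy.2.2⟩
    have hpos : 1 ≤ (Finset.univ.filter fun x => q x = i).card := by
      rw [Nat.one_le_iff_ne_zero, Ne, Finset.card_eq_zero]
      intro h
      have : x ∈ Finset.univ.filter fun x => q x = i := by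
        rw [Finset.mem_filter]; exact ⟨Finset.mem_univ _, hx⟩
      rw [h] at this
      exact absurd this (by simp)
    by_cases h0 : (Finset.univ.filter fun x : {x // x ∈ W} => x.1 ∈ G ∧ q x = i).card = 0
    · rw [h0]; push_cast; omega
    · have htwo : 2 ≤ (Finset.univ.filter fun x => q x = i).card := by
        obtain ⟨y, hy⟩ := Finset.card_pos.1 (Nat.pos_of_ne_zero h0)
        rw [Finset.mem_filter] at hy
        obtain ⟨z, hz, hzy, hcy⟩ := hpart y.1 hy.2.1
        have hzi : q ⟨z, hz⟩ = i := by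
          rw [← hy.2.2]
          exact Quotient.sound hcy.symm
        have hsub : ({y, ⟨z, hz⟩} : Finset {x // x ∈ W}) ⊆ Finset.univ.filter fun x => q x = i := by
          intro a ha
          simp only [Finset.mem_insert, Finset.mem_singleton] at ha
          rw [Finset.mem_filter]
          rcases ha with rfl | rfl
          · exact ⟨Finset.mem_univ _, hy.2.2⟩
          · exact ⟨Finset.mem_univ _, hzi⟩
        have := Finset.card_le_card hsub
        rwa [Finset.card_pair] at this
        intro e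
        exact hzy (congrArg Subtype.val e).symm
      omega
  omega

end

end Pool.Agent.L0h30.TT
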