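import Pool.Agent.L0h30.TT.Algo

/-!
# Gluings of the circles around few triple points

`μ` is the matching of the names of the double curves at the triple points (98 for the leaves, whose
partners do not belong to the circles; `μ N = N` for branch points).
-/

namespace Pool.Agent.L0h30.TT

/-- facts about names -/
theorem name_facts : ∀ N < 18, ov N < 36 ∧ un N < 36 ∧ nm (ov N) = N ∧ nm (un N) = N ∧
    ov N ≠ un N ∧ mt (ov N) = un N ∧ mt (un N) = ov N ∧ ov N / 12 = N / 6 ∧ un N / 12 = N / 6 := by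
  decide +kernel

/-- facts about darts -/
theorem dart_facts : ∀ d < 36, nm d < 18 ∧ nm d / 6 = d / 12 ∧ (ov (nm d) = d ∨ un (nm d) = d) := by
  decide +kernel

/-- the other end of the edge -/
def sig (μ : ℕ → ℕ) (d : ℕ) : ℕ :=
  if μ (nm d) = 98 then d else if μ (nm d) = nm d then mt d
  else if ov (nm d) = d then ov (μ (nm d)) else un (μ (nm d))

/-- sums over the circles are zero -/
def Su (t : ℕ) (p : ℕ → ℤ) : Prop :=
  ∀ q < 3 * t, p (4 * q) + p (4 * q + 1) + p (4 * q + 2) + p (4 * q + 3) = 0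

/-- flows -/
def Fl (t : ℕ) (σ : ℕ → ℕ) (g : ℕ → ℤ) : Prop :=
  Su t g ∧ ∀ d < 12 * t, σ d ≠ d → g (σ d) = -g d

/-- the intersection form -/
def Om (t δ : ℕ) (f g : ℕ → ℤ) : ℤ :=
  ∑ d ∈ Finset.range (12 * t), (f d * g (nx δ d) - f (nx δ d) * g d)

/-- gluings of the circles around `t` triple points -/
structure Cl (t δ : ℕ) (μ : ℕ → ℕ) : Prop where
  t3 : t ≤ 3
  lt : ∀ N < 6 * t, μ N = 98 ∨ μ N < 6 * t
  inv : ∀ N < 6 * t, μ N ≠ 98 → μ (μ N) = N
  br : ∀ N < 6 * t, μ N = N → letter N = 1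
  pr : ∀ N < 6 * t, μ N ≠ 98 → μ N ≠ N → (μ N + N) % 2 = 1 ∧ okp N (μ N) = true
  big : ∀ N < 6 * t, μ N ≠ 98 → μ N ≠ N → letter N = letter (μ N) →
    (μ (nm (nx δ (ov N))) ≠ nm (pv δ (ov (μ N))) ∧ μ (nm (pv δ (ov N))) ≠ nm (nx δ (ov (μ N)))) ∧
    (μ (nm (nx δ (un N))) ≠ nm (pv δ (un (μ N))) ∧ μ (nm (pv δ (un N))) ≠ nm (nx δ (un (μ N))))
  pl : ∀ f g, Fl t (sig μ) f → Fl t (sig μ) g → (∀ d < 12 * t, sig μ d = d → f d = 0) →
    Om t δ f g = 0

/-- there is a flow from `x` to `y` vanishing at the other leaves -/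
def Sm (t : ℕ) (σ : ℕ → ℕ) (x y : ℕ) : Prop :=
  x = y ∨ ∃ p, Fl t σ p ∧ p x = 1 ∧ p y = -1 ∧ ∀ d < 12 * t, σ d = d → d ≠ x → d ≠ y → p d = 0

/-- corners between leaves -/
def Co (t δ : ℕ) (σ : ℕ → ℕ) (x : ℕ) : Prop := x < 12 * t ∧ σ x = x ∧ σ (nx δ x) = nx δ x

/-- the leaves belong to at most half as many classes as there are corners -/
def Goal (t δ : ℕ) (σ : ℕ → ℕ) : Prop :=
  ∃ (P : ℕ) (c : ℕ → ℕ), (∀ x < 12 * t, σ x = x → c x < P) ∧
    (∀ x < 12 * t, ∀ y < 12 * t, σ x = x → σ y = y → c x = c y → Sm t σ x y) ∧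
    2 * P ≤ ((Finset.range (12 * t)).filter fun x => σ x = x ∧ σ (nx δ x) = nx δ x).card

/-- the class of `x` has two corners -/
def Two (t δ : ℕ) (σ : ℕ → ℕ) (x : ℕ) : Prop :=
  ∃ a b, a ≠ b ∧ Co t δ σ a ∧ Co t δ σ b ∧ Sm t σ x a ∧ Sm t σ x b

variable {t δ : ℕ} {μ : ℕ → ℕ}

theorem sig_cases {d : ℕ} (h : d < 36) :
    (μ (nm d) = 98 ∧ sig μ d = d) ∨ (μ (nm d) ≠ 98 ∧ μ (nm d) = nm d ∧ sig μ d = mt d) ∨
    (μ (nm d) ≠ 98 ∧ μ (nm d) ≠ nm d ∧ ((ov (nm d) = d ∧ sig μ d = ov (μ (nm d))) ∨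
      (un (nm d) = d ∧ sig μ d = un (μ (nm d))))) := by
  unfold sig
  split_ifs with h1 h2 h3
  · exact Or.inl ⟨h1, rfl⟩
  · exact Or.inr (Or.inl ⟨h1, h2, rfl⟩)
  · exact Or.inr (Or.inr ⟨h1, h2, Or.inl ⟨h3, rfl⟩⟩)
  · refine Or.inr (Or.inr ⟨h1, h2, Or.inr ⟨?_, rfl⟩⟩)
    rcases (dart_facts d h).2.2 with h4 | h4
    · exact absurd h4 h3
    · exact h4

theorem sig_ov {N : ℕ} (h : N < 18) (h1 : μ N ≠ 98) (h2 : μ N ≠ N) : sig μ (ov N) = ov (μ N) := by
  have := name_facts N h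
  unfold sig
  rw [this.2.2.1, if_neg h1, if_neg h2, if_pos rfl]

theorem sig_un {N : ℕ} (h : N < 18) (h1 : μ N ≠ 98) (h2 : μ N ≠ N) : sig μ (un N) = un (μ N) := by
  have := name_facts N h
  unfold sig
  rw [this.2.2.2.1, if_neg h1, if_neg h2, if_neg this.2.2.2.2.1]

theorem sig_ov_br {N : ℕ} (h : N < 18) (h2 : μ N = N) : sig μ (ov N) = un N := by
  have := name_facts N h
  unfold sig
  rw [this.2.2.1, if_neg (by omega), if_pos h2, this.2.2.2.2.2.1]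

theorem sig_un_br {N : ℕ} (h : N < 18) (h2 : μ N = N) : sig μ (un N) = ov N := by
  have := name_facts N h
  unfold sig
  rw [this.2.2.2.1, if_neg (by omega), if_pos h2, this.2.2.2.2.2.2.1]

theorem sig_ov_leaf {N : ℕ} (h : N < 18) (h2 : μ N = 98) : sig μ (ov N) = ov N := by
  have := name_facts N h
  unfold sig
  rw [this.2.2.1, if_pos h2]

theorem sig_un_leaf {N : ℕ} (h : N < 18) (h2 : μ N = 98) : sig μ (un N) = un N := by
  have := name_facts N h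
  unfold sig
  rw [this.2.2.2.1, if_pos h2]

/-- a dart is determined by its name and its side -/
theorem dart_cases {d : ℕ} (h : d < 36) : ∃ N < 18, d / 12 = N / 6 ∧ (d = ov N ∨ d = un N) := by
  obtain ⟨h1, h2, h3⟩ := dart_facts d h
  refine ⟨nm d, h1, h2.symm, ?_⟩
  rcases h3 with h3 | h3
  · exact Or.inl h3.symm
  · exact Or.inr h3.symm

namespace Cl
variable (h : Cl t δ μ)
include h

theorem lt18 {N : ℕ} (hN : N < 6 * t) : N < 18 := by
  have := h.t3; omega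

theorem lt36 {d : ℕ} (hd : d < 12 * t) : d < 36 := by
  have := h.t3; omega

/-- the matching of darts -/
theorem sig_spec {d : ℕ} (hd : d < 12 * t) : sig μ d < 12 * t ∧ sig μ (sig μ d) = d := by
  obtain ⟨N, hN, h1, h2⟩ := dart_cases (h.lt36 hd)
  have hN' : N < 6 * t := by omega
  have hf := name_facts N hN
  by_cases e1 : μ N = 98
  · rcases h2 with rfl | rfl
    · rw [sig_ov_leaf hN e1, sig_ov_leaf hN e1]; exact ⟨hd, rfl⟩
    · rw [sig_un_leaf hN e1, sig_un_leaf hN e1]; exact ⟨hd, rfl⟩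
  · by_cases e2 : μ N = N
    · rcases h2 with rfl | rfl
      · rw [sig_ov_br hN e2, sig_un_br hN e2]; exact ⟨by omega, rfl⟩
      · rw [sig_un_br hN e2, sig_ov_br hN e2]; exact ⟨by omega, rfl⟩
    · have h3 : μ N < 6 * t := (h.lt N hN').resolve_left e1
      have h4 := h.inv N hN' e1
      have h5 := h.lt18 h3
      have hf' := name_facts _ h5
      have e3 : μ (μ N) ≠ 98 := by rw [h4]; omega
      have e4 : μ (μ N) ≠ μ N := by rw [h4]; exact Ne.symm e2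
      rcases h2 with rfl | rfl
      · rw [sig_ov hN e1 e2, sig_ov h5 e3 e4, h4]; exact ⟨by omega, rfl⟩
      · rw [sig_un hN e1 e2, sig_un h5 e3 e4, h4]; exact ⟨by omega, rfl⟩

end Cl

end Pool.Agent.L0h30.TT
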