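import Pool.Agent.L0h30.TT.Check

/-! The initial state. -/

namespace Pool.Agent.L0h30.TT

variable {t δ : ℕ} {μ : ℕ → ℕ}

/-- the circles -/
def circ (δ q : ℕ) : List ℕ :=
  if ori δ (q / 3) then [4 * q, 4 * q + 1, 4 * q + 2, 4 * q + 3]
  else [4 * q + 3, 4 * q + 2, 4 * q + 1, 4 * q]

/-- the initial state -/
def ini (t δ : ℕ) : List (List (List ℕ)) := (List.range (3 * t)).map fun q => [circ δ q]

theorem sgn_facts : ∀ N < 18, sgn (un N) = -sgn (ov N) ∧ sgn (ov N) = (if N % 2 = 1 then 1 else -1) := by
  decide +kernel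

theorem sgn_su : ∀ q < 9, sgn (4 * q) + sgn (4 * q + 1) + sgn (4 * q + 2) + sgn (4 * q + 3) = 0 := by
  decide +kernel

theorem Cl.env (h : Cl t δ μ) : Env t δ (sig μ) where
  lt := fun d hd => h.sig_spec hd
  sg := by
    have h3 := h.t3
    refine ⟨fun q hq => sgn_su q (by omega), fun d hd hne => ?_⟩
    obtain ⟨N, hN, h1, h2⟩ := dart_cases (h.lt36 hd)
    have hN' : N < 6 * t := by omega
    have sN := sgn_facts N hN
    by_cases e1 : μ N = 98
    · exfalso
      rcases h2 with rfl | rfl
      · exact hne (sig_ov_leaf hN e1)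
      · exact hne (sig_un_leaf hN e1)
    · by_cases e2 : μ N = N
      · rcases h2 with rfl | rfl
        · rw [sig_ov_br hN e2, sN.1]
        · rw [sig_un_br hN e2, sN.1]; ring
      · have h4 : μ N < 6 * t := (h.lt N hN').resolve_left e1
        have sM := sgn_facts _ (h.lt18 h4)
        have hp := (h.pr N hN' e1 e2).1
        have key : sgn (ov (μ N)) = -sgn (ov N) := by
          rw [sM.2, sN.2]
          split_ifs <;> omega
        rcases h2 with rfl | rfl
        · rw [sig_ov hN e1 e2, key]
        · rw [sig_un hN e1 e2, sM.1, sN.1, key]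
  pl := h.pl

/-- the difference of two indicator functions -/
def dl (a b : ℕ) (d : ℕ) : ℤ := (if d = a then 1 else 0) - (if d = b then 1 else 0)

theorem su_dl {a b : ℕ} (h : a / 4 = b / 4) : Su t (dl a b) := by
  intro q _
  unfold dl
  split_ifs <;> omega

theorem om_dl {a : ℕ} (ha : a < 12 * t) {g : ℕ → ℤ} (hg : Su t g) :
    Om t δ (dl a (nx δ a)) g = 2 * (g a + g (nx δ a)) := by
  set b := nx δ a with hb
  have hb12 : b < 12 * t := nx_lt ha
  have hba : a ≠ b := by
    intro e
    have := nx_eq δ a
    rw [← hb, ← e] at this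
    split_ifs at this <;> omega
  unfold Om
  rw [Finset.sum_sub_distrib]
  have e1 : ∑ d ∈ Finset.range (12 * t), dl a b d * g (nx δ d) = g (nx δ a) - g (nx δ b) := by
    have : ∀ d ∈ Finset.range (12 * t), dl a b d * g (nx δ d) =
        (if d = a then g (nx δ d) else 0) - (if d = b then g (nx δ d) else 0) := by
      intro d _
      unfold dl
      split_ifs <;> ring
    rw [Finset.sum_congr rfl this, Finset.sum_sub_distrib, Finset.sum_ite_eq', Finset.sum_ite_eq',
      if_pos (Finset.mem_range.2 ha), if_pos (Finset.mem_range.2 hb12)]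
  have e2 : ∑ d ∈ Finset.range (12 * t), dl a b (nx δ d) * g d = g (pv δ a) - g (pv δ b) := by
    have : ∀ d ∈ Finset.range (12 * t), dl a b (nx δ d) * g d =
        (if d = pv δ a then g d else 0) - (if d = pv δ b then g d else 0) := by
      intro d _
      have k1 : nx δ d = a ↔ d = pv δ a :=
        ⟨fun e => by rw [← e, pv_nx], fun e => by rw [e, nx_pv]⟩
      have k2 : nx δ d = b ↔ d = pv δ b :=
        ⟨fun e => by rw [← e, pv_nx], fun e => by rw [e, nx_pv]⟩
      unfold dl
      rw [if_congr k1 rfl rfl, if_congr k2 rfl rfl]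
      split_ifs <;> ring
    rw [Finset.sum_congr rfl this, Finset.sum_sub_distrib, Finset.sum_ite_eq', Finset.sum_ite_eq',
      if_pos (Finset.mem_range.2 (pv_lt ha)), if_pos (Finset.mem_range.2 (pv_lt hb12))]
  rw [e1, e2, ← hb]
  have e3 : pv δ b = a := by rw [hb, pv_nx]
  rw [e3]
  have h4 := hg (a / 4) (by omega)
  have e5 : a / 12 = b / 12 := by rw [hb]; have := nx_div δ a; omega
  have e6 : g a + g b + g (nx δ b) + g (pv δ a) =
      g (4 * (a / 4)) + g (4 * (a / 4) + 1) + g (4 * (a / 4) + 2) + g (4 * (a / 4) + 3) := by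
    have k1 := nx_eq δ a
    have k2 := pv_eq δ a
    have k3 := nx_eq δ b
    rw [← hb] at k1
    rw [← e5] at k3
    have hbs : b / 4 = a / 4 := by rw [hb, nx_div]
    have hc4 : nx δ b / 4 = a / 4 := by rw [nx_div, hbs]
    have he4 : pv δ a / 4 = a / 4 := pv_div δ a
    have hab : nx δ b ≠ a := by split_ifs at k1 k3 <;> omega
    have hbc : nx δ b ≠ b := by split_ifs at k3 <;> omega
    have hea : pv δ a ≠ a := by split_ifs at k2 <;> omega
    have heb : pv δ a ≠ b := by split_ifs at k1 k2 <;> omega
    have hec : pv δ a ≠ nx δ b := by split_ifs at k1 k2 k3 <;> omega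
    clear k1 k2 k3 e1 e2 e3 e5 h4
    generalize nx δ b = c at *
    generalize pv δ a = e at *
    have hmem : ∀ d, d / 4 = a / 4 → d ∈ [4 * (a / 4), 4 * (a / 4) + 1, 4 * (a / 4) + 2,
        4 * (a / 4) + 3] := by
      intro d hd
      simp only [List.mem_cons, List.not_mem_nil, or_false]
      omega
    have hnd : [a, b, c, e].Nodup := by
      simp only [List.nodup_cons, List.mem_cons, List.not_mem_nil, or_false, not_or,
        not_false_eq_true, List.nodup_nil, and_true]
      exact ⟨⟨hba, Ne.symm hab, Ne.symm hea⟩, ⟨Ne.symm hbc, Ne.symm heb⟩, Ne.symm hec⟩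
    have hsub : [a, b, c, e] ⊆ [4 * (a / 4), 4 * (a / 4) + 1, 4 * (a / 4) + 2,
        4 * (a / 4) + 3] := by
      intro d hd
      simp only [List.mem_cons, List.not_mem_nil, or_false] at hd
      rcases hd with h | h | h | h <;> rw [h] <;> exact hmem _ (by first | rfl | assumption)
    have hp := (List.subperm_of_subset hnd hsub).perm_of_length_le (by simp)
    have := (hp.map g).sum_eq
    simp only [List.map_cons, List.map_nil, List.sum_cons, List.sum_nil] at this
    linarith
  rw [h4] at e6
  linarith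

theorem R_nx {O : Set ℕ} {σ : ℕ → ℕ} (hO : ∀ d < 12 * t, d ∈ O) {a : ℕ} (ha : a < 12 * t) :
    R t δ σ O a (nx δ a) := by
  have hne : a ≠ nx δ a := by
    intro e
    have := nx_eq δ a
    rw [← e] at this
    split_ifs at this <;> omega
  refine ⟨dl a (nx δ a), ⟨su_dl (nx_div δ a).symm, fun d hd h => absurd (hO d hd) h, ?_, ?_, ?_⟩,
    fun g hg => om_dl ha hg.1⟩
  · unfold dl; rw [if_pos rfl, if_neg hne]; rfl
  · unfold dl; rw [if_neg (Ne.symm hne), if_pos rfl]; rfl
  · intro d _ h1 h2
    unfold dl; rw [if_neg h1, if_neg h2]; rfl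

theorem circ_chain {r : ℕ → ℕ → Prop} {q : ℕ} (h : ∀ j < 4, r (4 * q + j) (nx δ (4 * q + j))) :
    Cycle.Chain r ((circ δ q : List ℕ) : Cycle ℕ) := by
  have key : ∀ j < 4, nx δ (4 * q + j) = if ori δ (q / 3) then 4 * q + (j + 1) % 4
      else 4 * q + (j + 3) % 4 := by
    intro j hj
    rw [nx_eq]
    have : (4 * q + j) / 12 = q / 3 := by omega
    rw [this]
    split_ifs <;> omega
  unfold circ
  by_cases ho : ori δ (q / 3) = true
  · rw [if_pos ho, Cycle.chain_coe_cons]
    simp only [List.cons_append, List.nil_append, List.isChain_cons_cons, List.isChain_singleton,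
      and_true]
    have h0 := h 0 (by norm_num)
    have h1 := h 1 (by norm_num)
    have h2 := h 2 (by norm_num)
    have h3 := h 3 (by norm_num)
    rw [key _ (by norm_num), if_pos ho] at h0 h1 h2 h3
    exact ⟨h0, h1, h2, h3⟩
  · rw [if_neg ho, Cycle.chain_coe_cons]
    simp only [List.cons_append, List.nil_append, List.isChain_cons_cons, List.isChain_singleton,
      and_true]
    have h0 := h 0 (by norm_num)
    have h1 := h 1 (by norm_num)
    have h2 := h 2 (by norm_num)
    have h3 := h 3 (by norm_num)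
    rw [key _ (by norm_num), if_neg ho] at h0 h1 h2 h3
    exact ⟨h3, h2, h1, h0⟩

theorem mem_circ {δ q d : ℕ} : d ∈ circ δ q ↔ d / 4 = q := by
  unfold circ
  split_ifs <;> simp only [List.mem_cons, List.not_mem_nil, or_false] <;> omega

theorem ini_flat (t δ : ℕ) : (ini t δ).flatten.flatten = (List.range (3 * t)).flatMap (circ δ) := by
  unfold ini
  induction List.range (3 * t) with
  | nil => rfl
  | cons q l ih =>
    rw [List.map_cons, flat2, ih, List.flatMap_cons]
    simp

theorem mem_ini {t δ d : ℕ} : d ∈ en (ini t δ) ↔ d < 12 * t := by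
  unfold en
  rw [ini_flat, List.mem_flatMap]
  constructor
  · rintro ⟨q, hq, h⟩
    rw [List.mem_range] at hq
    rw [mem_circ] at h
    omega
  · intro h
    exact ⟨d / 4, by rw [List.mem_range]; omega, by rw [mem_circ]⟩

theorem cln_id {S : List (List (List ℕ))} (h : ∀ a ∈ en S, a < 64) : cln S = S := by
  unfold cln
  have : ∀ K ∈ S, K.map (List.map (· % 64)) = K := by
    intro K hK
    have : ∀ F ∈ K, F.map (· % 64) = F := by
      intro F hF
      have : ∀ a ∈ F, a % 64 = a := fun a ha => Nat.mod_eq_of_lt (h a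
        (List.mem_flatten.2 ⟨F, List.mem_flatten.2 ⟨K, hK, hF⟩, ha⟩))
      conv_rhs => rw [← List.map_id F]
      exact List.map_congr_left this
    conv_rhs => rw [← List.map_id K]
    exact List.map_congr_left this
  conv_rhs => rw [← List.map_id S]
  exact List.map_congr_left this

theorem ini_sta (h : Cl t δ μ) : Sta t δ (sig μ) (ini t δ) := by
  have hE := h.env
  have h3 := h.t3
  have hlt : ∀ a ∈ en (ini t δ), a < 36 := fun a ha => by have := mem_ini.1 ha; omega
  have hO : ∀ d < 12 * t, d ∈ Os (ini t δ) := fun d hd => mem_ini.2 hd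
  refine ⟨?_, fun a ha => Or.inl (hlt a ha)⟩
  rw [cln_id fun a ha => by have := hlt a ha; omega]
  refine ⟨?_, fun d hd => mem_ini.1 hd, fun d hd hn => absurd (hO d hd) hn, ?_, ?_⟩
  · rw [ini_flat, List.nodup_flatMap]
    constructor
    · intro q _
      unfold circ
      split_ifs <;> simp
    · refine List.Pairwise.imp_of_mem (R := fun a b => a ≠ b) ?_ (List.nodup_range (n := 3 * t))
      intro a b _ _ hab d hda hdb
      rw [mem_circ] at hda hdb
      exact hab (by rw [← hda, hdb])
  · intro K hK F hF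
    unfold ini at hK
    obtain ⟨q, hq, rfl⟩ := List.mem_map.1 hK
    rw [List.mem_singleton] at hF
    subst hF
    rw [List.mem_range] at hq
    constructor
    · intro g hg
      have h5 := hg.1 q hq
      unfold circ
      split_ifs
      · simp only [List.map_cons, List.map_nil, List.sum_cons, List.sum_nil]; linarith
      · simp only [List.map_cons, List.map_nil, List.sum_cons, List.sum_nil]; linarith
    · exact circ_chain fun j hj => R_nx hO (by omega)
  · intro K hK e he e' he' hne
    unfold ini at hK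
    obtain ⟨q, hq, rfl⟩ := List.mem_map.1 hK
    have he1 : e / 4 = q := by
      rw [List.flatten_cons, List.flatten_nil, List.append_nil] at he
      exact mem_circ.1 he
    have he2 : e' / 4 = q := by
      rw [List.flatten_cons, List.flatten_nil, List.append_nil] at he'
      exact mem_circ.1 he'
    refine ⟨dl e e', su_dl (by rw [he1, he2]), fun d hd h => absurd (hO d hd) h, ?_, ?_, ?_⟩
    · unfold dl; rw [if_pos rfl, if_neg hne]; rfl
    · unfold dl; rw [if_neg (Ne.symm hne), if_pos rfl]; rfl
    · intro d _ h1 h2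
      unfold dl; rw [if_neg h1, if_neg h2]; rfl

/-- the search starting with the leaf `x` in the initial state -/
theorem search (h : Cl t δ μ) {md : Bool} {x t₁ : ℕ}
    (hx : Bas md t δ (sig μ) x) (hx12 : x < 12 * t) (hl : sig μ x = x)
    {N : ℕ} {c : List ℕ} (hT : μ N ≠ 98 → μ N ≠ N → μ N < t₁)
    (hk : check md δ (6 * t) t₁ x (ini t δ) (N :: c) = true) : Goal t δ (sig μ) :=
  check_S h h.env hx hx12 hl (ini_sta h) (fun _ hd => mem_ini.2 hd) hT hk

end Pool.Agent.L0h30.TT
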