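import Pool.Agent.L0h30.TT.Faces2
import Pool.Agent.L0h30.TT.Init
import Pool.Agent.L0h30.SR.Free

/-! The circles around triple points as circles of numbered darts. -/

namespace Pool.Agent.L0h30.TT

open Pool.Agent.Y468.SR
open Pool.Agent.Y874.TP hiding S_REID S_REN S_THREE S_OUT S_CUT S_JUNC CStep CReid CM InvM InvC Inv3
  creid_after same_facts invM_ceq invM_perm
open Pool.Agent.Y874.TP2
open Pool.Agent.R800.BT (Hts)
open Pool.Agent.L0h30.SR (rot)

/-- normalized triple points -/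
structure Nm (T : Tri) : Prop where
  ht : Hts T
  e : T.ej = T.ei ∧ T.ek = T.ei
  s : T.sa = true ∧ T.sb = true ∧ T.sc = true

/-- the twelve darts of a triple point -/
def embT (T : Tri) (r : ℕ) : Pass :=
  [T.pb₂, T.pa₂, T.pb₁, T.pa₁, T.pc₂, T.pa₂.mate, T.pc₁, T.pa₁.mate, T.pc₂.mate, T.pb₂.mate,
    T.pc₁.mate, T.pb₁.mate].getD r T.pa₁

/-- the six crossings of a triple point -/
def nmT (T : Tri) (n : ℕ) : ℕ := [T.a₁, T.a₂, T.b₁, T.b₂, T.c₁, T.c₂].getD n T.a₁

/-- the darts -/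
def emb : List Tri → ℕ → Pass
  | [], _ => ⟨0, false, false⟩
  | T :: L, d => if d < 12 then embT T d else emb L (d - 12)

/-- the crossings -/
def crs : List Tri → ℕ → ℕ
  | [], _ => 0
  | T :: L, N => if N < 6 then nmT T N else crs L (N - 6)

/-- the orientations -/
def dlt : List Tri → ℕ
  | [] => 0
  | T :: L => (if T.ei then 1 else 0) + 2 * dlt L

theorem shift_facts : ∀ d < 36, 12 ≤ d → nm (d - 12) = nm d - 6 ∧ 6 ≤ nm d ∧
    (ov (nm (d - 12)) == d - 12) = (ov (nm d) == d) := by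
  decide +kernel

theorem table : nm 0 = 3 ∧ nm 1 = 1 ∧ nm 2 = 2 ∧ nm 3 = 0 ∧ nm 4 = 5 ∧ nm 5 = 1 ∧ nm 6 = 4 ∧
    nm 7 = 0 ∧ nm 8 = 5 ∧ nm 9 = 3 ∧ nm 10 = 4 ∧ nm 11 = 2 ∧ ov 0 = 3 ∧ ov 1 = 1 ∧ ov 2 = 2 ∧
    ov 3 = 0 ∧ ov 4 = 6 ∧ ov 5 = 4 := by
  decide +kernel

theorem embT_facts {T : Tri} (h : Nm T) {r : ℕ} (hr : r < 12) :
    (embT T r).crossing = nmT T (nm r) ∧ (embT T r).isOver = (ov (nm r) == r) ∧
      (embT T r).isPos = (nm r % 2 == 1) := by
  obtain ⟨⟨h1, h2, h3⟩, -, ⟨h4, h5, h6⟩⟩ := h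
  obtain ⟨t0, t1, t2, t3, t4, t5, t6, t7, t8, t9, t10, t11, o0, o1, o2, o3, o4, o5⟩ := table
  interval_cases r
  · rw [t0, o3]; simp [embT, nmT, Tri.pb₂, h2, h5]
  · rw [t1, o1]; simp [embT, nmT, Tri.pa₂, h1, h4]
  · rw [t2, o2]; simp [embT, nmT, Tri.pb₁, h2, h5]
  · rw [t3, o0]; simp [embT, nmT, Tri.pa₁, h1, h4]
  · rw [t4, o5]; simp [embT, nmT, Tri.pc₂, h3, h6]
  · rw [t5, o1]; simp [embT, nmT, Tri.pa₂, Pass.mate, h1, h4]
  · rw [t6, o4]; simp [embT, nmT, Tri.pc₁, h3, h6]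
  · rw [t7, o0]; simp [embT, nmT, Tri.pa₁, Pass.mate, h1, h4]
  · rw [t8, o5]; simp [embT, nmT, Tri.pc₂, Pass.mate, h3, h6]
  · rw [t9, o3]; simp [embT, nmT, Tri.pb₂, Pass.mate, h2, h5]
  · rw [t10, o4]; simp [embT, nmT, Tri.pc₁, Pass.mate, h3, h6]
  · rw [t11, o2]; simp [embT, nmT, Tri.pb₁, Pass.mate, h2, h5]

theorem emb_facts {L : List Tri} (h : ∀ T ∈ L, Nm T) (hL : L.length ≤ 3) {d : ℕ}
    (hd : d < 12 * L.length) : (emb L d).crossing = crs L (nm d) ∧
      (emb L d).isOver = (ov (nm d) == d) ∧ (emb L d).isPos = (nm d % 2 == 1) := by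
  induction L generalizing d with
  | nil => simp at hd
  | cons T L ih =>
    rw [List.length_cons] at hL hd
    unfold emb crs
    by_cases h12 : d < 12
    · have hn : nm d < 6 := by have := (dart_facts d (by omega)).2.1; omega
      rw [if_pos h12, if_pos hn]
      exact embT_facts (h T (by simp)) h12
    · obtain ⟨s1, s2, s3⟩ := shift_facts d (by omega) (by omega)
      rw [if_neg h12, if_neg (by omega)]
      obtain ⟨k1, k2, k3⟩ := ih (fun T hT => h T (List.mem_cons_of_mem _ hT)) (by omega)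
        (d := d - 12) (by omega)
      rw [k1, k2, k3, s3, s1]
      refine ⟨rfl, rfl, ?_⟩
      congr 1
      omega

theorem dlt_lt (L : List Tri) : dlt L < 2 ^ L.length := by
  induction L with
  | nil => simp [dlt]
  | cons T L ih =>
    unfold dlt
    rw [List.length_cons, pow_succ]
    split_ifs <;> omega

theorem ori_zero (e δ : ℕ) (he : e < 2) : ori (e + 2 * δ) 0 = decide (e = 1) := by
  unfold ori
  change Nat.beq ((e + 2 * δ) % 2) 1 = _
  have : (e + 2 * δ) % 2 = e := by omega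
  rw [this]
  interval_cases e <;> rfl

theorem ori_succ (e δ i : ℕ) (he : e < 2) : ori (e + 2 * δ) (i + 1) = ori δ i := by
  unfold ori
  change Nat.beq (((e + 2 * δ) >>> (i + 1)) % 2) 1 = Nat.beq ((δ >>> i) % 2) 1
  have : (e + 2 * δ) >>> (i + 1) = δ >>> i := by
    rw [Nat.shiftRight_eq_div_pow, Nat.shiftRight_eq_div_pow, pow_succ',
      ← Nat.div_div_eq_div_mul]
    congr 1
    omega
  rw [this]

theorem nx_shift (e δ d : ℕ) (he : e < 2) : nx (e + 2 * δ) (12 + d) = 12 + nx δ d := by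
  rw [nx_eq, nx_eq]
  have : (12 + d) / 12 = d / 12 + 1 := by omega
  rw [this, ori_succ _ _ _ he]
  split_ifs <;> omega

theorem pv_shift (e δ d : ℕ) (he : e < 2) : pv (e + 2 * δ) (12 + d) = 12 + pv δ d := by
  rw [pv_eq, pv_eq]
  have : (12 + d) / 12 = d / 12 + 1 := by omega
  rw [this, ori_succ _ _ _ he]
  split_ifs <;> omega

/-- the next dart around one triple point -/
def nxT (e : Bool) (r : ℕ) : ℕ := if e then 4 * (r / 4) + (r + 1) % 4 else 4 * (r / 4) + (r + 3) % 4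

theorem nx_nxT (T : Tri) (L : List Tri) {r : ℕ} (hr : r < 12) :
    nx (dlt (T :: L)) r = nxT T.ei r := by
  rw [nx_eq]
  have : r / 12 = 0 := by omega
  rw [this]
  unfold dlt nxT
  rw [ori_zero _ _ (by split_ifs <;> norm_num)]
  cases T.ei <;> simp

theorem nxT_lt {e : Bool} {r : ℕ} (hr : r < 12) : nxT e r < 12 := by
  unfold nxT; split_ifs <;> omega

theorem cycT {T : Tri} (h : Nm T) {r : ℕ} (hr : r < 12) :
    ∃ W ∈ [T.wi, T.wj, T.wk], CycL (embT T r) (embT T (nxT T.ei r)) W := by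
  obtain ⟨-, ⟨e1, e2⟩, -⟩ := h
  have hi : T.wi ∈ [T.wi, T.wj, T.wk] := by simp
  have hj : T.wj ∈ [T.wi, T.wj, T.wk] := by simp
  have hk : T.wk ∈ [T.wi, T.wj, T.wk] := by simp
  cases he : T.ei with
  | true =>
    rw [he] at e1 e2
    have wi : T.wi = [T.pb₂, T.pa₂, T.pb₁, T.pa₁] := by unfold Tri.wi word4; rw [he]; rfl
    have wj : T.wj = [T.pc₂, T.pa₂.mate, T.pc₁, T.pa₁.mate] := by
      unfold Tri.wj word4; rw [e1]; rfl
    have wk : T.wk = [T.pc₂.mate, T.pb₂.mate, T.pc₁.mate, T.pb₁.mate] := by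
      unfold Tri.wk word4; rw [e2]; rfl
    interval_cases r
    · exact ⟨_, hi, Or.inl ⟨[], [T.pb₁, T.pa₁], wi⟩⟩
    · exact ⟨_, hi, Or.inl ⟨[T.pb₂], [T.pa₁], wi⟩⟩
    · exact ⟨_, hi, Or.inl ⟨[T.pb₂, T.pa₂], [], wi⟩⟩
    · exact ⟨_, hi, Or.inr ⟨[T.pa₂, T.pb₁], wi⟩⟩
    · exact ⟨_, hj, Or.inl ⟨[], [T.pc₁, T.pa₁.mate], wj⟩⟩
    · exact ⟨_, hj, Or.inl ⟨[T.pc₂], [T.pa₁.mate], wj⟩⟩
    · exact ⟨_, hj, Or.inl ⟨[T.pc₂, T.pa₂.mate], [], wj⟩⟩
    · exact ⟨_, hj, Or.inr ⟨[T.pa₂.mate, T.pc₁], wj⟩⟩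
    · exact ⟨_, hk, Or.inl ⟨[], [T.pc₁.mate, T.pb₁.mate], wk⟩⟩
    · exact ⟨_, hk, Or.inl ⟨[T.pc₂.mate], [T.pb₁.mate], wk⟩⟩
    · exact ⟨_, hk, Or.inl ⟨[T.pc₂.mate, T.pb₂.mate], [], wk⟩⟩
    · exact ⟨_, hk, Or.inr ⟨[T.pb₂.mate, T.pc₁.mate], wk⟩⟩
  | false =>
    rw [he] at e1 e2
    have wi : T.wi = [T.pa₂, T.pb₂, T.pa₁, T.pb₁] := by unfold Tri.wi word4; rw [he]; rfl
    have wj : T.wj = [T.pa₂.mate, T.pc₂, T.pa₁.mate, T.pc₁] := by
      unfold Tri.wj word4; rw [e1]; rfl
    have wk : T.wk = [T.pb₂.mate, T.pc₂.mate, T.pb₁.mate, T.pc₁.mate] := by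
      unfold Tri.wk word4; rw [e2]; rfl
    interval_cases r
    · exact ⟨_, hi, Or.inl ⟨[T.pa₂], [T.pb₁], wi⟩⟩
    · exact ⟨_, hi, Or.inl ⟨[], [T.pa₁, T.pb₁], wi⟩⟩
    · exact ⟨_, hi, Or.inr ⟨[T.pb₂, T.pa₁], wi⟩⟩
    · exact ⟨_, hi, Or.inl ⟨[T.pa₂, T.pb₂], [], wi⟩⟩
    · exact ⟨_, hj, Or.inl ⟨[T.pa₂.mate], [T.pc₁], wj⟩⟩
    · exact ⟨_, hj, Or.inl ⟨[], [T.pa₁.mate, T.pc₁], wj⟩⟩
    · exact ⟨_, hj, Or.inr ⟨[T.pc₂, T.pa₁.mate], wj⟩⟩
    · exact ⟨_, hj, Or.inl ⟨[T.pa₂.mate, T.pc₂], [], wj⟩⟩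
    · exact ⟨_, hk, Or.inl ⟨[T.pb₂.mate], [T.pc₁.mate], wk⟩⟩
    · exact ⟨_, hk, Or.inl ⟨[], [T.pb₁.mate, T.pc₁.mate], wk⟩⟩
    · exact ⟨_, hk, Or.inr ⟨[T.pc₂.mate, T.pb₁.mate], wk⟩⟩
    · exact ⟨_, hk, Or.inl ⟨[T.pb₂.mate, T.pc₂.mate], [], wk⟩⟩

/-- consecutive darts -/
theorem emb_next {L : List Tri} (h : ∀ T ∈ L, Nm T) {d : ℕ} (hd : d < 12 * L.length) :
    ∃ T ∈ L, ∃ W ∈ [T.wi, T.wj, T.wk], CycL (emb L d) (emb L (nx (dlt L) d)) W := by
  induction L generalizing d with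
  | nil => simp at hd
  | cons T L ih =>
    by_cases h12 : d < 12
    · obtain ⟨W, hW, hc⟩ := cycT (h T (by simp)) h12
      refine ⟨T, by simp, W, hW, ?_⟩
      rw [nx_nxT T L h12]
      unfold emb
      rw [if_pos h12, if_pos (nxT_lt h12)]
      exact hc
    · rw [List.length_cons] at hd
      obtain ⟨T', hT', W, hW, hc⟩ := ih (fun T hT => h T (List.mem_cons_of_mem _ hT))
        (d := d - 12) (by omega)
      refine ⟨T', List.mem_cons_of_mem _ hT', W, hW, ?_⟩
      have e : d = 12 + (d - 12) := by omega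
      have e2 : nx (dlt (T :: L)) d = 12 + nx (dlt L) (d - 12) := by
        conv_lhs => rw [e]
        exact nx_shift _ _ _ (by split_ifs <;> norm_num)
      rw [e2]
      unfold emb
      rw [if_neg h12, if_neg (by omega), Nat.add_sub_cancel_left]
      exact hc

theorem range_split (t : ℕ) : List.range (12 * (t + 1)) =
    List.range 12 ++ (List.range (12 * t)).map (12 + ·) := by
  rw [show 12 * (t + 1) = 12 + 12 * t by ring, List.range_add]

theorem emb_perm (L : List Tri) : ((List.range (12 * L.length)).map (emb L)).Perm (passes (TC L)) := by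
  induction L with
  | nil => simp [TC, passes]
  | cons T L ih =>
    rw [List.length_cons, range_split, List.map_append, List.map_map]
    have e1 : passes (TC (T :: L)) = passes T.code ++ passes (TC L) := by
      unfold TC
      rw [List.flatMap_cons, passes_append']
    rw [e1]
    refine List.Perm.append ?_ ?_
    · have : (List.range 12).map (emb (T :: L)) = [T.pb₂, T.pa₂, T.pb₁, T.pa₁, T.pc₂, T.pa₂.mate,
          T.pc₁, T.pa₁.mate, T.pc₂.mate, T.pb₂.mate, T.pc₁.mate, T.pb₁.mate] := rfl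
      rw [this]
      have hp : ∀ (e : Bool) (p₁ p₂ q₁ q₂ : Pass), (word4 e p₁ p₂ q₁ q₂).Perm [q₂, p₂, q₁, p₁] := by
        intro e p₁ p₂ q₁ q₂
        unfold word4
        split_ifs
        · exact List.Perm.refl _
        · refine (List.Perm.swap q₂ p₂ [p₁, q₁]).trans ?_
          exact List.Perm.cons _ (List.Perm.cons _ (List.Perm.swap _ _ _))
      have e2 : passes T.code = T.wi ++ (T.wj ++ T.wk) := by
        simp [passes, Tri.code]
      rw [e2]
      have h3 := (hp T.ei T.pa₁ T.pa₂ T.pb₁ T.pb₂).append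
        ((hp T.ej T.pa₁.mate T.pa₂.mate T.pc₁ T.pc₂).append
          (hp T.ek T.pb₁.mate T.pb₂.mate T.pc₁.mate T.pc₂.mate))
      exact h3.symm
    · have : (List.range (12 * L.length)).map (emb (T :: L) ∘ (12 + ·)) =
          (List.range (12 * L.length)).map (emb L) := by
        refine List.map_congr_left fun d _ => ?_
        change (if 12 + d < 12 then embT T (12 + d) else emb L (12 + d - 12)) = _
        rw [if_neg (by omega), Nat.add_sub_cancel_left]
      rw [this]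
      exact ih

theorem mem_emb {L : List Tri} {p : Pass} : p ∈ passes (TC L) ↔ ∃ d < 12 * L.length, emb L d = p := by
  rw [← (emb_perm L).mem_iff, List.mem_map]
  simp only [List.mem_range]

theorem emb_inj {L : List Tri} (hnd : (passes (TC L)).Nodup) {d d' : ℕ} (hd : d < 12 * L.length)
    (hd' : d' < 12 * L.length) (h : emb L d = emb L d') : d = d' :=
  List.inj_on_of_nodup_map ((emb_perm L).nodup_iff.2 hnd) (List.mem_range.2 hd)
    (List.mem_range.2 hd') h

/-! ### Sums and the form `om` -/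

theorem sum_w4 (e : Bool) (p₁ p₂ q₁ q₂ : Pass) (F : Pass → ℤ) :
    ((word4 e p₁ p₂ q₁ q₂).map F).sum = F q₂ + F p₂ + F q₁ + F p₁ := by
  cases e <;> simp [word4] <;> ring

theorem om_w4 (e : Bool) (p₁ p₂ q₁ q₂ : Pass) (F G : Pass → ℤ)
    (hF : F q₂ + F p₂ + F q₁ + F p₁ = 0) (hG : G q₂ + G p₂ + G q₁ + G p₁ = 0) :
    2 * om F G (word4 e p₁ p₂ q₁ q₂) = if e then
      (F q₂ * G p₂ - F p₂ * G q₂) + (F p₂ * G q₁ - F q₁ * G p₂) + (F q₁ * G p₁ - F p₁ * G q₁) +
        (F p₁ * G q₂ - F q₂ * G p₁)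
      else
      (F q₂ * G p₁ - F p₁ * G q₂) + (F p₂ * G q₂ - F q₂ * G p₂) + (F q₁ * G p₂ - F p₂ * G q₁) +
        (F p₁ * G q₁ - F q₁ * G p₁) := by
  have e1 : F p₁ = -(F q₂ + F p₂ + F q₁) := by linarith
  have e2 : G p₁ = -(G q₂ + G p₂ + G q₁) := by linarith
  cases e
  · simp only [word4, om, Bool.false_eq_true, if_false, List.map_cons, List.map_nil, List.sum_cons,
      List.sum_nil, e1, e2]
    ring
  · simp only [word4, om, if_true, List.map_cons, List.map_nil, List.sum_cons,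
      List.sum_nil, e1, e2]
    ring

theorem su_emb {L : List Tri} {F : Pass → ℤ} (h : Su L.length fun d => F (emb L d)) :
    ∀ T ∈ L, ∀ W ∈ [T.wi, T.wj, T.wk], (W.map F).sum = 0 := by
  induction L with
  | nil => simp
  | cons T L ih =>
    intro T' hT' W hW
    rcases List.mem_cons.1 hT' with rfl | hT'
    · have h0 := h 0 (by rw [List.length_cons]; omega)
      have h1 := h 1 (by rw [List.length_cons]; omega)
      have h2 := h 2 (by rw [List.length_cons]; omega)
      simp only [List.mem_cons, List.not_mem_nil, or_false] at hW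
      rcases hW with rfl | rfl | rfl
      · unfold Tri.wi; rw [sum_w4]; exact h0
      · unfold Tri.wj; rw [sum_w4]; exact h1
      · unfold Tri.wk; rw [sum_w4]; exact h2
    · refine ih (fun q hq => ?_) T' hT' W hW
      have h3 := h (q + 3) (by rw [List.length_cons]; omega)
      have key : ∀ j, emb (T :: L) (4 * (q + 3) + j) = emb L (4 * q + j) := by
        intro j
        change (if 4 * (q + 3) + j < 12 then _ else emb L (4 * (q + 3) + j - 12)) = _
        rw [if_neg (by omega)]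
        congr 1
        omega
      have k0 := key 0
      simp only [add_zero] at k0
      simp only [key, k0] at h3
      exact h3

/-- the sum of the forms of the circles -/
def omL (F G : Pass → ℤ) (L : List Tri) : ℤ :=
  (L.map fun T => om F G T.wi + om F G T.wj + om F G T.wk).sum

theorem om_emb {L : List Tri} (hN : ∀ T ∈ L, Nm T) {F G : Pass → ℤ}
    (hF : Su L.length fun d => F (emb L d)) (hG : Su L.length fun d => G (emb L d)) :
    Om L.length (dlt L) (fun d => F (emb L d)) (fun d => G (emb L d)) = 2 * omL F G L := by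
  induction L with
  | nil => simp [Om, omL]
  | cons T L ih =>
    have key : ∀ j, emb (T :: L) (12 + j) = emb L j := by
      intro j
      change (if 12 + j < 12 then _ else emb L (12 + j - 12)) = _
      rw [if_neg (by omega), Nat.add_sub_cancel_left]
    have sub : ∀ {H : Pass → ℤ}, (Su (T :: L).length fun d => H (emb (T :: L) d)) →
        Su L.length fun d => H (emb L d) := by
      intro H hH q hq
      have h3 := hH (q + 3) (by rw [List.length_cons]; omega)
      have e0 : 4 * (q + 3) = 12 + 4 * q := by ring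
      simp only [e0, Nat.add_assoc, key] at h3
      exact h3
    have ih' := ih (fun T hT => hN T (List.mem_cons_of_mem _ hT)) (sub hF) (sub hG)
    have hom : omL F G (T :: L) = (om F G T.wi + om F G T.wj + om F G T.wk) + omL F G L := by
      simp [omL]
    rw [hom, mul_add, ← ih']
    unfold Om
    rw [List.length_cons, show 12 * (L.length + 1) = 12 + 12 * L.length by ring,
      Finset.sum_range_add]
    congr 1
    · have hn := hN T (by simp)
      obtain ⟨-, ⟨e1, e2⟩, -⟩ := hn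
      have hF0 := hF 0 (by rw [List.length_cons]; omega)
      have hF1 := hF 1 (by rw [List.length_cons]; omega)
      have hF2 := hF 2 (by rw [List.length_cons]; omega)
      have hG0 := hG 0 (by rw [List.length_cons]; omega)
      have hG1 := hG 1 (by rw [List.length_cons]; omega)
      have hG2 := hG 2 (by rw [List.length_cons]; omega)
      have o1 := om_w4 T.ei T.pa₁ T.pa₂ T.pb₁ T.pb₂ F G hF0 hG0
      have o2 := om_w4 T.ej T.pa₁.mate T.pa₂.mate T.pc₁ T.pc₂ F G hF1 hG1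
      have o3 := om_w4 T.ek T.pb₁.mate T.pb₂.mate T.pc₁.mate T.pc₂.mate F G hF2 hG2
      rw [mul_add, mul_add]
      unfold Tri.wi Tri.wj Tri.wk
      rw [o1, o2, o3, e1, e2]
      have hterm : ∀ d ∈ Finset.range 12, F (emb (T :: L) d) * G (emb (T :: L) (nx (dlt (T :: L)) d)) -
          F (emb (T :: L) (nx (dlt (T :: L)) d)) * G (emb (T :: L) d) =
          F (embT T d) * G (embT T (nxT T.ei d)) - F (embT T (nxT T.ei d)) * G (embT T d) := by
        intro d hd
        rw [Finset.mem_range] at hd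
        rw [nx_nxT T L hd]
        have e3 : emb (T :: L) d = embT T d := by
          change (if d < 12 then embT T d else _) = _
          rw [if_pos hd]
        have e4 : emb (T :: L) (nxT T.ei d) = embT T (nxT T.ei d) := by
          change (if nxT T.ei d < 12 then embT T (nxT T.ei d) else _) = _
          rw [if_pos (nxT_lt hd)]
        rw [e3, e4]
      rw [Finset.sum_congr rfl hterm]
      cases T.ei
      · simp only [Finset.sum_range_succ, Finset.sum_range_zero, nxT, embT]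
        norm_num
        ring
      · simp only [Finset.sum_range_succ, Finset.sum_range_zero, nxT, embT]
        norm_num
        ring
    · refine Finset.sum_congr rfl fun d _ => ?_
      have : nx (dlt (T :: L)) (12 + d) = 12 + nx (dlt L) d :=
        nx_shift _ _ _ (by split_ifs <;> norm_num)
      beta_reduce
      rw [this, key, key]

end Pool.Agent.L0h30.TT
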