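import Pool.Agent.L0h30.TT.Spec

/-! Soundness of gluing and of the tests. -/

namespace Pool.Agent.L0h30.TT

variable {t δ : ℕ} {σ : ℕ → ℕ}

/-- the entries of a state -/
abbrev en (S : List (List (List ℕ))) : List ℕ := S.flatten.flatten

theorem Sta.nd {S : List (List (List ℕ))} (h : Sta t δ σ S) : (en S).Nodup := by
  have := h.snd.nd
  rw [cln_flat] at this
  exact List.Nodup.of_map _ this

theorem mem_rest {l l' : List ℕ} {x y : ℕ} (hp : l.Perm (x :: y :: l')) (nd : l.Nodup) (a : ℕ) :
    a ∈ l' ↔ a ∈ l ∧ a ≠ x ∧ a ≠ y := by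
  have nd' := hp.nodup_iff.1 nd
  rw [List.nodup_cons, List.nodup_cons, List.mem_cons, not_or] at nd'
  obtain ⟨⟨-, h1⟩, h2, -⟩ := nd'
  rw [hp.mem_iff, List.mem_cons, List.mem_cons]
  constructor
  · intro h
    exact ⟨Or.inr (Or.inr h), fun e => h1 (e ▸ h), fun e => h2 (e ▸ h)⟩
  · rintro ⟨h3 | h3 | h3, h4, h5⟩
    · exact absurd h3 h4
    · exact absurd h3 h5
    · exact h3

theorem drop_con {A1 A2 : List ℕ} {K : List (List ℕ)} {S : List (List (List ℕ))}
    (h : Snd t δ σ ((A1 :: A2 :: K) :: S)) : Snd t δ σ (con' A1 (con' A2 K) :: S) := by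
  have h2 : Snd t δ σ ((A1 :: con' A2 K) :: S) := by
    unfold con'
    split_ifs with e
    · subst e
      exact Snd.drop (K1 := [A1]) h
    · exact h
  generalize con' A2 K = K' at h2 ⊢
  unfold con'
  split_ifs with e
  · subst e
    exact Snd.drop (K1 := []) h2
  · exact h2

theorem con_flat (A : List ℕ) (K : List (List ℕ)) : (con' A K).flatten = A ++ K.flatten := by
  unfold con'
  split_ifs with e
  · rw [e]; rfl
  · rfl

theorem con_map (A : List ℕ) (K : List (List ℕ)) (f : ℕ → ℕ) :
    (con' A K).map (List.map f) = con' (A.map f) (K.map (List.map f)) := by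
  unfold con'
  by_cases e : A = []
  · rw [if_pos e, if_pos (by rw [e]; rfl)]
  · rw [if_neg e, if_neg (by simpa using e)]; rfl

theorem join2_S (hE : Env t δ σ) {x y : ℕ} (hxy : σ x = y) {A : List ℕ} {K : List (List ℕ)}
    {S' : List (List (List ℕ))} {n : Bool} {k : List (List (List ℕ)) → Bool}
    (h : Sta t δ σ (((x :: A) :: K) :: S')) (hx : x < 36) (hy36 : y < 36)
    (hy : y ∈ en (((x :: A) :: K) :: S')) (hne : x ≠ y) (hk : join2 y S' K A n k = true) :
    ∃ S, Sta t δ σ S ∧ (∀ a, a ∈ en S ↔ a ∈ en (((x :: A) :: K) :: S') ∧ a ≠ x ∧ a ≠ y) ∧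
      k S = true := by
  have hxm : x % 64 = x := Nat.mod_eq_of_lt (by omega)
  have hym : y % 64 = y := Nat.mod_eq_of_lt (by omega)
  have hsnd := h.snd
  rw [cln_cons, List.map_cons, List.map_cons, hxm] at hsnd
  have hx12 : x < 12 * t := hsnd.lt x (by rw [flat2]; simp)
  unfold join2 at hk
  rcases cutK_spec hk with ⟨A1, A2, h1, h2⟩ | ⟨h1, h2⟩
  · subst h1
    rw [List.map_append, List.map_cons, hym] at hsnd
    have hs := hsnd.split hE hxy
    have hfin : split2 A1 A2 K S' k = true → ∃ S, Sta t δ σ S ∧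
        (∀ a, a ∈ en S ↔ a ∈ en (((x :: (A1 ++ y :: A2)) :: K) :: S') ∧ a ≠ x ∧ a ≠ y) ∧
        k S = true := by
      intro h3
      rw [split2_eq] at h3
      have hperm : (en (((x :: (A1 ++ y :: A2)) :: K) :: S')).Perm
          (x :: y :: en (con' A1 (con' A2 K) :: S')) := by
        rw [List.perm_iff_count]
        intro a
        unfold en
        rw [flat2, flat2, con_flat, con_flat]
        simp only [List.flatten_cons, List.count_append, List.count_cons, List.cons_append]
        omega
      have hm := mem_rest hperm h.nd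
      refine ⟨_, ⟨?_, fun a ha => h.ent a ((hm a).1 ha).1⟩, hm, h3⟩
      rw [cln_cons, con_map, con_map]
      exact drop_con hs
    have hent : ∀ a ∈ en ((A1 :: A2 :: K) :: S'),
        a < 36 ∨ (64 ≤ a ∧ a < 100 ∧ σ (a - 64) = a - 64) := by
      intro a ha
      refine h.ent a ?_
      unfold en at ha
      rw [flat2] at ha ⊢
      simp only [List.flatten_cons, List.mem_append, List.mem_cons] at ha ⊢
      tauto
    cases hb : bal A1 0 0 with
    | false =>
      exfalso
      have h0 := (hs.fc _ (List.mem_cons_self) _ (List.mem_cons_self)).1 sgn hE.sg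
      have : bal A1 0 0 = true := by rw [bal_iff]; simpa using h0
      rw [this] at hb
      exact absurd hb (by simp)
    | true =>
      rw [hb] at h2
      cases hc : hl A1 with
      | false => rw [hc] at h2; exact hfin h2
      | true =>
        rw [hc] at h2
        cases hd : hl A2 with
        | false => rw [hd] at h2; exact hfin h2
        | true =>
          exfalso
          refine two_leaf hE (S1 := []) (S2 := S') (K1 := []) (K2 := A2 :: K) (F := A1) hs hent hc ?_
          change (Bool.rec (anyl K) true (hl A2) : Bool) = true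
          rw [hd]
  · rcases cutS_spec h2 with ⟨S1, K1, p, q, K2, S2, h3, h4⟩ | ⟨h3, h4⟩
    · subst h3
      rw [merge2_eq] at h4
      have hs1 : Snd t δ σ (((y :: (q.map (· % 64) ++ p.map (· % 64))) ::
          (K1.map (List.map (· % 64)) ++ K2.map (List.map (· % 64)))) ::
          ((((x :: A.map (· % 64)) :: K.map (List.map (· % 64))) :: cln S1) ++ cln S2)) := by
        apply Snd.front
        convert hsnd using 2
        simp [cln, hym]
      have hs2 := Snd.merge hE hxy hs1
      have hs3 : Snd t δ σ (cln (((A ++ (q ++ p)) :: (K ++ (K1 ++ K2))) :: (S1 ++ S2))) := by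
        convert hs2 using 2; simp [cln]
      have hperm : (en (((x :: A) :: K) :: (S1 ++ (K1 ++ (p ++ y :: q) :: K2) :: S2))).Perm
          (x :: y :: en (((A ++ (q ++ p)) :: (K ++ (K1 ++ K2))) :: (S1 ++ S2))) := by
        rw [List.perm_iff_count]
        intro a
        unfold en
        simp only [List.flatten_cons, List.flatten_append, List.count_append, List.count_cons,
          List.cons_append]
        omega
      have hm := mem_rest hperm h.nd
      have hent : ∀ a ∈ en (((A ++ (q ++ p)) :: (K ++ (K1 ++ K2))) :: (S1 ++ S2)),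
          a < 36 ∨ (64 ≤ a ∧ a < 100 ∧ σ (a - 64) = a - 64) := fun a ha => h.ent a ((hm a).1 ha).1
      cases hb : nl1 ((A ++ (q ++ p)) :: (K ++ (K1 ++ K2))) with
      | false =>
        exfalso
        obtain ⟨L1, F, L2, e1, e2, e3⟩ := nl1_false hb
        rw [e1] at hs3 hent
        refine two_leaf hE (S1 := []) (S2 := S1 ++ S2) (K1 := L1) (K2 := L2) (F := F) hs3 hent e2 ?_
        clear hs3 hent e1 hb hm hperm h4
        induction L1 with
        | nil => exact e3
        | cons G L1 ih =>
          change (Bool.rec (anyl (L1 ++ L2)) true (hl G) : Bool) = true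
          rw [ih]
          cases hl G <;> rfl
      | true =>
        rw [hb] at h4
        exact ⟨_, ⟨hs3, hent⟩, hm, h4⟩
    · exfalso
      have hyK : y ∈ K.flatten := by
        rcases List.mem_flatten.1 hy with ⟨F, hF, hyF⟩
        rcases List.mem_flatten.1 hF with ⟨K', hK', hFK⟩
        rcases List.mem_cons.1 hK' with rfl | hK'
        · rcases List.mem_cons.1 hFK with rfl | hFK
          · rcases List.mem_cons.1 hyF with e | hyF
            · exact absurd e.symm hne
            · exact absurd hyF h1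
          · exact List.mem_flatten.2 ⟨F, hFK, hyF⟩
        · exact absurd hyF (h3 K' hK' F hFK)
      refine hsnd.two_faces (S1 := []) (K1 := []) (x := x) (y := y) (by simp) ?_ fun p hp =>
        (full hE hsnd.cl hx12 hxy ?_ ?_ hp).1
      · obtain ⟨F, hF, hyF⟩ := List.mem_flatten.1 hyK
        refine List.mem_flatten.2 ⟨F.map (· % 64), List.mem_map_of_mem hF, ?_⟩
        rw [← hym]
        exact List.mem_map_of_mem hyF
      · change x ∈ List.flatten (List.flatten _)
        rw [flat2]
        simp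
      · change y ∈ List.flatten (List.flatten _)
        rw [flat2]
        obtain ⟨F, hF, hyF⟩ := List.mem_flatten.1 hyK
        refine List.mem_append_left _ (List.mem_append_right _ (List.mem_flatten.2
          ⟨F.map (· % 64), List.mem_map_of_mem hF, ?_⟩))
        rw [← hym]
        exact List.mem_map_of_mem hyF

theorem Sta.front {S1 S2 : List (List (List ℕ))} {K1 K2 : List (List ℕ)} {p q : List ℕ} {x : ℕ}
    (h : Sta t δ σ (S1 ++ (K1 ++ (p ++ x :: q) :: K2) :: S2)) :
    Sta t δ σ (((x :: (q ++ p)) :: (K1 ++ K2)) :: (S1 ++ S2)) ∧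
      ∀ a, a ∈ en (((x :: (q ++ p)) :: (K1 ++ K2)) :: (S1 ++ S2)) ↔
        a ∈ en (S1 ++ (K1 ++ (p ++ x :: q) :: K2) :: S2) := by
  have hperm : (en (((x :: (q ++ p)) :: (K1 ++ K2)) :: (S1 ++ S2))).Perm
      (en (S1 ++ (K1 ++ (p ++ x :: q) :: K2) :: S2)) := by
    rw [List.perm_iff_count]
    intro a
    unfold en
    simp only [List.flatten_cons, List.flatten_append, List.count_append, List.count_cons,
      List.cons_append]
    omega
  refine ⟨⟨?_, fun a ha => h.ent a (hperm.mem_iff.1 ha)⟩, fun a => hperm.mem_iff⟩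
  have h1 := h.snd
  rw [cln_append, cln_cons, List.map_append, List.map_cons, List.map_append, List.map_cons] at h1
  have h2 := h1.front
  rw [cln_cons, cln_append, List.map_cons, List.map_append, List.map_cons, List.map_append]
  exact h2

theorem join_S (hE : Env t δ σ) {x y : ℕ} (hxy : σ x = y)
    {S : List (List (List ℕ))} {n : Bool} {k : List (List (List ℕ)) → Bool}
    (h : Sta t δ σ S) (hx : x < 36) (hy36 : y < 36)
    (hxS : x ∈ en S) (hy : y ∈ en S) (hne : x ≠ y) (hk : join x y S n k = true) :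
    ∃ S', Sta t δ σ S' ∧ (∀ a, a ∈ en S' ↔ a ∈ en S ∧ a ≠ x ∧ a ≠ y) ∧
      k S' = true := by
  unfold join at hk
  rcases cutS_spec hk with ⟨S1, K1, p, q, K2, S2, h3, h4⟩ | ⟨h3, h4⟩
  · subst h3
    obtain ⟨h5, h6⟩ := h.front
    obtain ⟨S', h7, h8, h9⟩ := join2_S hE hxy h5 hx hy36 ((h6 y).2 hy) hne h4
    exact ⟨S', h7, fun a => by rw [h8, h6], h9⟩
  · exfalso
    obtain ⟨F, hF, hxF⟩ := List.mem_flatten.1 hxS
    obtain ⟨K, hK, hFK⟩ := List.mem_flatten.1 hF
    exact h3 K hK F hFK hxF

theorem mark_S (hE : Env t δ σ) {x : ℕ} (hxx : σ x = x)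
    {S : List (List (List ℕ))} {n : Bool} {k : List (List (List ℕ)) → Bool}
    (h : Sta t δ σ S) (hx : x < 36) (hxS : x ∈ en S) (hk : mark x S n k = true) :
    ∃ S', Sta t δ σ S' ∧ (∀ a, a ∈ en S' ↔ (a ∈ en S ∧ a ≠ x) ∨ a = x + 64) ∧
      k S' = true := by
  unfold mark at hk
  rcases cutS_spec hk with ⟨S1, K1, p, q, K2, S2, h3, h4⟩ | ⟨h3, h4⟩
  · subst h3
    obtain ⟨h5, h6⟩ := h.front
    have hnd := h5.nd
    have hs : Sta t δ σ ((((x + 64) :: (q ++ p)) :: (K1 ++ K2)) :: (S1 ++ S2)) := by
      constructor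
      · have h7 := h5.snd
        rw [cln_cons, List.map_cons, List.map_cons] at h7 ⊢
        have : (x + 64) % 64 = x % 64 := by omega
        rw [this]; exact h7
      · intro a ha
        rw [flat2, List.flatten_cons, List.cons_append, List.cons_append, List.mem_cons] at ha
        rcases ha with rfl | ha
        · right
          refine ⟨by omega, by omega, ?_⟩
          rw [Nat.add_sub_cancel]; exact hxx
        · refine h5.ent a ?_
          rw [flat2, List.flatten_cons, List.cons_append, List.cons_append, List.mem_cons]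
          exact Or.inr ha
    cases hb : anyl (K1 ++ K2) with
    | false =>
      rw [hb] at h4
      refine ⟨_, hs, fun a => ?_, h4⟩
      rw [← h6]
      unfold en
      rw [flat2, flat2, List.flatten_cons, List.flatten_cons, List.cons_append, List.cons_append,
        List.mem_cons, List.cons_append, List.cons_append, List.mem_cons]
      unfold en at hnd
      rw [flat2, List.flatten_cons, List.cons_append, List.cons_append, List.nodup_cons] at hnd
      constructor
      · rintro (h | h)
        · exact Or.inr h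
        · exact Or.inl ⟨Or.inr h, fun e => hnd.1 (e ▸ h)⟩
      · rintro (⟨h | h, h'⟩ | h)
        · exact absurd h h'
        · exact Or.inr h
        · exact Or.inl h
    | true =>
      exfalso
      refine two_leaf hE (S1 := []) (K1 := []) hs.snd hs.ent ?_ hb
      change (Bool.rec (hl (q ++ p)) true (Nat.ble 64 (x + 64)) : Bool) = true
      have : Nat.ble 64 (x + 64) = true := Nat.ble_eq_true_of_le (by omega)
      rw [this]
  · exfalso
    obtain ⟨F, hF, hxF⟩ := List.mem_flatten.1 hxS
    obtain ⟨K, hK, hFK⟩ := List.mem_flatten.1 hF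
    exact h3 K hK F hFK hxF

theorem partner_S (hE : Env t δ σ) {m N o : ℕ} {A : List ℕ} {K : List (List ℕ)}
    {S' : List (List (List ℕ))} {n : Bool} {k : ℕ → List (List (List ℕ)) → Bool}
    (h1 : σ (ov N) = ov o) (h2 : σ (un N) = un o)
    (h : Sta t δ σ (((ov N :: A) :: K) :: S')) (hN : N < 18) (ho : o < 18) (hNo : N ≠ o)
    (e1 : ov o ∈ en (((ov N :: A) :: K) :: S')) (e2 : un N ∈ en (((ov N :: A) :: K) :: S'))
    (e3 : un o ∈ en (((ov N :: A) :: K) :: S'))
    (hb : big2 δ m N o = false) (hk : partner δ m N o S' K A n k = true) :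
    ∃ S, Sta t δ σ S ∧ (∀ a, a ∈ en S ↔ a ∈ en (((ov N :: A) :: K) :: S') ∧ a ≠ ov N ∧ a ≠ ov o ∧
      a ≠ un N ∧ a ≠ un o) ∧ k (put (put m N (Nat.succ o)) o (Nat.succ N)) S = true := by
  have fN := name_facts N hN
  have fo := name_facts o ho
  have d1 : ov N ≠ ov o := fun e => hNo (by rw [← fN.2.2.1, e, fo.2.2.1])
  have d2 : un N ≠ un o := fun e => hNo (by rw [← fN.2.2.2.1, e, fo.2.2.2.1])
  have d3 : un N ≠ ov o := fun e => hNo (by rw [← fN.2.2.2.1, e, fo.2.2.1])
  have d4 : un o ≠ ov N := fun e => hNo (by rw [← fN.2.2.1, ← e, fo.2.2.2.1])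
  have d5 : un N ≠ ov N := Ne.symm fN.2.2.2.2.1
  have d6 : un o ≠ ov o := Ne.symm fo.2.2.2.2.1
  unfold partner at hk
  simp only [frc_eq] at hk
  obtain ⟨S, k1, k2, k3⟩ := join2_S hE h1 h fN.1 fo.1 e1 d1 hk
  obtain ⟨S2, k4, k5, k6⟩ := join_S hE h2 k1 fN.2.1 fo.2.1 ((k2 _).2 ⟨e2, d5, d3⟩)
    ((k2 _).2 ⟨e3, d4, d6⟩) d2 k3
  rw [hb] at k6
  refine ⟨S2, k4, fun a => ?_, k6⟩
  rw [k5, k2]
  tauto

end Pool.Agent.L0h30.TT
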