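import Pool.Agent.L0h30.SR.FaceB
import Pool.Agent.L0h30.TT.Count

/-! Corners in planar arrangements of curves described by words. -/

namespace Pool.Agent.L0h30.TT

open Pool.Agent.Y874.TP2 (CycL om)
open Pool.Agent.L0h30.SR

section
variable {X K : Type} [DecidableEq X] [DecidableEq K]

/-- corners -/
theorem faces2 (DW Q : List (List X)) (σ : X → X) (sg : X → ℤ)
    (hW : DW.flatten ≠ []) (nd : (DW ++ Q).flatten.Nodup)
    (hfix : ∀ q ∈ Q, ∀ y ∈ q, q.formPerm y ≠ y)
    (hσ : ∀ x ∈ (DW ++ Q).flatten, σ x ∈ (DW ++ Q).flatten ∧ σ (σ x) = x ∧ sg (σ x) = -sg x ∧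
      (sg x = 1 ∨ sg x = -1))
    (om0 : ∀ f g : X → ℤ, (∀ x, x ∉ (DW ++ Q).flatten → f x = 0 ∧ g x = 0) →
      (∀ x ∈ (DW ++ Q).flatten, f (σ x) = -f x ∧ g (σ x) = -g x) →
      (∀ q ∈ DW ++ Q, (q.map f).sum = 0 ∧ (q.map g).sum = 0) →
      ((DW ++ Q).map (om f g)).sum = 0)
    (κ : X → K)
    (hκ : ∀ x ∈ DW.flatten, ∀ y ∈ DW.flatten, κ x = κ y → x = y ∨ ∃ f : X → ℤ,
      (∀ x ∈ (DW ++ Q).flatten, f (σ x) = -f x) ∧ (∀ q ∈ DW ++ Q, (q.map f).sum = 0) ∧
      f x = 1 ∧ f y = -1 ∧ ∀ z ∈ DW.flatten, z ≠ x → z ≠ y → f z = 0)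
    (hg : 2 * (DW.flatten.toFinset.image κ).card ≤ (DW.flatten.toFinset.filter fun x =>
      σ x ∈ DW.flatten ∨ σ ((rot (DW ++ Q))⁻¹ (σ x)) ∈ DW.flatten).card) :
    (∃ w ∈ DW, ∃ x ∈ w, CycL x (σ x) w) ∨
    (∃ q ∈ Q, ∃ w ∈ DW, ∃ x y, CycL x (σ y) w ∧ CycL y (σ x) q) := by
  classical
  set L : List (List X) := DW ++ Q with hL
  let Y := {x // x ∈ L.flatten}
  have hwd : ∀ y : Y, ∃ w : {w // w ∈ L.toFinset}, y.1 ∈ w.1 := by
    rintro ⟨x, hx⟩
    obtain ⟨w, hw, hxw⟩ := List.mem_flatten.1 hx
    exact ⟨⟨w, by simpa using hw⟩, hxw⟩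
  choose v hv using hwd
  have hmemL : ∀ w : {w // w ∈ L.toFinset}, w.1 ∈ L := fun w => List.mem_toFinset.1 w.2
  have ndw : ∀ w ∈ L, w.Nodup := fun w hw => (List.nodup_flatten.1 nd).1 w hw
  have huniq : ∀ w ∈ L, ∀ w' ∈ L, ∀ x, x ∈ w → x ∈ w' → w = w' := uniq_word nd
  have hvu : ∀ (y : Y) w, (hw : w ∈ L) → y.1 ∈ w → (v y).1 = w := fun y w hw hy =>
    huniq _ (hmemL _) w hw y.1 (hv y) hy
  have hrotmem : ∀ x, x ∈ L.flatten → rot L x ∈ L.flatten := by
    intro x hx
    obtain ⟨w, hw, hxw⟩ := List.mem_flatten.1 hx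
    rw [rot_mem nd hw hxw]
    exact List.mem_flatten.2 ⟨w, hw, List.formPerm_apply_mem_of_mem hxw⟩
  have hrotiff : ∀ x, rot L x ∈ L.flatten ↔ x ∈ L.flatten := by
    intro x
    refine ⟨fun h => ?_, hrotmem x⟩
    by_contra hx
    rw [rot_not_mem hx] at h
    exact hx h
  let ρ : Equiv.Perm Y := (rot L).subtypePerm hrotiff
  let τ : Equiv.Perm Y :=
    { toFun := fun y => ⟨σ y.1, (hσ y.1 y.2).1⟩
      invFun := fun y => ⟨σ y.1, (hσ y.1 y.2).1⟩
      left_inv := fun y => Subtype.ext (hσ y.1 y.2).2.1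
      right_inv := fun y => Subtype.ext (hσ y.1 y.2).2.1 }
  have hρ1 : ∀ y : Y, (ρ y).1 = rot L y.1 := fun y => rfl
  have hτ1 : ∀ y : Y, (τ y).1 = σ y.1 := fun y => rfl
  have hτ : ∀ y, τ (τ y) = y := fun y => Subtype.ext (hσ y.1 y.2).2.1
  have hρv : ∀ y, v (ρ y) = v y := by
    intro y
    refine Subtype.ext (hvu _ _ (hmemL _) ?_)
    rw [hρ1, rot_mem nd (hmemL _) (hv y)]
    exact List.formPerm_apply_mem_of_mem (hv y)
  have hfib : ∀ (F : X → ℚ) (w : {w // w ∈ L.toFinset}),
      ∑ y with v y = w, F y.1 = (w.1.map F).sum := by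
    intro F w
    rw [← List.sum_toFinset F (ndw _ (hmemL w))]
    refine Finset.sum_bij (fun y _ => y.1) ?_ ?_ ?_ ?_
    · intro y hy
      simp only [Finset.mem_filter, Finset.mem_univ, true_and] at hy
      rw [List.mem_toFinset, ← hy]
      exact hv y
    · intro a _ b _ h
      exact Subtype.ext h
    · intro x hx
      rw [List.mem_toFinset] at hx
      refine ⟨⟨x, List.mem_flatten.2 ⟨w.1, hmemL w, hx⟩⟩, ?_, rfl⟩
      simp only [Finset.mem_filter, Finset.mem_univ, true_and]
      exact Subtype.ext (hvu _ _ (hmemL w) hx)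
    · intro _ _; rfl
  have hex : ∀ f : Y → ℚ, (∀ x, f (τ x) = -f x) → (∀ w, ∑ x with v x = w, f x = 0) →
      ∃ s : Y → ℚ, (∀ x, s (ρ x) - s x = f (ρ x)) ∧ ∀ g : Y → ℚ, (∀ x, g (τ x) = -g x) →
        (∀ w, ∑ x with v x = w, g x = 0) → ∑ x, g x * (s x - s (τ x) - f x) = 0 := by
      intro f hf hf0
      -- extension by zero
      let F : X → ℚ := fun x => if h : x ∈ L.flatten then f ⟨x, h⟩ else 0
      have hF : ∀ y : Y, F y.1 = f y := fun y => by
        change (if h : y.1 ∈ L.flatten then f ⟨y.1, h⟩ else 0) = f y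
        rw [dif_pos y.2]
      have hF0 : ∀ w ∈ L, (w.map F).sum = 0 := by
        intro w hw
        have := hf0 ⟨w, by simpa using hw⟩
        rw [← hfib F ⟨w, by simpa using hw⟩]
        rw [← this]
        exact Finset.sum_congr rfl fun y _ => hF y
      refine ⟨fun y => ps F (v y).1 y.1, fun y => ?_, fun g hg hg0 => ?_⟩
      · change ps F (v (ρ y)).1 (ρ y).1 - ps F (v y).1 y.1 = f (ρ y)
        rw [hρv, ← hF, hρ1, rot_mem nd (hmemL _) (hv y)]
        exact ps_formPerm F (ndw _ (hmemL _)) (hF0 _ (hmemL _)) (hv y)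
      · let G : X → ℚ := fun x => if h : x ∈ L.flatten then g ⟨x, h⟩ else 0
        have hG : ∀ y : Y, G y.1 = g y := fun y => by
          change (if h : y.1 ∈ L.flatten then g ⟨y.1, h⟩ else 0) = g y
          rw [dif_pos y.2]
        have hG0 : ∀ w ∈ L, (w.map G).sum = 0 := by
          intro w hw
          have := hg0 ⟨w, by simpa using hw⟩
          rw [← hfib G ⟨w, by simpa using hw⟩]
          rw [← this]
          exact Finset.sum_congr rfl fun y _ => hG y
        -- the sum in terms of the words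
        have e1 : ∑ y : Y, g y * (ps F (v y).1 y.1 - ps F (v (τ y)).1 (τ y).1 - f y) =
            ∑ y : Y, g y * (2 * ps F (v y).1 y.1 - f y) := by
          have e2 : ∑ y : Y, g y * ps F (v (τ y)).1 (τ y).1 =
              -∑ y : Y, g y * ps F (v y).1 y.1 := by
            rw [← Equiv.sum_comp τ fun y => g y * ps F (v y).1 y.1, ← Finset.sum_neg_distrib]
            refine Finset.sum_congr rfl fun y _ => ?_
            rw [hg]; ring
          have e3 : ∑ y : Y, g y * (ps F (v y).1 y.1 - ps F (v (τ y)).1 (τ y).1 - f y) =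
              ∑ y : Y, g y * ps F (v y).1 y.1 - ∑ y : Y, g y * ps F (v (τ y)).1 (τ y).1 -
                ∑ y : Y, g y * f y := by
            rw [← Finset.sum_sub_distrib, ← Finset.sum_sub_distrib]
            exact Finset.sum_congr rfl fun y _ => by ring
          have e4 : ∑ y : Y, g y * (2 * ps F (v y).1 y.1 - f y) =
              ∑ y : Y, g y * ps F (v y).1 y.1 + ∑ y : Y, g y * ps F (v y).1 y.1 -
                ∑ y : Y, g y * f y := by
            rw [← Finset.sum_add_distrib, ← Finset.sum_sub_distrib]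
            exact Finset.sum_congr rfl fun y _ => by ring
          rw [e3, e4, e2]; ring
        rw [e1]
        have e5 : ∑ y : Y, g y * (2 * ps F (v y).1 y.1 - f y) =
            ∑ w : {w // w ∈ L.toFinset}, omQ F G w.1 := by
          rw [← Finset.sum_fiberwise Finset.univ v]
          refine Finset.sum_congr rfl fun w _ => ?_
          have e6 := hfib (fun x => G x * (2 * ps F w.1 x - F x)) w
          rw [ps_sum F G (ndw _ (hmemL w)), hF0 _ (hmemL w), zero_mul, add_zero] at e6
          rw [← e6]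
          refine Finset.sum_congr rfl fun y hy => ?_
          simp only [Finset.mem_filter, Finset.mem_univ, true_and] at hy
          rw [hF, hG, hy]
        have e7 : ∑ w : {w // w ∈ L.toFinset}, omQ F G w.1 = ∑ w ∈ L.toFinset, omQ F G w :=
          (Finset.sum_subtype L.toFinset (fun x => Iff.rfl) (fun w => omQ F G w)).symm
        have e8 : ∑ w ∈ L.toFinset, omQ F G w = 0 := by
          obtain ⟨N, hN, f', f1, f2⟩ := exists_mult L.flatten F
          obtain ⟨M, hM, g', g1, g2⟩ := exists_mult L.flatten G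
          have hsum : ∀ w ∈ L, (w.map f').sum = 0 ∧ (w.map g').sum = 0 := by
            intro w hw
            constructor
            · have h1 : (((w.map f').sum : ℤ) : ℚ) = N * (w.map F).sum := by
                rw [← List.sum_map_mul_left, Int.cast_list_sum, List.map_map]
                congr 1
                refine List.map_congr_left fun x hx => ?_
                exact f1 x (List.mem_flatten.2 ⟨w, hw, hx⟩)
              rw [hF0 w hw, mul_zero] at h1
              exact_mod_cast h1
            · have h1 : (((w.map g').sum : ℤ) : ℚ) = M * (w.map G).sum := by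
                rw [← List.sum_map_mul_left, Int.cast_list_sum, List.map_map]
                congr 1
                refine List.map_congr_left fun x hx => ?_
                exact g1 x (List.mem_flatten.2 ⟨w, hw, hx⟩)
              rw [hG0 w hw, mul_zero] at h1
              exact_mod_cast h1
          have hfl : ∀ x ∈ L.flatten, f' (σ x) = -f' x ∧ g' (σ x) = -g' x := by
            intro x hx
            have hx' := (hσ x hx).1
            have k1 : F (σ x) = -F x := by
              have := hf ⟨x, hx⟩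
              rw [← hF, ← hF] at this
              exact this
            have k2 : G (σ x) = -G x := by
              have := hg ⟨x, hx⟩
              rw [← hG, ← hG] at this
              exact this
            constructor
            · have h1 : ((f' (σ x) : ℤ) : ℚ) = ((-f' x : ℤ) : ℚ) := by
                push_cast
                rw [f1 _ hx', f1 _ hx, k1]; ring
              exact_mod_cast h1
            · have h1 : ((g' (σ x) : ℤ) : ℚ) = ((-g' x : ℤ) : ℚ) := by
                push_cast
                rw [g1 _ hx', g1 _ hx, k2]; ring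
              exact_mod_cast h1
          have h0 := om0 f' g' (fun x hx => ⟨f2 x hx, g2 x hx⟩) hfl hsum
          -- empty words do not contribute
          have hz : ∀ l : List (List X), (∀ w ∈ l, w ∈ L) → l.flatten.Nodup →
              ∑ w ∈ l.toFinset, omQ F G w = (l.map (omQ F G)).sum := by
            intro l
            induction l with
            | nil => intro _ _; simp
            | cons w l ih =>
              intro hl hnd
              rw [List.toFinset_cons, List.map_cons, List.sum_cons]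
              have ih' := ih (fun w hw => hl w (by simp [hw])) (by
                rw [List.flatten_cons, List.nodup_append] at hnd
                exact hnd.2.1)
              by_cases hw : w ∈ l.toFinset
              · rw [Finset.insert_eq_of_mem hw, ih']
                have : w = [] := by
                  rcases w with _ | ⟨x, w⟩
                  · rfl
                  · exfalso
                    rw [List.flatten_cons, List.nodup_append] at hnd
                    exact hnd.2.2 x (by simp) x (List.mem_flatten.2 ⟨_, by simpa using hw, by simp⟩) rfl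
                rw [this]; simp [omQ]
              · rw [Finset.sum_insert hw, ih']
          rw [hz L (fun w hw => hw) nd]
          have h2 : ((L.map (om f' g')).sum : ℚ) = N * M * (L.map (omQ F G)).sum := by
            rw [← List.sum_map_mul_left, Int.cast_list_sum, List.map_map]
            congr 1
            refine List.map_congr_left fun w hw => ?_
            have h3 : omQ (fun x => (f' x : ℚ)) (fun x => (g' x : ℚ)) w =
                omQ (fun x => (N : ℚ) * F x) (fun x => (M : ℚ) * G x) w :=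
              omQ_congr fun x hx => ⟨f1 x (List.mem_flatten.2 ⟨w, hw, hx⟩),
                g1 x (List.mem_flatten.2 ⟨w, hw, hx⟩)⟩
            rw [Function.comp_apply, ← omQ_cast, h3, omQ_smul]
          rw [h0] at h2
          have h3 : ((N : ℚ) * M) ≠ 0 := mul_ne_zero (by exact_mod_cast hN) (by exact_mod_cast hM)
          have h4 : (N : ℚ) * M * (L.map (omQ F G)).sum = 0 := by rw [← h2]; simp
          exact (mul_eq_zero.1 h4).resolve_left h3
        rw [e5, e7, e8]
  set φ : Equiv.Perm Y := ρ⁻¹ * τ with hφd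
  let W' : Finset Y := Finset.univ.filter fun y => y.1 ∈ DW.flatten
  have hW' : ∀ y : Y, y ∈ W' ↔ y.1 ∈ DW.flatten := fun y => by simp [W']
  have hinL : ∀ x, x ∈ DW.flatten → x ∈ L.flatten := by
    intro x hx
    rw [hL, List.flatten_append]
    exact List.mem_append_left _ hx
  have hρW : ∀ x ∈ W', ρ⁻¹ x ∈ W' := by
    intro x hx
    rw [hW'] at hx ⊢
    obtain ⟨w, hw, hxw⟩ := List.mem_flatten.1 hx
    have h1 : ρ (ρ⁻¹ x) = x := Equiv.apply_symm_apply ρ x
    have h2 : x.1 ∈ (v (ρ⁻¹ x)).1 := by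
      have := hv x
      rw [← h1, hρv] at this
      rwa [h1] at this
    have h3 : (v (ρ⁻¹ x)).1 = w := huniq _ (hmemL _) w (by rw [hL]; exact List.mem_append_left _ hw) _ h2 hxw
    have h4 := hv (ρ⁻¹ x)
    rw [h3] at h4
    exact List.mem_flatten.2 ⟨w, hw, h4⟩
  have hne : W'.Nonempty := by
    obtain ⟨x, hx⟩ := List.exists_mem_of_ne_nil _ hW
    exact ⟨⟨x, hinL x hx⟩, (hW' _).2 hx⟩
  have hφ1 : ∀ y, φ y = ρ⁻¹ (τ y) := fun y => rfl
  have hρL : ∀ y : Y, (ρ⁻¹ y).1 = (rot L)⁻¹ y.1 := by
    intro y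
    have h1 : ρ (ρ⁻¹ y) = y := Equiv.apply_symm_apply ρ y
    have h2 : rot L (ρ⁻¹ y).1 = y.1 := by rw [← hρ1, h1]
    rw [← h2]
    exact (Equiv.symm_apply_apply (rot L) _).symm
  have hκ' : ∀ x ∈ W', ∀ y ∈ W', κ x.1 = κ y.1 → x = y ∨ ∃ u : Y → ℚ, (∀ z, u (φ z) = u z) ∧
      u x - u (ρ⁻¹ x) = 1 ∧ u y - u (ρ⁻¹ y) = -1 ∧
      ∀ z ∈ W', z ≠ x → z ≠ y → u z - u (ρ⁻¹ z) = 0 := by
    intro x hx y hy hxy
    rcases hκ x.1 ((hW' x).1 hx) y.1 ((hW' y).1 hy) hxy with h | ⟨f, f1, f2, f3, f4, f5⟩
    · exact Or.inl (Subtype.ext h)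
    · right
      obtain ⟨u, u1, u2⟩ := cobound ρ τ hτ v hρv (fun y => (sg y.1 : ℚ))
        (fun y => by rcases (hσ y.1 y.2).2.2.2 with h | h <;> rw [h] <;> simp)
        (fun y => by rw [hτ1, (hσ y.1 y.2).2.2.1]; push_cast; ring) hex
        (f := fun y => (f y.1 : ℚ)) (fun y => by rw [hτ1, f1 y.1 y.2]; push_cast; ring) (fun w => by
          rw [hfib (fun x => (f x : ℚ)) w]
          have h1 : ((w.1.map fun x => (f x : ℚ)).sum) = (((w.1.map f).sum : ℤ) : ℚ) := by
            rw [Int.cast_list_sum, List.map_map]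
            rfl
          rw [h1, f2 _ (hmemL w)]; simp)
      refine ⟨u, fun z => u1 z, ?_, ?_, fun z hz h1 h2 => ?_⟩
      · rw [← u2, f3]; simp
      · rw [← u2, f4]; simp
      · rw [← u2, f5 z.1 ((hW' z).1 hz) (fun e => h1 (Subtype.ext e)) fun e => h2 (Subtype.ext e)]
        simp
  have hcount := count ρ φ W' hne hρW (fun y => κ y.1) hκ' (by
    refine le_trans (Nat.mul_le_mul_left 2 ?_) (le_trans hg ?_)
    · refine Finset.card_le_card fun k hk => ?_
      obtain ⟨x, hx, rfl⟩ := Finset.mem_image.1 hk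
      exact Finset.mem_image_of_mem κ (List.mem_toFinset.2 ((hW' x).1 hx))
    · have hsub : (DW.flatten.toFinset.filter fun x =>
          σ x ∈ DW.flatten ∨ σ ((rot L)⁻¹ (σ x)) ∈ DW.flatten) ⊆
          (W'.filter fun x => φ x ∈ W' ∨ φ (φ x) ∈ W').image fun y => y.1 := by
        intro x hx
        rw [Finset.mem_filter, List.mem_toFinset] at hx
        rw [Finset.mem_image]
        refine ⟨⟨x, hinL x hx.1⟩, ?_, rfl⟩
        rw [Finset.mem_filter, hW']
        refine ⟨hx.1, ?_⟩
        rcases hx.2 with h | h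
        · left
          exact hρW _ ((hW' _).2 h)
        · right
          rw [hφ1, hφ1]
          refine hρW _ ((hW' _).2 ?_)
          rw [hτ1, hρL, hτ1]
          exact h
      exact (Finset.card_le_card hsub).trans Finset.card_image_le)
  -- translation
  have hρs : ∀ y z : Y, ρ y = τ z → ∀ w ∈ L, y.1 ∈ w → w.formPerm y.1 = σ z.1 := by
    intro y z h w hw hy
    rw [← rot_mem nd hw hy, ← hρ1, h]
    rfl
  have hφ : ∀ y z : Y, φ y = z → ρ z = τ y := by
    intro y z h
    rw [← h]
    exact Equiv.apply_symm_apply ρ (τ y)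
  have hσne : ∀ y : Y, σ y.1 ≠ y.1 := by
    intro y h
    have h1 := (hσ y.1 y.2).2.2.1
    rw [h] at h1
    rcases (hσ y.1 y.2).2.2.2 with h2 | h2 <;> rw [h2] at h1 <;> norm_num at h1
  obtain ⟨x, hx, h | ⟨h1, h2⟩⟩ := hcount
  · left
    obtain ⟨w, hw, hxw⟩ := List.mem_flatten.1 ((hW' x).1 hx)
    have hwL : w ∈ L := by rw [hL]; exact List.mem_append_left _ hw
    have h3 := hρs x x (hφ x x h) w hwL hxw
    refine ⟨w, hw, x.1, hxw, ?_⟩
    rw [← h3]
    exact cycL_next (ndw _ hwL) hxw (by rw [h3]; exact hσne x)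
  · right
    set y : Y := φ x with hy
    have e1 : ρ y = τ x := hφ x y rfl
    have e2 : ρ x = τ y := hφ y x h2
    obtain ⟨w, hw, hxw⟩ := List.mem_flatten.1 ((hW' x).1 hx)
    have hwL : w ∈ L := by rw [hL]; exact List.mem_append_left _ hw
    obtain ⟨q, hq, hyq⟩ := List.mem_flatten.1 y.2
    have hqQ : q ∈ Q := by
      rw [hL] at hq
      rcases List.mem_append.1 hq with h | h
      · exact absurd ((hW' y).2 (List.mem_flatten.2 ⟨q, h, hyq⟩)) h1
      · exact h
    have h3 := hρs x y e2 w hwL hxw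
    have h4 := hρs y x e1 q hq hyq
    have hxy : x ≠ y := by
      intro e
      rw [← e] at h1
      exact h1 hx
    refine ⟨q, hqQ, w, hw, x.1, y.1, ?_, ?_⟩
    · rw [← h3]
      refine cycL_next (ndw _ hwL) hxw ?_
      -- the word has another member
      intro e
      rw [h3] at e
      -- then `σ y = x`, and `y` precedes `σ x = y`
      have h5 : σ x.1 = y.1 := by rw [← e, (hσ y.1 y.2).2.1]
      have h6 : q.formPerm y.1 = y.1 := by rw [h4, h5]
      exact hfix q hqQ y.1 hyq h6
    · rw [← h4]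
      exact cycL_next (ndw _ hq) hyq (hfix q hqQ y.1 hyq)

end

end Pool.Agent.L0h30.TT
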