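import Pool.Agent.L0h30.TT.Snd

/-! Gluing preserves the invariants. -/

namespace Pool.Agent.L0h30.TT

variable {t δ : ℕ} {σ : ℕ → ℕ} {O : Set ℕ}

theorem flat2 (K : List (List ℕ)) (L : List (List (List ℕ))) :
    (K :: L).flatten.flatten = K.flatten ++ L.flatten.flatten := by
  rw [List.flatten_cons, List.flatten_append]

theorem R.mono {x y : ℕ} (hxO : x ∈ O) (hyO : y ∈ O)
    (hxy : σ x = y) (hyx : σ y = x) {e e' : ℕ}
    (h : R t δ σ O e e') (h1 : x ≠ e) (h2 : x ≠ e') (h3 : y ≠ e) (h4 : y ≠ e') :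
    R t δ σ {d | d ∈ O ∧ d ≠ x ∧ d ≠ y} e e' := by
  obtain ⟨p, h5, h6⟩ := h
  exact ⟨p, h5.mono hxO hyO hxy hyx h1 h2 h3 h4, h6⟩

theorem R.ne {e e' : ℕ} (h : R t δ σ O e e') : e ≠ e' := by
  obtain ⟨p, h5, h6⟩ := h
  exact h5.ne

/-- the faces after gluing `x` to `y`, from the path between them -/
theorem close_part (hE : Env t δ σ) (hcl : ∀ d < 12 * t, d ∉ O → σ d ∉ O ∧ σ d ≠ d)
    {x y : ℕ} (hx : x < 12 * t) (hxO : x ∈ O) (hyO : y ∈ O) (hxy : σ x = y) (hne : x ≠ y)
    {A : List ℕ} (h : List.IsChain (R t δ σ O) (x :: (A ++ [y]))) (hA : ∀ d ∈ A, d ∈ O)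
    (hAx : x ∉ A) (hAy : y ∉ A) :
    Cycle.Chain (R t δ σ {d | d ∈ O ∧ d ≠ x ∧ d ≠ y}) (A : Cycle ℕ) := by
  have hyx : σ y = x := by rw [← hxy]; exact (hE.lt x hx).2
  rcases A with _ | ⟨a, A⟩
  · simp
  · rw [List.cons_append, List.isChain_cons_cons] at h
    rw [Cycle.chain_coe_cons, ← List.cons_append]
    refine chain_last (by rw [List.cons_append]; exact h.2) (fun u hu v hv hr => ?_) fun z hz hr => ?_
    · exact hr.mono hxO hyO hxy hyx (fun e => hAx (e ▸ hu)) (fun e => hAx (e ▸ hv))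
        (fun e => hAy (e ▸ hu)) (fun e => hAy (e ▸ hv))
    · exact R.glue hE hcl hx hxO hyO hxy (hA z hz) (hA a (by simp)) (fun e => hAx (e ▸ hz))
        (fun e => hAy (e ▸ (by simp))) hne hr h.1

theorem Snd.split (hE : Env t δ σ) {x y : ℕ} {A1 A2 : List ℕ} {K : List (List ℕ)}
    {S : List (List (List ℕ))} (hxy : σ x = y)
    (h : Snd t δ σ (((x :: (A1 ++ y :: A2)) :: K) :: S)) : Snd t δ σ ((A1 :: A2 :: K) :: S) := by
  have hx : x < 12 * t := h.lt x (by rw [flat2]; simp)
  have hy : y < 12 * t := h.lt y (by rw [flat2]; simp)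
  have hyx : σ y = x := by rw [← hxy]; exact (hE.lt x hx).2
  set S0 := ((x :: (A1 ++ y :: A2)) :: K) :: S with hS0
  have hxO : x ∈ Os S0 := by change x ∈ S0.flatten.flatten; rw [hS0, flat2]; simp
  have hyO : y ∈ Os S0 := by change y ∈ S0.flatten.flatten; rw [hS0, flat2]; simp
  have hnd := h.nd
  rw [hS0, flat2] at hnd
  have hperm : (((x :: (A1 ++ y :: A2)) :: K).flatten ++ S.flatten.flatten).Perm
      (x :: y :: ((A1 :: A2 :: K) :: S).flatten.flatten) := by
    rw [flat2]
    simp only [List.flatten_cons, List.cons_append, List.append_assoc]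
    refine List.Perm.cons _ ?_
    exact List.perm_middle
  have hnd2 := hperm.nodup_iff.1 hnd
  rw [List.nodup_cons, List.nodup_cons, List.mem_cons, not_or] at hnd2
  obtain ⟨⟨hne, hx'⟩, hy', hnd'⟩ := hnd2
  have hO : Os ((A1 :: A2 :: K) :: S) = {d | d ∈ Os S0 ∧ d ≠ x ∧ d ≠ y} := by
    ext d
    change d ∈ ((A1 :: A2 :: K) :: S).flatten.flatten ↔ d ∈ S0.flatten.flatten ∧ d ≠ x ∧ d ≠ y
    have e0 : S0.flatten.flatten = ((x :: (A1 ++ y :: A2)) :: K).flatten ++ S.flatten.flatten := by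
      rw [hS0, flat2]
    rw [e0, hperm.mem_iff, List.mem_cons, List.mem_cons]
    constructor
    · intro hd
      exact ⟨Or.inr (Or.inr hd), fun e => hx' (e ▸ hd), fun e => hy' (e ▸ hd)⟩
    · rintro ⟨h1 | h1 | h1, h2, h3⟩
      · exact absurd h1 h2
      · exact absurd h1 h3
      · exact h1
  have hmem : ∀ d ∈ ((A1 :: A2 :: K) :: S).flatten.flatten, d ∈ Os S0 ∧ x ≠ d ∧ y ≠ d := by
    intro d hd
    have : d ∈ Os ((A1 :: A2 :: K) :: S) := hd
    rw [hO] at this
    exact ⟨this.1, Ne.symm this.2.1, Ne.symm this.2.2⟩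
  have hch := (h.fc _ (List.mem_cons_self) _ (List.mem_cons_self)).2
  rw [Cycle.chain_coe_cons, List.append_assoc, List.cons_append] at hch
  have hch2 : List.IsChain (R t δ σ (Os S0)) (x :: A1 ++ y :: (A2 ++ [x])) := hch
  rw [List.isChain_split] at hch2
  obtain ⟨c1, c2⟩ := hch2
  have m1 : ∀ d ∈ A1, d ∈ ((A1 :: A2 :: K) :: S).flatten.flatten := fun d hd => by
    rw [flat2]; simp [hd]
  have m2 : ∀ d ∈ A2, d ∈ ((A1 :: A2 :: K) :: S).flatten.flatten := fun d hd => by
    rw [flat2]; simp [hd]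
  have nA1 : (x :: (A1 ++ [y])).Nodup := by
    have : (x :: (A1 ++ [y])).Sublist (x :: (A1 ++ y :: A2)) := by
      refine List.Sublist.cons_cons _ (List.Sublist.append (List.Sublist.refl _) ?_)
      simp
    refine this.nodup ?_
    rw [List.flatten_cons] at hnd
    exact (List.nodup_append.1 (List.nodup_append.1 hnd).1).1
  refine ⟨hnd', fun d hd => h.lt d (hmem d hd).1, ?_, ?_, ?_⟩
  · rw [hO]
    intro d hd hdO
    by_cases e1 : d = x
    · rw [e1, hxy]; exact ⟨fun h => h.2.2 rfl, Ne.symm hne⟩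
    · by_cases e2 : d = y
      · rw [e2, hyx]; exact ⟨fun h => h.2.1 rfl, hne⟩
      · have := h.cl d hd fun h => hdO ⟨h, e1, e2⟩
        exact ⟨fun h => this.1 h.1, this.2⟩
  · rw [hO]
    intro K' hK' F hF
    have hold : ∀ K' ∈ S0, ∀ F ∈ K', (∀ d ∈ F, d ∈ ((A1 :: A2 :: K) :: S).flatten.flatten) →
        (∀ g, Fl t σ g → (F.map g).sum = 0) ∧
          Cycle.Chain (R t δ σ {d | d ∈ Os S0 ∧ d ≠ x ∧ d ≠ y}) (F : Cycle ℕ) := by
      intro K' hK' F hF hmm
      refine ⟨(h.fc K' hK' F hF).1, cyc_mono (h.fc K' hK' F hF).2 fun u hu v hv hr => ?_⟩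
      have h1 := hmem u (hmm u hu)
      have h2 := hmem v (hmm v hv)
      exact hr.mono hxO hyO hxy hyx h1.2.1 h2.2.1 h1.2.2 h2.2.2
    have hin : ∀ d ∈ F, d ∈ ((A1 :: A2 :: K) :: S).flatten.flatten := fun d hd =>
      List.mem_flatten.2 ⟨F, List.mem_flatten.2 ⟨K', hK', hF⟩, hd⟩
    rcases List.mem_cons.1 hK' with rfl | hK'
    · have s1 : ∀ g, Fl t σ g → (A1.map g).sum = 0 :=
        part_zero hE h.cl hx hxy (by rw [← List.cons_append]; exact c1) (by
          intro d hd
          simp only [List.mem_cons, List.mem_append, List.not_mem_nil, or_false] at hd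
          rcases hd with rfl | hd | rfl
          · exact hxO
          · exact (hmem d (m1 d hd)).1
          · exact hyO) nA1
      rcases List.mem_cons.1 hF with rfl | hF
      · refine ⟨s1, close_part hE h.cl hx hxO hyO hxy hne (by rw [← List.cons_append]; exact c1)
          (fun d hd => (hmem d (m1 d hd)).1) (fun hh => (hmem x (m1 x hh)).2.1 rfl)
          (fun hh => (hmem y (m1 y hh)).2.2 rfl)⟩
      rcases List.mem_cons.1 hF with rfl | hF
      · constructor
        · intro g hg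
          have h1 := (h.fc _ (List.mem_cons_self) _ (List.mem_cons_self)).1 g hg
          have h2 := s1 g hg
          have h3 := hg.2 x hx (by rw [hxy]; exact Ne.symm hne)
          rw [hxy] at h3
          rw [List.map_cons, List.map_append, List.map_cons, List.sum_cons, List.sum_append,
            List.sum_cons, h2, h3] at h1
          linarith
        · have := close_part hE h.cl hy hyO hxO hyx (Ne.symm hne) c2
            (fun d hd => (hmem d (m2 d hd)).1) (fun hh => (hmem y (m2 y hh)).2.2 rfl)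
            (fun hh => (hmem x (m2 x hh)).2.1 rfl)
          have he : {d | d ∈ Os S0 ∧ d ≠ y ∧ d ≠ x} = {d | d ∈ Os S0 ∧ d ≠ x ∧ d ≠ y} := by
            ext d; simp only [Set.mem_ofPred_eq]; tauto
          rwa [he] at this
      · exact hold _ (List.mem_cons_self) F (List.mem_cons_of_mem _ hF) hin
    · exact hold K' (List.mem_cons_of_mem _ hK') F hF hin
  · rw [hO]
    intro K' hK' e he e' he' hee
    have h1 := hmem e (List.mem_flatten.2 (by
      obtain ⟨F, hF, hF'⟩ := List.mem_flatten.1 he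
      exact ⟨F, List.mem_flatten.2 ⟨K', hK', hF⟩, hF'⟩))
    have h2 := hmem e' (List.mem_flatten.2 (by
      obtain ⟨F, hF, hF'⟩ := List.mem_flatten.1 he'
      exact ⟨F, List.mem_flatten.2 ⟨K', hK', hF⟩, hF'⟩))
    have key : ∃ K'' ∈ S0, e ∈ K''.flatten ∧ e' ∈ K''.flatten := by
      rcases List.mem_cons.1 hK' with rfl | hK'
      · refine ⟨_, List.mem_cons_self, ?_, ?_⟩
        · simp only [List.flatten_cons, List.mem_append, List.mem_cons] at he ⊢
          tauto
        · simp only [List.flatten_cons, List.mem_append, List.mem_cons] at he' ⊢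
          tauto
      · exact ⟨K', List.mem_cons_of_mem _ hK', he, he'⟩
    obtain ⟨K'', k1, k2, k3⟩ := key
    obtain ⟨p, hp⟩ := h.con K'' k1 e k2 e' k3 hee
    exact ⟨p, hp.mono hxO hyO hxy hyx h1.2.1 h2.2.1 h1.2.2 h2.2.2⟩

/-- empty faces can be dropped -/
theorem Snd.drop {K1 K2 : List (List ℕ)} {S : List (List (List ℕ))}
    (h : Snd t δ σ ((K1 ++ [] :: K2) :: S)) : Snd t δ σ ((K1 ++ K2) :: S) := by
  have he : (K1 ++ [] :: K2).flatten = (K1 ++ K2).flatten := by simp
  have he2 : ((K1 ++ [] :: K2) :: S).flatten.flatten = ((K1 ++ K2) :: S).flatten.flatten := by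
    rw [flat2, flat2, he]
  have hO : Os ((K1 ++ [] :: K2) :: S) = Os ((K1 ++ K2) :: S) := by
    unfold Os; rw [he2]
  refine ⟨he2 ▸ h.nd, he2 ▸ h.lt, hO ▸ h.cl, ?_, ?_⟩
  · rw [← hO]
    intro K hK F hF
    rcases List.mem_cons.1 hK with rfl | hK
    · refine h.fc _ (List.mem_cons_self) F ?_
      simp only [List.mem_append, List.mem_cons] at hF ⊢
      tauto
    · exact h.fc K (List.mem_cons_of_mem _ hK) F hF
  · rw [← hO]
    intro K hK e h1 e' h2
    rcases List.mem_cons.1 hK with rfl | hK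
    · exact h.con _ (List.mem_cons_self) e (he ▸ h1) e' (he ▸ h2)
    · exact h.con K (List.mem_cons_of_mem _ hK) e h1 e' h2

theorem Snd.merge (hE : Env t δ σ) {x y : ℕ} {A B : List ℕ} {K K' : List (List ℕ)}
    {S : List (List (List ℕ))} (hxy : σ x = y)
    (h : Snd t δ σ (((y :: B) :: K') :: ((x :: A) :: K) :: S)) :
    Snd t δ σ (((A ++ B) :: (K ++ K')) :: S) := by
  have hx : x < 12 * t := h.lt x (by rw [flat2, flat2]; simp)
  have hy : y < 12 * t := h.lt y (by rw [flat2]; simp)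
  have hyx : σ y = x := by rw [← hxy]; exact (hE.lt x hx).2
  set S0 := ((y :: B) :: K') :: ((x :: A) :: K) :: S with hS0
  set N := ((A ++ B) :: (K ++ K')) :: S with hN
  have hxO : x ∈ Os S0 := by change x ∈ S0.flatten.flatten; rw [hS0, flat2, flat2]; simp
  have hyO : y ∈ Os S0 := by change y ∈ S0.flatten.flatten; rw [hS0, flat2, flat2]; simp
  have hnd := h.nd
  have hperm : S0.flatten.flatten.Perm (x :: y :: N.flatten.flatten) := by
    rw [List.perm_iff_count]
    intro a
    rw [hS0, hN, flat2, flat2, flat2]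
    simp only [List.flatten_cons, List.flatten_append, List.count_append, List.count_cons]
    omega
  have hnd2 := hperm.nodup_iff.1 hnd
  rw [List.nodup_cons, List.nodup_cons, List.mem_cons, not_or] at hnd2
  obtain ⟨⟨hne, hx'⟩, hy', hnd'⟩ := hnd2
  have hO : Os N = {d | d ∈ Os S0 ∧ d ≠ x ∧ d ≠ y} := by
    ext d
    change d ∈ N.flatten.flatten ↔ d ∈ S0.flatten.flatten ∧ d ≠ x ∧ d ≠ y
    rw [hperm.mem_iff, List.mem_cons, List.mem_cons]
    constructor
    · intro hd
      exact ⟨Or.inr (Or.inr hd), fun e => hx' (e ▸ hd), fun e => hy' (e ▸ hd)⟩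
    · rintro ⟨h1 | h1 | h1, h2, h3⟩
      · exact absurd h1 h2
      · exact absurd h1 h3
      · exact h1
  have hmem : ∀ d ∈ N.flatten.flatten, d ∈ Os S0 ∧ x ≠ d ∧ y ≠ d := by
    intro d hd
    have : d ∈ Os N := hd
    rw [hO] at this
    exact ⟨this.1, Ne.symm this.2.1, Ne.symm this.2.2⟩
  have hfx := h.fc ((x :: A) :: K) (by simp [hS0]) (x :: A) (by simp)
  have hfy := h.fc ((y :: B) :: K') (by simp [hS0]) (y :: B) (by simp)
  have cx := hfx.2
  have cy := hfy.2
  rw [Cycle.chain_coe_cons] at cx cy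
  have mA : ∀ d ∈ A, d ∈ N.flatten.flatten := fun d hd => by rw [hN, flat2]; simp [hd]
  have mB : ∀ d ∈ B, d ∈ N.flatten.flatten := fun d hd => by rw [hN, flat2]; simp [hd]
  have he : {d | d ∈ Os S0 ∧ d ≠ y ∧ d ≠ x} = {d | d ∈ Os S0 ∧ d ≠ x ∧ d ≠ y} := by
    ext d; simp only [Set.mem_ofPred_eq]; tauto
  have hmono : ∀ u ∈ N.flatten.flatten, ∀ v ∈ N.flatten.flatten, R t δ σ (Os S0) u v →
      R t δ σ {d | d ∈ Os S0 ∧ d ≠ x ∧ d ≠ y} u v := fun u hu v hv hr =>
    hr.mono hxO hyO hxy hyx (hmem u hu).2.1 (hmem v hv).2.1 (hmem u hu).2.2 (hmem v hv).2.2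
  refine ⟨hnd', fun d hd => h.lt d (hmem d hd).1, ?_, ?_, ?_⟩
  · rw [hO]
    intro d hd hdO
    by_cases e1 : d = x
    · rw [e1, hxy]; exact ⟨fun h => h.2.2 rfl, Ne.symm hne⟩
    · by_cases e2 : d = y
      · rw [e2, hyx]; exact ⟨fun h => h.2.1 rfl, hne⟩
      · have := h.cl d hd fun h => hdO ⟨h, e1, e2⟩
        exact ⟨fun h => this.1 h.1, this.2⟩
  · rw [hO]
    intro K'' hK'' F hF
    have hold : ∀ K'' ∈ S0, ∀ F ∈ K'', (∀ d ∈ F, d ∈ N.flatten.flatten) →
        (∀ g, Fl t σ g → (F.map g).sum = 0) ∧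
          Cycle.Chain (R t δ σ {d | d ∈ Os S0 ∧ d ≠ x ∧ d ≠ y}) (F : Cycle ℕ) := by
      intro K'' hK'' F hF hmm
      exact ⟨(h.fc K'' hK'' F hF).1, cyc_mono (h.fc K'' hK'' F hF).2 fun u hu v hv hr =>
        hmono u (hmm u hu) v (hmm v hv) hr⟩
    have hin : ∀ d ∈ F, d ∈ N.flatten.flatten := fun d hd =>
      List.mem_flatten.2 ⟨F, List.mem_flatten.2 ⟨K'', hK'', hF⟩, hd⟩
    rcases List.mem_cons.1 hK'' with rfl | hK''
    · rcases List.mem_cons.1 hF with rfl | hF
      · constructor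
        · intro g hg
          have h1 := hfx.1 g hg
          have h2 := hfy.1 g hg
          have h3 := hg.2 x hx (by rw [hxy]; exact Ne.symm hne)
          rw [hxy] at h3
          rw [List.map_cons, List.sum_cons] at h1 h2
          rw [List.map_append, List.sum_append]
          linarith
        · rcases A with _ | ⟨a, A⟩
          · exfalso
            simp only [List.nil_append, List.isChain_cons_cons] at cx
            exact cx.1.ne rfl
          rcases B with _ | ⟨b, B⟩
          · exfalso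
            simp only [List.nil_append, List.isChain_cons_cons] at cy
            exact cy.1.ne rfl
          rw [List.cons_append, List.isChain_cons_cons] at cx cy
          rw [List.cons_append, Cycle.chain_coe_cons, List.append_assoc, List.cons_append,
            ← List.cons_append, List.isChain_split]
          constructor
          · refine chain_last (r := R t δ σ (Os S0)) (y := x) (by rw [List.cons_append]; exact cx.2)
              (fun u hu v hv hr => hmono u (mA u hu) v (mA v hv) hr) fun z hz hr => ?_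
            have := R.glue hE h.cl hy hyO hxO hyx (hmem z (mA z hz)).1 (hmem b (mB b (by simp))).1
              (Ne.symm (hmem z (mA z hz)).2.2) (Ne.symm (hmem b (mB b (by simp))).2.1)
              (Ne.symm hne) hr cy.1
            rwa [he] at this
          · rw [← List.cons_append]
            refine chain_last (r := R t δ σ (Os S0)) (l := b :: B) (y := y) (by rw [List.cons_append]; exact cy.2)
              (fun u hu v hv hr => hmono u (mB u hu) v (mB v hv) hr) fun z hz hr => ?_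
            exact R.glue hE h.cl hx hxO hyO hxy (hmem z (mB z hz)).1 (hmem a (mA a (by simp))).1
              (Ne.symm (hmem z (mB z hz)).2.1) (Ne.symm (hmem a (mA a (by simp))).2.2)
              hne hr cx.1
      · rcases List.mem_append.1 hF with hF | hF
        · exact hold ((x :: A) :: K) (by simp [hS0]) F (by simp [hF]) hin
        · exact hold ((y :: B) :: K') (by simp [hS0]) F (by simp [hF]) hin
    · exact hold K'' (by simp [hS0, hK'']) F hF hin
  · rw [hO]
    intro K'' hK'' e he1 e' he' hee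
    have h1 := hmem e (List.mem_flatten.2 (by
      obtain ⟨F, hF, hF'⟩ := List.mem_flatten.1 he1
      exact ⟨F, List.mem_flatten.2 ⟨K'', hK'', hF⟩, hF'⟩))
    have h2 := hmem e' (List.mem_flatten.2 (by
      obtain ⟨F, hF, hF'⟩ := List.mem_flatten.1 he'
      exact ⟨F, List.mem_flatten.2 ⟨K'', hK'', hF⟩, hF'⟩))
    have keep : (∃ K1 ∈ S0, e ∈ K1.flatten ∧ e' ∈ K1.flatten) →
        ∃ p, Rl t σ {d | d ∈ Os S0 ∧ d ≠ x ∧ d ≠ y} p e e' := by
      rintro ⟨K1, k1, k2, k3⟩
      obtain ⟨p, hp⟩ := h.con K1 k1 e k2 e' k3 hee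
      exact ⟨p, hp.mono hxO hyO hxy hyx h1.2.1 h2.2.1 h1.2.2 h2.2.2⟩
    rcases List.mem_cons.1 hK'' with rfl | hK''
    · have c1 : e ∈ ((x :: A) :: K).flatten ∨ e ∈ ((y :: B) :: K').flatten := by
        simp only [List.flatten_cons, List.flatten_append, List.mem_append, List.mem_cons] at he1 ⊢
        tauto
      have c2 : e' ∈ ((x :: A) :: K).flatten ∨ e' ∈ ((y :: B) :: K').flatten := by
        simp only [List.flatten_cons, List.flatten_append, List.mem_append, List.mem_cons] at he' ⊢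
        tauto
      have xin : x ∈ ((x :: A) :: K).flatten := by simp
      have yin : y ∈ ((y :: B) :: K').flatten := by simp
      rcases c1 with c1 | c1 <;> rcases c2 with c2 | c2
      · exact keep ⟨_, by simp [hS0], c1, c2⟩
      · obtain ⟨p, hp⟩ := h.con ((x :: A) :: K) (by simp [hS0]) e c1 x xin (Ne.symm h1.2.1)
        obtain ⟨q, hq⟩ := h.con ((y :: B) :: K') (by simp [hS0]) y yin e' c2 h2.2.2
        have := hp.glue hyO hxO hyx hxy h1.1 h2.1 (Ne.symm h1.2.2) (Ne.symm h2.2.1) hee hq (Ne.symm hne)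
        rw [he] at this
        exact ⟨_, this⟩
      · obtain ⟨p, hp⟩ := h.con ((y :: B) :: K') (by simp [hS0]) e c1 y yin (Ne.symm h1.2.2)
        obtain ⟨q, hq⟩ := h.con ((x :: A) :: K) (by simp [hS0]) x xin e' c2 h2.2.1
        exact ⟨_, hp.glue hxO hyO hxy hyx h1.1 h2.1 (Ne.symm h1.2.1) (Ne.symm h2.2.2) hee hq hne⟩
      · exact keep ⟨_, by simp [hS0], c1, c2⟩
    · exact keep ⟨K'', by simp [hS0, hK''], he1, he'⟩

/-- a flow through two faces of one component is impossible -/
theorem Snd.two_faces {S1 S2 : List (List (List ℕ))} {K1 K2 : List (List ℕ)}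
    {F : List ℕ} {x y : ℕ} (h : Snd t δ σ (S1 ++ (K1 ++ F :: K2) :: S2)) (hx : x ∈ F)
    (hy : y ∈ (K1 ++ K2).flatten)
    (hf : ∀ p, Rl t σ (Os (S1 ++ (K1 ++ F :: K2) :: S2)) p x y → Fl t σ p) : False := by
  have hK : (K1 ++ F :: K2).flatten.Perm (F ++ (K1 ++ K2).flatten) := by
    refine (List.Perm.flatten List.perm_middle).trans ?_
    rw [List.flatten_cons]
  have hS : (S1 ++ (K1 ++ F :: K2) :: S2).flatten.flatten.Perm
      ((F ++ (K1 ++ K2).flatten) ++ (S1 ++ S2).flatten.flatten) := by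
    refine (List.Perm.flatten (List.Perm.flatten List.perm_middle)).trans ?_
    rw [flat2]
    exact hK.append_right _
  have hnd := hS.nodup_iff.1 h.nd
  have hnd1 := (List.nodup_append.1 hnd).1
  have hdis := (List.nodup_append.1 hnd1).2.2
  have hne : x ≠ y := hdis x hx y hy
  obtain ⟨p, hp⟩ := h.con (K1 ++ F :: K2) (by simp) x (hK.mem_iff.2 (List.mem_append_left _ hx)) y
    (hK.mem_iff.2 (List.mem_append_right _ hy)) hne
  have h1 := (h.fc (K1 ++ F :: K2) (by simp) F (by simp)).1 p (hf p hp)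
  have hF : F.Nodup := (List.nodup_append.1 hnd1).1
  have h2 : (F.map p).sum = 1 := by
    obtain ⟨u, v, rfl⟩ := List.append_of_mem hx
    have key : ∀ l : List ℕ, (∀ d ∈ l, d ∈ u ++ x :: v ∧ d ≠ x) → (l.map p).sum = 0 := by
      intro l hl
      refine List.sum_eq_zero fun z hz => ?_
      obtain ⟨d, hd, rfl⟩ := List.mem_map.1 hz
      obtain ⟨h3, h4⟩ := hl d hd
      refine hp.z d ?_ h4 (hdis d h3 y hy)
      exact hS.mem_iff.2 (List.mem_append_left _ (List.mem_append_left _ h3))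
    have hF' := hF
    rw [List.nodup_append, List.nodup_cons] at hF'
    rw [List.map_append, List.map_cons, List.sum_append, List.sum_cons, hp.e1,
      key u fun d hd => ⟨by simp [hd], hF'.2.2 d hd x (by simp)⟩,
      key v fun d hd => ⟨by simp [hd], fun e => hF'.2.1.1 (e ▸ hd)⟩]
    rfl
  omega

end Pool.Agent.L0h30.TT
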