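import Pool.Agent.L0h30.TT.Init

/-! Symmetries. -/

namespace Pool.Agent.L0h30.TT

variable {t δ δ' : ℕ} {μ : ℕ → ℕ} {σ : ℕ → ℕ}

theorem sum4 {g : ℕ → ℤ} {s a b c e : ℕ} (ha : a / 4 = s) (hb : b / 4 = s) (hc : c / 4 = s)
    (he : e / 4 = s) (hnd : [a, b, c, e].Nodup) :
    g a + g b + g c + g e = g (4 * s) + g (4 * s + 1) + g (4 * s + 2) + g (4 * s + 3) := by
  have hmem : ∀ d, d / 4 = s → d ∈ [4 * s, 4 * s + 1, 4 * s + 2, 4 * s + 3] := by
    intro d hd
    simp only [List.mem_cons, List.not_mem_nil, or_false]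
    omega
  have hsub : [a, b, c, e] ⊆ [4 * s, 4 * s + 1, 4 * s + 2, 4 * s + 3] := by
    intro d hd
    simp only [List.mem_cons, List.not_mem_nil, or_false] at hd
    rcases hd with h | h | h | h <;> rw [h] <;> exact hmem _ (by assumption)
  have hp := (List.subperm_of_subset hnd hsub).perm_of_length_le (by simp)
  have := (hp.map g).sum_eq
  simp only [List.map_cons, List.map_nil, List.sum_cons, List.sum_nil] at this
  linarith

/-! ### The relation between leaves -/

theorem Sm.refl (x : ℕ) : Sm t σ x x := Or.inl rfl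

theorem Sm.symm {x y : ℕ} (h : Sm t σ x y) : Sm t σ y x := by
  rcases h with h | ⟨p, ⟨h1, h2⟩, h3, h4, h5⟩
  · exact Or.inl h.symm
  · refine Or.inr ⟨fun d => -p d, ⟨fun q hq => ?_, fun d hd hne => ?_⟩, ?_, ?_, fun d hd hl e1 e2 => ?_⟩
    · have := h1 q hq; simp only; linarith
    · simp only; rw [h2 d hd hne]
    · simp only; rw [h4]; rfl
    · simp only; rw [h3]
    · simp only; rw [h5 d hd hl e2 e1]; rfl

theorem Sm.trans {x y z : ℕ} (hx : x < 12 * t) (hz : z < 12 * t) (lx : σ x = x)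
    (lz : σ z = z) (h : Sm t σ x y) (h' : Sm t σ y z) : Sm t σ x z := by
  by_cases hxz : x = z
  · exact Or.inl hxz
  rcases h with rfl | ⟨p, ⟨h1, h2⟩, h3, h4, h5⟩
  · exact h'
  rcases h' with rfl | ⟨q, ⟨k1, k2⟩, k3, k4, k5⟩
  · exact Or.inr ⟨p, ⟨h1, h2⟩, h3, h4, h5⟩
  have hxy : x ≠ y := by rintro rfl; rw [h3] at h4; omega
  have hyz : y ≠ z := by rintro rfl; rw [k3] at k4; omega
  refine Or.inr ⟨fun d => p d + q d, ⟨Su.add h1 k1, fun d hd hne => ?_⟩, ?_, ?_, fun d hd hl e1 e2 => ?_⟩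
  · beta_reduce; rw [h2 d hd hne, k2 d hd hne]; ring
  · beta_reduce; rw [h3, k5 x hx lx hxy hxz]; rfl
  · beta_reduce; rw [k4, h5 z hz lz (Ne.symm hxz) (Ne.symm hyz)]; rfl
  · beta_reduce
    by_cases e3 : d = y
    · rw [e3, h4, k3]; rfl
    · rw [h5 d hd hl e1 e3, k5 d hd hl e3 e2]; rfl

/-- adjacent leaves -/
theorem Sm.adj {x y : ℕ} (hE : Env t δ σ) (lx : σ x = x) (ly : σ y = y) (h : x / 4 = y / 4) :
    Sm t σ x y := by
  by_cases hxy : x = y
  · exact Or.inl hxy
  refine Or.inr ⟨dl x y, ⟨su_dl h, fun d hd hne => ?_⟩, ?_, ?_, fun d hd hl e1 e2 => ?_⟩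
  · have e1 : d ≠ x := fun e => hne (by rw [e, lx])
    have e2 : d ≠ y := fun e => hne (by rw [e, ly])
    have e3 : σ d ≠ x := fun e => hne (by
      have := (hE.lt d hd).2; rw [e, lx] at this; rw [e, this])
    have e4 : σ d ≠ y := fun e => hne (by
      have := (hE.lt d hd).2; rw [e, ly] at this; rw [e, this])
    unfold dl
    rw [if_neg e1, if_neg e2, if_neg e3, if_neg e4]; rfl
  · unfold dl; rw [if_pos rfl, if_neg hxy]; rfl
  · unfold dl; rw [if_neg (Ne.symm hxy), if_pos rfl]; rfl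
  · unfold dl; rw [if_neg e1, if_neg e2]; rfl

/-- if every class has two corners -/
theorem goal_of_two (h : ∀ x < 12 * t, σ x = x → Two t δ σ x) : Goal t δ σ := by
  classical
  let A : ℕ → Finset ℕ := fun x => (Finset.range (12 * t)).filter fun y => σ y = y ∧ Sm t σ x y
  let c : ℕ → ℕ := fun x => if hx : (A x).Nonempty then (A x).min' hx else 0
  have hA : ∀ x < 12 * t, σ x = x → x ∈ A x := fun x hx hl => by
    simp only [A, Finset.mem_filter, Finset.mem_range]
    exact ⟨hx, hl, Sm.refl x⟩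
  have hc : ∀ x < 12 * t, σ x = x → c x < 12 * t ∧ σ (c x) = c x ∧ Sm t σ x (c x) := by
    intro x hx hl
    have hne : (A x).Nonempty := ⟨x, hA x hx hl⟩
    have : c x ∈ A x := by
      simp only [c, dif_pos hne]
      exact Finset.min'_mem _ _
    simpa only [A, Finset.mem_filter, Finset.mem_range] using this
  have hce : ∀ x < 12 * t, ∀ y < 12 * t, σ x = x → σ y = y → Sm t σ x y → c x = c y := by
    intro x hx y hy lx ly hxy
    have : A x = A y := by
      ext z
      simp only [A, Finset.mem_filter, Finset.mem_range]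
      constructor
      · rintro ⟨h1, h2, h3⟩
        exact ⟨h1, h2, (hxy.symm).trans hy h1 ly h2 h3⟩
      · rintro ⟨h1, h2, h3⟩
        exact ⟨h1, h2, hxy.trans hx h1 lx h2 h3⟩
    simp only [c, this]
  let L : Finset ℕ := (Finset.range (12 * t)).filter fun x => σ x = x
  let I : Finset ℕ := L.image c
  let e := I.equivFin
  have hI : ∀ x < 12 * t, σ x = x → c x ∈ I := by
    intro x hx hl
    refine Finset.mem_image_of_mem c ?_
    simp only [L, Finset.mem_filter, Finset.mem_range]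
    exact ⟨hx, hl⟩
  refine ⟨I.card, fun x => if hx : c x ∈ I then (e ⟨c x, hx⟩).1 else 0, ?_, ?_, ?_⟩
  · intro x hx hl
    simp only [dif_pos (hI x hx hl)]
    exact (e _).2
  · intro x hx y hy lx ly hxy
    simp only [dif_pos (hI x hx lx), dif_pos (hI y hy ly)] at hxy
    have h1 := e.injective (Fin.ext hxy)
    have h2 : c x = c y := congrArg Subtype.val h1
    have h3 := hc x hx lx
    have h4 := hc y hy ly
    rw [← h2] at h4
    exact h3.2.2.trans hx hy lx ly h4.2.2.symm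
  · set C := (Finset.range (12 * t)).filter fun x => σ x = x ∧ σ (nx δ x) = nx δ x with hC
    have hmaps : ∀ x ∈ C, c x ∈ I := by
      intro x hx
      rw [hC, Finset.mem_filter, Finset.mem_range] at hx
      exact hI x hx.1 hx.2.1
    rw [Finset.card_eq_sum_card_fiberwise hmaps]
    have : ∀ i ∈ I, 2 ≤ (C.filter fun x => c x = i).card := by
      intro i hi
      obtain ⟨x, hx, rfl⟩ := Finset.mem_image.1 hi
      simp only [L, Finset.mem_filter, Finset.mem_range] at hx
      obtain ⟨a, b, hab, ha, hb, h1, h2⟩ := h x hx.1 hx.2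
      have : ({a, b} : Finset ℕ) ⊆ C.filter fun y => c y = c x := by
        intro z hz
        simp only [Finset.mem_insert, Finset.mem_singleton] at hz
        rw [Finset.mem_filter, hC, Finset.mem_filter, Finset.mem_range]
        rcases hz with rfl | rfl
        · exact ⟨⟨ha.1, ha.2.1, ha.2.2⟩, (hce x hx.1 _ ha.1 hx.2 ha.2.1 h1).symm⟩
        · exact ⟨⟨hb.1, hb.2.1, hb.2.2⟩, (hce x hx.1 _ hb.1 hx.2 hb.2.1 h2).symm⟩
      have h3 := Finset.card_le_card this
      rwa [Finset.card_pair hab] at h3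
    calc 2 * I.card = ∑ _i ∈ I, 2 := by rw [Finset.sum_const, smul_eq_mul, mul_comm]
      _ ≤ _ := Finset.sum_le_sum this

/-! ### Isomorphisms -/

structure Iso (t δ δ' : ℕ) (ι π κ : ℕ → ℕ) (ε : Bool) : Prop where
  i1 : ∀ d < 12 * t, ι d < 12 * t ∧ ι (ι d) = d ∧ nm (ι d) = π (nm d) ∧ ι d / 4 = κ (d / 4) ∧
    (ι d / 4 % 3 = 1 ↔ d / 4 % 3 = 1)
  p1 : ∀ N < 6 * t, π N < 6 * t ∧ π (π N) = N ∧ (π N + N) % 2 = π 0 % 2 ∧
    (letter (π N) = 1 ↔ letter N = 1)
  sd : (∀ N < 6 * t, ι (ov N) = ov (π N) ∧ ι (un N) = un (π N)) ∨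
    (∀ N < 6 * t, ι (ov N) = un (π N) ∧ ι (un N) = ov (π N))
  l2 : ∀ N < 6 * t, ∀ M < 6 * t, (letter (π N) = letter (π M) ↔ letter N = letter M) ∧
    okp (π N) (π M) = okp N M
  k1 : ∀ q < 3 * t, κ q < 3 * t
  n1 : ∀ d < 12 * t, nx δ' (ι d) = if ε then ι (pv δ d) else ι (nx δ d)
  n2 : ∀ d < 12 * t, pv δ' (ι d) = if ε then ι (nx δ d) else ι (pv δ d)

/-- the transported matching -/
def tm (π μ : ℕ → ℕ) (N : ℕ) : ℕ := if μ (π N) = 98 then 98 else π (μ (π N))

variable {ι π κ : ℕ → ℕ} {ε : Bool}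

namespace Iso
variable (I : Iso t δ δ' ι π κ ε) (h : Cl t δ μ)
include I h

theorem sig_tm {d : ℕ} (hd : d < 12 * t) : sig (tm π μ) (ι d) = ι (sig μ d) := by
  obtain ⟨N, hN, h1, h2⟩ := dart_cases (h.lt36 hd)
  have hN' : N < 6 * t := by omega
  obtain ⟨q1, q2, q3, q4⟩ := I.p1 N hN'
  have hP := h.lt18 q1
  have e0 : tm π μ (π N) = if μ N = 98 then 98 else π (μ N) := by
    unfold tm; rw [q2]
  by_cases e1 : μ N = 98
  · have e2 : tm π μ (π N) = 98 := by rw [e0, if_pos e1]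
    rcases h2 with rfl | rfl
    · rw [sig_ov_leaf hN e1]
      rcases I.sd with s | s
      · rw [(s N hN').1, sig_ov_leaf hP e2]
      · rw [(s N hN').1, sig_un_leaf hP e2]
    · rw [sig_un_leaf hN e1]
      rcases I.sd with s | s
      · rw [(s N hN').2, sig_un_leaf hP e2]
      · rw [(s N hN').2, sig_ov_leaf hP e2]
  · rw [if_neg e1] at e0
    by_cases e2 : μ N = N
    · have e3 : tm π μ (π N) = π N := by rw [e0, e2]
      rcases h2 with rfl | rfl
      · rw [sig_ov_br hN e2]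
        rcases I.sd with s | s
        · rw [(s N hN').1, (s N hN').2, sig_ov_br hP e3]
        · rw [(s N hN').1, (s N hN').2, sig_un_br hP e3]
      · rw [sig_un_br hN e2]
        rcases I.sd with s | s
        · rw [(s N hN').1, (s N hN').2, sig_un_br hP e3]
        · rw [(s N hN').1, (s N hN').2, sig_ov_br hP e3]
    · have h3 : μ N < 6 * t := (h.lt N hN').resolve_left e1
      obtain ⟨r1, r2, -, -⟩ := I.p1 _ h3
      have hR := h.lt18 r1
      have e3 : tm π μ (π N) ≠ 98 := by rw [e0]; omega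
      have e4 : tm π μ (π N) ≠ π N := by
        rw [e0]; intro e; exact e2 (by rw [← r2, e, q2])
      rcases h2 with rfl | rfl
      · rw [sig_ov hN e1 e2]
        rcases I.sd with s | s
        · rw [(s N hN').1, (s _ h3).1, sig_ov hP e3 e4, e0]
        · rw [(s N hN').1, (s _ h3).1, sig_un hP e3 e4, e0]
      · rw [sig_un hN e1 e2]
        rcases I.sd with s | s
        · rw [(s N hN').2, (s _ h3).2, sig_un hP e3 e4, e0]
        · rw [(s N hN').2, (s _ h3).2, sig_ov hP e3 e4, e0]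

theorem fl_tm {g : ℕ → ℤ} (hg : Fl t (sig (tm π μ)) g) : Fl t (sig μ) fun d => g (ι d) := by
  constructor
  · intro q hq
    have hj : ∀ j < 4, ι (4 * q + j) / 4 = κ q := by
      intro j hj
      rw [(I.i1 (4 * q + j) (by omega)).2.2.2.1]
      congr 1; omega
    have hinj : ∀ i < 4, ∀ j < 4, i ≠ j → ι (4 * q + i) ≠ ι (4 * q + j) := by
      intro i hi j hj hij e
      have h1 := (I.i1 (4 * q + i) (by omega)).2.1
      have h2 := (I.i1 (4 * q + j) (by omega)).2.1
      rw [e, h2] at h1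
      omega
    have h4 : ([ι (4 * q + 0), ι (4 * q + 1), ι (4 * q + 2), ι (4 * q + 3)]).Nodup := by
      simp only [List.nodup_cons, List.mem_cons, List.not_mem_nil, or_false, not_or,
        not_false_eq_true, List.nodup_nil, and_true]
      exact ⟨⟨hinj 0 (by norm_num) 1 (by norm_num) (by norm_num),
        hinj 0 (by norm_num) 2 (by norm_num) (by norm_num),
        hinj 0 (by norm_num) 3 (by norm_num) (by norm_num)⟩,
        ⟨hinj 1 (by norm_num) 2 (by norm_num) (by norm_num),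
        hinj 1 (by norm_num) 3 (by norm_num) (by norm_num)⟩,
        hinj 2 (by norm_num) 3 (by norm_num) (by norm_num)⟩
    have := sum4 (g := g) (hj 0 (by norm_num)) (hj 1 (by norm_num)) (hj 2 (by norm_num))
      (hj 3 (by norm_num)) h4
    rw [hg.1 (κ q) (I.k1 q hq)] at this
    exact this
  · intro d hd hne
    have h1 := I.sig_tm h hd
    have h2 := hg.2 (ι d) (I.i1 d hd).1 (by
      rw [h1]
      intro e
      have := (I.i1 d hd).2.1
      rw [← e, (I.i1 _ (h.sig_spec hd).1).2.1] at this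
      exact hne this)
    rw [h1] at h2
    exact h2

omit h in
theorem sum_iota (F : ℕ → ℤ) : ∑ d ∈ Finset.range (12 * t), F d =
    ∑ d ∈ Finset.range (12 * t), F (ι d) := by
  refine Finset.sum_nbij' ι ι ?_ ?_ ?_ ?_ ?_
  · intro d hd; rw [Finset.mem_range] at hd ⊢; exact (I.i1 d hd).1
  · intro d hd; rw [Finset.mem_range] at hd ⊢; exact (I.i1 d hd).1
  · intro d hd; rw [Finset.mem_range] at hd; exact (I.i1 d hd).2.1
  · intro d hd; rw [Finset.mem_range] at hd; exact (I.i1 d hd).2.1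
  · intro d hd; rw [Finset.mem_range] at hd; rw [(I.i1 d hd).2.1]

omit h in
theorem om_iota (f g : ℕ → ℤ) : Om t δ' f g = (if ε then -1 else 1) *
    Om t δ (fun d => f (ι d)) fun d => g (ι d) := by
  unfold Om
  rw [I.sum_iota]
  cases ε with
  | false =>
    rw [if_neg (by simp), one_mul]
    refine Finset.sum_congr rfl fun d hd => ?_
    rw [Finset.mem_range] at hd
    rw [I.n1 d hd, if_neg (by simp)]
  | true =>
    rw [if_pos rfl]
    have e1 : ∑ d ∈ Finset.range (12 * t), (f (ι d) * g (nx δ' (ι d)) - f (nx δ' (ι d)) * g (ι d)) =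
        ∑ d ∈ Finset.range (12 * t), (f (ι d) * g (ι (pv δ d)) - f (ι (pv δ d)) * g (ι d)) := by
      refine Finset.sum_congr rfl fun d hd => ?_
      rw [Finset.mem_range] at hd
      rw [I.n1 d hd, if_pos rfl]
    have e2 : ∑ d ∈ Finset.range (12 * t), (f (ι d) * g (ι (pv δ d)) - f (ι (pv δ d)) * g (ι d)) =
        ∑ d ∈ Finset.range (12 * t), (f (ι (nx δ d)) * g (ι d) - f (ι d) * g (ι (nx δ d))) := by
      refine Finset.sum_nbij' (pv δ) (nx δ) ?_ ?_ ?_ ?_ ?_
      · intro d hd; rw [Finset.mem_range] at hd ⊢; exact pv_lt hd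
      · intro d hd; rw [Finset.mem_range] at hd ⊢; exact nx_lt hd
      · intro d _; exact nx_pv δ d
      · intro d _; exact pv_nx δ d
      · intro d _; rw [nx_pv]
    rw [e1, e2, neg_one_mul, ← Finset.sum_neg_distrib]
    refine Finset.sum_congr rfl fun d _ => by ring

theorem cl_tm : Cl t δ' (tm π μ) where
  t3 := h.t3
  lt := fun N hN => by
    have q1 := (I.p1 N hN).1
    unfold tm
    split_ifs with e
    · exact Or.inl rfl
    · exact Or.inr (I.p1 _ ((h.lt _ q1).resolve_left e)).1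
  inv := fun N hN hne => by
    obtain ⟨q1, q2, -, -⟩ := I.p1 N hN
    have e : μ (π N) ≠ 98 := fun e => hne (by unfold tm; rw [if_pos e])
    have h3 := (h.lt _ q1).resolve_left e
    have e1 : tm π μ N = π (μ (π N)) := by unfold tm; rw [if_neg e]
    have h4 := h.inv _ q1 e
    rw [e1]
    unfold tm
    rw [(I.p1 _ h3).2.1, h4, if_neg (by have := h.t3; omega), q2]
  br := fun N hN he => by
    obtain ⟨q1, q2, -, q4⟩ := I.p1 N hN
    have e : μ (π N) ≠ 98 := fun e => by
      unfold tm at he; rw [if_pos e] at he; have := h.t3; omega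
    have h3 := (h.lt _ q1).resolve_left e
    unfold tm at he
    rw [if_neg e] at he
    have : μ (π N) = π N := by rw [← (I.p1 _ h3).2.1, he]
    exact q4.1 (h.br _ q1 this)
  pr := fun N hN h1 h2 => by
    obtain ⟨q1, q2, q3, -⟩ := I.p1 N hN
    have e : μ (π N) ≠ 98 := fun e => h1 (by unfold tm; rw [if_pos e])
    have h3 := (h.lt _ q1).resolve_left e
    have e1 : tm π μ N = π (μ (π N)) := by unfold tm; rw [if_neg e]
    rw [e1] at h2 ⊢
    obtain ⟨r1, r2, r3, -⟩ := I.p1 _ h3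
    have h4 := h.pr _ q1 e fun e' => h2 (by rw [e', q2])
    refine ⟨by omega, ?_⟩
    have h5 := (I.l2 _ q1 _ h3).2
    rw [q2, h4.2] at h5
    exact h5
  big := fun N hN h1 h2 hl => by
    obtain ⟨q1, q2, q3, -⟩ := I.p1 N hN
    have e : μ (π N) ≠ 98 := fun e => h1 (by unfold tm; rw [if_pos e])
    have h3 := (h.lt _ q1).resolve_left e
    have e1 : tm π μ N = π (μ (π N)) := by unfold tm; rw [if_neg e]
    rw [e1] at h2 hl ⊢
    obtain ⟨r1, r2, r3, -⟩ := I.p1 _ h3
    have hlet : letter (π N) = letter (μ (π N)) := by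
      have := (I.l2 N hN _ r1).1.2 hl
      rwa [r2] at this
    obtain ⟨⟨b1, b2⟩, b3, b4⟩ := h.big _ q1 e (fun e' => h2 (by rw [e', q2])) hlet
    set M := π N with hM
    have hN' : π M = N := q2
    have fM := name_facts M (h.lt18 q1)
    have fK := name_facts _ (h.lt18 h3)
    have key : ∀ x y, x < 12 * t → y < 12 * t → μ (nm (nx δ x)) ≠ nm (pv δ y) →
        μ (nm (pv δ x)) ≠ nm (nx δ y) →
        tm π μ (nm (nx δ' (ι x))) ≠ nm (pv δ' (ι y)) ∧ tm π μ (nm (pv δ' (ι x))) ≠ nm (nx δ' (ι y)) := by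
      intro x y hx hy c1 c2
      have sub : ∀ z w, z < 12 * t → w < 12 * t → μ (nm z) ≠ nm w →
          tm π μ (nm (ι z)) ≠ nm (ι w) := by
        intro z w hz hw hne
        have fz := dart_facts z (h.lt36 hz)
        have fw := dart_facts w (h.lt36 hw)
        obtain ⟨u1, u2, -, -⟩ := I.p1 (nm z) (by omega)
        obtain ⟨v1, v2, -, -⟩ := I.p1 (nm w) (by omega)
        rw [(I.i1 z hz).2.2.1, (I.i1 w hw).2.2.1]
        unfold tm
        rw [u2]
        split_ifs with e'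
        · have := h.t3; omega
        · intro e''
          have := (I.p1 _ ((h.lt _ (by omega)).resolve_left e')).2.1
          rw [e'', v2] at this
          exact hne this.symm
      cases hε : ε with
      | false =>
        have n1 : ∀ d < 12 * t, nx δ' (ι d) = ι (nx δ d) := fun d hd => by
          rw [I.n1 d hd, hε, if_neg (by simp)]
        have n2 : ∀ d < 12 * t, pv δ' (ι d) = ι (pv δ d) := fun d hd => by
          rw [I.n2 d hd, hε, if_neg (by simp)]
        rw [n1 x hx, n2 x hx, n1 y hy, n2 y hy]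
        exact ⟨sub _ _ (nx_lt hx) (pv_lt hy) c1, sub _ _ (pv_lt hx) (nx_lt hy) c2⟩
      | true =>
        have n1 : ∀ d < 12 * t, nx δ' (ι d) = ι (pv δ d) := fun d hd => by
          rw [I.n1 d hd, hε, if_pos rfl]
        have n2 : ∀ d < 12 * t, pv δ' (ι d) = ι (nx δ d) := fun d hd => by
          rw [I.n2 d hd, hε, if_pos rfl]
        rw [n1 x hx, n2 x hx, n1 y hy, n2 y hy]
        exact ⟨sub _ _ (pv_lt hx) (nx_lt hy) c2, sub _ _ (nx_lt hx) (pv_lt hy) c1⟩
    have k1 := key (ov M) (ov (μ M)) (by omega) (by omega) b1 b2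
    have k2 := key (un M) (un (μ M)) (by omega) (by omega) b3 b4
    rcases I.sd with s | s
    · rw [(s M q1).1, (s _ h3).1, hN'] at k1
      rw [(s M q1).2, (s _ h3).2, hN'] at k2
      exact ⟨k1, k2⟩
    · rw [(s M q1).1, (s _ h3).1, hN'] at k1
      rw [(s M q1).2, (s _ h3).2, hN'] at k2
      exact ⟨k2, k1⟩
  pl := fun f g hf hg h0 => by
    rw [I.om_iota f g, h.pl _ _ (I.fl_tm h hf) (I.fl_tm h hg), mul_zero]
    intro d hd hl
    refine h0 _ (I.i1 d hd).1 ?_
    rw [I.sig_tm h hd, hl]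

theorem sm_tm {x y : ℕ} (hx : x < 12 * t) (hy : y < 12 * t)
    (hs : Sm t (sig (tm π μ)) (ι x) (ι y)) : Sm t (sig μ) x y := by
  rcases hs with hs | ⟨p, h1, h2, h3, h4⟩
  · left; rw [← (I.i1 x hx).2.1, hs, (I.i1 y hy).2.1]
  · refine Or.inr ⟨fun d => p (ι d), I.fl_tm h h1, h2, h3, fun d hd hl e1 e2 => ?_⟩
    refine h4 _ (I.i1 d hd).1 (by rw [I.sig_tm h hd, hl]) (fun e => e1 ?_) fun e => e2 ?_
    · rw [← (I.i1 d hd).2.1, e, (I.i1 x hx).2.1]
    · rw [← (I.i1 d hd).2.1, e, (I.i1 y hy).2.1]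

theorem leaf_tm {d : ℕ} (hd : d < 12 * t) : sig (tm π μ) (ι d) = ι d ↔ sig μ d = d := by
  rw [I.sig_tm h hd]
  constructor
  · intro e
    rw [← (I.i1 _ (h.sig_spec hd).1).2.1, e, (I.i1 d hd).2.1]
  · intro e; rw [e]

/-- the corner corresponding to a corner -/
theorem co_tm {a : ℕ} (ha : Co t δ' (sig (tm π μ)) a) :
    Co t δ (sig μ) (if ε then pv δ (ι a) else ι a) ∧
      Sm t (sig μ) (ι a) (if ε then pv δ (ι a) else ι a) := by
  obtain ⟨h1, h2, h3⟩ := ha
  obtain ⟨i1, i2, -, -, -⟩ := I.i1 a h1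
  have k1 : sig μ (ι a) = ι a := by
    rw [← I.leaf_tm h i1, i2, h2]
  have k2 := I.n1 (ι a) i1
  rw [i2] at k2
  rw [k2] at h3
  cases hε : ε with
  | false =>
    rw [hε, if_neg (by simp)] at h3
    rw [if_neg (by simp)]
    exact ⟨⟨i1, k1, (I.leaf_tm h (nx_lt i1)).1 h3⟩, Sm.refl _⟩
  | true =>
    rw [hε, if_pos rfl] at h3
    rw [if_pos rfl]
    have k3 := (I.leaf_tm h (pv_lt i1)).1 h3
    refine ⟨⟨pv_lt i1, k3, ?_⟩, Sm.adj h.env k1 k3 (pv_div δ _).symm⟩
    rw [nx_pv]; exact k1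

theorem goal_tm (hG : Goal t δ' (sig (tm π μ))) : Goal t δ (sig μ) := by
  obtain ⟨P, c, h1, h2, h3⟩ := hG
  refine ⟨P, fun x => c (ι x), fun x hx hl => h1 _ (I.i1 x hx).1 ((I.leaf_tm h hx).2 hl),
    fun x hx y hy lx ly hxy => I.sm_tm h hx hy (h2 _ (I.i1 x hx).1 _ (I.i1 y hy).1
      ((I.leaf_tm h hx).2 lx) ((I.leaf_tm h hy).2 ly) hxy), h3.trans ?_⟩
  refine Finset.card_le_card_of_injOn (fun a => if ε then pv δ (ι a) else ι a) ?_ ?_
  · intro a ha
    rw [Finset.mem_coe, Finset.mem_filter, Finset.mem_range] at ha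
    have := (I.co_tm h ⟨ha.1, ha.2.1, ha.2.2⟩).1
    rw [Finset.mem_coe, Finset.mem_filter, Finset.mem_range]
    exact this
  · intro a ha b hb hab
    rw [Finset.mem_coe, Finset.mem_filter, Finset.mem_range] at ha hb
    have h4 : ι a = ι b := by
      cases hε : ε with
      | false => rw [hε] at hab; simpa using hab
      | true =>
        rw [hε] at hab
        simp only [if_true] at hab
        rw [← nx_pv δ (ι a), hab, nx_pv]
    rw [← (I.i1 a ha.1).2.1, h4, (I.i1 b hb.1).2.1]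

theorem bas_tm {md : Bool} {x : ℕ} (hx : x < 12 * t) (hl : sig μ x = x)
    (hb : Bas md t δ (sig μ) x) : Bas md t δ' (sig (tm π μ)) (ι x) where
  two := by
    rintro ⟨a, b, hab, ha, hb', h1, h2⟩
    have hE := h.env
    have ia := I.i1 a ha.1
    have ib := I.i1 b hb'.1
    rw [← ia.2.1] at h1
    rw [← ib.2.1] at h2
    have s1 := I.sm_tm h hx ia.1 h1
    have s2 := I.sm_tm h hx ib.1 h2
    obtain ⟨c1, c2⟩ := I.co_tm h ha
    obtain ⟨c3, c4⟩ := I.co_tm h hb'
    refine hb.two ⟨_, _, ?_, c1, c3, s1.trans hx c1.1 hl c1.2.1 c2, s2.trans hx c3.1 hl c3.2.1 c4⟩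
    intro e
    apply hab
    have h4 : ι a = ι b := by
      cases hε : ε with
      | false => rw [hε] at e; simpa using e
      | true =>
        rw [hε] at e
        simp only [if_true] at e
        rw [← nx_pv δ (ι a), e, nx_pv]
    rw [← ia.2.1, h4, ib.2.1]
  mid := by
    intro hmd a ha la hs
    have ia := I.i1 a ha
    rw [← ia.2.1] at hs
    have s1 := I.sm_tm h hx ia.1 hs
    have s2 : sig μ (ι a) = ι a := by rw [← I.leaf_tm h ia.1, ia.2.1, la]
    exact ia.2.2.2.2.1 (hb.mid hmd _ ia.1 s2 s1)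

end Iso

/-- the theorem for the leaf `x` -/
def Ok (md : Bool) (t δ x : ℕ) : Prop :=
  ∀ μ, Cl t δ μ → sig μ x = x → Bas md t δ (sig μ) x → Goal t δ (sig μ)

theorem Ok.iso {md : Bool} {x : ℕ} (hx : x < 12 * t) (I : Iso t δ δ' ι π κ ε)
    (h : Ok md t δ' (ι x)) : Ok md t δ x := fun _ hc hl hb =>
  I.goal_tm hc (h _ (I.cl_tm hc) ((I.leaf_tm hc hx).2 hl) (I.bas_tm hc hx hl hb))

theorem ok_search {md : Bool} {x : ℕ} (hx12 : x < 12 * t) {N : ℕ} {c : List ℕ}
    (hk : check md δ (6 * t) (6 * t) x (ini t δ) (N :: c) = true) (hN : N < 6 * t) :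
    Ok md t δ x := fun _ h hl hx =>
  search h hx hx12 hl (fun h1 _ => (h.lt N hN).resolve_left h1) hk

end Pool.Agent.L0h30.TT
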