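import Pool.Agent.L0h30.TT.Norm
import Pool.Agent.L0h30.SR.Movie

/-! Discs such that no component of the set of double points meeting the link contains more than three
triple points. -/

namespace Pool.Agent.L0h30.TT

open Pool.Agent.Y468.SR
open Pool.Agent.Y874.TP hiding S_REID S_REN S_THREE S_OUT S_CUT S_JUNC CStep CReid CM InvM InvC Inv3
  creid_after same_facts invM_ceq invM_perm
open Pool.Agent.Y874.TP2
open Pool.Agent.R800.BT (Hts Bad)
open Pool.Agent.L0h30.SR (Her InvP RedP Cir red_corner canc_part part_fields movie_of_invP)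

/-- the reduction step for normalized triple points -/
theorem red_nrm {D : Code} {Ts : List Tri} (hD : Classical D) (hn : (D.map Prod.snd).Nodup)
    (h3 : InvP Phi D Ts) (hN : ∀ T ∈ Ts, Nm T) (h : passes D ≠ []) : RedP Phi D Ts := by
  obtain ⟨m, hm⟩ := h3.inv
  by_cases hb : ∃ T ∈ Ts, Bad T m
  · obtain ⟨T, hT, hb⟩ := hb
    obtain ⟨l₁, l₂, rfl⟩ := List.append_of_mem hT
    exact red_bad hD hn h3 hm hb
  push Not at hb
  have sit : Sit D Ts m := ⟨hn, hD.1, h3.wf, hm.1, hm.2.2, fun p hp => (hm.2.1 p hp).1, hN,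
    fun T hT => (h3.phi.1 T hT).2, hb⟩
  have hL : ∀ k, (clu Ts k).length ≤ 3 := fun k => by rw [clu_length]; exact h3.phi.2 k
  by_cases hbig : ∃ (k i j : ℕ) (hi : i < (clu Ts k).length) (hj : j < (clu Ts k).length), i ≠ j ∧
      Big (clu Ts k)[i] (clu Ts k)[j] m
  · obtain ⟨k, i, j, hi, hj, hij, hB⟩ := hbig
    obtain ⟨t1, t2⟩ := mem_clu.1 (List.getElem_mem hi)
    obtain ⟨t3, t4⟩ := mem_clu.1 (List.getElem_mem hj)
    have hne : (clu Ts k)[j] ≠ (clu Ts k)[i] := by
      intro e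
      have e1 := crs_get (L := clu Ts k) hi (r := 0) (by norm_num)
      have e2 := crs_get (L := clu Ts k) hj (r := 0) (by norm_num)
      rw [e] at e2
      have := sit.crs_inj (hL k) (N := 6 * i + 0) (M := 6 * j + 0) (by omega) (by omega)
        (e1.trans e2.symm)
      omega
    obtain ⟨Ts', g1, g2, g3, m', g4⟩ := big_step h3.wf hm t1 t3 hne (hN _ t1) (hN _ t3)
      (k := k) (fun x hx => by
        rcases List.mem_append.1 hx with hx | hx
        · rw [(h3.phi.1 _ t1).2 x hx, t2]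
        · rw [(h3.phi.1 _ t3).2 x hx, t4]) hB
    exact ⟨D, Ts', Or.inl g2, hD, hn, ⟨g3, fun T hT => h3.ok T (g1.subset hT),
      h3.phi.sub g1, ⟨m', g4⟩⟩, Relation.ReflTransGen.refl⟩
  · push Not at hbig
    rcases sit.corner h hL hbig with ⟨C, hC, x, hx, hc⟩ | ⟨q, hq, C, hC, x, y, c1, c2⟩
    · exact red_corner her_phi hD hn h3 hm hC hc (Or.inl canc_part)
    · have hCD : ∀ {p : Pass}, p ∈ C.1 → p ∈ passes D := fun hp => mem_passes.2 ⟨C, hC, hp⟩
      have hmemC : ∀ {p : Pass}, p ∈ q → p ∈ passes (TC Ts) := by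
        obtain ⟨T, hT, hq⟩ := hq
        exact fun hp => Pool.Agent.L0h30.SR.code_mem hT (Pool.Agent.L0h30.SR.circle_mem hq hp)
      have hxC : x ∈ passes D := hCD (Pool.Agent.L0h30.SR.cyc_mem c1).1
      have hyC : part m y ∈ passes D := hCD (Pool.Agent.L0h30.SR.cyc_mem c1).2
      have hyT : y ∈ passes (TC Ts) := hmemC (Pool.Agent.L0h30.SR.cyc_mem c2).1
      have hxT : part m x ∈ passes (TC Ts) := hmemC (Pool.Agent.L0h30.SR.cyc_mem c2).2
      have e1 : (part m x).crossing ≠ x.crossing := sep hD.1 h3.wf hxC hxT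
      have e2 : y.crossing ≠ (part m y).crossing := sep hD.1 h3.wf hyC hyT
      have e3 : part m (part m y) = y := sit.part_part (sit.inT hyT)
      obtain ⟨T, hT, hqT⟩ := hq
      refine red_corner her_phi hD hn h3 hm hC c1 (Or.inr ⟨T, hT, q, hqT, part m x, y, c2,
        (part_fields e1).1, (part_fields e1).2, ?_, ?_⟩)
      · have := (part_fields (m := m) (p := part m y) (by rw [e3]; exact e2)).1
        rwa [e3] at this
      · have := (part_fields (m := m) (p := part m y) (by rw [e3]; exact e2)).2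
        rwa [e3] at this

/-- the reduction step -/
theorem red_phi {D : Code} {Ts : List Tri} (hD : Classical D) (hn : (D.map Prod.snd).Nodup)
    (h3 : InvP Phi D Ts) (h : passes D ≠ []) : RedP Phi D Ts := by
  obtain ⟨Ts', h1, h2, hN⟩ := norm_inv h3
  obtain ⟨D', Ts'', k1, k2⟩ := red_nrm hD hn h2 hN h
  rw [h1] at k1
  exact ⟨D', Ts'', k1, k2⟩

theorem movie_phi {D : Code} {Ts : List Tri} (hD : Classical D) (hn : (D.map Prod.snd).Nodup)
    (h : InvP Phi D Ts) : Movie true false D [] :=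
  movie_of_invP (Φ := Phi) (fun D Ts hD hn h3 h => red_phi hD hn h3 h) _ _ D Ts rfl rfl hD hn h

open Pool.Agent.Y874.TP2.T3 in
open Pool.Agent.R800.TP in
/-- discs with at most three triple points on each component of the set of double points meeting the
link can be replaced by ribbon discs -/
theorem ribbon_of_three {hd : Bool} {Z : ℕ → Prop} {D : Code} {T : List (ℕ × ℕ × ℕ)}
    (h : TMovie hd Z D T) (hZ : ∀ p ∈ passes D, ¬Z (colour p.crossing))
    (hn : (D.map Prod.snd).Nodup) (hc : ∀ t ∈ T, t.2.1 = t.1 ∧ t.2.2 = t.1)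
    (ho : ∀ k, (T.map Prod.fst).count k ≤ 3) : Movie true false D [] := by
  obtain ⟨Ts, hI, hs⟩ := tmovie_inv' RD.reid RN.ren TH.three h hZ
  have key : ∀ S ∈ Ts, Hts S ∧ colour S.b₁ = colour S.a₁ ∧ colour S.c₁ = colour S.a₁ := by
    intro S hS
    have h1 : T3.sig S ∈ T.map fun t => (t, (true, true, true)) := by
      rw [← hs]; exact List.mem_map_of_mem hS
    obtain ⟨t, ht, h2⟩ := List.mem_map.1 h1
    obtain ⟨c1, c2⟩ := hc t ht
    simp only [T3.sig, Prod.ext_iff] at h2
    obtain ⟨⟨h3, h4, h5⟩, h6, h7, h8⟩ := h2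
    refine ⟨⟨h6.symm, h7.symm, h8.symm⟩, ?_, ?_⟩
    · rw [← h4, ← h3, c1]
    · rw [← h5, ← h3, c2]
  have hfst : Ts.map (fun S => colour S.a₁) = T.map Prod.fst := by
    have h1 : (Ts.map T3.sig).map (fun x => x.1.1) = (T.map fun t => (t, (true, true, true))).map
        (fun x => x.1.1) := by rw [hs]
    rw [List.map_map, List.map_map] at h1
    exact h1
  refine movie_phi (tmovie_classical h) hn ⟨hI.wf, hI.ok, ⟨fun S hS => ⟨(key S hS).1, ?_⟩,
    fun k => by rw [hfst]; exact ho k⟩, hI.inv⟩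
  obtain ⟨k1, k2, k3⟩ := (hI.ok S hS).2
  obtain ⟨-, k4, k5⟩ := key S hS
  intro c hc
  simp only [Tri.names, List.mem_cons, List.not_mem_nil, or_false] at hc
  rcases hc with rfl | rfl | rfl | rfl | rfl | rfl
  · rfl
  · exact k1
  · exact k4
  · rw [k2, k4]
  · exact k5
  · rw [k3, k5]

end Pool.Agent.L0h30.TT
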