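import Pool.Agent.L0h30.TT.ClBig
import Pool.Agent.L0h30.SR.BigonB

/-! Removal of two triple points joined by a bigon. -/

namespace Pool.Agent.L0h30.TT

open Pool.Agent.Y468.SR
open Pool.Agent.Y874.TP hiding S_REID S_REN S_THREE S_OUT S_CUT S_JUNC CStep CReid CM InvM InvC Inv3
  creid_after same_facts invM_ceq invM_perm
open Pool.Agent.Y874.TP2
open Pool.Agent.R800.BT (Hts Bad perm_TC mate_code)
open Pool.Agent.L0h30.SR (rot Cir Mir swapC ts_swapC ts_swapA ts_swapB ts_tij ts_tjk TS remove2)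

variable {m : ℕ → ℕ}

set_option linter.unusedSimpArgs false

/-- the second triple point is the mirror image of the first, up to the names -/
structure Opp (S S' : Tri) (k : ℕ) : Prop where
  t : S'.ta = S.ta ∧ S'.tb = S.tb ∧ S'.tc = S.tc
  s : S'.sa = S.sa ∧ S'.sb = S.sb ∧ S'.sc = S.sc
  e : S'.ei = (!S.ei) ∧ S'.ej = (!S.ej) ∧ S'.ek = (!S.ek)
  c : ∀ x ∈ S.names ++ S'.names, colour x = k

theorem Opp.tij {S S' : Tri} {k : ℕ} (h : Opp S S' k) : Opp S.tij S'.tij k := by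
  obtain ⟨⟨a1, a2, a3⟩, ⟨b1, b2, b3⟩, ⟨c1, c2, c3⟩, d⟩ := h
  refine ⟨⟨?_, ?_, ?_⟩, ⟨?_, ?_, ?_⟩, ⟨?_, ?_, ?_⟩, fun x hx => d x ?_⟩
  on_goal 10 =>
    simp only [Tri.names, Tri.tij, List.mem_append, List.mem_cons, List.not_mem_nil, or_false] at hx ⊢
    tauto
  all_goals simp only [Tri.tij, a1, a2, a3, b1, b2, b3, c1, c2, c3]

theorem Opp.tjk {S S' : Tri} {k : ℕ} (h : Opp S S' k) : Opp S.tjk S'.tjk k := by
  obtain ⟨⟨a1, a2, a3⟩, ⟨b1, b2, b3⟩, ⟨c1, c2, c3⟩, d⟩ := h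
  refine ⟨⟨?_, ?_, ?_⟩, ⟨?_, ?_, ?_⟩, ⟨?_, ?_, ?_⟩, fun x hx => d x ?_⟩
  on_goal 10 =>
    simp only [Tri.names, Tri.tjk, List.mem_append, List.mem_cons, List.not_mem_nil, or_false] at hx ⊢
    tauto
  all_goals simp only [Tri.tjk, a1, a2, a3, b1, b2, b3, c1, c2, c3]

theorem mir_of {S S' : Tri} {k : ℕ} (h : Opp S S' k) (ma : m S.a₁ = S'.a₂ ∨ m S.a₂ = S'.a₁)
    (mb : m S.b₁ = S'.b₂ ∨ m S.b₂ = S'.b₁) : ∃ T₁ T₂, TS S T₁ ∧ TS S' T₂ ∧ Mir T₁ T₂ m := by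
  obtain ⟨⟨a1, a2, a3⟩, ⟨b1, b2, b3⟩, ⟨c1, c2, c3⟩, d⟩ := h
  have x1 : colour S.a₁ = k := d _ (by simp [Tri.names])
  have x2 : colour S.a₂ = k := d _ (by simp [Tri.names])
  have x3 : colour S.b₁ = k := d _ (by simp [Tri.names])
  have x4 : colour S.b₂ = k := d _ (by simp [Tri.names])
  have x5 : colour S.c₁ = k := d _ (by simp [Tri.names])
  have x6 : colour S.c₂ = k := d _ (by simp [Tri.names])
  have y1 : colour S'.a₁ = k := d _ (by simp [Tri.names])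
  have y2 : colour S'.a₂ = k := d _ (by simp [Tri.names])
  have y3 : colour S'.b₁ = k := d _ (by simp [Tri.names])
  have y4 : colour S'.b₂ = k := d _ (by simp [Tri.names])
  have y5 : colour S'.c₁ = k := d _ (by simp [Tri.names])
  have y6 : colour S'.c₂ = k := d _ (by simp [Tri.names])
  rcases ma with ma | ma <;> rcases mb with mb | mb
  · refine ⟨S, swapC S'.swapA.swapB, TS.refl S,
      ((ts_swapA _).trans (ts_swapB _)).trans (ts_swapC _), ?_⟩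
    constructor <;> simp only [swapC, Tri.swapA, Tri.swapB, a1, a2, a3, b1, b2, b3, c1, c2, c3, x1, x2,
      x3, x4, x5, x6, y1, y2, y3, y4, y5, y6, ma, mb, Bool.not_not]
  · refine ⟨S.swapB, swapC S'.swapA, ts_swapB _, (ts_swapA _).trans (ts_swapC _), ?_⟩
    constructor <;> simp only [swapC, Tri.swapA, Tri.swapB, a1, a2, a3, b1, b2, b3, c1, c2, c3, x1, x2,
      x3, x4, x5, x6, y1, y2, y3, y4, y5, y6, ma, mb, Bool.not_not]
  · refine ⟨S.swapA, swapC S'.swapB, ts_swapA _, (ts_swapB _).trans (ts_swapC _), ?_⟩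
    constructor <;> simp only [swapC, Tri.swapA, Tri.swapB, a1, a2, a3, b1, b2, b3, c1, c2, c3, x1, x2,
      x3, x4, x5, x6, y1, y2, y3, y4, y5, y6, ma, mb, Bool.not_not]
  · refine ⟨S.swapA.swapB, swapC S', (ts_swapA _).trans (ts_swapB _), ts_swapC _, ?_⟩
    constructor <;> simp only [swapC, Tri.swapA, Tri.swapB, a1, a2, a3, b1, b2, b3, c1, c2, c3, x1, x2,
      x3, x4, x5, x6, y1, y2, y3, y4, y5, y6, ma, mb, Bool.not_not]

theorem mir_big {T T' : Tri} {k : ℕ} (h : Nm T) (h' : Nm T')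
    (hk : ∀ x ∈ T.names ++ T'.names, colour x = k) (hb : Big T T' m) :
    ∃ T₁ T₂, TS T T₁ ∧ TS T' T₂ ∧ Mir T₁ T₂ m := by
  obtain ⟨⟨t1, t2, t3⟩, ⟨e1, e2⟩, ⟨s1, s2, s3⟩⟩ := h
  obtain ⟨⟨t1', t2', t3'⟩, ⟨e1', e2'⟩, ⟨s1', s2', s3'⟩⟩ := h'
  obtain ⟨he, l, hl, l', hl', hne, m1, m2⟩ := hb
  have ho : Opp T T' k := ⟨⟨t1'.trans t1.symm, t2'.trans t2.symm, t3'.trans t3.symm⟩,
    ⟨s1'.trans s1.symm, s2'.trans s2.symm, s3'.trans s3.symm⟩,
    ⟨he, by rw [e1', he, e1], by rw [e2', he, e2]⟩, hk⟩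
  have M : ∀ l < 3, MM T T' m l → (l = 0 ∧ (m T.a₁ = T'.a₂ ∨ m T.a₂ = T'.a₁)) ∨
      (l = 1 ∧ (m T.b₁ = T'.b₂ ∨ m T.b₂ = T'.b₁)) ∨ (l = 2 ∧ (m T.c₁ = T'.c₂ ∨ m T.c₂ = T'.c₁)) := by
    intro l hl hm
    unfold MM at hm
    interval_cases l
    · exact Or.inl ⟨rfl, by simpa [nmT] using hm⟩
    · exact Or.inr (Or.inl ⟨rfl, by simpa [nmT] using hm⟩)
    · exact Or.inr (Or.inr ⟨rfl, by simpa [nmT] using hm⟩)
  have c0 : (m T.a₁ = T'.a₂ ∨ m T.a₂ = T'.a₁) → (m T.b₁ = T'.b₂ ∨ m T.b₂ = T'.b₁) →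
      ∃ T₁ T₂, TS T T₁ ∧ TS T' T₂ ∧ Mir T₁ T₂ m := fun k1 k2 => mir_of ho k1 k2
  have c1 : (m T.a₁ = T'.a₂ ∨ m T.a₂ = T'.a₁) → (m T.c₁ = T'.c₂ ∨ m T.c₂ = T'.c₁) →
      ∃ T₁ T₂, TS T T₁ ∧ TS T' T₂ ∧ Mir T₁ T₂ m := fun k1 k2 => by
    obtain ⟨T₁, T₂, u1, u2, u3⟩ := mir_of (m := m) ho.tij k1 k2
    exact ⟨T₁, T₂, (ts_tij T).trans u1, (ts_tij T').trans u2, u3⟩
  have c2 : (m T.b₁ = T'.b₂ ∨ m T.b₂ = T'.b₁) → (m T.c₁ = T'.c₂ ∨ m T.c₂ = T'.c₁) →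
      ∃ T₁ T₂, TS T T₁ ∧ TS T' T₂ ∧ Mir T₁ T₂ m := fun k1 k2 => by
    obtain ⟨T₁, T₂, u1, u2, u3⟩ := mir_of (m := m) ho.tjk.tij k1 k2
    exact ⟨T₁, T₂, ((ts_tjk T).trans (ts_tij _)).trans u1, ((ts_tjk T').trans (ts_tij _)).trans u2, u3⟩
  rcases M l hl m1 with ⟨g1, g2⟩ | ⟨g1, g2⟩ | ⟨g1, g2⟩ <;>
    rcases M l' hl' m2 with ⟨g3, g4⟩ | ⟨g3, g4⟩ | ⟨g3, g4⟩
  · exact absurd (g1.trans g3.symm) hne
  · exact c0 g2 g4
  · exact c1 g2 g4
  · exact c0 g4 g2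
  · exact absurd (g1.trans g3.symm) hne
  · exact c2 g2 g4
  · exact c1 g4 g2
  · exact c2 g4 g2
  · exact absurd (g1.trans g3.symm) hne

theorem code_ok {T : Tri} (hk : ∀ x ∈ T.names, colour x = colour T.a₁) : T.Col := by
  refine ⟨?_, ?_, ?_⟩
  · exact hk T.a₂ (by simp [Tri.names])
  · rw [hk T.b₁ (by simp [Tri.names]), hk T.b₂ (by simp [Tri.names])]
  · rw [hk T.c₁ (by simp [Tri.names]), hk T.c₂ (by simp [Tri.names])]

/-- two triple points joined by a bigon can be removed -/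
theorem big_step {D : Code} {Ts : List Tri} {k : ℕ} (hw : WF (passes (D ++ TC Ts)))
    (hi : InvM (D ++ TC Ts) m) {T T' : Tri} (hT : T ∈ Ts) (hT' : T' ∈ Ts) (hTT : T' ≠ T)
    (h : Nm T) (h' : Nm T') (hk : ∀ x ∈ T.names ++ T'.names, colour x = k) (hb : Big T T' m) :
    ∃ Ts', Ts'.Sublist Ts ∧ Ts'.length < Ts.length ∧ WF (passes (D ++ TC Ts')) ∧
      ∃ m', InvM (D ++ TC Ts') m' := by
  obtain ⟨T₁, T₂, f1, f2, f3⟩ := mir_big h h' hk hb
  have hkT : ∀ x ∈ T.names, colour x = colour T.a₁ := fun x hx => by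
    rw [hk x (List.mem_append_left _ hx), hk T.a₁ (List.mem_append_left _ (by simp [Tri.names]))]
  have hkT' : ∀ x ∈ T'.names, colour x = colour T'.a₁ := fun x hx => by
    rw [hk x (List.mem_append_right _ hx), hk T'.a₁ (List.mem_append_right _ (by simp [Tri.names]))]
  have col1 := code_ok hkT
  have col2 := code_ok hkT'
  obtain ⟨l₁, l₂, rfl⟩ := List.append_of_mem hT
  have hT'' : T' ∈ l₁ ++ l₂ := by
    rcases List.mem_append.1 hT' with h | h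
    · exact List.mem_append_left _ h
    · rcases List.mem_cons.1 h with h | h
      · exact absurd h hTT
      · exact List.mem_append_right _ h
  obtain ⟨k₁, k₂, hkk⟩ := List.append_of_mem hT''
  have hperm : (D ++ TC (l₁ ++ T :: l₂)).Perm (T.code ++ (T'.code ++ (D ++ TC (k₁ ++ k₂)))) := by
    refine (perm_TC (D := D)).trans (List.Perm.append_left _ ?_)
    rw [hkk]
    exact perm_TC
  have hi1 : InvM (T.code ++ (T'.code ++ (D ++ TC (k₁ ++ k₂)))) m := invM_perm hperm hi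
  have hw1 : WF (passes (T.code ++ (T'.code ++ (D ++ TC (k₁ ++ k₂))))) :=
    WF.perm (passes_perm hperm) hw
  have inv1 : InvM (T₁.code ++ (T'.code ++ (D ++ TC (k₁ ++ k₂)))) m := by
    have := invM_ceq (D := []) (O := T'.code ++ (D ++ TC (k₁ ++ k₂))) f1.tr.ceq
      (by simpa using hi1)
    simpa using this
  have wf1 : WF (passes (T₁.code ++ (T'.code ++ (D ++ TC (k₁ ++ k₂))))) := by
    have := wf_ceq (D := []) (O := T'.code ++ (D ++ TC (k₁ ++ k₂))) f1.tr.ceq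
      (by simpa using hw1)
    simpa using this
  have inv2 : InvM (T₁.code ++ (T₂.code ++ (D ++ TC (k₁ ++ k₂)))) m := invM_ceq f2.tr.ceq inv1
  have wf2 : WF (passes (T₁.code ++ (T₂.code ++ (D ++ TC (k₁ ++ k₂))))) := wf_ceq f2.tr.ceq wf1
  obtain ⟨m', hm'⟩ := remove2 wf2 inv2 (f1.tr.col col1) (f2.tr.col col2) f3
  refine ⟨k₁ ++ k₂, ?_, ?_, ?_, m', hm'⟩
  · have s1 : (k₁ ++ k₂).Sublist (l₁ ++ l₂) := by
      rw [hkk]
      exact List.Sublist.append (List.Sublist.refl _) (List.sublist_cons_self _ _)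
    exact s1.trans (List.Sublist.append (List.Sublist.refl _) (List.sublist_cons_self _ _))
  · have := congrArg List.length hkk
    simp only [List.length_append, List.length_cons] at this ⊢
    omega
  · have := hw1
    rw [passes_append' T.code, passes_append' T'.code] at this
    exact (this.remove fun p hp => mate_code hp).remove fun p hp => mate_code hp

end Pool.Agent.L0h30.TT
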