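import Pool.Agent.L0h30.TT.Corner

/-! Normalized triple points. -/

namespace Pool.Agent.L0h30.TT

open Pool.Agent.Y468.SR
open Pool.Agent.Y874.TP hiding S_REID S_REN S_THREE S_OUT S_CUT S_JUNC CStep CReid CM InvM InvC Inv3
  creid_after same_facts invM_ceq invM_perm
open Pool.Agent.Y874.TP2
open Pool.Agent.R800.BT (Hts Bad Sv perm_TC mate_code ok_signs inv_renamed classical_renamed)
open Pool.Agent.L0h30.SR (Her InvP RedP swapC ts_swapC ts_swapA ts_swapB TS)

/-- the two descriptions belong to the same triple point -/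
structure NT (T T' : Tri) : Prop where
  tr : TR T T'
  ht : Hts T → Hts T'
  nms : ∀ c, c ∈ T'.names ↔ c ∈ T.names

theorem NT.refl (T : Tri) : NT T T := ⟨TR.refl T, id, fun _ => Iff.rfl⟩

theorem NT.trans {T T' T'' : Tri} (h : NT T T') (h' : NT T' T'') : NT T T'' :=
  ⟨h.tr.trans h'.tr, fun k => h'.ht (h.ht k), fun c => (h'.nms c).trans (h.nms c)⟩

theorem nt_swapA (T : Tri) : NT T T.swapA := by
  refine ⟨(ts_swapA T).tr, fun k => k, fun c => ?_⟩
  simp only [Tri.names, Tri.swapA, List.mem_cons, List.not_mem_nil, or_false]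
  tauto

theorem nt_swapB (T : Tri) : NT T T.swapB := by
  refine ⟨(ts_swapB T).tr, fun k => k, fun c => ?_⟩
  simp only [Tri.names, Tri.swapB, List.mem_cons, List.not_mem_nil, or_false]
  tauto

theorem nt_swapC (T : Tri) : NT T (swapC T) := by
  refine ⟨(ts_swapC T).tr, fun k => k, fun c => ?_⟩
  simp only [Tri.names, swapC, List.mem_cons, List.not_mem_nil, or_false]
  tauto

theorem exists_e (T : Tri) : ∃ T', NT T T' ∧ T'.ej = T'.ei ∧ T'.ek = T'.ei := by
  by_cases h1 : T.ei = T.ej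
  · by_cases h2 : T.ek = T.ei
    · exact ⟨T, NT.refl T, h1.symm, h2⟩
    · refine ⟨T.swapA, nt_swapA T, ?_, ?_⟩ <;> simp only [Tri.swapA]
      · cases h4 : T.ei <;> cases h5 : T.ej <;> simp_all
      · cases h3 : T.ek <;> cases h4 : T.ei <;> simp_all
  · by_cases h2 : T.ek = T.ei
    · refine ⟨T.swapB, nt_swapB T, ?_, ?_⟩ <;> simp only [Tri.swapB]
      · cases h3 : T.ei <;> cases h4 : T.ej <;> simp_all
      · cases h3 : T.ei <;> cases h4 : T.ek <;> simp_all
    · refine ⟨T.swapA.swapB, (nt_swapA T).trans (nt_swapB _), ?_, ?_⟩ <;>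
        simp only [Tri.swapA, Tri.swapB]
      · cases h3 : T.ei <;> cases h4 : T.ej <;> simp_all
      · cases h3 : T.ei <;> cases h4 : T.ek <;> simp_all

theorem exists_nrm {T : Tri} (hok : T.Ok) (ht : Hts T) : ∃ T', NT T T' ∧ Nm T' := by
  obtain ⟨T₁, h1, e1, e2⟩ := exists_e T
  have ht1 := h1.ht ht
  obtain ⟨s1, s2⟩ := ok_signs (h1.tr.ok hok) ht1 ⟨rfl, e1, e2⟩
  cases hs : T₁.sa with
  | true => exact ⟨T₁, h1, ht1, ⟨e1, e2⟩, hs, by rw [s1, hs], by rw [s2, hs]⟩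
  | false =>
    refine ⟨swapC T₁.swapA.swapB, ((h1.trans (nt_swapA _)).trans (nt_swapB _)).trans (nt_swapC _),
      ht1, ⟨?_, ?_⟩, ?_, ?_, ?_⟩
    · simp only [swapC, Tri.swapA, Tri.swapB, Bool.not_not, e1]
    · simp only [swapC, Tri.swapA, Tri.swapB, Bool.not_not, e2]
    · simp only [swapC, Tri.swapA, Tri.swapB, hs, Bool.not_false]
    · simp only [swapC, Tri.swapA, Tri.swapB, s1, hs, Bool.not_false]
    · simp only [swapC, Tri.swapA, Tri.swapB, s2, hs, Bool.not_false]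

/-- the condition on the triple points -/
def Phi (Ts : List Tri) : Prop :=
  (∀ T ∈ Ts, Hts T ∧ ∀ c ∈ T.names, colour c = colour T.a₁) ∧
    ∀ k, (Ts.map fun T => colour T.a₁).count k ≤ 3

theorem her_phi : Her Phi := by
  refine ⟨fun Ts Ts' hs h => ?_, fun l₁ T l₂ h => ?_⟩
  · have key : Ts'.map (fun T => colour T.a₁) = Ts.map (fun T => colour T.a₁) ∧
        ∀ T' ∈ Ts', ∃ T ∈ Ts, (Hts T → Hts T') ∧ T'.names = T.names ∧ T'.a₁ = T.a₁ := by
      clear h
      induction hs with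
      | nil => exact ⟨rfl, fun T hT => absurd hT (by simp)⟩
      | @cons T₁ T₂ l l' h1 _ ih =>
        obtain ⟨i, j, k, rfl⟩ := h1
        refine ⟨by rw [List.map_cons, List.map_cons, ih.1], fun T' hT' => ?_⟩
        rcases List.mem_cons.1 hT' with e | hT'
        · subst e
          exact ⟨T₂, by simp, id, rfl, rfl⟩
        · obtain ⟨T, hT, h2⟩ := ih.2 T' hT'
          exact ⟨T, by simp [hT], h2⟩
    refine ⟨fun T' hT' => ?_, fun k => by rw [key.1]; exact h.2 k⟩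
    obtain ⟨T, hT, k1, k2, k3⟩ := key.2 T' hT'
    obtain ⟨h1, h2⟩ := h.1 T hT
    exact ⟨k1 h1, fun c hc => by rw [k3]; exact h2 c (k2 ▸ hc)⟩
  · refine ⟨fun T' hT' => h.1 T' ?_, fun k => (List.Sublist.count_le k ?_).trans (h.2 k)⟩
    · rcases List.mem_append.1 hT' with h' | h'
      · exact List.mem_append_left _ h'
      · exact List.mem_append_right _ (List.mem_cons_of_mem _ h')
    · exact (List.Sublist.append (List.Sublist.refl _) (List.sublist_cons_self _ _)).map _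

theorem Phi.sub {Ts Ts' : List Tri} (h : Phi Ts) (hs : Ts'.Sublist Ts) : Phi Ts' :=
  ⟨fun T hT => h.1 T (hs.subset hT), fun k => ((hs.map _).count_le k).trans (h.2 k)⟩

theorem clu_length (Ts : List Tri) (k : ℕ) :
    (clu Ts k).length = (Ts.map fun T => colour T.a₁).count k := by
  unfold clu
  rw [List.count, List.countP_map, List.countP_eq_length_filter]
  congr 1

theorem norm_list {D : Code} {m : ℕ → ℕ} : ∀ (l₂ l₁ : List Tri), (∀ T ∈ l₂, T.Ok ∧ Hts T) →
    WF (passes (D ++ TC (l₁ ++ l₂))) → InvM (D ++ TC (l₁ ++ l₂)) m →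
    ∃ l₂', List.Forall₂ (fun T T' => NT T T' ∧ Nm T') l₂ l₂' ∧
      WF (passes (D ++ TC (l₁ ++ l₂'))) ∧ InvM (D ++ TC (l₁ ++ l₂')) m := by
  intro l₂
  induction l₂ with
  | nil => intro l₁ _ hw hi; exact ⟨[], List.Forall₂.nil, hw, hi⟩
  | cons T l₂ ih =>
    intro l₁ hT hw hi
    obtain ⟨T', h1, h2⟩ := exists_nrm (hT T (by simp)).1 (hT T (by simp)).2
    have e : ∀ S : Tri, D ++ TC (l₁ ++ S :: l₂) = (D ++ TC l₁) ++ (S.code ++ TC l₂) := by
      intro S
      rw [TC_append, TC_cons, List.append_assoc]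
    have hw' : WF (passes (D ++ TC (l₁ ++ T' :: l₂))) := by
      rw [e] at hw ⊢
      exact wf_ceq h1.tr.ceq hw
    have hi' : InvM (D ++ TC (l₁ ++ T' :: l₂)) m := by
      rw [e] at hi ⊢
      exact invM_ceq h1.tr.ceq hi
    have e2 : ∀ l : List Tri, l₁ ++ T' :: l = (l₁ ++ [T']) ++ l := by intro l; simp
    rw [e2] at hw' hi'
    obtain ⟨l₂', k1, k2, k3⟩ := ih (l₁ ++ [T']) (fun T hT' => hT T (List.mem_cons_of_mem _ hT')) hw' hi'
    refine ⟨T' :: l₂', List.Forall₂.cons ⟨h1, h2⟩ k1, ?_, ?_⟩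
    · rw [e2]; exact k2
    · rw [e2]; exact k3

theorem NT.mono {T T' : Tri} (h : NT T T') (hm : ∀ c ∈ T.names, colour c = colour T.a₁) :
    (∀ c ∈ T'.names, colour c = colour T'.a₁) ∧ colour T'.a₁ = colour T.a₁ := by
  have h1 : colour T'.a₁ = colour T.a₁ := hm _ ((h.nms _).1 (by simp [Tri.names]))
  exact ⟨fun c hc => by rw [h1]; exact hm c ((h.nms c).1 hc), h1⟩

theorem norm_inv {D : Code} {Ts : List Tri} (h : InvP Phi D Ts) :
    ∃ Ts', Ts'.length = Ts.length ∧ InvP Phi D Ts' ∧ ∀ T ∈ Ts', Nm T := by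
  obtain ⟨m, hm⟩ := h.inv
  obtain ⟨Ts', k1, k2, k3⟩ := norm_list (D := D) (m := m) Ts [] (fun T hT =>
    ⟨(h.ok T hT).1, (h.phi.1 T hT).1⟩) h.wf hm
  have key : Ts'.map (fun T => colour T.a₁) = Ts.map (fun T => colour T.a₁) ∧
      ∀ T' ∈ Ts', ∃ T ∈ Ts, NT T T' ∧ Nm T' := by
    have hphi := h.phi.1
    clear k2 k3 h hm
    induction k1 with
    | nil => exact ⟨rfl, fun T hT => absurd hT (by simp)⟩
    | @cons T₁ T₂ l l' h1 _ ih =>
      have ih' := ih fun T hT => hphi T (List.mem_cons_of_mem _ hT)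
      have h2 := (h1.1.mono (hphi T₁ (by simp)).2).2
      refine ⟨by rw [List.map_cons, List.map_cons, ih'.1, h2], fun T' hT' => ?_⟩
      rcases List.mem_cons.1 hT' with e | hT'
      · subst e
        exact ⟨T₁, by simp, h1⟩
      · obtain ⟨T, hT, h2⟩ := ih'.2 T' hT'
        exact ⟨T, by simp [hT], h2⟩
  refine ⟨Ts', k1.length_eq.symm, ⟨k2, fun T' hT' => ?_, ⟨fun T' hT' => ?_, fun k => ?_⟩, m, k3⟩,
    fun T' hT' => ?_⟩
  · obtain ⟨T, hT, h1, -⟩ := key.2 T' hT'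
    exact ⟨h1.tr.ok (h.ok T hT).1, h1.tr.col (h.ok T hT).2⟩
  · obtain ⟨T, hT, h1, -⟩ := key.2 T' hT'
    exact ⟨h1.ht (h.phi.1 T hT).1, (h1.mono (h.phi.1 T hT).2).1⟩
  · rw [key.1]; exact h.phi.2 k
  · obtain ⟨T, hT, -, h2⟩ := key.2 T' hT'
    exact h2

/-- a triple point which can be removed -/
theorem red_bad {D : Code} {l₁ l₂ : List Tri} {T : Tri} {m : ℕ → ℕ} (hD : Classical D)
    (hn : (D.map Prod.snd).Nodup) (h3 : InvP Phi D (l₁ ++ T :: l₂))
    (hm : InvM (D ++ TC (l₁ ++ T :: l₂)) m) (hb : Bad T m) : RedP Phi D (l₁ ++ T :: l₂) := by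
  have hsv : Sv (D ++ TC (l₁ ++ T :: l₂)) colour m :=
    ⟨h3.wf, hm.1, hm.2.2, fun p hp => (hm.2.1 p hp).1⟩
  have hT : T ∈ l₁ ++ T :: l₂ := by simp
  obtain ⟨hht, hmo⟩ := h3.phi.1 T hT
  obtain ⟨m', hm'⟩ := Pool.Agent.R800.BT.drop (hsv.perm perm_TC) (h3.ok T hT).1 hht
    (fun c hc d hd => by rw [hmo c hc, hmo d hd]) hb
  set f : ℕ → ℕ := fun c => Nat.pair (2 * colour c) c with hf
  have hg : ∀ c, (Nat.unpair (f c)).2 = c := fun c => by rw [hf]; simp
  have hcol : ∀ c, colour (f c) = 2 * colour c := fun c => by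
    have : colour (f c) = (Nat.unpair (f c)).1 := rfl
    rw [this, hf]; simp
  have hinj : ∀ a b, f a = f b → a = b := fun a b h => by rw [← hg a, ← hg b, h]
  have hE : renamed f D ++ TC ((l₁ ++ l₂).map (Tri.rename f)) =
      renamed f (D ++ TC (l₁ ++ l₂)) := by
    rw [renamed_append, TC_rename]
  have hsub : (l₁ ++ l₂).Sublist (l₁ ++ T :: l₂) :=
    List.Sublist.append (List.Sublist.refl _) (List.sublist_cons_self _ _)
  have hD' := classical_renamed (f := f) (fun a b h => hinj a b h) hD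
  refine ⟨renamed f D, (l₁ ++ l₂).map (Tri.rename f), Or.inl ?_, hD', ?_, ⟨?_, ?_, ⟨?_, ?_⟩, ?_⟩, ?_⟩
  · simp
  · have : (renamed f D).map Prod.snd = D.map Prod.snd := by simp [renamed]
    rw [this]
    exact hn
  · rw [hE, passes_renamed]
    exact hm'.wf.ren fun p _ q _ e => hinj _ _ e
  · intro T' hT'
    obtain ⟨S, hS, rfl⟩ := List.mem_map.1 hT'
    obtain ⟨o1, o2, o3, o4⟩ := h3.ok S (hsub.subset hS)
    refine ⟨o1, ?_, ?_, ?_⟩
    · exact (hcol S.a₂).trans ((congrArg (2 * ·) o2).trans (hcol S.a₁).symm)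
    · exact (hcol S.b₂).trans ((congrArg (2 * ·) o3).trans (hcol S.b₁).symm)
    · exact (hcol S.c₂).trans ((congrArg (2 * ·) o4).trans (hcol S.c₁).symm)
  · intro T' hT'
    obtain ⟨S, hS, rfl⟩ := List.mem_map.1 hT'
    obtain ⟨p1, p2⟩ := h3.phi.1 S (hsub.subset hS)
    refine ⟨p1, fun c hc => ?_⟩
    have : c ∈ S.names.map f := by simpa [Tri.names, Tri.rename] using hc
    obtain ⟨d, hd, rfl⟩ := List.mem_map.1 this
    have e : (S.rename f).a₁ = f S.a₁ := rfl
    rw [e, hcol, hcol, p2 d hd]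
  · intro k
    have e : ((l₁ ++ l₂).map (Tri.rename f)).map (fun T => colour T.a₁) =
        ((l₁ ++ l₂).map fun T => colour T.a₁).map (2 * ·) := by
      rw [List.map_map, List.map_map]
      exact List.map_congr_left fun S _ => hcol S.a₁
    rw [e]
    by_cases hk : k % 2 = 0
    · have hk2 : k = 2 * (k / 2) := by omega
      rw [hk2]
      have := List.count_map_of_injective ((l₁ ++ l₂).map fun T => colour T.a₁) (2 * ·)
        (fun a b (h : 2 * a = 2 * b) => by omega) (k / 2)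
      rw [this]
      exact ((hsub.map _).count_le _).trans (h3.phi.2 _)
    · rw [List.count_eq_zero_of_not_mem]
      · norm_num
      · intro h
        obtain ⟨a, -, ha⟩ := List.mem_map.1 h
        omega
  · rw [hE]
    obtain ⟨k1, k2⟩ := inv_renamed (f := f) (g := fun c => (Nat.unpair c).2) hg hm'.mt hm'.nv
    refine ⟨_, k1, ?_, k2⟩
    intro p' hp'
    obtain ⟨p, hp, rfl⟩ := mem_renamed.1 hp'
    simp only [hg]
    rw [hcol, hcol, hm'.cm p hp]
    exact ⟨rfl, fun h1 => absurd (by omega) h1⟩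
  · exact Movie.head hD hD' (Step.rename _ D fun p _ q _ h => hinj _ _ h)
      Relation.ReflTransGen.refl

end Pool.Agent.L0h30.TT
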