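import Pool.Agent.L0h30.TT.Tests

/-! Soundness of the search. -/

namespace Pool.Agent.L0h30.TT

/-! ### Digits -/

theorem dig_testBit (m i b : ℕ) : (dig m i).testBit b = (m.testBit (7 * i + b) && decide (b < 7)) := by
  unfold dig
  change ((m >>> (7 * i)) &&& 127).testBit b = _
  rw [Nat.testBit_and, Nat.testBit_shiftRight]
  have : (127 : ℕ) = 2 ^ 7 - 1 := by norm_num
  rw [this, Nat.testBit_two_pow_sub_one]

theorem put_testBit (m i v b : ℕ) :
    (put m i v).testBit b = (m.testBit b || (decide (7 * i ≤ b) && v.testBit (b - 7 * i))) := by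
  unfold put
  change (m ||| (v <<< (7 * i))).testBit b = _
  rw [Nat.testBit_or, Nat.testBit_shiftLeft]

theorem dig_put_ne {m i j v : ℕ} (hv : v < 128) (hij : i ≠ j) : dig (put m i v) j = dig m j := by
  refine Nat.eq_of_testBit_eq fun b => ?_
  rw [dig_testBit, dig_testBit, put_testBit]
  by_cases hb : b < 7
  · by_cases h : 7 * i ≤ 7 * j + b
    · have h2 : 7 ≤ 7 * j + b - 7 * i := by omega
      have : v.testBit (7 * j + b - 7 * i) = false := by
        refine Nat.testBit_lt_two_pow ?_
        calc v < 2 ^ 7 := by omega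
          _ ≤ _ := Nat.pow_le_pow_right (by norm_num) h2
      rw [this]; simp
    · simp [h]
  · simp [hb]

theorem dig_put_self {m i v : ℕ} (hv : v < 128) (h0 : dig m i = 0) : dig (put m i v) i = v := by
  refine Nat.eq_of_testBit_eq fun b => ?_
  have h1 : (dig m i).testBit b = false := by rw [h0]; simp
  rw [dig_testBit] at h1
  rw [dig_testBit, put_testBit]
  by_cases hb : b < 7
  · simp only [hb, decide_true, Bool.and_true] at h1 ⊢
    rw [h1]
    have : 7 * i + b - 7 * i = b := by omega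
    rw [this]
    simp
  · have : v.testBit b = false := by
      refine Nat.testBit_lt_two_pow ?_
      calc v < 2 ^ 7 := by omega
        _ ≤ _ := Nat.pow_le_pow_right (by norm_num) (by omega)
    simp [hb, this]

theorem dig_zero (i : ℕ) : dig 0 i = 0 := by
  refine Nat.eq_of_testBit_eq fun b => ?_
  rw [dig_testBit]; simp

/-! ### Next and previous darts -/

theorem nx_eq (δ d : ℕ) : nx δ d = if ori δ (d / 12) then 4 * (d / 4) + (d + 1) % 4
    else 4 * (d / 4) + (d + 3) % 4 := by
  unfold nx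
  change (Bool.rec (4 * (d / 4) + (d + 3) % 4) (4 * (d / 4) + (d + 1) % 4) (ori δ (d / 12)) : ℕ) = _
  cases ori δ (d / 12) <;> rfl

theorem pv_eq (δ d : ℕ) : pv δ d = if ori δ (d / 12) then 4 * (d / 4) + (d + 3) % 4
    else 4 * (d / 4) + (d + 1) % 4 := by
  unfold pv
  change (Bool.rec (4 * (d / 4) + (d + 1) % 4) (4 * (d / 4) + (d + 3) % 4) (ori δ (d / 12)) : ℕ) = _
  cases ori δ (d / 12) <;> rfl

theorem nx_div (δ d : ℕ) : nx δ d / 4 = d / 4 := by
  rw [nx_eq]; split_ifs <;> omega

theorem pv_div (δ d : ℕ) : pv δ d / 4 = d / 4 := by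
  rw [pv_eq]; split_ifs <;> omega

theorem pv_nx (δ d : ℕ) : pv δ (nx δ d) = d := by
  have h := nx_div δ d
  have h12 : nx δ d / 12 = d / 12 := by omega
  rw [pv_eq, h12, nx_eq]
  split_ifs <;> omega

theorem nx_pv (δ d : ℕ) : nx δ (pv δ d) = d := by
  have h := pv_div δ d
  have h12 : pv δ d / 12 = d / 12 := by omega
  rw [nx_eq, h12, pv_eq]
  split_ifs <;> omega

variable {t δ : ℕ} {μ : ℕ → ℕ}

theorem nx_lt {d : ℕ} (h : d < 12 * t) : nx δ d < 12 * t := by
  have := nx_div δ d; omega

theorem pv_lt {d : ℕ} (h : d < 12 * t) : pv δ d < 12 * t := by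
  have := pv_div δ d; omega

/-- invariants of the search -/
structure Iv (t δ : ℕ) (μ : ℕ → ℕ) (m : ℕ) (S : List (List (List ℕ))) : Prop where
  sta : Sta t δ (sig μ) S
  dg : ∀ N < 6 * t, (dig m N = 0 ∧ ov N ∈ en S ∧ un N ∈ en S) ∨
    (dig m N = μ N + 1 ∧ ov N ∉ en S ∧ un N ∉ en S)

theorem names_ne {N M : ℕ} (hN : N < 18) (hM : M < 18) (h : N ≠ M) :
    ov N ≠ ov M ∧ un N ≠ un M ∧ ov N ≠ un M ∧ un N ≠ ov M := by
  have fN := name_facts N hN
  have fM := name_facts M hM
  refine ⟨fun e => h ?_, fun e => h ?_, fun e => h ?_, fun e => h ?_⟩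
  · rw [← fN.2.2.1, e, fM.2.2.1]
  · rw [← fN.2.2.2.1, e, fM.2.2.2.1]
  · rw [← fN.2.2.1, e, fM.2.2.2.1]
  · rw [← fN.2.2.2.1, e, fM.2.2.1]

theorem big2_false (h : Cl t δ μ) {m : ℕ} {S : List (List (List ℕ))} (hI : Iv t δ μ m S) {N : ℕ}
    (hN : N < 6 * t) (h1 : μ N ≠ 98) (h2 : μ N ≠ N) : big2 δ m N (μ N) = false := by
  have h3 : μ N < 6 * t := (h.lt N hN).resolve_left h1
  have fN := name_facts N (h.lt18 hN)
  have fM := name_facts _ (h.lt18 h3)
  have key : ∀ x y, x < 12 * t → y < 12 * t → μ (nm (nx δ x)) ≠ nm (pv δ y) →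
      μ (nm (pv δ x)) ≠ nm (nx δ y) → big δ m x y = false := by
    intro x y hx hy k1 k2
    have sub : ∀ z w, z < 12 * t → μ (nm z) ≠ w → Nat.beq (dig m (nm z)) (Nat.succ w) = false := by
      intro z w hz hw
      have fz := dart_facts z (h.lt36 hz)
      cases hb : Nat.beq (dig m (nm z)) (Nat.succ w) with
      | false => rfl
      | true =>
        have h4 := Nat.eq_of_beq_eq_true hb
        rcases hI.dg (nm z) (by omega) with h5 | h5
        · rw [h5.1] at h4; exact absurd h4.symm (Nat.succ_ne_zero _)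
        · rw [h5.1] at h4
          exact absurd (Nat.succ.inj h4) hw
    unfold big
    rw [sub _ _ (nx_lt hx) k1, sub _ _ (pv_lt hx) k2]
  unfold big2
  cases hb : Nat.beq (letter N) (letter (μ N)) with
  | false => rfl
  | true =>
    obtain ⟨⟨b1, b2⟩, b3, b4⟩ := h.big N hN h1 h2 (Nat.eq_of_beq_eq_true hb)
    rw [key (un N) (un (μ N)) (by omega) (by omega) b3 b4,
      key (ov N) (ov (μ N)) (by omega) (by omega) b1 b2]

/-- passing through -/
def Pas (f : List ℕ → ℕ → List (List (List ℕ)) → (List ℕ → Bool) → Bool) : Prop :=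
  ∀ c m S k, f c m S k = true → ∃ c', k c' = true

/-- soundness -/
def Sou (t δ : ℕ) (μ : ℕ → ℕ) (f : List ℕ → ℕ → List (List (List ℕ)) → (List ℕ → Bool) → Bool) :
    Prop := ∀ c m S k, Iv t δ μ m S → f c m S k = true → Goal t δ (sig μ)

variable {f : List ℕ → ℕ → List (List (List ℕ)) → (List ℕ → Bool) → Bool}

theorem leafOpt_L (hf : Pas f) {m N : ℕ} {S : List (List (List ℕ))} {c : List ℕ}
    {k : List ℕ → Bool} (h : leafOpt f m N S c k = true) : ∃ c', k c' = true := by
  unfold leafOpt at h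
  simp only [frc_eq] at h
  rcases mark_L h with h | ⟨S1, h⟩
  · exact ⟨c, h⟩
  rcases mark_L h with h | ⟨S2, h⟩
  · exact ⟨c, h⟩
  exact hf _ _ _ _ h

theorem brOpt_L (hf : Pas f) {m N : ℕ} {S : List (List (List ℕ))} {c : List ℕ}
    {k : List ℕ → Bool} (h : brOpt f m N S c k = true) : ∃ c', k c' = true := by
  unfold brOpt at h
  simp only [frc_eq] at h
  cases hb : Nat.beq (letter N) 1 with
  | false => rw [hb] at h; exact ⟨c, h⟩
  | true =>
    rw [hb] at h
    rcases join_L h with h | ⟨S1, h⟩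
    · exact ⟨c, h⟩
    exact hf _ _ _ _ h

/-- the function `go`, abstractly -/
def goo (P : ℕ → Bool → (ℕ → List (List (List ℕ)) → Bool) → Bool) (C : ℕ → Bool)
    (f : List ℕ → ℕ → List (List (List ℕ)) → (List ℕ → Bool) → Bool) (j : ℕ) (c : List ℕ)
    (k : List ℕ → Bool) : Bool :=
  Nat.rec (motive := fun _ => List ℕ → (List ℕ → Bool) → Bool) (fun c k => k c)
    (fun g ih c k => Bool.rec (ih c k) (P g (ih c k) fun m S => f c m S fun c => ih c k) (C g)) j c k

theorem goo_succ (P : ℕ → Bool → (ℕ → List (List (List ℕ)) → Bool) → Bool) (C : ℕ → Bool)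
    (f : List ℕ → ℕ → List (List (List ℕ)) → (List ℕ → Bool) → Bool) (j : ℕ) (c : List ℕ)
    (k : List ℕ → Bool) : goo P C f (j + 1) c k = (Bool.rec (goo P C f j c k)
      (P j (goo P C f j c k) fun m S => f c m S fun c => goo P C f j c k) (C j) : Bool) := rfl

theorem go_goo (f : List ℕ → ℕ → List (List (List ℕ)) → (List ℕ → Bool) → Bool) (δ m N : ℕ)
    (S' : List (List (List ℕ))) (K : List (List ℕ)) (A : List ℕ) (j : ℕ) (c : List ℕ)
    (k : List ℕ → Bool) : go f δ m N S' K A j c k =
      goo (fun g n k => partner δ m N g S' K A n k) (fun g => cand m N g) f j c k := rfl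

theorem go_succ (f : List ℕ → ℕ → List (List (List ℕ)) → (List ℕ → Bool) → Bool) (δ m N : ℕ)
    (S' : List (List (List ℕ))) (K : List (List ℕ)) (A : List ℕ) (j : ℕ) (c : List ℕ)
    (k : List ℕ → Bool) : go f δ m N S' K A (j + 1) c k = (Bool.rec (go f δ m N S' K A j c k)
      (partner δ m N j S' K A (go f δ m N S' K A j c k) fun m' S => f c m' S fun c =>
        go f δ m N S' K A j c k) (cand m N j) : Bool) := rfl

theorem go_L (hf : Pas f) {m N : ℕ} {S' : List (List (List ℕ))} {K : List (List ℕ)} {A : List ℕ}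
    {j : ℕ} {c : List ℕ} {k : List ℕ → Bool} (h : go f δ m N S' K A j c k = true) :
    ∃ c', k c' = true := by
  induction j generalizing c with
  | zero => exact ⟨c, h⟩
  | succ j ih =>
    rw [go_succ] at h
    cases hb : cand m N j with
    | false => rw [hb] at h; exact ih h
    | true =>
      rw [hb] at h
      rcases partner_L h with h | ⟨m', S, h⟩
      · exact ih h
      · obtain ⟨c', h⟩ := hf _ _ _ _ h
        exact ih h

theorem parOpt_L (hf : Pas f) {T m N : ℕ} {S : List (List (List ℕ))} {c : List ℕ}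
    {k : List ℕ → Bool} (h : parOpt f δ T m N S c k = true) :
    (∃ c', k c' = true) ∧ ov N ∈ en S := by
  unfold parOpt at h
  simp only [frc_eq] at h
  rcases cutS_spec h with ⟨S1, K1, p, q, K2, S2, h3, h4⟩ | ⟨h3, h4⟩
  · refine ⟨go_L hf h4, ?_⟩
    rw [h3]
    exact List.mem_flatten.2 ⟨p ++ ov N :: q, List.mem_flatten.2 ⟨K1 ++ (p ++ ov N :: q) :: K2,
      by simp, by simp⟩, by simp⟩
  · exact absurd h4 (by simp)

theorem node_L (hf : Pas f) {T m N : ℕ} {S : List (List (List ℕ))} {c : List ℕ}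
    {k : List ℕ → Bool} (h : node f δ T m N S c k = true) :
    (∃ c', k c' = true) ∧ ov N ∈ en S := by
  unfold node at h
  obtain ⟨c1, h1⟩ := leafOpt_L hf h
  obtain ⟨c2, h2⟩ := brOpt_L hf h1
  exact parOpt_L hf h2

theorem leaf_S (h : Cl t δ μ) (hE : Env t δ (sig μ)) (hs : Sou t δ μ f) {m N : ℕ}
    {S : List (List (List ℕ))} {c : List ℕ}
    {k : List ℕ → Bool} (hI : Iv t δ μ m S) (hN : N < 6 * t) (h0 : dig m N = 0)
    (hμ : μ N = 98) (hk : leafOpt f m N S c k = true) : Goal t δ (sig μ) := by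
  have hN18 := h.lt18 hN
  have fN := name_facts N hN18
  have hd := (hI.dg N hN).resolve_right fun h => by rw [h0] at h; omega
  unfold leafOpt at hk
  simp only [frc_eq] at hk
  obtain ⟨S1, k1, k2, k3⟩ := mark_S hE (sig_ov_leaf hN18 hμ) hI.sta fN.1 hd.2.1 hk
  obtain ⟨S2, k4, k5, k6⟩ := mark_S hE (sig_un_leaf hN18 hμ) k1 fN.2.1
    ((k2 _).2 (Or.inl ⟨hd.2.2, Ne.symm fN.2.2.2.2.1⟩)) k3
  refine hs _ _ _ _ ⟨k4, fun M hM => ?_⟩ k6
  have hM18 := h.lt18 hM
  have fM := name_facts M hM18
  by_cases e : M = N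
  · subst e
    right
    rw [dig_put_self (by norm_num) h0, hμ]
    refine ⟨rfl, ?_, ?_⟩
    · rw [k5, k2]
      rintro (⟨⟨-, h⟩ | h, -⟩ | h)
      · exact h rfl
      · omega
      · omega
    · rw [k5, k2]
      rintro (⟨-, h⟩ | h)
      · exact h rfl
      · omega
  · rw [dig_put_ne (by norm_num) (Ne.symm e)]
    obtain ⟨n1, n2, n3, n4⟩ := names_ne hM18 hN18 e
    have e1 : ov M ∈ en S2 ↔ ov M ∈ en S := by
      rw [k5, k2]
      constructor
      · rintro (⟨⟨h, -⟩ | h, -⟩ | h)
        · exact h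
        · omega
        · omega
      · intro h
        exact Or.inl ⟨Or.inl ⟨h, n1⟩, n3⟩
    have e2 : un M ∈ en S2 ↔ un M ∈ en S := by
      rw [k5, k2]
      constructor
      · rintro (⟨⟨h, -⟩ | h, -⟩ | h)
        · exact h
        · omega
        · omega
      · intro h
        exact Or.inl ⟨Or.inl ⟨h, n4⟩, n2⟩
    rw [e1, e2]
    exact hI.dg M hM

theorem br_S (h : Cl t δ μ) (hE : Env t δ (sig μ)) (hs : Sou t δ μ f) {m N : ℕ}
    {S : List (List (List ℕ))} {c : List ℕ}
    {k : List ℕ → Bool} (hI : Iv t δ μ m S) (hN : N < 6 * t) (h0 : dig m N = 0)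
    (hμ : μ N = N) (hk : brOpt f m N S c k = true) : Goal t δ (sig μ) := by
  have hN18 := h.lt18 hN
  have fN := name_facts N hN18
  have hd := (hI.dg N hN).resolve_right fun h => by rw [h0] at h; omega
  unfold brOpt at hk
  simp only [frc_eq] at hk
  have hb : Nat.beq (letter N) 1 = true := by rw [h.br N hN hμ]; rfl
  rw [hb] at hk
  obtain ⟨S1, k1, k2, k3⟩ := join_S hE (sig_ov_br hN18 hμ) hI.sta fN.1 fN.2.1 hd.2.1 hd.2.2
    fN.2.2.2.2.1 hk
  refine hs _ _ _ _ ⟨k1, fun M hM => ?_⟩ k3
  have hM18 := h.lt18 hM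
  by_cases e : M = N
  · subst e
    right
    rw [dig_put_self (by omega) h0, hμ]
    refine ⟨rfl, ?_, ?_⟩
    · rw [k2]; exact fun h => h.2.1 rfl
    · rw [k2]; exact fun h => h.2.2 rfl
  · rw [dig_put_ne (by omega) (Ne.symm e)]
    obtain ⟨n1, n2, n3, n4⟩ := names_ne hM18 hN18 e
    have e1 : ov M ∈ en S1 ↔ ov M ∈ en S := by
      rw [k2]; exact ⟨fun h => h.1, fun h => ⟨h, n1, n3⟩⟩
    have e2 : un M ∈ en S1 ↔ un M ∈ en S := by
      rw [k2]; exact ⟨fun h => h.1, fun h => ⟨h, n4, n2⟩⟩
    rw [e1, e2]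
    exact hI.dg M hM

/-- the partner of an open dart is open -/
theorem open_partner (h : Cl t δ μ) {m N : ℕ} {S : List (List (List ℕ))}
    (hI : Iv t δ μ m S) (hN : N < 6 * t) (h1 : μ N ≠ 98) (h2 : μ N ≠ N)
    (ho : ov N ∈ en S) : dig m (μ N) = 0 ∧ ov (μ N) ∈ en S ∧ un (μ N) ∈ en S := by
  have hN18 := h.lt18 hN
  have fN := name_facts N hN18
  have h3 : μ N < 6 * t := (h.lt N hN).resolve_left h1
  have hM18 := h.lt18 h3
  have fM := name_facts _ hM18
  have h4 := h.inv N hN h1
  have e3 : μ (μ N) ≠ 98 := by rw [h4]; omega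
  have e4 : μ (μ N) ≠ μ N := by rw [h4]; exact Ne.symm h2
  have hσ : sig μ (ov (μ N)) = ov N := by rw [sig_ov hM18 e3 e4, h4]
  have hin : ov N ∈ Os (cln S) := by
    change ov N ∈ (cln S).flatten.flatten
    rw [cln_flat]
    have : ov N = ov N % 64 := (Nat.mod_eq_of_lt (by omega)).symm
    rw [this]
    exact List.mem_map_of_mem ho
  have hin2 : ov (μ N) ∈ Os (cln S) := by
    by_contra hcon
    have := (hI.sta.snd.cl (ov (μ N)) (by omega) hcon).1
    rw [hσ] at this
    exact this hin
  change ov (μ N) ∈ (cln S).flatten.flatten at hin2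
  rw [cln_flat] at hin2
  obtain ⟨a, ha, he⟩ := List.mem_map.1 hin2
  have hov : ov (μ N) ∈ en S := by
    rcases hI.sta.ent a ha with h5 | ⟨h5, h6, h7⟩
    · have : a = ov (μ N) := by omega
      rwa [this] at ha
    · exfalso
      have : a - 64 = ov (μ N) := by omega
      rw [this, hσ] at h7
      exact (names_ne hN18 hM18 (Ne.symm h2)).1 h7
  rcases hI.dg (μ N) h3 with h5 | h5
  · exact h5
  · exact absurd hov h5.2.1

theorem go_S (h : Cl t δ μ) (hE : Env t δ (sig μ)) (hf : Pas f) (hs : Sou t δ μ f) {m N : ℕ}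
    {S' : List (List (List ℕ))} {K : List (List ℕ)} {A : List ℕ} {j : ℕ} {c : List ℕ}
    {k : List ℕ → Bool} (hI : Iv t δ μ m (((ov N :: A) :: K) :: S')) (hN : N < 6 * t)
    (h1 : μ N ≠ 98) (h2 : μ N ≠ N) (hj : μ N < j)
    (hk : go f δ m N S' K A j c k = true) : Goal t δ (sig μ) := by
  have hN18 := h.lt18 hN
  have fN := name_facts N hN18
  have h3 : μ N < 6 * t := (h.lt N hN).resolve_left h1
  have hM18 := h.lt18 h3
  have fM := name_facts _ hM18
  have h4 := h.inv N hN h1
  have hov : ov N ∈ en (((ov N :: A) :: K) :: S') := by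
    unfold en; rw [flat2]; simp
  have hd := (hI.dg N hN).resolve_right fun h => h.2.1 hov
  obtain ⟨p1, p2, p3⟩ := open_partner h hI hN h1 h2 hov
  induction j generalizing c with
  | zero => omega
  | succ j ih =>
    rw [go_succ] at hk
    by_cases e : μ N = j
    · have hc : cand m N j = true := by
        obtain ⟨c1, c2⟩ := h.pr N hN h1 h2
        unfold cand
        have e1 : Nat.beq (dig m j) 0 = true := by rw [← e, p1]; rfl
        have e2 : Nat.beq (Nat.mod (Nat.add j N) 2) 0 = false := by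
          rw [← e]
          change Nat.beq ((μ N + N) % 2) 0 = false
          rw [c1]; rfl
        rw [e1, e2, ← e, c2]
      rw [hc] at hk
      subst e
      obtain ⟨S2, k1, k2, k3⟩ := partner_S hE (sig_ov hN18 h1 h2) (sig_un hN18 h1 h2) hI.sta hN18
        hM18 (Ne.symm h2) p2 hd.2.2 p3 (big2_false h hI hN h1 h2) hk
      refine hs _ _ _ _ ⟨k1, fun M hM => ?_⟩ k3
      have hMM := h.lt18 hM
      have d1 : dig (put m N (Nat.succ (μ N))) (μ N) = 0 := by
        rw [dig_put_ne (by omega) (Ne.symm h2), p1]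
      by_cases e1 : M = N
      · subst e1
        right
        rw [dig_put_ne (by omega) h2, dig_put_self (by omega) hd.1]
        refine ⟨rfl, ?_, ?_⟩
        · rw [k2]; exact fun h => h.2.1 rfl
        · rw [k2]; exact fun h => h.2.2.2.1 rfl
      · by_cases e2 : M = μ N
        · subst e2
          right
          rw [dig_put_self (by omega) d1, h4]
          refine ⟨rfl, ?_, ?_⟩
          · rw [k2]; exact fun h => h.2.2.1 rfl
          · rw [k2]; exact fun h => h.2.2.2.2 rfl
        · rw [dig_put_ne (by omega) (Ne.symm e2), dig_put_ne (by omega) (Ne.symm e1)]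
          obtain ⟨n1, n2, n3, n4⟩ := names_ne hMM hN18 e1
          obtain ⟨n5, n6, n7, n8⟩ := names_ne hMM hM18 e2
          have e1 : ov M ∈ en S2 ↔ ov M ∈ en (((ov N :: A) :: K) :: S') := by
            rw [k2]; exact ⟨fun h => h.1, fun h => ⟨h, n1, n5, n3, n7⟩⟩
          have e2 : un M ∈ en S2 ↔ un M ∈ en (((ov N :: A) :: K) :: S') := by
            rw [k2]; exact ⟨fun h => h.1, fun h => ⟨h, n4, n8, n2, n6⟩⟩
          rw [e1, e2]
          exact hI.dg M hM
    · have hj' : μ N < j := by omega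
      cases hb : cand m N j with
      | false => rw [hb] at hk; exact ih hj' hk
      | true =>
        rw [hb] at hk
        rcases partner_L hk with hk | ⟨m', S, hk⟩
        · exact ih hj' hk
        · obtain ⟨c', hk⟩ := hf _ _ _ _ hk
          exact ih hj' hk

theorem node_S (h : Cl t δ μ) (hE : Env t δ (sig μ)) (hf : Pas f) (hs : Sou t δ μ f) {T m N : ℕ}
    {S : List (List (List ℕ))} {c : List ℕ}
    {k : List ℕ → Bool} (hI : Iv t δ μ m S) (hN : N < 6 * t)
    (hT : μ N ≠ 98 → μ N ≠ N → μ N < T)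
    (hk : node f δ T m N S c k = true) : Goal t δ (sig μ) := by
  have hov := (node_L hf hk).2
  have h0 : dig m N = 0 := by
    rcases hI.dg N hN with h | h
    · exact h.1
    · exact absurd hov h.2.1
  unfold node at hk
  by_cases h1 : μ N = 98
  · exact leaf_S h hE hs hI hN h0 h1 hk
  obtain ⟨c1, hk⟩ := leafOpt_L hf hk
  by_cases h2 : μ N = N
  · exact br_S h hE hs hI hN h0 h2 hk
  obtain ⟨c2, hk⟩ := brOpt_L hf hk
  unfold parOpt at hk
  simp only [frc_eq] at hk
  rcases cutS_spec hk with ⟨S1, K1, p, q, K2, S2, h3, h4⟩ | ⟨h3, h4⟩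
  · subst h3
    obtain ⟨h5, h6⟩ := hI.sta.front
    refine go_S h hE hf hs (A := q ++ p) (K := K1 ++ K2) (S' := S1 ++ S2) ⟨h5, fun M hM => ?_⟩ hN h1 h2
      (hT h1 h2) h4
    rw [h6, h6]
    exact hI.dg M hM
  · exact absurd h4 (by simp)

/-- the function `run`, abstractly -/
def rn (C : ℕ → Bool) (J Tt : List (List (List ℕ)) → Bool)
    (nd : (List ℕ → ℕ → List (List (List ℕ)) → (List ℕ → Bool) → Bool) → ℕ → ℕ →
      List (List (List ℕ)) → List ℕ → (List ℕ → Bool) → Bool)
    (fuel : ℕ) (c : List ℕ) (m : ℕ) (S : List (List (List ℕ))) (k : List ℕ → Bool) : Bool :=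
  Nat.rec (motive := fun _ => List ℕ → ℕ → List (List (List ℕ)) → (List ℕ → Bool) → Bool)
    (fun _ _ _ _ => false)
    (fun _ ih c m S k => List.rec false (fun N c _ =>
      Bool.rec
        (Bool.rec (Bool.rec false (nd ih m N S c k) (C N))
          (Bool.rec false (k c) (J S))
          (Nat.beq N 30))
        (Bool.rec false (k c) (Tt S))
        (Nat.beq N 31)) c) fuel c m S k

theorem rn_succ (C : ℕ → Bool) (J Tt : List (List (List ℕ)) → Bool)
    (nd : (List ℕ → ℕ → List (List (List ℕ)) → (List ℕ → Bool) → Bool) → ℕ → ℕ →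
      List (List (List ℕ)) → List ℕ → (List ℕ → Bool) → Bool)
    (fuel N : ℕ) (c : List ℕ) (m : ℕ) (S : List (List (List ℕ))) (k : List ℕ → Bool) :
    rn C J Tt nd (fuel + 1) (N :: c) m S k = (Bool.rec
        (Bool.rec (Bool.rec false (nd (rn C J Tt nd fuel) m N S c k) (C N))
          (Bool.rec false (k c) (J S))
          (Nat.beq N 30))
        (Bool.rec false (k c) (Tt S))
        (Nat.beq N 31) : Bool) := rfl

theorem run_rn (md : Bool) (δ T x fuel : ℕ) : run md δ T x fuel =
    rn (fun N => Nat.ble (Nat.succ N) T) (fun S => jB md δ x S) (fun S => total δ S 0 0)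
      (fun ih m N S c k => node ih δ T m N S c k) fuel := rfl

theorem run_succ (md : Bool) (δ T x fuel N : ℕ) (c : List ℕ) (m : ℕ) (S : List (List (List ℕ)))
    (k : List ℕ → Bool) : run md δ T x (fuel + 1) (N :: c) m S k = (Bool.rec
        (Bool.rec (Bool.rec false (node (run md δ T x fuel) δ T m N S c k) (Nat.ble (Nat.succ N) T))
          (Bool.rec false (k c) (jB md δ x S))
          (Nat.beq N 30))
        (Bool.rec false (k c) (total δ S 0 0))
        (Nat.beq N 31) : Bool) := by
  rw [run_rn, rn_succ, ← run_rn]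

theorem run_nil (md : Bool) (δ T x fuel : ℕ) (m : ℕ) (S : List (List (List ℕ)))
    (k : List ℕ → Bool) : run md δ T x fuel [] m S k = false := by
  rw [run_rn]
  cases fuel <;> rfl

theorem run_zero (md : Bool) (δ T x : ℕ) (c : List ℕ) (m : ℕ) (S : List (List (List ℕ)))
    (k : List ℕ → Bool) : run md δ T x 0 c m S k = false := by
  rw [run_rn]
  rfl

theorem run_L {md : Bool} {T x fuel : ℕ} : Pas (run md δ T x fuel) := by
  induction fuel with
  | zero => intro c m S k h; rw [run_zero] at h; exact absurd h Bool.false_ne_true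
  | succ fuel ih =>
    intro c m S k h
    rcases c with _ | ⟨N, c⟩
    · rw [run_nil] at h; exact absurd h Bool.false_ne_true
    rw [run_succ] at h
    cases h31 : Nat.beq N 31 with
    | true =>
      rw [h31] at h
      cases hb : total δ S 0 0 with
      | false => rw [hb] at h; exact absurd h Bool.false_ne_true
      | true => rw [hb] at h; exact ⟨c, h⟩
    | false =>
      rw [h31] at h
      cases h30 : Nat.beq N 30 with
      | true =>
        rw [h30] at h
        cases hb : jB md δ x S with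
        | false => rw [hb] at h; exact absurd h Bool.false_ne_true
        | true => rw [hb] at h; exact ⟨c, h⟩
      | false =>
        rw [h30] at h
        cases hb : Nat.ble (Nat.succ N) T with
        | false => rw [hb] at h; exact absurd h Bool.false_ne_true
        | true => rw [hb] at h; exact (node_L ih h).1

theorem run_S (h : Cl t δ μ) (hE : Env t δ (sig μ)) {md : Bool} {x fuel : ℕ}
    (hx : Bas md t δ (sig μ) x) : Sou t δ μ (run md δ (6 * t) (x + 64) fuel) := by
  induction fuel with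
  | zero => intro c m S k _ h; rw [run_zero] at h; exact absurd h Bool.false_ne_true
  | succ fuel ih =>
    intro c m S k hI hk
    rcases c with _ | ⟨N, c⟩
    · rw [run_nil] at hk; exact absurd hk Bool.false_ne_true
    rw [run_succ] at hk
    cases h31 : Nat.beq N 31 with
    | true =>
      rw [h31] at hk
      cases hb : total δ S 0 0 with
      | false => rw [hb] at hk; exact absurd hk Bool.false_ne_true
      | true => exact total_S hE hI.sta hb
    | false =>
      rw [h31] at hk
      cases h30 : Nat.beq N 30 with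
      | true =>
        rw [h30] at hk
        cases hb : jB md δ (x + 64) S with
        | false => rw [hb] at hk; exact absurd hk Bool.false_ne_true
        | true => exact (jB_S hE hI.sta hx hb).elim
      | false =>
        rw [h30] at hk
        cases hb : Nat.ble (Nat.succ N) (6 * t) with
        | false => rw [hb] at hk; exact absurd hk Bool.false_ne_true
        | true =>
          rw [hb] at hk
          have hN : N < 6 * t := Nat.le_of_ble_eq_true hb
          exact node_S h hE run_L ih hI hN (fun h1 _ => (h.lt N hN).resolve_left h1) hk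

end Pool.Agent.L0h30.TT
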