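import Pool.Agent.L0h30.TT.Defs

/-! The invariants of states. -/

namespace Pool.Agent.L0h30.TT

/-- signs of the darts -/
def sgn (d : ℕ) : ℤ := if pos d then 1 else -1

theorem sgn_ne (d : ℕ) : sgn d ≠ 0 := by
  unfold sgn; split_ifs <;> decide

/-- the matching of darts, abstractly -/
structure Env (t δ : ℕ) (σ : ℕ → ℕ) : Prop where
  lt : ∀ d < 12 * t, σ d < 12 * t ∧ σ (σ d) = d
  sg : Fl t σ sgn
  pl : ∀ f g, Fl t σ f → Fl t σ g → (∀ d < 12 * t, σ d = d → f d = 0) → Om t δ f g = 0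

variable {t δ : ℕ} {σ : ℕ → ℕ}

theorem Su.add {p q : ℕ → ℤ} (hp : Su t p) (hq : Su t q) : Su t fun d => p d + q d := by
  intro i hi
  have h1 := hp i hi
  have h2 := hq i hi
  simp only
  linarith

theorem Om_add (p q g : ℕ → ℤ) : Om t δ (fun d => p d + q d) g = Om t δ p g + Om t δ q g := by
  unfold Om
  rw [← Finset.sum_add_distrib]
  exact Finset.sum_congr rfl fun d _ => by ring

/-- flows from `e` to `e'` relative to the open darts -/
structure Rl (t : ℕ) (σ : ℕ → ℕ) (O : Set ℕ) (p : ℕ → ℤ) (e e' : ℕ) : Prop where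
  su : Su t p
  an : ∀ d < 12 * t, d ∉ O → p (σ d) = -p d
  e1 : p e = 1
  e2 : p e' = -1
  z : ∀ d ∈ O, d ≠ e → d ≠ e' → p d = 0

/-- neighbours in a face -/
def R (t δ : ℕ) (σ : ℕ → ℕ) (O : Set ℕ) (e e' : ℕ) : Prop :=
  ∃ p, Rl t σ O p e e' ∧ ∀ g, Fl t σ g → Om t δ p g = 2 * (g e + g e')

variable {O : Set ℕ}

theorem Rl.ne {p : ℕ → ℤ} {e e' : ℕ} (h : Rl t σ O p e e') : e ≠ e' := by
  rintro rfl
  have := h.e1
  have := h.e2
  omega

theorem Rl.trans {p q : ℕ → ℤ} {e e' e'' : ℕ} (h : Rl t σ O p e e') (h' : Rl t σ O q e' e'')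
    (he : e ∈ O) (he'' : e'' ∈ O) (hne : e ≠ e'') : Rl t σ O (fun d => p d + q d) e e'' where
  su := h.su.add h'.su
  an := fun d hd hO => by rw [h.an d hd hO, h'.an d hd hO]; ring
  e1 := by rw [h.e1, h'.z e he h.ne hne]; rfl
  e2 := by rw [h'.e2, h.z e'' he'' (Ne.symm hne) (Ne.symm h'.ne)]; rfl
  z := fun d hd h1 h2 => by
    by_cases h3 : d = e'
    · subst h3; rw [h.e2, h'.e1]; rfl
    · rw [h.z d hd h1 h3, h'.z d hd h3 h2]; rfl

/-- the path along a part of a face -/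
theorem path {x y : ℕ} {A : List ℕ} (h : List.IsChain (R t δ σ O) (x :: (A ++ [y])))
    (hm : ∀ d ∈ x :: (A ++ [y]), d ∈ O) (nd : (x :: (A ++ [y])).Nodup) :
    ∃ p, Rl t σ O p x y ∧ ∀ g, Fl t σ g → Om t δ p g = 2 * (g x + g y + 2 * (A.map g).sum) := by
  induction A generalizing x with
  | nil =>
    simp only [List.nil_append, List.isChain_cons_cons] at h
    obtain ⟨p, h1, h2⟩ := h.1
    exact ⟨p, h1, fun g hg => by rw [h2 g hg]; simp⟩
  | cons a A ih =>
    rw [List.cons_append, List.isChain_cons_cons] at h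
    obtain ⟨p, h1, h2⟩ := h.1
    obtain ⟨q, h3, h4⟩ := ih h.2 (fun d hd => hm d (List.mem_cons_of_mem _ hd)) (List.nodup_cons.1 nd).2
    refine ⟨fun d => p d + q d, h1.trans h3 (hm x (by simp)) (hm y (by simp)) ?_, fun g hg => ?_⟩
    · rintro rfl
      exact (List.nodup_cons.1 nd).1 (by simp)
    · rw [Om_add, h2 g hg, h4 g hg, List.map_cons, List.sum_cons]; ring

/-- flows from an open dart to its partner are flows -/
theorem full (hE : Env t δ σ) (hcl : ∀ d < 12 * t, d ∉ O → σ d ∉ O ∧ σ d ≠ d) {x y : ℕ}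
    (hx : x < 12 * t) (hxy : σ x = y) (hxO : x ∈ O) (hyO : y ∈ O)
    {p : ℕ → ℤ} (hp : Rl t σ O p x y) : Fl t σ p ∧ ∀ d < 12 * t, σ d = d → p d = 0 := by
  have hyx : σ y = x := by rw [← hxy]; exact (hE.lt x hx).2
  constructor
  · refine ⟨hp.su, fun d hd hne => ?_⟩
    by_cases hO : d ∈ O
    · by_cases e1 : d = x
      · rw [e1, hxy, hp.e1, hp.e2]
      · by_cases e2 : d = y
        · rw [e2, hyx, hp.e1, hp.e2]; rfl
        · have e3 : σ d ∈ O := by
            by_contra h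
            have := (hcl _ (hE.lt d hd).1 h).1
            rw [(hE.lt d hd).2] at this
            exact this hO
          have e4 : σ d ≠ x := fun h => e2 (by rw [← hxy, ← h, (hE.lt d hd).2])
          have e5 : σ d ≠ y := fun h => e1 (by rw [← hyx, ← h, (hE.lt d hd).2])
          rw [hp.z d hO e1 e2, hp.z _ e3 e4 e5]; rfl
    · exact hp.an d hd hO
  · intro d hd hl
    have hO : d ∈ O := by
      by_contra h
      exact (hcl d hd h).2 hl
    refine hp.z d hO ?_ ?_
    · rintro rfl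
      have := hp.ne
      rw [hl] at hxy
      exact this hxy
    · rintro rfl
      have := hp.ne
      rw [hl] at hyx
      exact this hyx.symm

/-- the sums over the two parts of a face are zero -/
theorem part_zero (hE : Env t δ σ) (hcl : ∀ d < 12 * t, d ∉ O → σ d ∉ O ∧ σ d ≠ d) {x y : ℕ}
    (hx : x < 12 * t) (hxy : σ x = y) {A : List ℕ}
    (h : List.IsChain (R t δ σ O) (x :: (A ++ [y])))
    (hm : ∀ d ∈ x :: (A ++ [y]), d ∈ O) (nd : (x :: (A ++ [y])).Nodup) :
    ∀ g, Fl t σ g → (A.map g).sum = 0 := by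
  obtain ⟨p, h1, h2⟩ := path h hm nd
  intro g hg
  obtain ⟨h3, h4⟩ := full hE hcl hx hxy (hm x (by simp)) (hm y (by simp)) h1
  have h5 := hE.pl p g h3 hg h4
  rw [h2 g hg] at h5
  have h6 := hg.2 x hx (by rw [hxy]; exact Ne.symm h1.ne)
  rw [hxy] at h6
  rw [h6] at h5
  omega

/-- relative flows remain relative flows if `x` is glued to `y` -/
theorem Rl.mono {x y : ℕ} (hxO : x ∈ O) (hyO : y ∈ O)
    (hxy : σ x = y) (hyx : σ y = x) {p : ℕ → ℤ} {e e' : ℕ}
    (h : Rl t σ O p e e') (h1 : x ≠ e) (h2 : x ≠ e') (h3 : y ≠ e) (h4 : y ≠ e') :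
    Rl t σ {d | d ∈ O ∧ d ≠ x ∧ d ≠ y} p e e' where
  su := h.su
  an := fun d hd hO => by
    by_cases e1 : d = x
    · rw [e1, hxy, h.z x hxO h1 h2, h.z y hyO h3 h4]; rfl
    · by_cases e2 : d = y
      · rw [e2, hyx, h.z x hxO h1 h2, h.z y hyO h3 h4]; rfl
      · exact h.an d hd fun h => hO ⟨h, e1, e2⟩
  e1 := h.e1
  e2 := h.e2
  z := fun d hd => h.z d hd.1

/-- gluing two relative flows -/
theorem Rl.glue {x y : ℕ} (hxO : x ∈ O) (hyO : y ∈ O)
    (hxy : σ x = y) (hyx : σ y = x) {p q : ℕ → ℤ} {z a : ℕ} (hz : z ∈ O)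
    (ha : a ∈ O) (hzx : z ≠ x) (hay : a ≠ y) (hza : z ≠ a) (h : Rl t σ O p z y)
    (h' : Rl t σ O q x a) (hne : x ≠ y) : Rl t σ {d | d ∈ O ∧ d ≠ x ∧ d ≠ y} (fun d => p d + q d) z a where
  su := h.su.add h'.su
  an := fun d hd hO => by
    have px : p x = 0 := h.z x hxO (Ne.symm hzx) hne
    have qy : q y = 0 := h'.z y hyO (Ne.symm hne) (Ne.symm hay)
    by_cases e1 : d = x
    · rw [e1, hxy, px, qy, h.e2, h'.e1]; rfl
    · by_cases e2 : d = y
      · rw [e2, hyx, px, qy, h.e2, h'.e1]; rfl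
      · have : d ∉ O := fun h => hO ⟨h, e1, e2⟩
        rw [h.an d hd this, h'.an d hd this]; ring
  e1 := by rw [h.e1, h'.z z hz hzx hza]; rfl
  e2 := by rw [h'.e2, h.z a ha (Ne.symm hza) hay]; rfl
  z := fun d hd h1 h2 => by
    rw [h.z d hd.1 h1 hd.2.2, h'.z d hd.1 hd.2.1 h2]; rfl

theorem R.glue (hE : Env t δ σ) (hcl : ∀ d < 12 * t, d ∉ O → σ d ∉ O ∧ σ d ≠ d)
    {x y : ℕ} (hx : x < 12 * t) (hxO : x ∈ O) (hyO : y ∈ O)
    (hxy : σ x = y) {z a : ℕ} (hz : z ∈ O)
    (ha : a ∈ O) (hzx : z ≠ x) (hay : a ≠ y) (hne : x ≠ y) (h : R t δ σ O z y)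
    (h' : R t δ σ O x a) : R t δ σ {d | d ∈ O ∧ d ≠ x ∧ d ≠ y} z a := by
  have hyx : σ y = x := by rw [← hxy]; exact (hE.lt x hx).2
  have hza : z ≠ a := by
    rintro rfl
    have := part_zero hE hcl hx hxy (A := [z])
      (by simp only [List.cons_append, List.nil_append, List.isChain_cons_cons]
          exact ⟨h', h, by simp⟩)
      (by intro d hd
          simp only [List.cons_append, List.nil_append, List.mem_cons, List.not_mem_nil, or_false] at hd
          rcases hd with rfl | rfl | rfl <;> assumption)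
      (by simp only [List.cons_append, List.nil_append, List.nodup_cons, List.mem_cons,
            List.not_mem_nil, or_false, not_or, not_false_eq_true, List.nodup_nil, and_true]
          exact ⟨⟨Ne.symm hzx, hne⟩, hay⟩) sgn hE.sg
    simp only [List.map_cons, List.map_nil, List.sum_cons, List.sum_nil, add_zero] at this
    exact sgn_ne _ this
  obtain ⟨p, h1, h2⟩ := h
  obtain ⟨q, h3, h4⟩ := h'
  refine ⟨_, Rl.glue hxO hyO hxy hyx hz ha hzx hay hza h1 h3 hne, fun g hg => ?_⟩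
  rw [Om_add, h2 g hg, h4 g hg]
  have h6 := hg.2 x hx (by rw [hxy]; exact Ne.symm hne)
  rw [hxy] at h6
  rw [h6]; ring

theorem chain_last {α : Type} {r r' : α → α → Prop} {l : List α} {y w : α}
    (h : List.IsChain r (l ++ [y])) (h1 : ∀ u ∈ l, ∀ v ∈ l, r u v → r' u v)
    (h2 : ∀ z ∈ l, r z y → r' z w) : List.IsChain r' (l ++ [w]) := by
  induction l with
  | nil => simp
  | cons u l ih =>
    rcases l with _ | ⟨v, l⟩
    · simp only [List.cons_append, List.nil_append, List.isChain_cons_cons] at h ⊢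
      exact ⟨h2 u (by simp) h.1, by simp⟩
    · rw [List.cons_append, List.cons_append, List.isChain_cons_cons] at h ⊢
      exact ⟨h1 u (by simp) v (by simp) h.1, ih h.2
        (fun a ha b hb => h1 a (List.mem_cons_of_mem _ ha) b (List.mem_cons_of_mem _ hb))
        (fun z hz => h2 z (List.mem_cons_of_mem _ hz))⟩

theorem chain_mono {α : Type} {r r' : α → α → Prop} {l : List α}
    (h : List.IsChain r l) (h1 : ∀ u ∈ l, ∀ v ∈ l, r u v → r' u v) : List.IsChain r' l := by
  induction l with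
  | nil => simp
  | cons u l ih =>
    rcases l with _ | ⟨v, l⟩
    · simp
    · rw [List.isChain_cons_cons] at h ⊢
      exact ⟨h1 u (by simp) v (by simp) h.1, ih h.2
        (fun a ha b hb => h1 a (List.mem_cons_of_mem _ ha) b (List.mem_cons_of_mem _ hb))⟩

theorem cyc_mono {r r' : ℕ → ℕ → Prop} {l : List ℕ}
    (h : Cycle.Chain r (l : Cycle ℕ)) (h1 : ∀ u ∈ l, ∀ v ∈ l, r u v → r' u v) :
    Cycle.Chain r' (l : Cycle ℕ) := by
  rcases l with _ | ⟨a, l⟩
  · simp
  · rw [Cycle.chain_coe_cons] at h ⊢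
    refine chain_mono h fun u hu v hv => h1 u ?_ v ?_
    · simp only [List.mem_cons, List.mem_append, List.not_mem_nil, or_false] at hu ⊢; tauto
    · simp only [List.mem_cons, List.mem_append, List.not_mem_nil, or_false] at hv ⊢; tauto

/-- the open darts -/
def Os (S : List (List (List ℕ))) : Set ℕ := {d | d ∈ S.flatten.flatten}

/-- the invariants -/
structure Snd (t δ : ℕ) (σ : ℕ → ℕ) (S : List (List (List ℕ))) : Prop where
  nd : S.flatten.flatten.Nodup
  lt : ∀ d ∈ S.flatten.flatten, d < 12 * t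
  cl : ∀ d < 12 * t, d ∉ Os S → σ d ∉ Os S ∧ σ d ≠ d
  fc : ∀ K ∈ S, ∀ F ∈ K, (∀ g, Fl t σ g → (F.map g).sum = 0) ∧
    Cycle.Chain (R t δ σ (Os S)) (F : Cycle ℕ)
  con : ∀ K ∈ S, ∀ e ∈ K.flatten, ∀ e' ∈ K.flatten, e ≠ e' → ∃ p, Rl t σ (Os S) p e e'

/-- the face with `x` is moved to the front -/
theorem Snd.front {S1 S2 : List (List (List ℕ))} {K1 K2 : List (List ℕ)} {p q : List ℕ} {x : ℕ}
    (h : Snd t δ σ (S1 ++ (K1 ++ (p ++ x :: q) :: K2) :: S2)) :
    Snd t δ σ (((x :: (q ++ p)) :: (K1 ++ K2)) :: (S1 ++ S2)) := by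
  have hF : (p ++ x :: q).Perm (x :: (q ++ p)) := by
    rw [← List.cons_append]
    exact List.perm_append_comm
  have hK : (K1 ++ (p ++ x :: q) :: K2).flatten.Perm ((x :: (q ++ p)) :: (K1 ++ K2)).flatten := by
    refine (List.Perm.flatten List.perm_middle).trans ?_
    rw [List.flatten_cons, List.flatten_cons]
    exact hF.append_right _
  have hS : (S1 ++ (K1 ++ (p ++ x :: q) :: K2) :: S2).flatten.flatten.Perm
      (((x :: (q ++ p)) :: (K1 ++ K2)) :: (S1 ++ S2)).flatten.flatten := by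
    refine (List.Perm.flatten (List.Perm.flatten List.perm_middle)).trans ?_
    have key : ∀ (K : List (List ℕ)) (L : List (List (List ℕ))),
        (K :: L).flatten.flatten = K.flatten ++ L.flatten.flatten := fun K L => by
      rw [List.flatten_cons, List.flatten_append]
    rw [key, key]
    exact hK.append_right _
  have hO : Os (((x :: (q ++ p)) :: (K1 ++ K2)) :: (S1 ++ S2)) =
      Os (S1 ++ (K1 ++ (p ++ x :: q) :: K2) :: S2) := by
    ext d; exact (hS.mem_iff).symm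
  have hcyc : ((x :: (q ++ p) : List ℕ) : Cycle ℕ) = ((p ++ x :: q : List ℕ) : Cycle ℕ) := by
    rw [Cycle.coe_eq_coe]
    exact List.isRotated_append (l := x :: q) (l' := p)
  refine ⟨hS.nodup_iff.1 h.nd, fun d hd => h.lt d (hS.mem_iff.2 hd), ?_, ?_, ?_⟩
  · rw [hO]; exact h.cl
  · rw [hO]
    intro K hK' F hF'
    rcases List.mem_cons.1 hK' with rfl | hK'
    · rcases List.mem_cons.1 hF' with rfl | hF'
      · have := h.fc (K1 ++ (p ++ x :: q) :: K2) (by simp) (p ++ x :: q) (by simp)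
        refine ⟨fun g hg => ?_, ?_⟩
        · rw [← this.1 g hg]
          exact ((hF.map g).sum_eq).symm
        · rw [hcyc]; exact this.2
      · refine h.fc (K1 ++ (p ++ x :: q) :: K2) (by simp) F ?_
        rcases List.mem_append.1 hF' with h | h <;> simp [h]
    · refine h.fc K ?_ F hF'
      rcases List.mem_append.1 hK' with h | h <;> simp [h]
  · rw [hO]
    intro K hK' e he e' he' hne
    rcases List.mem_cons.1 hK' with rfl | hK'
    · exact h.con (K1 ++ (p ++ x :: q) :: K2) (by simp) e (hK.mem_iff.2 he) e' (hK.mem_iff.2 he') hne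
    · refine h.con K ?_ e he e' he' hne
      rcases List.mem_append.1 hK' with h | h <;> simp [h]

end Pool.Agent.L0h30.TT
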