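import Pool.Agent.L0h30.TT.Glue

/-! The functions of the algorithm. -/

namespace Pool.Agent.L0h30.TT

theorem cutK_spec {x : ℕ} {l : List ℕ} {n : Bool} {k : List ℕ → List ℕ → Bool}
    (h : cutK x l n k = true) :
    (∃ p q, l = p ++ x :: q ∧ k p q = true) ∨ (x ∉ l ∧ n = true) := by
  induction l generalizing k with
  | nil => exact Or.inr ⟨by simp, h⟩
  | cons a l ih =>
    change (Bool.rec (cutK x l n (fun p q => k (a :: p) q)) (k [] l) (Nat.beq a x) : Bool) = true at h
    cases hb : Nat.beq a x with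
    | false =>
      rw [hb] at h
      have hne : a ≠ x := Nat.ne_of_beq_eq_false hb
      rcases ih h with ⟨p, q, h1, h2⟩ | ⟨h1, h2⟩
      · exact Or.inl ⟨a :: p, q, by rw [h1]; rfl, h2⟩
      · refine Or.inr ⟨?_, h2⟩
        rw [List.mem_cons, not_or]
        exact ⟨Ne.symm hne, h1⟩
    | true =>
      rw [hb] at h
      have := Nat.eq_of_beq_eq_true hb
      subst this
      exact Or.inl ⟨[], l, rfl, h⟩

theorem appK_eq {α : Type} (q p : List α) (k : List α → Bool) : appK q p k = k (q ++ p) := by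
  induction q generalizing k with
  | nil => rfl
  | cons a q ih =>
    change appK q p (fun r => k (a :: r)) = _
    rw [ih]; rfl

theorem cutC_spec {x : ℕ} {K : List (List ℕ)} {n : Bool} {k : List (List ℕ) → List ℕ → Bool}
    (h : cutC x K n k = true) :
    (∃ K1 p q K2, K = K1 ++ (p ++ x :: q) :: K2 ∧ k (K1 ++ K2) (q ++ p) = true) ∨
      ((∀ F ∈ K, x ∉ F) ∧ n = true) := by
  induction K generalizing k with
  | nil => exact Or.inr ⟨by simp, h⟩
  | cons F K ih =>
    change cutK x F (cutC x K n (fun K' A => k (F :: K') A)) (fun p q => appK q p (fun A => k K A)) =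
      true at h
    rcases cutK_spec h with ⟨p, q, h1, h2⟩ | ⟨h1, h2⟩
    · rw [appK_eq] at h2
      exact Or.inl ⟨[], p, q, K, by rw [h1]; rfl, h2⟩
    · rcases ih h2 with ⟨K1, p, q, K2, h3, h4⟩ | ⟨h3, h4⟩
      · exact Or.inl ⟨F :: K1, p, q, K2, by rw [h3]; rfl, h4⟩
      · refine Or.inr ⟨fun G hG => ?_, h4⟩
        rcases List.mem_cons.1 hG with rfl | hG
        · exact h1
        · exact h3 G hG

theorem cutS_spec {x : ℕ} {S : List (List (List ℕ))} {n : Bool}
    {k : List (List (List ℕ)) → List (List ℕ) → List ℕ → Bool} (h : cutS x S n k = true) :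
    (∃ S1 K1 p q K2 S2, S = S1 ++ (K1 ++ (p ++ x :: q) :: K2) :: S2 ∧
      k (S1 ++ S2) (K1 ++ K2) (q ++ p) = true) ∨ ((∀ K ∈ S, ∀ F ∈ K, x ∉ F) ∧ n = true) := by
  induction S generalizing k with
  | nil => exact Or.inr ⟨by simp, h⟩
  | cons K S ih =>
    change cutC x K (cutS x S n (fun S' K' A => k (K :: S') K' A)) (fun K' A => k S K' A) = true at h
    rcases cutC_spec h with ⟨K1, p, q, K2, h1, h2⟩ | ⟨h1, h2⟩
    · exact Or.inl ⟨[], K1, p, q, K2, S, by rw [h1]; rfl, h2⟩
    · rcases ih h2 with ⟨S1, K1, p, q, K2, S2, h3, h4⟩ | ⟨h3, h4⟩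
      · exact Or.inl ⟨K :: S1, K1, p, q, K2, S2, by rw [h3]; rfl, h4⟩
      · refine Or.inr ⟨fun G hG => ?_, h4⟩
        rcases List.mem_cons.1 hG with rfl | hG
        · exact h1
        · exact h3 G hG

theorem hl_true {F : List ℕ} (h : hl F = true) : ∃ a ∈ F, 64 ≤ a := by
  induction F with
  | nil => exact absurd h (by decide)
  | cons a F ih =>
    change (Bool.rec (hl F) true (Nat.ble 64 a) : Bool) = true at h
    cases hb : Nat.ble 64 a with
    | false =>
      rw [hb] at h
      obtain ⟨b, h1, h2⟩ := ih h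
      exact ⟨b, by simp [h1], h2⟩
    | true => exact ⟨a, by simp, Nat.le_of_ble_eq_true hb⟩

theorem hl_false {F : List ℕ} (h : hl F = false) : ∀ a ∈ F, ¬64 ≤ a := by
  induction F with
  | nil => simp
  | cons a F ih =>
    change (Bool.rec (hl F) true (Nat.ble 64 a) : Bool) = false at h
    cases hb : Nat.ble 64 a with
    | false =>
      rw [hb] at h
      intro b hb'
      rcases List.mem_cons.1 hb' with rfl | hb'
      · intro hle
        rw [Nat.ble_eq_true_of_le hle] at hb
        exact absurd hb (by simp)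
      · exact ih h b hb'
    | true => rw [hb] at h; exact absurd h (by simp)

theorem anyl_true {K : List (List ℕ)} (h : anyl K = true) : ∃ F ∈ K, hl F = true := by
  induction K with
  | nil => exact absurd h (by decide)
  | cons F K ih =>
    change (Bool.rec (anyl K) true (hl F) : Bool) = true at h
    cases hb : hl F with
    | false =>
      rw [hb] at h
      obtain ⟨b, h1, h2⟩ := ih h
      exact ⟨b, by simp [h1], h2⟩
    | true => exact ⟨F, by simp, hb⟩

theorem anyl_false {K : List (List ℕ)} (h : anyl K = false) : ∀ F ∈ K, hl F = false := by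
  induction K with
  | nil => simp
  | cons F K ih =>
    change (Bool.rec (anyl K) true (hl F) : Bool) = false at h
    cases hb : hl F with
    | false =>
      rw [hb] at h
      intro b hb'
      rcases List.mem_cons.1 hb' with rfl | hb'
      · exact hb
      · exact ih h b hb'
    | true => rw [hb] at h; exact absurd h (by simp)

theorem nl1_false {K : List (List ℕ)} (h : nl1 K = false) :
    ∃ K1 F K2, K = K1 ++ F :: K2 ∧ hl F = true ∧ anyl K2 = true := by
  induction K with
  | nil => exact absurd h (by decide)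
  | cons F K ih =>
    change (Bool.rec (nl1 K) (Bool.rec true false (anyl K)) (hl F) : Bool) = false at h
    cases hb : hl F with
    | false =>
      rw [hb] at h
      obtain ⟨K1, G, K2, h1, h2, h3⟩ := ih h
      exact ⟨F :: K1, G, K2, by rw [h1]; rfl, h2, h3⟩
    | true =>
      rw [hb] at h
      cases hc : anyl K with
      | false => rw [hc] at h; exact absurd h (by simp)
      | true => exact ⟨[], F, K, rfl, hb, hc⟩

theorem pos_mod (a : ℕ) : pos (a % 64) = pos a := by
  unfold pos
  change Nat.beq ((3219 / 2 ^ ((a % 64 % 64) % 12)) % 2) 1 = Nat.beq ((3219 / 2 ^ ((a % 64) % 12)) % 2) 1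
  rw [Nat.mod_mod]

theorem sgn_mod (a : ℕ) : sgn (a % 64) = sgn a := by
  unfold sgn; rw [pos_mod]

theorem bal_iff (F : List ℕ) (p q : ℕ) :
    bal F p q = true ↔ (p : ℤ) - q + ((F.map (· % 64)).map sgn).sum = 0 := by
  induction F generalizing p q with
  | nil =>
    change Nat.beq p q = true ↔ _
    rw [Nat.beq_eq]
    simp only [List.map_nil, List.sum_nil, add_zero]
    omega
  | cons a F ih =>
    change (Bool.rec (bal F p (Nat.succ q)) (bal F (Nat.succ p) q) (pos a) : Bool) = true ↔ _
    rw [List.map_cons, List.map_cons, List.sum_cons, sgn_mod]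
    cases hb : pos a with
    | false =>
      have : sgn a = -1 := by unfold sgn; rw [hb]; rfl
      rw [this]
      change bal F p (Nat.succ q) = true ↔ _
      rw [ih]
      push_cast
      constructor <;> intro h <;> linarith
    | true =>
      have : sgn a = 1 := by unfold sgn; rw [hb]; rfl
      rw [this]
      change bal F (Nat.succ p) q = true ↔ _
      rw [ih]
      push_cast
      constructor <;> intro h <;> linarith

/-- drops an empty face -/
def con' (A : List ℕ) (K : List (List ℕ)) : List (List ℕ) := if A = [] then K else A :: K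

theorem consK_eq (A : List ℕ) (K : List (List ℕ)) (k : List (List ℕ) → Bool) :
    consK A K k = k (con' A K) := by
  rcases A with _ | ⟨a, A⟩
  · rfl
  · change k ((a :: A) :: K) = _
    rw [con', if_neg (by simp)]

theorem split2_eq (A1 A2 : List ℕ) (K : List (List ℕ)) (S' : List (List (List ℕ)))
    (k : List (List (List ℕ)) → Bool) :
    split2 A1 A2 K S' k = k (con' A1 (con' A2 K) :: S') := by
  unfold split2
  rw [consK_eq, consK_eq]

theorem merge2_eq (A B : List ℕ) (K K' : List (List ℕ)) (S'' : List (List (List ℕ))) (n : Bool)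
    (k : List (List (List ℕ)) → Bool) : merge2 A B K K' S'' n k =
      Bool.rec n (k (((A ++ B) :: (K ++ K')) :: S'')) (nl1 ((A ++ B) :: (K ++ K'))) := by
  unfold merge2
  rw [appK_eq, appK_eq]

theorem frc_eq {α : Type} (v : ℕ) (k : ℕ → α) : frc v k = k v := rfl

theorem split2_L {A1 A2 : List ℕ} {K : List (List ℕ)} {S' : List (List (List ℕ))}
    {k : List (List (List ℕ)) → Bool} (h : split2 A1 A2 K S' k = true) : ∃ S, k S = true := by
  rw [split2_eq] at h
  exact ⟨_, h⟩

theorem join2_L {y : ℕ} {S' : List (List (List ℕ))} {K : List (List ℕ)} {A : List ℕ} {n : Bool}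
    {k : List (List (List ℕ)) → Bool} (h : join2 y S' K A n k = true) :
    n = true ∨ ∃ S, k S = true := by
  unfold join2 at h
  rcases cutK_spec h with ⟨A1, A2, h1, h2⟩ | ⟨h1, h2⟩
  · cases hb : bal A1 0 0 with
    | false => rw [hb] at h2; exact Or.inl h2
    | true =>
      rw [hb] at h2
      cases hc : hl A1 with
      | false => rw [hc] at h2; exact Or.inr (split2_L h2)
      | true =>
        rw [hc] at h2
        cases hd : hl A2 with
        | false => rw [hd] at h2; exact Or.inr (split2_L h2)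
        | true => rw [hd] at h2; exact Or.inl h2
  · rcases cutS_spec h2 with ⟨S1, K1, p, q, K2, S2, h3, h4⟩ | ⟨h3, h4⟩
    · rw [merge2_eq] at h4
      cases hb : nl1 ((A ++ (q ++ p)) :: (K ++ (K1 ++ K2))) with
      | false => rw [hb] at h4; exact Or.inl h4
      | true => rw [hb] at h4; exact Or.inr ⟨_, h4⟩
    · exact Or.inl h4

theorem join_L {x y : ℕ} {S : List (List (List ℕ))} {n : Bool}
    {k : List (List (List ℕ)) → Bool} (h : join x y S n k = true) :
    n = true ∨ ∃ S, k S = true := by
  unfold join at h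
  rcases cutS_spec h with ⟨S1, K1, p, q, K2, S2, h3, h4⟩ | ⟨h3, h4⟩
  · exact join2_L h4
  · exact Or.inl h4

theorem mark_L {x : ℕ} {S : List (List (List ℕ))} {n : Bool}
    {k : List (List (List ℕ)) → Bool} (h : mark x S n k = true) :
    n = true ∨ ∃ S, k S = true := by
  unfold mark at h
  rcases cutS_spec h with ⟨S1, K1, p, q, K2, S2, h3, h4⟩ | ⟨h3, h4⟩
  · cases hb : anyl (K1 ++ K2) with
    | false => rw [hb] at h4; exact Or.inr ⟨_, h4⟩
    | true => rw [hb] at h4; exact Or.inl h4
  · exact Or.inl h4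

theorem partner_L {δ m N o : ℕ} {S' : List (List (List ℕ))} {K : List (List ℕ)} {A : List ℕ}
    {n : Bool} {k : ℕ → List (List (List ℕ)) → Bool} (h : partner δ m N o S' K A n k = true) :
    n = true ∨ ∃ m S, k m S = true := by
  unfold partner at h
  simp only [frc_eq] at h
  rcases join2_L h with h | ⟨S, h⟩
  · exact Or.inl h
  rcases join_L h with h | ⟨S', h⟩
  · exact Or.inl h
  cases hb : big2 δ m N o with
  | false => rw [hb] at h; exact Or.inr ⟨_, _, h⟩
  | true => rw [hb] at h; exact Or.inl h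

/-- marked states -/
def cln (S : List (List (List ℕ))) : List (List (List ℕ)) := S.map (List.map (List.map (· % 64)))

variable {t δ : ℕ} {σ : ℕ → ℕ}

/-- the invariants of marked states -/
structure Sta (t δ : ℕ) (σ : ℕ → ℕ) (S : List (List (List ℕ))) : Prop where
  snd : Snd t δ σ (cln S)
  ent : ∀ a ∈ S.flatten.flatten, a < 36 ∨ (64 ≤ a ∧ a < 100 ∧ σ (a - 64) = a - 64)

theorem cln_flat (S : List (List (List ℕ))) :
    (cln S).flatten.flatten = S.flatten.flatten.map (· % 64) := by
  unfold cln
  rw [List.map_flatten, List.map_flatten]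

/-- flows between two leaves -/
theorem full_leaf {O : Set ℕ} (hE : Env t δ σ) (hcl : ∀ d < 12 * t, d ∉ O → σ d ∉ O ∧ σ d ≠ d)
    {x y : ℕ} (hx : σ x = x) (hy : σ y = y) {p : ℕ → ℤ} (hp : Rl t σ O p x y) : Fl t σ p := by
  refine ⟨hp.su, fun d hd hne => ?_⟩
  by_cases hO : d ∈ O
  · have e1 : d ≠ x := fun e => hne (by rw [e, hx])
    have e2 : d ≠ y := fun e => hne (by rw [e, hy])
    have e3 : σ d ∈ O := by
      by_contra h
      have := (hcl _ (hE.lt d hd).1 h).1
      rw [(hE.lt d hd).2] at this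
      exact this hO
    have e4 : σ d ≠ x := fun h => hne (by rw [h]; have := (hE.lt d hd).2; rw [h, hx] at this; exact this)
    have e5 : σ d ≠ y := fun h => hne (by rw [h]; have := (hE.lt d hd).2; rw [h, hy] at this; exact this)
    rw [hp.z d hO e1 e2, hp.z _ e3 e4 e5]; rfl
  · exact hp.an d hd hO

theorem leaf_entry {S : List (List (List ℕ))} (h : ∀ a ∈ S.flatten.flatten,
    a < 36 ∨ (64 ≤ a ∧ a < 100 ∧ σ (a - 64) = a - 64)) {a : ℕ} (ha : a ∈ S.flatten.flatten)
    (h64 : 64 ≤ a) : σ (a % 64) = a % 64 := by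
  rcases h a ha with h1 | ⟨h1, h2, h3⟩
  · omega
  · have : a % 64 = a - 64 := by omega
    rw [this]; exact h3

theorem cln_cons (K : List (List ℕ)) (S : List (List (List ℕ))) :
    cln (K :: S) = K.map (List.map (· % 64)) :: cln S := rfl

theorem cln_append (S S' : List (List (List ℕ))) : cln (S ++ S') = cln S ++ cln S' := by
  simp [cln]

/-- two faces of a component with leaves -/
theorem two_leaf (hE : Env t δ σ) {S1 S2 : List (List (List ℕ))} {K1 K2 : List (List ℕ)}
    {F : List ℕ} (h : Snd t δ σ (cln (S1 ++ (K1 ++ F :: K2) :: S2)))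
    (he : ∀ a ∈ (S1 ++ (K1 ++ F :: K2) :: S2).flatten.flatten,
      a < 36 ∨ (64 ≤ a ∧ a < 100 ∧ σ (a - 64) = a - 64))
    (h1 : hl F = true) (h2 : anyl (K1 ++ K2) = true) : False := by
  obtain ⟨a, ha, ha'⟩ := hl_true h1
  obtain ⟨G, hG, hG'⟩ := anyl_true h2
  obtain ⟨b, hb, hb'⟩ := hl_true hG'
  have e : cln (S1 ++ (K1 ++ F :: K2) :: S2) = cln S1 ++ (K1.map (List.map (· % 64)) ++
      F.map (· % 64) :: K2.map (List.map (· % 64))) :: cln S2 := by
    simp [cln]
  rw [e] at h
  have ha2 : a ∈ (S1 ++ (K1 ++ F :: K2) :: S2).flatten.flatten :=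
    List.mem_flatten.2 ⟨F, List.mem_flatten.2 ⟨K1 ++ F :: K2, by simp, by simp⟩, ha⟩
  have hb2 : b ∈ (S1 ++ (K1 ++ F :: K2) :: S2).flatten.flatten :=
    List.mem_flatten.2 ⟨G, List.mem_flatten.2 ⟨K1 ++ F :: K2, by simp, by
      rcases List.mem_append.1 hG with h | h <;> simp [h]⟩, hb⟩
  refine h.two_faces (x := a % 64) (y := b % 64) (List.mem_map_of_mem ha) ?_ fun p hp =>
    full_leaf hE h.cl (leaf_entry he ha2 ha') (leaf_entry he hb2 hb') hp
  rw [← List.map_append]
  exact List.mem_flatten.2 ⟨G.map (· % 64), List.mem_map_of_mem hG, List.mem_map_of_mem hb⟩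

end Pool.Agent.L0h30.TT
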