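import Pool.Agent.L0h30.TT.Iso

/-! The symmetries. -/

namespace Pool.Agent.L0h30.TT

/-- the conditions on an isomorphism, in decidable form -/
def IsoB (t δ δ' : ℕ) (ι π κ : ℕ → ℕ) (ε : Bool) : Prop :=
  (∀ d < 12 * t, ι d < 12 * t ∧ ι (ι d) = d ∧ nm (ι d) = π (nm d) ∧ ι d / 4 = κ (d / 4) ∧
    (ι d / 4 % 3 = 1 ↔ d / 4 % 3 = 1)) ∧
  (∀ N < 6 * t, π N < 6 * t ∧ π (π N) = N ∧ (π N + N) % 2 = π 0 % 2 ∧
    (letter (π N) = 1 ↔ letter N = 1)) ∧
  ((∀ N < 6 * t, ι (ov N) = ov (π N) ∧ ι (un N) = un (π N)) ∨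
    (∀ N < 6 * t, ι (ov N) = un (π N) ∧ ι (un N) = ov (π N))) ∧
  (∀ N < 6 * t, ∀ M < 6 * t, (letter (π N) = letter (π M) ↔ letter N = letter M) ∧
    okp (π N) (π M) = okp N M) ∧
  (∀ q < 3 * t, κ q < 3 * t) ∧
  (∀ d < 12 * t, nx δ' (ι d) = if ε then ι (pv δ d) else ι (nx δ d)) ∧
  (∀ d < 12 * t, pv δ' (ι d) = if ε then ι (nx δ d) else ι (pv δ d))

instance (t δ δ' : ℕ) (ι π κ : ℕ → ℕ) (ε : Bool) : Decidable (IsoB t δ δ' ι π κ ε) := by
  unfold IsoB; infer_instance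

theorem IsoB.iso {t δ δ' : ℕ} {ι π κ : ℕ → ℕ} {ε : Bool} (h : IsoB t δ δ' ι π κ ε) :
    Iso t δ δ' ι π κ ε := by
  obtain ⟨h1, h2, h3, h4, h5, h6, h7⟩ := h
  exact ⟨h1, h2, h3, h4, h5, h6, h7⟩

/-- reversing all circles -/
theorem sym1 : ∀ t < 4, ∀ δ < 2 ^ t, IsoB t δ (2 ^ t - 1 - δ) (fun d => d) (fun N => N)
    (fun q => q) true := by decide +kernel

/-- the mirror image in the horizontal plane -/
def i2 (d : ℕ) : ℕ := 12 * (d / 12) + [9, 8, 11, 10, 5, 4, 7, 6, 1, 0, 3, 2].getD (d % 12) 0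
def p2 (N : ℕ) : ℕ := 6 * (N / 6) + [4, 5, 2, 3, 0, 1].getD (N % 6) 0
def k2 (q : ℕ) : ℕ := 3 * (q / 3) + (2 - q % 3)

theorem sym2 : ∀ t < 4, ∀ δ < 2 ^ t, IsoB t δ (2 ^ t - 1 - δ) i2 p2 k2 false := by decide +kernel

/-- exchanging the two crossings of each double curve at each triple point -/
def i4 (d : ℕ) : ℕ := 4 * (d / 4) + (d + 2) % 4
def p4 (N : ℕ) : ℕ := 2 * (N / 2) + (N + 1) % 2

theorem sym4 : ∀ t < 4, ∀ δ < 2 ^ t, IsoB t δ δ i4 p4 (fun q => q) false := by decide +kernel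

/-- exchanging two triple points -/
def sw (a b i : ℕ) : ℕ := if i = a then b else if i = b then a else i
def i3 (a b d : ℕ) : ℕ := 12 * sw a b (d / 12) + d % 12
def p3 (a b N : ℕ) : ℕ := 6 * sw a b (N / 6) + N % 6
def k3 (a b q : ℕ) : ℕ := 3 * sw a b (q / 3) + q % 3
def sb (a b δ : ℕ) : ℕ :=
  (δ / 2 ^ sw a b 0) % 2 + 2 * ((δ / 2 ^ sw a b 1) % 2) + 4 * ((δ / 2 ^ sw a b 2) % 2)

theorem sym3 : ∀ t < 4, ∀ δ < 2 ^ t, ∀ j < t, IsoB t δ (sb 0 j δ) (i3 0 j) (p3 0 j) (k3 0 j) false ∧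
    sb 0 j δ < 2 ^ t := by decide +kernel

theorem sym5 : ∀ δ < 8, IsoB 3 δ (sb 1 2 δ) (i3 1 2) (p3 1 2) (k3 1 2) false := by
  decide +kernel

/-- does the dart belong to a middle sheet? -/
def mi (x : ℕ) : Bool := Nat.beq (x / 4 % 3) 1

/-- the reduction to standard positions -/
theorem ok_all {t : ℕ} (ht : t < 4)
    (h : ∀ δ < 2 ^ t, δ % 2 = 1 → ∀ x ∈ [0, 1, 4, 5], Ok (mi x) t δ x) :
    ∀ δ < 2 ^ t, ∀ x < 12 * t, Ok (mi x) t δ x := by
  have h1 : ∀ δ < 2 ^ t, t ≠ 0 → ∀ x ∈ [0, 1, 4, 5], Ok (mi x) t δ x := by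
    intro δ hδ h0 x hx
    by_cases hp : δ % 2 = 1
    · exact h δ hδ hp x hx
    · have hev : 2 ^ t % 2 = 0 := by
        obtain ⟨s, rfl⟩ := Nat.exists_eq_succ_of_ne_zero h0
        rw [Nat.pow_succ]; omega
      refine Ok.iso ?_ (sym1 t ht δ hδ).iso (h _ (by omega) (by omega) x hx)
      simp only [List.mem_cons, List.not_mem_nil, or_false] at hx
      omega
  have h2 : ∀ δ < 2 ^ t, t ≠ 0 → ∀ x < 8, Ok (mi x) t δ x := by
    intro δ hδ h0 x hx
    have key : ∀ y, x = y + 2 → y ∈ [0, 1, 4, 5] → i4 x = y → mi x = mi y → Ok (mi x) t δ x := by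
      intro y _ h4 h5 h6
      refine Ok.iso (by omega) (sym4 t ht δ hδ).iso ?_
      rw [h5, h6]
      exact h1 δ hδ h0 y h4
    interval_cases x
    · exact h1 δ hδ h0 0 (by simp)
    · exact h1 δ hδ h0 1 (by simp)
    · exact key 0 rfl (by simp) rfl rfl
    · exact key 1 rfl (by simp) rfl rfl
    · exact h1 δ hδ h0 4 (by simp)
    · exact h1 δ hδ h0 5 (by simp)
    · exact key 4 rfl (by simp) rfl rfl
    · exact key 5 rfl (by simp) rfl rfl
  have h3 : ∀ δ < 2 ^ t, t ≠ 0 → ∀ x < 12, Ok (mi x) t δ x := by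
    intro δ hδ h0 x hx
    by_cases h8 : x < 8
    · exact h2 δ hδ h0 x h8
    · have key : ∀ y, y < 8 → i2 x = y → mi x = mi y → Ok (mi x) t δ x := by
        intro y h4 h5 h6
        refine Ok.iso (by omega) (sym2 t ht δ hδ).iso ?_
        rw [h5, h6]
        exact h2 _ (by omega) h0 y h4
      obtain rfl | rfl | rfl | rfl : x = 8 ∨ x = 9 ∨ x = 10 ∨ x = 11 := by omega
      · exact key 1 (by norm_num) rfl rfl
      · exact key 0 (by norm_num) rfl rfl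
      · exact key 3 (by norm_num) rfl rfl
      · exact key 2 (by norm_num) rfl rfl
  intro δ hδ x hx
  have h0 : t ≠ 0 := by omega
  obtain ⟨I, hs⟩ := sym3 t ht δ hδ (x / 12) (by omega)
  have e1 : i3 0 (x / 12) x = x % 12 := by
    unfold i3 sw
    by_cases hz : x / 12 = 0
    · rw [hz, if_pos rfl]; omega
    · rw [if_neg hz, if_pos rfl]; omega
  have e2 : mi x = mi (x % 12) := by
    unfold mi
    congr 1
    omega
  refine Ok.iso hx I.iso ?_
  rw [e1, e2]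
  exact h3 _ hs h0 _ (Nat.mod_lt _ (by norm_num))

/-- the root of the search may be assumed to have a partner near it -/
theorem ok_swap {δ : ℕ} (hδ : δ < 8) (hs : sb 1 2 δ = δ) {md : Bool} {x : ℕ} (hx12 : x < 12)
    {N : ℕ} {c : List ℕ} (hk : check md δ 18 12 x (ini 3 δ) (N :: c) = true) (hN : N < 6) :
    Ok md 3 δ x := by
  intro μ h hl hx
  by_cases hT : μ N ≠ 98 → μ N ≠ N → μ N < 12
  · exact search h hx (by omega) hl hT hk
  · push Not at hT
    obtain ⟨h1, h2, h3⟩ := hT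
    have h18 : μ N < 18 := (h.lt N (by omega)).resolve_left h1
    have I := (sym5 δ hδ).iso
    rw [hs] at I
    have e1 : i3 1 2 x = x := by
      unfold i3 sw
      have : x / 12 = 0 := by omega
      rw [this]; simp; omega
    have e2 : p3 1 2 N = N := by
      unfold p3 sw
      have : N / 6 = 0 := by omega
      rw [this]; simp; omega
    have e3 : tm (p3 1 2) μ N = p3 1 2 (μ N) := by
      unfold tm; rw [e2, if_neg h1]
    have e4 : p3 1 2 (μ N) < 12 := by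
      unfold p3 sw
      have : μ N / 6 = 2 := by omega
      rw [this]; simp; omega
    have h4 := I.bas_tm h (by omega) hl hx
    have h5 := (I.leaf_tm h (by omega : x < 12 * 3)).2 hl
    rw [e1] at h4 h5
    exact I.goal_tm h (search (I.cl_tm h) h4 (by omega) h5 (fun _ _ => by rw [e3]; exact e4) hk)

/-- the conclusion -/
theorem goal_of_ok {t δ : ℕ} {μ : ℕ → ℕ} (h : Cl t δ μ) (hok : ∀ x < 12 * t, Ok (mi x) t δ x) :
    Goal t δ (sig μ) := by
  by_contra hG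
  obtain ⟨x, hx, hl, h2⟩ : ∃ x < 12 * t, sig μ x = x ∧ ¬Two t δ (sig μ) x := by
    by_contra hcon
    push Not at hcon
    exact hG (goal_of_two fun x hx hl => hcon x hx hl)
  by_cases hc : ∃ y < 12 * t, sig μ y = y ∧ Sm t (sig μ) x y ∧ mi y = false
  · obtain ⟨y, hy, ly, hxy, hm⟩ := hc
    apply hG
    refine hok y hy μ h ly ⟨?_, ?_⟩
    · rintro ⟨a, b, hab, ha, hb, s1, s2⟩
      exact h2 ⟨a, b, hab, ha, hb, hxy.trans hx ha.1 hl ha.2.1 s1, hxy.trans hx hb.1 hl hb.2.1 s2⟩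
    · rw [hm]; intro h; exact absurd h (by simp)
  · push Not at hc
    apply hG
    refine hok x hx μ h hl ⟨h2, fun _ a ha la hs => ?_⟩
    have := hc a ha la hs
    have h3 : mi a = true := by simpa using this
    exact Nat.eq_of_beq_eq_true h3

end Pool.Agent.L0h30.TT
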