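import Pool.Agent.L0h30.TT.Exec

/-! Soundness of the tests at the end of a branch. -/

namespace Pool.Agent.L0h30.TT

variable {t δ : ℕ} {σ : ℕ → ℕ}

theorem cont_true {x : ℕ} {F : List ℕ} (h : cont x F = true) : x ∈ F := by
  induction F with
  | nil => exact absurd h Bool.false_ne_true
  | cons a F ih =>
    change (Bool.rec (cont x F) true (Nat.beq a x) : Bool) = true at h
    cases hb : Nat.beq a x with
    | false => rw [hb] at h; exact List.mem_cons_of_mem _ (ih h)
    | true => rw [← Nat.eq_of_beq_eq_true hb]; simp

theorem contC_true {x : ℕ} {K : List (List ℕ)} (h : contC x K = true) : x ∈ K.flatten := by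
  induction K with
  | nil => exact absurd h Bool.false_ne_true
  | cons F K ih =>
    change (Bool.rec (contC x K) true (cont x F) : Bool) = true at h
    rw [List.flatten_cons]
    cases hb : cont x F with
    | false => rw [hb] at h; exact List.mem_append_right _ (ih h)
    | true => exact List.mem_append_left _ (cont_true hb)

theorem cor_true {F : List ℕ} {a : ℕ} (h : cor δ F a = true) : 64 ≤ a ∧ nx δ (a - 64) + 64 ∈ F := by
  unfold cor at h
  cases hb : Nat.ble 64 a with
  | false => rw [hb] at h; exact absurd h (by simp)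
  | true =>
    rw [hb] at h
    exact ⟨Nat.le_of_ble_eq_true hb, cont_true h⟩

theorem jn_eq (F G : List ℕ) (b : ℕ) : jn δ F G b = b + (G.filter fun a => cor δ F a).length := by
  induction G generalizing b with
  | nil => rfl
  | cons a G ih =>
    change (Bool.rec (jn δ F G b) (jn δ F G (Nat.succ b)) (cor δ F a) : ℕ) = _
    cases hb : cor δ F a with
    | false => rw [List.filter_cons_of_neg (by simp [hb])]; exact ih b
    | true =>
      rw [List.filter_cons_of_pos (by simp [hb]), List.length_cons]
      have := ih (Nat.succ b)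
      change jn δ F G (Nat.succ b) = _
      omega

/-- the corners of a component -/
def cs (δ : ℕ) (K : List (List ℕ)) : List ℕ := K.flatMap fun F => F.filter fun a => cor δ F a

theorem jC_eq (K : List (List ℕ)) (b : ℕ) : jC δ K b = b + (cs δ K).length := by
  induction K generalizing b with
  | nil => rfl
  | cons F K ih =>
    change (Bool.rec (jC δ K b) (jC δ K (jn δ F F b)) (hl F) : ℕ) = _
    unfold cs at ih ⊢
    rw [List.flatMap_cons, List.length_append]
    cases hb : hl F with
    | false =>
      have : (F.filter fun a => cor δ F a) = [] := by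
        rw [List.filter_eq_nil_iff]
        intro a ha hc
        exact hl_false hb a ha (cor_true hc).1
      rw [this]
      change jC δ K b = _
      rw [ih]; simp
    | true =>
      change jC δ K (jn δ F F b) = _
      rw [ih, jn_eq]; omega

theorem cs_sublist (K : List (List ℕ)) : (cs δ K).Sublist K.flatten := by
  unfold cs
  induction K with
  | nil => simp
  | cons F K ih =>
    rw [List.flatMap_cons, List.flatten_cons]
    exact List.Sublist.append List.filter_sublist ih

theorem mem_cs {K : List (List ℕ)} {a : ℕ} (h : a ∈ cs δ K) :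
    a ∈ K.flatten ∧ 64 ≤ a ∧ nx δ (a - 64) + 64 ∈ K.flatten := by
  unfold cs at h
  obtain ⟨F, hF, ha⟩ := List.mem_flatMap.1 h
  rw [List.mem_filter] at ha
  obtain ⟨h1, h2⟩ := cor_true ha.2
  exact ⟨List.mem_flatten.2 ⟨F, hF, ha.1⟩, h1, List.mem_flatten.2 ⟨F, hF, h2⟩⟩

theorem mem_en {S : List (List (List ℕ))} {K : List (List ℕ)} (hK : K ∈ S) {a : ℕ}
    (h : a ∈ K.flatten) : a ∈ en S := by
  obtain ⟨F, hF, ha⟩ := List.mem_flatten.1 h
  exact List.mem_flatten.2 ⟨F, List.mem_flatten.2 ⟨K, hK, hF⟩, ha⟩

/-- leaves in one component -/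
theorem sm_comp (hE : Env t δ σ) {S : List (List (List ℕ))} (h : Sta t δ σ S)
    {K : List (List ℕ)} (hK : K ∈ S) {a b : ℕ} (ha : a ∈ K.flatten) (hb : b ∈ K.flatten)
    (ha' : 64 ≤ a) (hb' : 64 ≤ b) : Sm t σ (a - 64) (b - 64) := by
  by_cases hab : a = b
  · left; rw [hab]
  · right
    have la := leaf_entry h.ent (mem_en hK ha) ha'
    have lb := leaf_entry h.ent (mem_en hK hb) hb'
    have ea : a % 64 = a - 64 := by
      rcases h.ent a (mem_en hK ha) with h1 | ⟨h1, h2, h3⟩ <;> omega
    have eb : b % 64 = b - 64 := by
      rcases h.ent b (mem_en hK hb) with h1 | ⟨h1, h2, h3⟩ <;> omega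
    have hmap : K.map (List.map (· % 64)) ∈ cln S := List.mem_map_of_mem hK
    have hm : ∀ c ∈ K.flatten, c % 64 ∈ (K.map (List.map (· % 64))).flatten := by
      intro c hc
      obtain ⟨F, hF, hcF⟩ := List.mem_flatten.1 hc
      exact List.mem_flatten.2 ⟨_, List.mem_map_of_mem hF, List.mem_map_of_mem hcF⟩
    obtain ⟨p, hp⟩ := h.snd.con _ hmap _ (hm a ha) _ (hm b hb) (by rw [ea, eb]; omega)
    rw [← ea, ← eb]
    refine ⟨p, full_leaf hE h.snd.cl la lb hp, hp.e1, hp.e2, fun d hd hl h1 h2 => hp.z d ?_ h1 h2⟩
    by_contra hO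
    exact (h.snd.cl d hd hO).2 hl

theorem leaf_of {S : List (List (List ℕ))} (h : Sta t δ σ S) {a : ℕ} (ha : a ∈ en S)
    (ha' : 64 ≤ a) : a - 64 < 12 * t ∧ σ (a - 64) = a - 64 := by
  rcases h.ent a ha with h1 | ⟨h1, h2, h3⟩
  · omega
  · refine ⟨?_, h3⟩
    have e : a % 64 = a - 64 := by omega
    rw [← e]
    refine h.snd.lt _ ?_
    rw [cln_flat]
    exact List.mem_map_of_mem ha

theorem co_of {S : List (List (List ℕ))} (h : Sta t δ σ S) {K : List (List ℕ)} (hK : K ∈ S)
    {a : ℕ} (ha : a ∈ cs δ K) : Co t δ σ (a - 64) := by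
  obtain ⟨h1, h2, h3⟩ := mem_cs ha
  obtain ⟨h4, h5⟩ := leaf_of h (mem_en hK h1) h2
  obtain ⟨h6, h7⟩ := leaf_of h (mem_en hK h3) (by omega)
  rw [Nat.add_sub_cancel] at h7
  exact ⟨h4, h5, h7⟩

theorem tb_true {F : List ℕ} (h : tb F = true) : ∃ a ∈ F, 64 ≤ a ∧ (a - 64) / 4 % 3 ≠ 1 := by
  induction F with
  | nil => exact absurd h (by decide)
  | cons a F ih =>
    change (Bool.rec (tb F) (Bool.rec true (tb F) (Nat.beq (Nat.mod (Nat.div (Nat.sub a 64) 4) 3) 1))
      (Nat.ble 64 a) : Bool) = true at h
    have key : tb F = true → ∃ b ∈ a :: F, 64 ≤ b ∧ (b - 64) / 4 % 3 ≠ 1 := by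
      intro h
      obtain ⟨b, h1, h2⟩ := ih h
      exact ⟨b, List.mem_cons_of_mem _ h1, h2⟩
    cases hb : Nat.ble 64 a with
    | false => rw [hb] at h; exact key h
    | true =>
      rw [hb] at h
      cases hc : Nat.beq (Nat.mod (Nat.div (Nat.sub a 64) 4) 3) 1 with
      | false => exact ⟨a, by simp, Nat.le_of_ble_eq_true hb, Nat.ne_of_beq_eq_false hc⟩
      | true => rw [hc] at h; exact key h

theorem tbC_true {K : List (List ℕ)} (h : tbC K = true) :
    ∃ a ∈ K.flatten, 64 ≤ a ∧ (a - 64) / 4 % 3 ≠ 1 := by
  induction K with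
  | nil => exact absurd h (by decide)
  | cons F K ih =>
    change (Bool.rec (tbC K) true (tb F) : Bool) = true at h
    rw [List.flatten_cons]
    cases hb : tb F with
    | false =>
      rw [hb] at h
      obtain ⟨a, h1, h2⟩ := ih h
      exact ⟨a, List.mem_append_right _ h1, h2⟩
    | true =>
      obtain ⟨a, h1, h2⟩ := tb_true hb
      exact ⟨a, List.mem_append_left _ h1, h2⟩

/-- the hypotheses on the leaf from which the search starts -/
structure Bas (md : Bool) (t δ : ℕ) (σ : ℕ → ℕ) (x : ℕ) : Prop where
  two : ¬Two t δ σ x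
  mid : md = true → ∀ a < 12 * t, σ a = a → Sm t σ x a → a / 4 % 3 = 1

theorem jB_S (hE : Env t δ σ) {S : List (List (List ℕ))} (h : Sta t δ σ S) {md : Bool} {x : ℕ}
    (hx : Bas md t δ σ x) (hj : jB md δ (x + 64) S = true) : False := by
  have key : ∀ S' : List (List (List ℕ)), (∀ K ∈ S', K ∈ S) → jB md δ (x + 64) S' = true → False := by
    intro S'
    induction S' with
    | nil => intro _ h; exact absurd h (by simp [jB])
    | cons K S' ih =>
      intro hsub hj
      have hK : K ∈ S := hsub K (by simp)
      change (Bool.rec (jB md δ (x + 64) S') (Bool.rec (Bool.rec false (tbC K) md) true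
        (Nat.ble 2 (jC δ K 0))) (contC (x + 64) K) : Bool) = true at hj
      cases hb : contC (x + 64) K with
      | false => rw [hb] at hj; exact ih (fun K' hK' => hsub K' (by simp [hK'])) hj
      | true =>
        rw [hb] at hj
        have hxK := contC_true hb
        cases hc : Nat.ble 2 (jC δ K 0) with
        | true =>
          have h2 := Nat.le_of_ble_eq_true hc
          rw [jC_eq, zero_add] at h2
          have hnd : (cs δ K).Nodup := by
            refine (cs_sublist K).nodup ?_
            have := h.nd
            unfold en at this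
            rw [List.nodup_flatten] at this
            rw [List.nodup_flatten]
            obtain ⟨S1, S2, rfl⟩ := List.append_of_mem hK
            have h4 := h.nd
            unfold en at h4
            rw [List.flatten_append, List.flatten_cons, List.flatten_append, List.flatten_append] at h4
            rw [← List.nodup_flatten]
            exact (List.nodup_append.1 (List.nodup_append.1 h4).2.1).1
          have hmem : ∀ a ∈ cs δ K, a ∈ cs δ K := fun a ha => ha
          generalize hL : cs δ K = L at *
          rcases L with _ | ⟨a, _ | ⟨b, L⟩⟩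
          · simp at h2
          · simp at h2
          · have ha : a ∈ cs δ K := by rw [hL]; simp
            have hb' : b ∈ cs δ K := by rw [hL]; simp
            have hab : a ≠ b := by
              rintro rfl
              rw [List.nodup_cons] at hnd
              exact hnd.1 (by simp)
            have ma := mem_cs ha
            have mb := mem_cs hb'
            refine hx.two ⟨a - 64, b - 64, by omega, co_of h hK ha, co_of h hK hb', ?_, ?_⟩
            · have := sm_comp hE h hK hxK ma.1 (by omega) ma.2.1
              rwa [Nat.add_sub_cancel] at this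
            · have := sm_comp hE h hK hxK mb.1 (by omega) mb.2.1
              rwa [Nat.add_sub_cancel] at this
        | false =>
          rw [hc] at hj
          cases md with
          | false => exact absurd hj (by simp)
          | true =>
            obtain ⟨a, h1, h2, h3⟩ := tbC_true hj
            obtain ⟨h4, h5⟩ := leaf_of h (mem_en hK h1) h2
            have := sm_comp hE h hK hxK h1 (by omega) h2
            rw [Nat.add_sub_cancel] at this
            exact h3 (hx.mid rfl _ h4 h5 this)
  exact key S (fun K hK => hK) hj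

theorem al_true {F : List ℕ} (h : al F = true) : ∀ a ∈ F, 64 ≤ a := by
  induction F with
  | nil => simp
  | cons a F ih =>
    change (Bool.rec false (al F) (Nat.ble 64 a) : Bool) = true at h
    cases hb : Nat.ble 64 a with
    | false => rw [hb] at h; exact absurd h (by simp)
    | true =>
      rw [hb] at h
      intro b hb'
      rcases List.mem_cons.1 hb' with rfl | hb'
      · exact Nat.le_of_ble_eq_true hb
      · exact ih h b hb'

theorem alC_true {K : List (List ℕ)} (h : alC K = true) : ∀ a ∈ K.flatten, 64 ≤ a := by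
  induction K with
  | nil => simp
  | cons F K ih =>
    change (Bool.rec false (alC K) (al F) : Bool) = true at h
    cases hb : al F with
    | false => rw [hb] at h; exact absurd h (by simp)
    | true =>
      rw [hb] at h
      intro a ha
      rw [List.flatten_cons] at ha
      rcases List.mem_append.1 ha with ha | ha
      · exact al_true hb a ha
      · exact ih h a ha

theorem total_true {S : List (List (List ℕ))} {P b : ℕ} (h : total δ S P b = true) :
    (∀ a ∈ en S, 64 ≤ a) ∧
      2 * (P + (S.filter fun K => anyl K).length) ≤ b + (S.flatMap (cs δ)).length := by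
  induction S generalizing P b with
  | nil =>
    have h' : 2 * P ≤ b := Nat.le_of_ble_eq_true h
    refine ⟨by simp, by simpa using h'⟩
  | cons K S ih =>
    change (Bool.rec false (total δ S (nlC K P) (jC δ K b)) (alC K) : Bool) = true at h
    cases hb : alC K with
    | false => rw [hb] at h; exact absurd h (by simp)
    | true =>
      rw [hb] at h
      obtain ⟨h1, h2⟩ := ih h
      constructor
      · intro a ha
        unfold en at ha
        rw [flat2] at ha
        rcases List.mem_append.1 ha with ha | ha
        · exact alC_true hb a ha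
        · exact h1 a ha
      · rw [jC_eq] at h2
        rw [List.flatMap_cons, List.length_append]
        change 2 * ((Bool.rec P (Nat.succ P) (anyl K) : ℕ) + _) ≤ _ at h2
        cases hc : anyl K with
        | false =>
          rw [hc] at h2
          rw [List.filter_cons_of_neg (by simp [hc])]
          change 2 * (P + _) ≤ _ at h2
          omega
        | true =>
          rw [hc] at h2
          rw [List.filter_cons_of_pos (by simp [hc]), List.length_cons]
          change 2 * (Nat.succ P + _) ≤ _ at h2
          omega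

theorem anyl_of {K : List (List ℕ)} {a : ℕ} (h : a ∈ K.flatten) (h' : 64 ≤ a) : anyl K = true := by
  by_contra hc
  have := anyl_false (Bool.eq_false_of_not_eq_true hc)
  obtain ⟨F, hF, haF⟩ := List.mem_flatten.1 h
  exact hl_false (this F hF) a haF h'

theorem total_S (hE : Env t δ σ) {S : List (List (List ℕ))} (h : Sta t δ σ S)
    (ht : total δ S 0 0 = true) : Goal t δ σ := by
  obtain ⟨h1, h2⟩ := total_true ht
  rw [zero_add, zero_add] at h2
  set L := S.filter fun K => anyl K with hL
  have hleaf : ∀ l < 12 * t, σ l = l → l + 64 ∈ en S := by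
    intro l hl hσ
    by_contra hcon
    have : l ∉ Os (cln S) := by
      intro hO
      change l ∈ (cln S).flatten.flatten at hO
      rw [cln_flat] at hO
      obtain ⟨a, ha, he⟩ := List.mem_map.1 hO
      have h3 := h1 a ha
      have : a = l + 64 := by
        rcases h.ent a ha with h4 | ⟨h4, h5, h6⟩ <;> omega
      exact hcon (this ▸ ha)
    exact (h.snd.cl l hl this).2 hσ
  have hex : ∀ l < 12 * t, σ l = l → ∃ K ∈ L, l + 64 ∈ K.flatten := by
    intro l hl hσ
    obtain ⟨F, hF, hlF⟩ := List.mem_flatten.1 (hleaf l hl hσ)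
    obtain ⟨K, hK, hFK⟩ := List.mem_flatten.1 hF
    have h3 : l + 64 ∈ K.flatten := List.mem_flatten.2 ⟨F, hFK, hlF⟩
    exact ⟨K, by rw [hL, List.mem_filter]; exact ⟨hK, anyl_of h3 (by omega)⟩, h3⟩
  let c : ℕ → ℕ := fun l => L.findIdx fun K => decide (l + 64 ∈ K.flatten)
  have hc1 : ∀ l < 12 * t, σ l = l → c l < L.length := by
    intro l hl hσ
    obtain ⟨K, hK, h3⟩ := hex l hl hσ
    exact List.findIdx_lt_length_of_exists ⟨K, hK, by simpa using h3⟩
  have hc2 : ∀ l < 12 * t, ∀ hσ : c l < L.length, l + 64 ∈ (L[c l]).flatten := by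
    intro l hl hσ
    have := List.findIdx_getElem (w := hσ)
    exact of_decide_eq_true this
  refine ⟨L.length, c, hc1, fun x hx y hy hσx hσy hxy => ?_, h2.trans ?_⟩
  · have k1 := hc2 x hx (hc1 x hx hσx)
    have k2 := hc2 y hy (hc1 y hy hσy)
    have k3 : L[c x]'(hc1 x hx hσx) = L[c y]'(hc1 y hy hσy) := by
      congr 1
    rw [← k3] at k2
    have hK : L[c x]'(hc1 x hx hσx) ∈ S := List.mem_of_mem_filter (List.getElem_mem _)
    have := sm_comp hE h hK k1 k2 (by omega) (by omega)
    simpa using this
  · have hsub : (S.flatMap (cs δ)).Sublist (en S) := by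
      unfold en
      clear h h1 h2 hL hleaf hex hc1 hc2 ht
      induction S with
      | nil => simp
      | cons K S ih =>
        rw [flat2, List.flatMap_cons]
        exact List.Sublist.append (cs_sublist K) ih
    have hnd : (S.flatMap (cs δ)).Nodup := hsub.nodup h.nd
    have hge : ∀ a ∈ S.flatMap (cs δ), 64 ≤ a ∧ Co t δ σ (a - 64) := by
      intro a ha
      obtain ⟨K, hK, haK⟩ := List.mem_flatMap.1 ha
      exact ⟨(mem_cs haK).2.1, co_of h hK haK⟩
    have hnd2 : ((S.flatMap (cs δ)).map (· - 64)).Nodup := by
      refine List.Nodup.map_on ?_ hnd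
      intro a ha b hb hab
      have := (hge a ha).1
      have := (hge b hb).1
      omega
    have := List.toFinset_card_of_nodup hnd2
    rw [List.length_map] at this
    rw [← this]
    refine Finset.card_le_card fun l hl => ?_
    rw [List.mem_toFinset] at hl
    obtain ⟨a, ha, rfl⟩ := List.mem_map.1 hl
    obtain ⟨-, h3, h4, h5⟩ := hge a ha
    rw [Finset.mem_filter, Finset.mem_range]
    exact ⟨h3, h4, h5⟩

end Pool.Agent.L0h30.TT
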